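import Mathlib
import Pool.Agent.Lib.MP_1e3e9c_agW.DefsE

/-!
# MP_1e3e9c_ag, project R (rational curves on divisors): definitions

`ev`, `wd`, `act`, `Mem`, `BPF`, `Dat`, `FF`, ... are those of project U (`MP_1e3e9c_agU/Defs.lean`), `Eqs`, `NR`,
`NRk` those of project W (`MP_1e3e9c_agW/Defs.lean`, `DefsE.lean`).
-/

set_option autoImplicit false

namespace Pool.Agent.Lib.MP_1e3e9c_agR

open Pool.Agent.Lib.MP_1e3e9c_agU Pool.Agent.Lib.MP_1e3e9c_agW

variable {k : Type} [Field k]

/-- The dimension of the closure of `B`. -/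
noncomputable def dm {n : ℕ} (B : Set (Fin (n + 1) → k)) : WithBot ℕ∞ :=
  ringKrullDim (MvPolynomial (Fin (n + 1)) k ⧸ MvPolynomial.vanishingIdeal k B)

/-- The values of the tuple of binary forms `c` are in the zero set of `S`. -/
def InV {n D : ℕ} (S : Set (MvPolynomial (Fin (n + 1)) k)) (c : Fin (n + 1) → Fin (D + 1) → k) :
    Prop :=
  ∀ x : Fin 2 → k, ∀ P ∈ S, MvPolynomial.eval (fun i => ev (c i) x) P = 0

/-- The binary forms `c i` have no common zero. -/
def Bp {n D : ℕ} (c : Fin (n + 1) → Fin (D + 1) → k) : Prop :=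
  ∀ x : Fin 2 → k, x ≠ 0 → ∃ i, ev (c i) x ≠ 0

/-- The curve `c` passes through `y`. -/
def Th {n D : ℕ} (c : Fin (n + 1) → Fin (D + 1) → k) (y : Fin (n + 1) → k) : Prop :=
  ∃ x : Fin 2 → k, x ≠ 0 ∧ ∃ b : k, ∀ i, ev (c i) x = b * y i

/-- The point `y` is on the closure of the curve `c`. -/
def Cl {n D : ℕ} (c : Fin (n + 1) → Fin (D + 1) → k) (y : Fin (n + 1) → k) : Prop :=
  ∀ (m : ℕ) (Q : MvPolynomial (Fin (n + 1)) k), Q.IsHomogeneous m →
    (∀ x : Fin 2 → k, MvPolynomial.eval (fun i => ev (c i) x) Q = 0) → MvPolynomial.eval y Q = 0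

/-- The binary form `f` is not zero and has at most two zeros, one of which is `(1, 0)`. -/
def TwoZ {M : ℕ} (f : Fin (M + 1) → k) : Prop :=
  f ≠ 0 ∧ ev f ![1, 0] = 0 ∧ ∃ (u a b : k) (i j : ℕ), ∀ x : Fin 2 → k,
    ev f x = u * x 1 ^ i * (a * x 0 + b * x 1) ^ j

/-- The unknown coefficients of a polynomial curve of degree `D` in the weighted projective space. -/
abbrev Un {n : ℕ} (w : Fin (n + 1) → ℕ) (D : ℕ) : Type := Σ i : Fin (n + 1), Fin (w i * D)

/-- The polynomial curve `x_i(t) = v_i + ∑_l c_(i,l) t^(l+1)`, of degree at most `w_i D`. -/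
noncomputable def crv {n : ℕ} (w : Fin (n + 1) → ℕ) (D : ℕ) (v : Fin (n + 1) → k) (c : Un w D → k)
    (i : Fin (n + 1)) : Polynomial k :=
  Polynomial.C (v i) + ∑ l : Fin (w i * D), Polynomial.C (c ⟨i, l⟩) * Polynomial.X ^ ((l : ℕ) + 1)

/-- The value at `t` of a tuple of polynomials. -/
noncomputable def val {n : ℕ} (p : Fin (n + 1) → Polynomial k) (t : k) : Fin (n + 1) → k :=
  fun i => (p i).eval t

/-- `x` and `y` are coordinates of the same point of the weighted projective space (or both zero). -/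
def Same {n : ℕ} (w : Fin (n + 1) → ℕ) (x y : Fin (n + 1) → k) : Prop :=
  ∃ a : k, a ≠ 0 ∧ ∀ i, y i = a ^ w i * x i

/-- The local dimension at the origin of the zero set of `A`: the height of the maximal ideal of the
origin in the quotient ring. -/
noncomputable def dimAt {U : Type} (A : Ideal (MvPolynomial U k)) : ℕ∞ :=
  (Ideal.map (Ideal.Quotient.mk A)
    (RingHom.ker (MvPolynomial.constantCoeff : MvPolynomial U k →+* k))).height

/-- The curve is `x_i(t) = v_i (1 + b t)^(w_i D)`: it is constant. -/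
def Triv {n : ℕ} (w : Fin (n + 1) → ℕ) (D : ℕ) (v : Fin (n + 1) → k) (c : Un w D → k) : Prop :=
  ∃ b : k, ∀ i, crv w D v c i =
    Polynomial.C (v i) * (1 + Polynomial.C b * Polynomial.X) ^ (w i * D)

/-- The zero set of `A` is a family of rational curves of degree `D` through the point `v` in the zero set
of `S`, of local dimension at least `N` at the constant curve, the only constant members are `Triv`. -/
structure IsFam {n : ℕ} (w : Fin (n + 1) → ℕ) (S : Set (MvPolynomial (Fin (n + 1)) k)) (D : ℕ)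
    (v : Fin (n + 1) → k) (N : ℕ) (A : Ideal (MvPolynomial (Un w D) k)) : Prop where
  zero : ∀ q ∈ A, MvPolynomial.constantCoeff q = 0
  base : ∀ c : Un w D → k, (∀ q ∈ A, MvPolynomial.eval c q = 0) → ∀ t, ∀ P ∈ S,
    MvPolynomial.eval (val (crv w D v c) t) P = 0
  const : ∀ c : Un w D → k, (∀ q ∈ A, MvPolynomial.eval c q = 0) →
    (∀ t, ∃ a : k, ∀ i, (crv w D v c i).eval t = a ^ w i * v i) → Triv w D v c
  dim : (N : ℕ∞) ≤ dimAt A

/-- There is a nonconstant polynomial curve in the zero set of `S` in the weighted projective space. -/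
def HasRat {n : ℕ} (w : Fin (n + 1) → ℕ) (S : Set (MvPolynomial (Fin (n + 1)) k)) : Prop :=
  ∃ p : Fin (n + 1) → Polynomial k, (∀ t, ∀ P ∈ S, MvPolynomial.eval (val p t) P = 0) ∧
    ∃ s t, val p s ≠ 0 ∧ val p t ≠ 0 ∧ ¬ Same w (val p s) (val p t)

/-- The point `y` is on the closure of the curve `p`. -/
def OnC {n : ℕ} (w : Fin (n + 1) → ℕ) (p : Fin (n + 1) → Polynomial k) (y : Fin (n + 1) → k) :
    Prop :=
  ∀ (m : ℕ) (F : MvPolynomial (Fin (n + 1)) k), F.IsWeightedHomogeneous w m →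
    (∀ t, MvPolynomial.eval (val p t) F = 0) → MvPolynomial.eval y F = 0

/-- The dimension of the closure of the cone over `B` (one more than the dimension in the weighted
projective space). -/
noncomputable def wdm {n : ℕ} (w : Fin (n + 1) → ℕ) (B : Set (Fin (n + 1) → k)) : WithBot ℕ∞ :=
  dm {x | ∃ a : k, a ≠ 0 ∧ ∃ v ∈ B, x = fun i => a ^ w i * v i}

/-- The exponents of the monomials of weight `M`. -/
def Mon {n : ℕ} (w : Fin (n + 1) → ℕ) (M : ℕ) : Type :=
  {α : Fin (n + 1) → Fin (M + 1) // ∑ i, w i * (α i : ℕ) = M}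

noncomputable instance {n : ℕ} (w : Fin (n + 1) → ℕ) (M : ℕ) : Fintype (Mon w M) :=
  inferInstanceAs (Fintype {α : Fin (n + 1) → Fin (M + 1) // ∑ i, w i * (α i : ℕ) = M})

/-- The number of the monomials of weight `M`. -/
noncomputable def mn {n : ℕ} (w : Fin (n + 1) → ℕ) (M : ℕ) : ℕ := Fintype.card (Mon w M)

/-- The coordinates `G^a`, and all the monomials of weight `M`. -/
noncomputable def hm {n : ℕ} (w : Fin (n + 1) → ℕ) (M a : ℕ) (G : MvPolynomial (Fin (n + 1)) k) :
    Fin (mn w M + 1) → MvPolynomial (Fin (n + 1)) k :=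
  Fin.cons (G ^ a) fun t =>
    ∏ i, MvPolynomial.X i ^ ((((Fintype.equivFin (Mon w M)).symm t).1 i : Fin (M + 1)) : ℕ)

/-- The homogeneous equations of the image of the zero set of `S` under the map `h`. -/
def SW {n N : ℕ} (S : Set (MvPolynomial (Fin (n + 1)) k))
    (h : Fin (N + 1) → MvPolynomial (Fin (n + 1)) k) : Set (MvPolynomial (Fin (N + 1)) k) :=
  {Q | (∃ m, Q.IsHomogeneous m) ∧ ∀ v : Fin (n + 1) → k, (∀ P ∈ S, MvPolynomial.eval v P = 0) →
    MvPolynomial.eval (fun t => MvPolynomial.eval v (h t)) Q = 0}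

/-- The vector `x_0^(w_i D) p_i(x_1 / x_0)`. -/
noncomputable def hv {n : ℕ} (w : Fin (n + 1) → ℕ) (D : ℕ) (p : Fin (n + 1) → Polynomial k)
    (x : Fin 2 → k) : Fin (n + 1) → k :=
  fun i => ∑ j ∈ Finset.range (w i * D + 1), (p i).coeff j * x 0 ^ (w i * D - j) * x 1 ^ j

end Pool.Agent.Lib.MP_1e3e9c_agR
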