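import Mathlib
import Pool.Agent.Lib.MP_1e3e9c_agR.RDefs

/-!
# MP_1e3e9c_ag, project R, leaf B5: homogenisation

`natDegree_le`: `F` is a sum of monomials `c x^α` with `∑ w_i α_i = m`; `natDegree (∏ p_i^(α_i)) ≤ ∑ α_i w_i D = m D`.
`hv_eval`: for `x 0 ≠ 0` put `s = x 1 / x 0`: `hv w D p x i = x_0^(w_i D) p_i(s)` (`Polynomial.eval_eq_sum_range'`), so
`F(hv x) = x_0^(m D) F(p(s))` (weighted homogeneous, `λ = x_0^D`), and `ev (coefficients) x = x_0^(m D) (F(p))(s)`
(`natDegree_le`). Both sides are polynomials in `x` (binary forms of degree `m D`), `k` is infinite, so they agree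
everywhere; e.g. both sides are the values of polynomials in `MvPolynomial (Fin 2) k`, and `X 0` times the difference
vanishes everywhere. `hv_coe`: the case `x = (1, t)`.
-/

set_option autoImplicit false

namespace Pool.Agent.Lib.MP_1e3e9c_agR

open Pool.Agent.Lib.MP_1e3e9c_agU Pool.Agent.Lib.MP_1e3e9c_agW

variable {k : Type} [Field k] {n D : ℕ} {w : Fin (n + 1) → ℕ}

theorem natDegree_crv (v : Fin (n + 1) → k) (c : Un w D → k) (i : Fin (n + 1)) :
    (crv w D v c i).natDegree ≤ w i * D := by
  unfold crv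
  refine (Polynomial.natDegree_add_le _ _).trans (max_le ?_ ?_)
  · rw [Polynomial.natDegree_C]
    exact Nat.zero_le _
  · refine Polynomial.natDegree_sum_le_of_forall_le _ _ fun l _ => ?_
    refine (Polynomial.natDegree_C_mul_X_pow_le _ _).trans ?_
    have := l.2
    omega

theorem val_crv_zero (v : Fin (n + 1) → k) (c : Un w D → k) : val (crv w D v c) 0 = v := by
  funext i
  unfold val crv
  simp [Polynomial.eval_finsetSum]

theorem eval_val (p : Fin (n + 1) → Polynomial k) (t : k) (F : MvPolynomial (Fin (n + 1)) k) :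
    MvPolynomial.eval (val p t) F = (MvPolynomial.aeval p F).eval t := by
  induction F using MvPolynomial.induction_on with
  | C a => simp
  | add f g hf hg => rw [map_add, map_add, Polynomial.eval_add, hf, hg]
  | mul_X f i hf =>
    rw [map_mul, map_mul, Polynomial.eval_mul, hf, MvPolynomial.eval_X, MvPolynomial.aeval_X]
    rfl

private theorem B5_weight {m : ℕ} {α : Fin (n + 1) →₀ ℕ} (h : Finsupp.weight w α = m) :
    ∑ i, α i * w i = m := by
  rw [← h, Finsupp.weight_apply, Finsupp.sum_fintype _ _ (fun i => by rw [zero_smul])]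
  rfl

theorem natDegree_le {p : Fin (n + 1) → Polynomial k} (hp : ∀ i, (p i).natDegree ≤ w i * D) {m : ℕ}
    {F : MvPolynomial (Fin (n + 1)) k} (hF : F.IsWeightedHomogeneous w m) :
    (MvPolynomial.aeval p F).natDegree ≤ m * D := by
  rw [MvPolynomial.aeval_def, MvPolynomial.eval₂_eq']
  refine Polynomial.natDegree_sum_le_of_forall_le _ _ fun α hα => ?_
  rw [MvPolynomial.mem_support_iff] at hα
  have h1 := B5_weight (hF hα)
  rw [Polynomial.algebraMap_eq]
  refine (Polynomial.natDegree_C_mul_le _ _).trans ?_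
  refine (Polynomial.natDegree_prod_le _ _).trans ?_
  rw [← h1, Finset.sum_mul]
  refine Finset.sum_le_sum fun i _ => ?_
  refine Polynomial.natDegree_pow_le.trans ?_
  rw [mul_assoc]
  exact Nat.mul_le_mul_left _ (hp i)

theorem hv_coe {p : Fin (n + 1) → Polynomial k} (hp : ∀ i, (p i).natDegree ≤ w i * D) (t : k) :
    hv w D p ![1, t] = val p t := by
  funext i
  unfold hv val
  rw [Polynomial.eval_eq_sum_range' (Nat.lt_succ_of_le (hp i))]
  refine Finset.sum_congr rfl fun j _ => ?_
  simp

private theorem B5_pow {x : Fin 2 → k} (hx : x 0 ≠ 0) {a j : ℕ} (hj : j ≤ a) :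
    x 0 ^ (a - j) * x 1 ^ j = x 0 ^ a * (x 1 / x 0) ^ j := by
  obtain ⟨b, rfl⟩ := Nat.exists_eq_add_of_le hj
  rw [Nat.add_sub_cancel_left, div_pow, pow_add]
  field_simp

private theorem B5_smul {m : ℕ} {F : MvPolynomial (Fin (n + 1)) k} (hF : F.IsWeightedHomogeneous w m)
    (b : k) (v : Fin (n + 1) → k) :
    MvPolynomial.eval (fun i => b ^ w i * v i) F = b ^ m * MvPolynomial.eval v F := by
  rw [MvPolynomial.eval_eq', MvPolynomial.eval_eq', Finset.mul_sum]
  refine Finset.sum_congr rfl fun α hα => ?_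
  rw [MvPolynomial.mem_support_iff] at hα
  have h1 := B5_weight (hF hα)
  have h2 : ∏ i, (b ^ w i * v i) ^ α i = b ^ m * ∏ i, v i ^ α i := by
    rw [← h1, ← Finset.prod_pow_eq_pow_sum, ← Finset.prod_mul_distrib]
    refine Finset.prod_congr rfl fun i _ => ?_
    rw [mul_pow, ← pow_mul, mul_comm (w i)]
  rw [h2]
  ring

theorem hv_eval [Infinite k] {p : Fin (n + 1) → Polynomial k}
    (hp : ∀ i, (p i).natDegree ≤ w i * D) {m : ℕ}
    {F : MvPolynomial (Fin (n + 1)) k} (hF : F.IsWeightedHomogeneous w m) (x : Fin 2 → k) :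
    MvPolynomial.eval (hv w D p x) F =
      ev (fun j : Fin (m * D + 1) => (MvPolynomial.aeval p F).coeff (j : ℕ)) x := by
  classical
  have hne : ∀ x : Fin 2 → k, x 0 ≠ 0 → MvPolynomial.eval (hv w D p x) F =
      ev (fun j : Fin (m * D + 1) => (MvPolynomial.aeval p F).coeff (j : ℕ)) x := by
    intro x hx
    have h1 : hv w D p x = fun i => (x 0 ^ D) ^ w i * val p (x 1 / x 0) i := by
      funext i
      unfold hv val
      rw [Polynomial.eval_eq_sum_range' (Nat.lt_succ_of_le (hp i)), Finset.mul_sum]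
      refine Finset.sum_congr rfl fun j hj => ?_
      have hj' : j ≤ w i * D := Nat.lt_succ_iff.1 (Finset.mem_range.1 hj)
      rw [mul_assoc, B5_pow hx hj', ← pow_mul, mul_comm D (w i)]
      ring
    rw [h1, B5_smul hF, eval_val]
    unfold ev
    rw [Polynomial.eval_eq_sum_range' (Nat.lt_succ_of_le (natDegree_le hp hF)), Finset.mul_sum,
      Finset.sum_range]
    refine Finset.sum_congr rfl fun j _ => ?_
    have hj' : (j : ℕ) ≤ m * D := Nat.lt_succ_iff.1 j.2
    rw [mul_assoc _ (x 0 ^ (m * D - (j : ℕ))), B5_pow hx hj', ← pow_mul, mul_comm D m]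
    ring
  by_cases hx : x 0 = 0
  · let q : Fin (n + 1) → Polynomial k := fun i => ∑ j ∈ Finset.range (w i * D + 1),
      Polynomial.C ((p i).coeff j) * Polynomial.X ^ (w i * D - j) * Polynomial.C (x 1 ^ j)
    let r : Polynomial k := ∑ j : Fin (m * D + 1), Polynomial.C ((MvPolynomial.aeval p F).coeff (j : ℕ)) *
      Polynomial.X ^ (m * D - (j : ℕ)) * Polynomial.C (x 1 ^ (j : ℕ))
    have hq : ∀ u : k, val q u = hv w D p ![u, x 1] := by
      intro u
      funext i
      unfold val hv
      rw [Polynomial.eval_finsetSum]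
      refine Finset.sum_congr rfl fun j _ => ?_
      simp
    have hr : ∀ u : k, r.eval u =
        ev (fun j : Fin (m * D + 1) => (MvPolynomial.aeval p F).coeff (j : ℕ)) ![u, x 1] := by
      intro u
      unfold ev
      rw [Polynomial.eval_finsetSum]
      refine Finset.sum_congr rfl fun j _ => ?_
      simp
    have he : MvPolynomial.aeval q F = r := by
      refine Polynomial.eq_of_infinite_eval_eq _ _ (Set.Infinite.mono ?_ (Set.finite_singleton (0 : k)).infinite_compl)
      intro u hu
      have hu0 : u ≠ 0 := hu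
      change (MvPolynomial.aeval q F).eval u = r.eval u
      rw [← eval_val, hq, hr]
      exact hne ![u, x 1] hu0
    have hx' : x = ![0, x 1] := by
      funext i
      fin_cases i
      · exact hx
      · rfl
    rw [hx', ← hr, ← he, ← eval_val, hq]
  · exact hne x hx

/-- all the `hm t` are weighted homogeneous -/
theorem hm_hom {M a g : ℕ} {G : MvPolynomial (Fin (n + 1)) k} (hG : G.IsWeightedHomogeneous w g)
    (ha : a * g = M) (t : Fin (mn w M + 1)) : (hm w M a G t).IsWeightedHomogeneous w M := by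
  refine Fin.cases ?_ (fun t => ?_) t
  · have h1 := hG.pow a
    rw [smul_eq_mul, ha] at h1
    exact h1
  · have h1 := ((Fintype.equivFin (Mon w M)).symm t).2
    have h2 := MvPolynomial.IsWeightedHomogeneous.prod (w := w) Finset.univ
      (fun i => (MvPolynomial.X i : MvPolynomial (Fin (n + 1)) k) ^
        ((((Fintype.equivFin (Mon w M)).symm t).1 i : Fin (M + 1)) : ℕ))
      (fun i => ((((Fintype.equivFin (Mon w M)).symm t).1 i : Fin (M + 1)) : ℕ) • w i)
      (fun i _ => (MvPolynomial.isWeightedHomogeneous_X k w i).pow _)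
    have h3 : ∑ i, ((((Fintype.equivFin (Mon w M)).symm t).1 i : Fin (M + 1)) : ℕ) • w i = M := by
      refine Eq.trans (Finset.sum_congr rfl fun i _ => ?_) h1
      rw [smul_eq_mul, mul_comm]
    rw [h3] at h2
    exact h2

/-- scaling -/
theorem eval_smul_w {m : ℕ} {F : MvPolynomial (Fin (n + 1)) k} (hF : F.IsWeightedHomogeneous w m)
    (b : k) (v : Fin (n + 1) → k) :
    MvPolynomial.eval (fun i => b ^ w i * v i) F = b ^ m * MvPolynomial.eval v F := by
  exact B5_smul hF b v

end Pool.Agent.Lib.MP_1e3e9c_agR
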