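import Mathlib
import Pool.Agent.Lib.MP_1e3e9c_agR.RDefs

/-!
# MP_1e3e9c_ag, project R, leaf R6: dimensions of subsets

`dm_mono`: `vanishingIdeal` is antitone, `ringKrullDim_le_of_surjective` (`Ideal.Quotient.factor`). `dm_iUnion`: `J` = the
vanishing ideal of the union contains the intersection (product) of the `J_i` (`mem_vanishingIdeal_iff`); a prime of
`k[x]/J` is a prime `p ⊇ ∏ J_i` of `k[x]`, so `p ⊇ J_i` for some `i` (`Ideal.IsPrime.prod_le`,
`Ideal.IsPrime.inf_le'`); a chain of primes `⊇ J` is a chain of primes `⊇ J_i` for the `i` of its smallest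
member, so its length is at most `m` (`ringKrullDim` is the supremum of the lengths of the chains, `Order.krullDim`,
`LTSeries`; or: `ringKrullDim` of a quotient = supremum over minimal primes). `dm_empty`: the vanishing ideal is `⊤`.
-/

set_option autoImplicit false

namespace Pool.Agent.Lib.MP_1e3e9c_agR

open Pool.Agent.Lib.MP_1e3e9c_agU Pool.Agent.Lib.MP_1e3e9c_agW

variable {k : Type} [Field k] {n : ℕ}

theorem dm_mono {B C : Set (Fin (n + 1) → k)} (h : B ⊆ C) : dm B ≤ dm C := by
  have h1 : MvPolynomial.vanishingIdeal k C ≤ MvPolynomial.vanishingIdeal k B :=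
    MvPolynomial.vanishingIdeal_anti_mono h
  exact ringKrullDim_le_of_surjective (Ideal.Quotient.factor h1) (Ideal.Quotient.factor_surjective h1)

theorem dm_iUnion {ι : Type} [Finite ι] (B : ι → Set (Fin (n + 1) → k)) (m : ℕ)
    (h : ∀ i, dm (B i) ≤ m) : dm (⋃ i, B i) ≤ m := by
  obtain ⟨hF⟩ := nonempty_fintype ι
  unfold dm at h ⊢
  rw [ringKrullDim_quotient]
  refine iSup_le fun p => ?_
  have hinf : Finset.univ.inf (fun i => MvPolynomial.vanishingIdeal k (B i)) ≤
      p.head.1.asIdeal := by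
    refine le_trans ?_ ((PrimeSpectrum.mem_zeroLocus _ _).1 p.head.2)
    intro q hq
    rw [MvPolynomial.mem_vanishingIdeal_iff]
    intro x hx
    obtain ⟨i, hi⟩ := Set.mem_iUnion.1 hx
    exact MvPolynomial.mem_vanishingIdeal_iff.1
      ((Finset.inf_le (f := fun i => MvPolynomial.vanishingIdeal k (B i)) (Finset.mem_univ i)) hq) x hi
  obtain ⟨i, -, hi⟩ := (Ideal.IsPrime.inf_le' p.head.1.isPrime).1 hinf
  have hmem : ∀ j, (p j).1 ∈ PrimeSpectrum.zeroLocus
      (MvPolynomial.vanishingIdeal k (B i) : Set (MvPolynomial (Fin (n + 1)) k)) := by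
    intro j
    rw [PrimeSpectrum.mem_zeroLocus]
    have h1 : p.head ≤ p j := LTSeries.head_le p j
    exact fun q hq => h1 (hi hq)
  have h2 := h i
  rw [ringKrullDim_quotient] at h2
  exact le_trans (Order.LTSeries.length_le_krullDim (LTSeries.mk p.length
    (fun j => (⟨(p j).1, hmem j⟩ : PrimeSpectrum.zeroLocus
      (MvPolynomial.vanishingIdeal k (B i) : Set (MvPolynomial (Fin (n + 1)) k))))
    (fun a b hab => p.strictMono hab))) h2

end Pool.Agent.Lib.MP_1e3e9c_agR
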