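import Mathlib
import Pool.Agent.Lib.MP_1e3e9c_agR.RDefs

/-!
# MP_1e3e9c_ag, project R, block X (no exceptional points): definitions
-/

set_option autoImplicit false

namespace Pool.Agent.Lib.MP_1e3e9c_agR

open Pool.Agent.Lib.MP_1e3e9c_agU Pool.Agent.Lib.MP_1e3e9c_agW

/-- The minor of the tuples `s 0, .., s N` with the rows `I`. -/
def mi {R : Type} [CommRing R] {n N : ℕ} (s : Fin (N + 1) → Fin (n + 1) → R)
    (I : Fin (N + 1) → Fin (n + 1)) : R :=
  (Matrix.of fun a b => s b (I a)).det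

/-- The gradient of `P` at `v`. -/
noncomputable def gr {k : Type} [Field k] {n : ℕ} (P : MvPolynomial (Fin (n + 1)) k)
    (v : Fin (n + 1) → k) : Fin (n + 1) → k :=
  fun i => MvPolynomial.eval v (MvPolynomial.pderiv i P)

/-- The tuple `s` is tangent to the zero set of `S` along the curve `p`. -/
def Tg {k L : Type} [Field k] [Field L] [Algebra k L] {n : ℕ}
    (S : Set (MvPolynomial (Fin (n + 1)) k)) (p s : Fin (n + 1) → Polynomial L) : Prop :=
  ∀ P ∈ S, ∑ i, MvPolynomial.aeval p (MvPolynomial.pderiv i P) * s i = 0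

/-- `v` is a smooth point of the zero set of `S` and `G`, of codimension `c + 1`: there are `P_1, .., P_c ∈ S` such that
the gradients of `G`, `P_1, .., P_c` at `v` are linearly independent. -/
def Smo {k : Type} [Field k] {n : ℕ} (S : Set (MvPolynomial (Fin (n + 1)) k))
    (G : MvPolynomial (Fin (n + 1)) k) (c : ℕ) (v : Fin (n + 1) → k) : Prop :=
  ∃ P : Fin c → MvPolynomial (Fin (n + 1)) k, (∀ l, P l ∈ S) ∧
    LinearIndependent k (Fin.cons (gr G v) fun l => gr (P l) v : Fin (c + 1) → Fin (n + 1) → k)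

/-- `f^* T` has degree less than `M` for all curves `f` of degree `D` in the zero set of `S` with contact order
`≥ m` with `G = 0` at `0`: if `s 0, .., s N` are tangent, `deg (s j i) < w_i D`, and `t^q` divides all
`(N+1)`-minors, which are not all zero, then `q + N + 1 < M`. -/
def KB {k : Type} [Field k] {n : ℕ} (w : Fin (n + 1) → ℕ)
    (S : Set (MvPolynomial (Fin (n + 1)) k)) (G : MvPolynomial (Fin (n + 1)) k) (D N m M : ℕ) :
    Prop :=
  ∀ p : Fin (n + 1) → Polynomial k, (∀ i, (p i).natDegree ≤ w i * D) →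
    (∀ t, ∀ P ∈ S, MvPolynomial.eval (val p t) P = 0) →
    Polynomial.X ^ m ∣ MvPolynomial.aeval p G → MvPolynomial.aeval p G ≠ 0 →
    ∀ s : Fin (N + 1) → Fin (n + 1) → Polynomial k, (∀ j i, (s j i).natDegree < w i * D) →
      (∀ j, Tg S p (s j)) → (∃ I, mi s I ≠ 0) →
      ∀ q, (∀ I, Polynomial.X ^ q ∣ mi s I) → q + N + 1 < M

/-- `p` is a curve of degree `D` in the zero set of `S`, with `p(0) = v`, `p(∞) = y`, of contact order `≥ m` with
`G = 0` at `0`. -/
structure NC {k : Type} [Field k] {n : ℕ} (w : Fin (n + 1) → ℕ)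
    (S : Set (MvPolynomial (Fin (n + 1)) k)) (G : MvPolynomial (Fin (n + 1)) k) (m D : ℕ)
    (v y : Fin (n + 1) → k) (p : Fin (n + 1) → Polynomial k) : Prop where
  deg : ∀ i, (p i).natDegree ≤ w i * D
  zero : val p 0 = v
  lead : ∀ i, (p i).coeff (w i * D) = y i
  base : ∀ t, ∀ P ∈ S, MvPolynomial.eval (val p t) P = 0
  con : Polynomial.X ^ m ∣ MvPolynomial.aeval p G

end Pool.Agent.Lib.MP_1e3e9c_agR
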