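import Mathlib
import Pool.Agent.Lib.MP_1e3e9c_agR.XDefs
import Pool.Agent.Lib.MP_1e3e9c_agR.R6

/-!
# MP_1e3e9c_ag, project R, leaf X2: an irreducible family of curves

PROOF. `U = Σ i : Fin (n+1), Fin (w i * D + 1)`; a point `u : U → k` is the tuple `p_u i = ∑_l C (u ⟨i,l⟩) X^l`. `Z` = the set
of the `u` with `NC w S G m D (val p_u 0) y p_u`; `J` = the vanishing ideal of `Z`. Every zero `u` of `J` is in `Z`: `deg` is automatic; `lead`:
`X ⟨i, w_i D⟩ - C (y i) ∈ J`; `base`: for `P ∈ S` and `t` the polynomial `P(∑_l t^l X ⟨i,l⟩)` is in `J`; `con`: for `l < m` the coefficient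
of `T^l` in `G(∑_l C (X ⟨i,l⟩) T^l) ∈ k[U][T]` is in `J` (`Polynomial.X_pow_dvd_iff`). `J` has finitely many minimal primes `Q` and
every `u ∈ Z` is a zero of one of them (as in the proof of `comp_family`, R7.lean). For a minimal prime `Q` let
`B_Q = {v ∈ B | ∃ u, u` is a zero of `Q`, `v = val p_u 0}`. `B ⊆ ⋃ B_Q` (`hB`; the tuple `p` of `hB` is `p_u` for `u ⟨i,l⟩ = (p i).coeff l`), so
`N ≤ dm B` and `dm_iUnion` (for `m = N - 1`; `0 < N`) give a `Q` with `N ≤ dm B_Q` (not `dm B_Q ≤ N - 1`).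
-/

set_option autoImplicit false

namespace Pool.Agent.Lib.MP_1e3e9c_agR

open Pool.Agent.Lib.MP_1e3e9c_agU Pool.Agent.Lib.MP_1e3e9c_agW

/-- The unknown coefficients of a tuple of polynomials, `deg p_i ≤ w_i D`. -/
abbrev Ua {n : ℕ} (w : Fin (n + 1) → ℕ) (D : ℕ) : Type := Σ i : Fin (n + 1), Fin (w i * D + 1)

/-- The tuple of polynomials with the given coefficients. -/
noncomputable def pu {R : Type} [CommRing R] {n : ℕ} (w : Fin (n + 1) → ℕ) (D : ℕ) (u : Ua w D → R)
    (i : Fin (n + 1)) : Polynomial R :=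
  ∑ l : Fin (w i * D + 1), Polynomial.C (u ⟨i, l⟩) * Polynomial.X ^ (l : ℕ)

private lemma X2_le {N : ℕ} {x : WithBot ℕ∞} (h : ¬ (((N + 1 : ℕ) : WithBot ℕ∞) ≤ x)) : x ≤ ((N : ℕ) : WithBot ℕ∞) := by
  induction x using WithBot.recBotCoe with
  | bot => exact bot_le
  | coe a =>
    have h1 : a < ((N + 1 : ℕ) : ℕ∞) := by
      by_contra hc
      apply h
      have h2 : ((N + 1 : ℕ) : ℕ∞) ≤ a := not_lt.1 hc
      exact WithBot.coe_le_coe.2 h2
    have h3 : a ≤ ((N : ℕ) : ℕ∞) := by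
      have h4 : a < ((N : ℕ) : ℕ∞) + 1 := by
        have h5 : ((N + 1 : ℕ) : ℕ∞) = ((N : ℕ) : ℕ∞) + 1 := by norm_num
        rw [← h5]
        exact h1
      exact (ENat.lt_add_one_iff (ENat.natCast_ne_top N)).1 h4
    exact WithBot.coe_le_coe.2 h3

private lemma X2_deg {k : Type} [CommRing k] {n D : ℕ} (w : Fin (n + 1) → ℕ) (u : Ua w D → k) (i : Fin (n + 1)) :
    (pu w D u i).natDegree ≤ w i * D := by
  unfold pu
  refine Polynomial.natDegree_sum_le_of_forall_le _ _ fun l _ => ?_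
  refine (Polynomial.natDegree_C_mul_X_pow_le _ _).trans ?_
  exact Nat.lt_succ_iff.1 l.2

private lemma X2_coeff {k : Type} [CommRing k] {n D : ℕ} (w : Fin (n + 1) → ℕ) (u : Ua w D → k) (i : Fin (n + 1))
    (l : Fin (w i * D + 1)) : (pu w D u i).coeff (l : ℕ) = u ⟨i, l⟩ := by
  unfold pu
  rw [Polynomial.finsetSum_coeff, Finset.sum_eq_single l]
  · rw [Polynomial.coeff_C_mul, Polynomial.coeff_X_pow, if_pos rfl, mul_one]
  · intro l' _ hl'
    rw [Polynomial.coeff_C_mul, Polynomial.coeff_X_pow, if_neg (fun h => hl' (Fin.ext h.symm)), mul_zero]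
  · intro hl
    exact absurd (Finset.mem_univ l) hl

private lemma X2_pu {k : Type} [CommRing k] {n D : ℕ} (w : Fin (n + 1) → ℕ) (p : Fin (n + 1) → Polynomial k)
    (hp : ∀ i, (p i).natDegree ≤ w i * D) : pu w D (fun q : Ua w D => (p q.1).coeff (q.2 : ℕ)) = p := by
  funext i
  unfold pu
  have h1 := Fin.sum_univ_eq_sum_range (fun l => Polynomial.C ((p i).coeff l) * Polynomial.X ^ l) (w i * D + 1)
  refine Eq.trans h1 ?_
  exact ((p i).as_sum_range_C_mul_X_pow' (Nat.lt_succ_of_le (hp i))).symm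

private lemma X2_map {k : Type} [Field k] {n D : ℕ} (w : Fin (n + 1) → ℕ) (G : MvPolynomial (Fin (n + 1)) k)
    (u : Ua w D → k) (l : ℕ) :
    MvPolynomial.aeval u ((MvPolynomial.aeval (R := k)
      (pu w D (fun q => (MvPolynomial.X q : MvPolynomial (Ua w D) k))) G).coeff l) =
      (MvPolynomial.aeval (R := k) (pu w D u) G).coeff l := by
  have h1 := MvPolynomial.comp_aeval_apply (R := k)
    (f := pu w D (fun q => (MvPolynomial.X q : MvPolynomial (Ua w D) k)))
    (Polynomial.mapAlgHom (MvPolynomial.aeval (R := k) u)) G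
  have h2 : (fun i => Polynomial.mapAlgHom (MvPolynomial.aeval (R := k) u)
      (pu w D (fun q => (MvPolynomial.X q : MvPolynomial (Ua w D) k)) i)) = pu w D u := by
    funext i
    rw [Polynomial.coe_mapAlgHom]
    unfold pu
    rw [Polynomial.map_sum]
    refine Finset.sum_congr rfl fun j _ => ?_
    rw [Polynomial.map_mul, Polynomial.map_C, Polynomial.map_pow, Polynomial.map_X]
    congr 2
    exact MvPolynomial.aeval_X u _
  rw [h2] at h1
  rw [← h1, Polynomial.coe_mapAlgHom, Polynomial.coeff_map]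
  rfl

theorem exists_comp {k : Type} [Field k] [IsAlgClosed k] {n D m N : ℕ} (w : Fin (n + 1) → ℕ)
    (S : Set (MvPolynomial (Fin (n + 1)) k)) (G : MvPolynomial (Fin (n + 1)) k)
    (y : Fin (n + 1) → k) (B : Set (Fin (n + 1) → k)) (hN : 0 < N) (hdim : (N : WithBot ℕ∞) ≤ dm B)
    (hB : ∀ v ∈ B, ∃ p, NC w S G m D v y p) :
    ∃ Q : Ideal (MvPolynomial (Ua w D) k), Q.IsPrime ∧
      (∀ u : Ua w D → k, (∀ F ∈ Q, MvPolynomial.eval u F = 0) →
        NC w S G m D (val (pu w D u) 0) y (pu w D u)) ∧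
      (N : WithBot ℕ∞) ≤ dm {v ∈ B | ∃ u : Ua w D → k, (∀ F ∈ Q, MvPolynomial.eval u F = 0) ∧
        v = val (pu w D u) 0} := by
  classical
  set Z : Set (Ua w D → k) := {u | NC w S G m D (val (pu w D u) 0) y (pu w D u)} with hZ
  set J : Ideal (MvPolynomial (Ua w D) k) := MvPolynomial.vanishingIdeal k Z with hJ
  have hzero : ∀ u : Ua w D → k, (∀ p ∈ J, MvPolynomial.aeval u p = 0) → u ∈ Z := by
    intro u hu
    refine ⟨X2_deg w u, rfl, fun i => ?_, fun t P hP => ?_, ?_⟩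
    · have h1 : (MvPolynomial.X ⟨i, Fin.last (w i * D)⟩ - MvPolynomial.C (y i) : MvPolynomial (Ua w D) k) ∈ J := by
        rw [hJ, MvPolynomial.mem_vanishingIdeal_iff]
        intro u' hu'
        rw [map_sub, MvPolynomial.aeval_X, MvPolynomial.aeval_C]
        have h2 := hu'.lead i
        have h3 := X2_coeff w u' i (Fin.last (w i * D))
        rw [Fin.val_last] at h3
        rw [← h3, h2]
        exact sub_self (y i)
      have h2 := hu _ h1
      rw [map_sub, MvPolynomial.aeval_X, MvPolynomial.aeval_C] at h2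
      have h3 := X2_coeff w u i (Fin.last (w i * D))
      rw [Fin.val_last] at h3
      rw [h3]
      exact sub_eq_zero.1 h2
    · have h0 : ∀ u' : Ua w D → k, MvPolynomial.aeval u' (MvPolynomial.bind₁ (fun i =>
          ∑ l : Fin (w i * D + 1), MvPolynomial.X (⟨i, l⟩ : Ua w D) * MvPolynomial.C (t ^ (l : ℕ))) P) =
          MvPolynomial.eval (val (pu w D u') t) P := by
        intro u'
        rw [MvPolynomial.aeval_bind₁, ← MvPolynomial.aeval_eq_eval]
        congr 1
        congr 1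
        funext i
        unfold val pu
        rw [map_sum, Polynomial.eval_finsetSum]
        refine Finset.sum_congr rfl fun l _ => ?_
        rw [map_mul, MvPolynomial.aeval_X, MvPolynomial.aeval_C, Polynomial.eval_mul, Polynomial.eval_C,
          Polynomial.eval_pow, Polynomial.eval_X]
        rfl
      have h1 : MvPolynomial.bind₁ (fun i =>
          ∑ l : Fin (w i * D + 1), MvPolynomial.X (⟨i, l⟩ : Ua w D) * MvPolynomial.C (t ^ (l : ℕ))) P ∈ J := by
        rw [hJ, MvPolynomial.mem_vanishingIdeal_iff]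
        intro u' hu'
        rw [h0]
        exact hu'.base t P hP
      have h2 := hu _ h1
      rw [h0] at h2
      exact h2
    · rw [Polynomial.X_pow_dvd_iff]
      intro l hl
      rw [← X2_map]
      apply hu
      rw [hJ, MvPolynomial.mem_vanishingIdeal_iff]
      intro u' hu'
      rw [X2_map]
      exact Polynomial.X_pow_dvd_iff.1 hu'.con l hl
  have hQ : ∀ Q : Ideal (MvPolynomial (Ua w D) k), J ≤ Q → ∀ u : Ua w D → k,
      (∀ F ∈ Q, MvPolynomial.eval u F = 0) → NC w S G m D (val (pu w D u) 0) y (pu w D u) := by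
    intro Q hJQ u hu
    refine hzero u fun p hp => ?_
    rw [MvPolynomial.aeval_eq_eval]
    exact hu p (hJQ hp)
  have hfin : J.minimalPrimes.Finite := J.finite_minimalPrimes_of_isNoetherianRing
  by_contra hcon
  have hall : ∀ Q ∈ J.minimalPrimes, ¬ ((N : WithBot ℕ∞) ≤ dm {v ∈ B | ∃ u : Ua w D → k,
      (∀ F ∈ Q, MvPolynomial.eval u F = 0) ∧ v = val (pu w D u) 0}) := by
    intro Q hQm h
    exact hcon ⟨Q, hQm.1.1, hQ Q hQm.1.2, h⟩
  obtain ⟨M, rfl⟩ : ∃ M, N = M + 1 := ⟨N - 1, by omega⟩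
  have hft : Finite {Q : Ideal (MvPolynomial (Ua w D) k) // Q ∈ J.minimalPrimes} := hfin.to_subtype
  have hle : dm B ≤ ((M : ℕ) : WithBot ℕ∞) := by
    refine le_trans (dm_mono ?_) (dm_iUnion
      (fun Q : {Q : Ideal (MvPolynomial (Ua w D) k) // Q ∈ J.minimalPrimes} => {v ∈ B | ∃ u : Ua w D → k,
      (∀ F ∈ Q.1, MvPolynomial.eval u F = 0) ∧ v = val (pu w D u) 0}) M fun Q => X2_le (hall Q.1 Q.2))
    intro v hv
    obtain ⟨p, hp⟩ := hB v hv
    have hpu := X2_pu (D := D) w p hp.deg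
    obtain ⟨u, hu⟩ : ∃ u : Ua w D → k, u = fun q => (p q.1).coeff (q.2 : ℕ) := ⟨_, rfl⟩
    rw [← hu] at hpu
    have huZ : u ∈ Z := by
      show NC w S G m D (val (pu w D u) 0) y (pu w D u)
      rw [hpu]
      exact ⟨hp.deg, rfl, hp.lead, hp.base, hp.con⟩
    have hker : J ≤ RingHom.ker (MvPolynomial.aeval (R := k) u).toRingHom := by
      intro q hq
      rw [RingHom.mem_ker]
      rw [hJ, MvPolynomial.mem_vanishingIdeal_iff] at hq
      exact hq _ huZ
    have hpr : (RingHom.ker (MvPolynomial.aeval (R := k) u).toRingHom).IsPrime := RingHom.ker_isPrime _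
    obtain ⟨Q, hQm, hQle⟩ := Ideal.exists_minimalPrimes_le hker
    refine Set.mem_iUnion.2 ⟨⟨Q, hQm⟩, hv, u, fun F hF => ?_, ?_⟩
    · have h1 := hQle hF
      rw [RingHom.mem_ker] at h1
      rw [← MvPolynomial.aeval_eq_eval]
      exact h1
    · rw [hpu]
      exact hp.zero.symm
  have h1 := hdim.trans hle
  have h2 : ((M + 1 : ℕ) : ℕ∞) ≤ ((M : ℕ) : ℕ∞) := WithBot.coe_le_coe.1 h1
  have h3 : M + 1 ≤ M := by exact_mod_cast h2
  omega

end Pool.Agent.Lib.MP_1e3e9c_agR
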