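import Mathlib
import Pool.Agent.Lib.MP_1e3e9c_agR.XDefs
import Pool.Agent.Lib.MP_1e3e9c_agR.X2

/-!
# MP_1e3e9c_ag, project R, block Y (the bound (K) only for the curves through the given points): definitions
-/

set_option autoImplicit false

namespace Pool.Agent.Lib.MP_1e3e9c_agR

open Pool.Agent.Lib.MP_1e3e9c_agU Pool.Agent.Lib.MP_1e3e9c_agW

/-- The bound (K) for the curve `p`: if `s 0, .., s N` are tangent along `p`, `deg (s j i) < w_i D`, and `t^q` divides all
`(N+1)`-minors, which are not all zero, then `q + N + 1 < M`. -/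
def KP {k : Type} [Field k] {n : ℕ} (w : Fin (n + 1) → ℕ)
    (S : Set (MvPolynomial (Fin (n + 1)) k)) (D N M : ℕ) (p : Fin (n + 1) → Polynomial k) : Prop :=
  ∀ s : Fin (N + 1) → Fin (n + 1) → Polynomial k, (∀ j i, (s j i).natDegree < w i * D) →
    (∀ j, Tg S p (s j)) → (∃ I, mi s I ≠ 0) →
    ∀ q, (∀ I, Polynomial.X ^ q ∣ mi s I) → q + N + 1 < M

/-- The generic point of the zero set of `Q`, as a homomorphism to the field of fractions. -/
noncomputable def gq {k σ : Type} [Field k] (Q : Ideal (MvPolynomial σ k)) [Q.IsPrime] :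
    MvPolynomial σ k →ₐ[k] FractionRing (MvPolynomial σ k ⧸ Q) :=
  (IsScalarTower.toAlgHom k (MvPolynomial σ k ⧸ Q) (FractionRing (MvPolynomial σ k ⧸ Q))).comp
    (Ideal.Quotient.mkₐ k Q)

/-- The generic curve of the family `Q`. -/
noncomputable def gcrv {k : Type} [Field k] {n D : ℕ} (w : Fin (n + 1) → ℕ)
    (Q : Ideal (MvPolynomial (Ua w D) k)) [Q.IsPrime] :
    Fin (n + 1) → Polynomial (FractionRing (MvPolynomial (Ua w D) k ⧸ Q)) :=
  pu w D fun x => gq Q (MvPolynomial.X x)

end Pool.Agent.Lib.MP_1e3e9c_agR
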