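import Mathlib
import Pool.Agent.Lib.MP_1e3e9c_agR.YDefs
import Pool.Agent.Lib.MP_1e3e9c_agR.RDefs

/-!
# MP_1e3e9c_ag, project R, block Z (smooth `V`): definitions
-/

set_option autoImplicit false

namespace Pool.Agent.Lib.MP_1e3e9c_agR

open Pool.Agent.Lib.MP_1e3e9c_agU Pool.Agent.Lib.MP_1e3e9c_agW

/-- `v` is a smooth point of the scheme `S = 0`, which has codimension `c` there. -/
def LCI {k : Type} [Field k] {n : ℕ} (S : Set (MvPolynomial (Fin (n + 1)) k)) (c : ℕ)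
    (v : Fin (n + 1) → k) : Prop :=
  ∃ P : Fin c → MvPolynomial (Fin (n + 1)) k, (∀ l, P l ∈ S) ∧
    LinearIndependent k (fun l => gr (P l) v) ∧
    ∀ Q ∈ S, ∃ h, MvPolynomial.eval v h ≠ 0 ∧ h * Q ∈ Ideal.span (Set.range P)

/-- All curves of degree `D` through `v` in the zero set of `S` which are near the curve `c` are zeros of `A`. -/
def OpnAt {k : Type} [Field k] {n : ℕ} (w : Fin (n + 1) → ℕ)
    (S : Set (MvPolynomial (Fin (n + 1)) k)) (D : ℕ) (v : Fin (n + 1) → k)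
    (A : Ideal (MvPolynomial (Un w D) k)) (c : Un w D → k) : Prop :=
  ∃ h : MvPolynomial (Un w D) k, MvPolynomial.eval c h ≠ 0 ∧ ∀ c' : Un w D → k,
    (∀ t, ∀ P ∈ S, MvPolynomial.eval (val (crv w D v c') t) P = 0) →
    MvPolynomial.eval c' h ≠ 0 → ∀ q ∈ A, MvPolynomial.eval c' q = 0

end Pool.Agent.Lib.MP_1e3e9c_agR
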