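import Mathlib
import Pool.Agent.Lib.MP_1e3e9c_agR.RDefs

/-!
# MP_1e3e9c_ag, project R, block C (covers): definitions

The cone over the weighted projective space `P(w)` with the new coordinate `x_0 = t` of weight `a`.
-/

set_option autoImplicit false

namespace Pool.Agent.Lib.MP_1e3e9c_agR

open Pool.Agent.Lib.MP_1e3e9c_agU Pool.Agent.Lib.MP_1e3e9c_agW

variable {k : Type} [Field k] {n D : ℕ}

/-- The weights `a, w_0, .., w_n`. -/
def cw (a : ℕ) (w : Fin (n + 1) → ℕ) : Fin (n + 1 + 1) → ℕ := Fin.cons a w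

/-- The unknown coefficients of the last coordinates. -/
def emb (a : ℕ) {w : Fin (n + 1) → ℕ} (q : Un w D) : Un (cw a w) D := ⟨q.1.succ, q.2⟩

/-- The curves of `A` with an arbitrary first coordinate. -/
noncomputable def coneI (a : ℕ) {w : Fin (n + 1) → ℕ} (A : Ideal (MvPolynomial (Un w D) k)) :
    Ideal (MvPolynomial (Un (cw a w) D) k) :=
  A.map (MvPolynomial.rename (emb a) : MvPolynomial (Un w D) k →ₐ[k] MvPolynomial (Un (cw a w) D) k)

/-- The equations of the cone. -/
def coneS (S : Set (MvPolynomial (Fin (n + 1)) k)) : Set (MvPolynomial (Fin (n + 1 + 1)) k) :=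
  MvPolynomial.rename Fin.succ '' S

/-- The coefficients of the last coordinates. -/
def tl (a : ℕ) {w : Fin (n + 1) → ℕ} (c : Un (cw a w) D → k) : Un w D → k := fun q => c (emb a q)

end Pool.Agent.Lib.MP_1e3e9c_agR
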