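import Mathlib

/-!
# MP_1e3e9c_ag, project R, leaf B1: Laurent monomials (MATHLIB ONLY)

PROOF. Let `d` be the gcd of the `w i`, `i ∈ I`; `b : Fin (n+1) → ℤ` with `∑_(j ∈ I) b_j w_j = d`, `b_j = 0` for
`j ∉ I` (Bezout: `Finset.gcd_eq_sum_mul` or `Ideal.span` in `ℤ`, or induction on `I` with `Int.gcd_eq_gcd_ab`).
`e_(i,j) = δ_(ij) - (w_i / d) b_j` for `i, j ∈ I`: `∑_j e_(i,j) w_j = 0`. Let `C` be a bound for all `|e_(i,j)|`,
`Π = ∏ w i`, `i₀ ∈ I`. For `M` large and divisible by `Π`: `γ_j = C * Π` for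
`j ∈ I`, `j ≠ i₀`, and `γ_(i₀) = (M - ∑_(j ∈ I, j ≠ i₀) w_j C Π) / w_(i₀)`, which is a natural number because `w_(i₀) ∣ Π`
divides everything, and is `≥ C` for large `M`; `γ_j = 0` for `j ∉ I`. `β_(i,j) = γ_j + e_(i,j) ≥ 0` (`Int.toNat`),
`0` for `j ∉ I` or `i ∉ I`. For `v` with `v_i ≠ 0` on `I` choose `a` with `a^d = ∏_(j ∈ I) v_j^(-b_j)` (`zpow`,
`IsAlgClosed.exists_pow_nat_eq`, `0 < d`); `a ≠ 0` and
`a^(w_i) = (a^d)^(w_i/d) = ∏ v_j^(-b_j w_i / d)`, so `∏ v_j^(β_(i,j)) = ∏ v_j^(γ_j) · v_i · a^(w_i)`.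
-/

set_option autoImplicit false

namespace Pool.Agent.Lib.MP_1e3e9c_agR

theorem exists_gamma {n : ℕ} (w : Fin (n + 1) → ℕ) (hw : ∀ i, 0 < w i)
    (I : Finset (Fin (n + 1))) :
    ∃ M₀ : ℕ, ∀ M, M₀ ≤ M → (∏ i, w i) ∣ M → I.Nonempty →
      ∃ (γ : Fin (n + 1) → ℕ) (β : Fin (n + 1) → Fin (n + 1) → ℕ),
        (∀ j, j ∉ I → γ j = 0) ∧ (∀ i ∈ I, ∀ j, j ∉ I → β i j = 0) ∧ ∑ j, w j * γ j = M ∧
        (∀ i ∈ I, ∑ j, w j * β i j = M) ∧
        ∀ (k : Type) [Field k] [IsAlgClosed k] (v : Fin (n + 1) → k), (∀ i ∈ I, v i ≠ 0) →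
          ∃ a : k, a ≠ 0 ∧ ∀ i ∈ I, ∏ j, v j ^ β i j = a ^ w i * v i * ∏ j, v j ^ γ j := by
  classical
  by_cases hI : I.Nonempty
  swap
  · exact ⟨0, fun M _ _ h => absurd h hI⟩
  obtain ⟨i₀, hi₀⟩ := hI
  obtain ⟨f, hf⟩ := Finset.gcd_eq_sum_mul I (fun i => (w i : ℤ))
  obtain ⟨d, hd⟩ : ∃ d : ℤ, d = I.gcd (fun i => (w i : ℤ)) := ⟨_, rfl⟩
  rw [← hd] at hf
  have hd0 : d ≠ 0 := by
    intro h
    rw [hd, Finset.gcd_eq_zero_iff] at h
    have h1 := h i₀ hi₀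
    have h2 := hw i₀
    omega
  obtain ⟨δ, hδ⟩ : ∃ δ : ℕ, δ = d.natAbs := ⟨_, rfl⟩
  have hδ0 : 0 < δ := by
    rw [hδ]
    exact Int.natAbs_pos.2 hd0
  obtain ⟨b, hb⟩ : ∃ b : Fin (n + 1) → ℤ, ∑ j ∈ I, (w j : ℤ) * b j = δ := by
    refine ⟨fun j => f j * d.sign, ?_⟩
    have h1 : ∑ j ∈ I, (w j : ℤ) * (f j * d.sign) = (∑ j ∈ I, (w j : ℤ) * f j) * d.sign := by
      rw [Finset.sum_mul]
      exact Finset.sum_congr rfl fun j _ => by ring
    rw [h1, ← hf, hδ, Int.mul_sign_self]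
  obtain ⟨c, hc⟩ : ∃ c : Fin (n + 1) → ℕ, ∀ i ∈ I, w i = δ * c i := by
    have h : ∀ i, ∃ m, i ∈ I → w i = δ * m := by
      intro i
      by_cases hi : i ∈ I
      · have h1 : d ∣ (w i : ℤ) := by
          rw [hd]
          exact Finset.gcd_dvd hi
        have h2 : δ ∣ w i := by
          rw [hδ]
          exact Int.natAbs_dvd_natAbs.2 h1
        obtain ⟨m, hm⟩ := h2
        exact ⟨m, fun _ => hm⟩
      · exact ⟨0, fun h => absurd h hi⟩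
    choose c hc using h
    exact ⟨c, hc⟩
  obtain ⟨e, he⟩ : ∃ e : Fin (n + 1) → Fin (n + 1) → ℤ, ∀ i j, e i j = (if i = j then 1 else 0) - c i * b j :=
    ⟨_, fun _ _ => rfl⟩
  have hsum : ∀ i ∈ I, ∑ j ∈ I, (w j : ℤ) * e i j = 0 := by
    intro i hi
    have h1 : ∑ j ∈ I, (w j : ℤ) * e i j =
        ∑ j ∈ I, (if i = j then (w j : ℤ) else 0) - c i * ∑ j ∈ I, (w j : ℤ) * b j := by
      rw [Finset.mul_sum, ← Finset.sum_sub_distrib]
      refine Finset.sum_congr rfl fun j _ => ?_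
      rw [he]
      split_ifs <;> ring
    rw [h1, hb, Finset.sum_ite_eq, if_pos hi, hc i hi]
    push_cast
    ring
  obtain ⟨C, hC⟩ : ∃ C : ℕ, ∀ i j, (e i j).natAbs ≤ C := by
    refine ⟨∑ i, ∑ j, (e i j).natAbs, fun i j => ?_⟩
    exact (Finset.single_le_sum (f := fun j => (e i j).natAbs) (fun _ _ => Nat.zero_le _) (Finset.mem_univ j)).trans
      (Finset.single_le_sum (f := fun i => ∑ j, (e i j).natAbs) (fun _ _ => Nat.zero_le _) (Finset.mem_univ i))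
  obtain ⟨P, hP⟩ : ∃ P : ℕ, P = ∏ i, w i := ⟨_, rfl⟩
  have hP0 : 0 < P := by
    rw [hP]
    exact Finset.prod_pos fun i _ => hw i
  rw [← hP]
  refine ⟨∑ j ∈ I, w j * (C * P), fun M hM hPM _ => ?_⟩
  have hsplit : ∑ j ∈ I, w j * (C * P) = w i₀ * (C * P) + ∑ j ∈ I.erase i₀, w j * (C * P) :=
    (Finset.add_sum_erase I (fun j => w j * (C * P)) hi₀).symm
  obtain ⟨S, hS⟩ : ∃ S : ℕ, S = ∑ j ∈ I.erase i₀, w j * (C * P) := ⟨_, rfl⟩
  rw [hsplit, ← hS] at hM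
  have hwP : w i₀ ∣ P := by
    rw [hP]
    exact Finset.dvd_prod_of_mem w (Finset.mem_univ i₀)
  have hPS : P ∣ S := by
    rw [hS]
    exact Finset.dvd_sum fun j _ => Dvd.intro_left (w j * C) (by ring)
  obtain ⟨g, hg⟩ : w i₀ ∣ M - S := hwP.trans (Nat.dvd_sub hPM hPS)
  have hg2 : w i₀ * g + S = M := by omega
  have hgC : C ≤ g := by
    have h1 : w i₀ * (C * P) ≤ w i₀ * g := by omega
    have h2 := Nat.le_of_mul_le_mul_left h1 (hw i₀)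
    exact (Nat.le_mul_of_pos_right C hP0).trans h2
  obtain ⟨γ, hγ⟩ : ∃ γ : Fin (n + 1) → ℕ, ∀ j, γ j = if j = i₀ then g else if j ∈ I then C * P else 0 :=
    ⟨_, fun _ => rfl⟩
  have hγI : ∀ j, j ∉ I → γ j = 0 := by
    intro j hj
    have h1 : j ≠ i₀ := by
      rintro rfl
      exact hj hi₀
    rw [hγ, if_neg h1, if_neg hj]
  have hγC : ∀ j ∈ I, C ≤ γ j := by
    intro j hj
    rw [hγ, if_pos hj]
    split_ifs
    · exact hgC
    · exact Nat.le_mul_of_pos_right C hP0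
  have hγsum : ∑ j ∈ I, w j * γ j = M := by
    rw [← Finset.add_sum_erase I _ hi₀, hγ, if_pos rfl]
    have h1 : ∑ j ∈ I.erase i₀, w j * γ j = S := by
      rw [hS]
      refine Finset.sum_congr rfl fun j hj => ?_
      obtain ⟨h2, h3⟩ := Finset.mem_erase.1 hj
      rw [hγ, if_neg h2, if_pos h3]
    rw [h1, hg2]
  obtain ⟨β, hβ⟩ : ∃ β : Fin (n + 1) → Fin (n + 1) → ℕ,
      ∀ i j, β i j = if j ∈ I then ((γ j : ℤ) + e i j).toNat else 0 := ⟨_, fun _ _ => rfl⟩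
  have hβI : ∀ i, ∀ j, j ∉ I → β i j = 0 := by
    intro i j hj
    rw [hβ, if_neg hj]
  have hβZ : ∀ i, ∀ j ∈ I, ((β i j : ℕ) : ℤ) = (γ j : ℤ) + e i j := by
    intro i j hj
    rw [hβ, if_pos hj, Int.toNat_of_nonneg]
    have h1 := hC i j
    have h2 := hγC j hj
    omega
  have hext : ∀ h : Fin (n + 1) → ℕ, (∀ j, j ∉ I → h j = 0) → ∑ j, w j * h j = ∑ j ∈ I, w j * h j := by
    intro h hh
    refine (Finset.sum_subset (Finset.subset_univ I) fun j _ hj => ?_).symm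
    rw [hh j hj, mul_zero]
  refine ⟨γ, β, hγI, fun i _ => hβI i, by rw [hext γ hγI, hγsum], fun i hi => ?_, ?_⟩
  · rw [hext (β i) (hβI i)]
    zify
    have h1 : ∑ j ∈ I, (w j : ℤ) * (β i j : ℤ) = ∑ j ∈ I, (w j : ℤ) * (γ j : ℤ) + ∑ j ∈ I, (w j : ℤ) * e i j := by
      rw [← Finset.sum_add_distrib]
      refine Finset.sum_congr rfl fun j hj => ?_
      rw [hβZ i j hj]
      ring
    rw [h1, hsum i hi, add_zero]
    exact_mod_cast hγsum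
  · intro k _ _ v hv
    have hprod : ∀ h : Fin (n + 1) → ℕ, (∀ j, j ∉ I → h j = 0) → ∏ j, v j ^ h j = ∏ j ∈ I, v j ^ ((h j : ℕ) : ℤ) := by
      intro h hh
      rw [← Finset.prod_subset (Finset.subset_univ I) fun j _ hj => ?_]
      · exact Finset.prod_congr rfl fun j _ => (zpow_natCast _ _).symm
      · rw [hh j hj, pow_zero]
    obtain ⟨a, ha⟩ := IsAlgClosed.exists_pow_nat_eq (∏ j ∈ I, v j ^ (-b j)) hδ0
    have hx0 : ∏ j ∈ I, v j ^ (-b j) ≠ 0 := Finset.prod_ne_zero_iff.2 fun j hj => zpow_ne_zero _ (hv j hj)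
    have ha0 : a ≠ 0 := by
      rintro rfl
      rw [zero_pow hδ0.ne'] at ha
      exact hx0 ha.symm
    refine ⟨a, ha0, fun i hi => ?_⟩
    rw [hprod (β i) (hβI i), hprod γ hγI, hc i hi, pow_mul, ha, ← Finset.prod_pow]
    have h1 : v i = ∏ j ∈ I, (if i = j then v j else 1) := by
      rw [Finset.prod_ite_eq, if_pos hi]
    conv_rhs => rw [h1]
    rw [← Finset.prod_mul_distrib, ← Finset.prod_mul_distrib]
    refine Finset.prod_congr rfl fun j hj => ?_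
    have hvj := hv j hj
    rw [hβZ i j hj, he, zpow_add₀ hvj, sub_eq_add_neg, zpow_add₀ hvj, ← zpow_natCast (v j ^ (-b j)) (c i),
      ← zpow_mul]
    have h2 : v j ^ ((if i = j then 1 else 0 : ℤ)) = if i = j then v j else 1 := by
      split_ifs
      · exact zpow_one _
      · exact zpow_zero _
    rw [h2, show -b j * ((c i : ℕ) : ℤ) = -((c i : ℤ) * b j) by ring]
    ring

end Pool.Agent.Lib.MP_1e3e9c_agR
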