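import Mathlib
import Pool.Agent.Lib.MP_1e3e9c_agR.B1
import Pool.Agent.Lib.MP_1e3e9c_agR.RDefs

/-!
# MP_1e3e9c_ag, project R, leaf B2: lifting a polynomial curve from the Veronese coordinates

PROOF. `M₀ = 1 +` the maximum (or sum) of the `M₀` of `exists_gamma` over all `I`. Given `ρ`, `v`. For each `i` let
`π_i = ρ ((M / w_i) e_i)` (`Pi.single i (M / w i)`; `w i ∣ ∏ w ∣ M`, so it has weight `M`): `π_i(t) = (v t i)^(M / w_i)`,
`M / w_i > 0`. `I` = the set of the `i` with `π_i ≠ 0`. If `I = ∅`: all `v t i = 0`; take `p = 0`, `q = 1`, `a = 1`.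
Otherwise take `γ`, `β` of `exists_gamma`, `p_i = ρ(γ)^(w_i - 1) ρ(β_i)` for `i ∈ I`, `p_i = 0` for `i ∉ I`,
`q = ∏_(i ∈ I) π_i`. If `q(t) ≠ 0`: `v t i ≠ 0` for `i ∈ I`, `v t i = 0` for `i ∉ I` (`π_i = 0`), so
`p_i(t) = (v^γ)^(w_i - 1) a^(w_i) v_i v^γ = (a v^γ)^(w_i) v_i`, `a v^γ ≠ 0` (`γ_j = 0` for `j ∉ I`; `1 ≤ w_i`).
-/

set_option autoImplicit false

namespace Pool.Agent.Lib.MP_1e3e9c_agR

open Pool.Agent.Lib.MP_1e3e9c_agU Pool.Agent.Lib.MP_1e3e9c_agW

theorem lift_poly {k : Type} [Field k] [IsAlgClosed k] {n : ℕ} (w : Fin (n + 1) → ℕ)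
    (hw : ∀ i, 0 < w i) :
    ∃ M₀ : ℕ, ∀ M, M₀ ≤ M → (∏ i, w i) ∣ M →
      ∀ (ρ : (Fin (n + 1) → ℕ) → Polynomial k) (v : k → Fin (n + 1) → k),
        (∀ (t : k) (α : Fin (n + 1) → ℕ), ∑ i, w i * α i = M →
          (ρ α).eval t = ∏ i, v t i ^ α i) →
        ∃ (p : Fin (n + 1) → Polynomial k) (q : Polynomial k), q ≠ 0 ∧
          ∀ t, q.eval t ≠ 0 → Same w (v t) (val p t) := by
  classical
  choose M₁ hM₁ using fun I => exists_gamma w hw I
  refine ⟨1 + ∑ I, M₁ I, fun M hM hd ρ v hv => ?_⟩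
  have hM1 : 1 ≤ M := by omega
  have hwM : ∀ i, w i ∣ M := fun i => (Finset.dvd_prod_of_mem w (Finset.mem_univ i)).trans hd
  have hpos : ∀ i, M / w i ≠ 0 := fun i => (Nat.div_pos (Nat.le_of_dvd hM1 (hwM i)) (hw i)).ne'
  have hwt : ∀ i, ∑ j, w j * (Pi.single i (M / w i) : Fin (n + 1) → ℕ) j = M := by
    intro i
    rw [Finset.sum_eq_single i]
    · rw [Pi.single_eq_same]
      exact Nat.mul_div_cancel' (hwM i)
    · intro j _ hj
      rw [Pi.single_eq_of_ne hj, mul_zero]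
    · intro h
      exact absurd (Finset.mem_univ i) h
  have hev : ∀ t i, (ρ (Pi.single i (M / w i))).eval t = v t i ^ (M / w i) := by
    intro t i
    rw [hv t _ (hwt i), Finset.prod_eq_single i]
    · rw [Pi.single_eq_same]
    · intro j _ hj
      rw [Pi.single_eq_of_ne hj, pow_zero]
    · intro h
      exact absurd (Finset.mem_univ i) h
  have hz : ∀ i, ρ (Pi.single i (M / w i)) = 0 → ∀ t, v t i = 0 := by
    intro i hi t
    have h1 := hev t i
    rw [hi, Polynomial.eval_zero] at h1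
    exact (pow_eq_zero_iff (hpos i)).1 h1.symm
  by_cases hI : (Finset.univ.filter fun i => ρ (Pi.single i (M / w i)) ≠ 0).Nonempty
  · have hle : M₁ (Finset.univ.filter fun i => ρ (Pi.single i (M / w i)) ≠ 0) ≤ M := by
      have h1 := Finset.single_le_sum (f := M₁) (fun J _ => Nat.zero_le _)
        (Finset.mem_univ (Finset.univ.filter fun i => ρ (Pi.single i (M / w i)) ≠ 0))
      omega
    obtain ⟨γ, β, hγ, -, hγM, hβM, hk⟩ := hM₁ _ M hle hd hI
    have hmem : ∀ i, i ∈ (Finset.univ.filter fun i => ρ (Pi.single i (M / w i)) ≠ 0) ↔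
        ρ (Pi.single i (M / w i)) ≠ 0 := by
      intro i
      rw [Finset.mem_filter]
      exact ⟨fun h => h.2, fun h => ⟨Finset.mem_univ i, h⟩⟩
    generalize (Finset.univ.filter fun i => ρ (Pi.single i (M / w i)) ≠ 0) = I at hγ hβM hk hmem
    refine ⟨fun i => if i ∈ I then ρ γ ^ (w i - 1) * ρ (β i) else 0, ∏ i ∈ I, ρ (Pi.single i (M / w i)),
      Finset.prod_ne_zero_iff.2 fun i hi => (hmem i).1 hi, fun t ht => ?_⟩
    have hne : ∀ i ∈ I, v t i ≠ 0 := by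
      intro i hi h0
      rw [Polynomial.eval_prod, Finset.prod_ne_zero_iff] at ht
      apply ht i hi
      rw [hev, h0, zero_pow (hpos i)]
    obtain ⟨a, ha, hai⟩ := hk k (v t) hne
    have hg0 : ∏ j, v t j ^ γ j ≠ 0 := by
      refine Finset.prod_ne_zero_iff.2 fun j _ => ?_
      by_cases hj : j ∈ I
      · exact pow_ne_zero _ (hne j hj)
      · rw [hγ j hj, pow_zero]
        exact one_ne_zero
    refine ⟨a * ∏ j, v t j ^ γ j, mul_ne_zero ha hg0, fun i => ?_⟩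
    show (if i ∈ I then ρ γ ^ (w i - 1) * ρ (β i) else 0).eval t = _
    by_cases hi : i ∈ I
    · rw [if_pos hi, Polynomial.eval_mul, Polynomial.eval_pow, hv t γ hγM, hv t (β i) (hβM i hi), hai i hi]
      obtain ⟨r, hr⟩ : ∃ r, w i = r + 1 := ⟨w i - 1, by have := hw i; omega⟩
      rw [hr, Nat.add_sub_cancel]
      ring
    · rw [if_neg hi, Polynomial.eval_zero, hz i (by_contra fun h => hi ((hmem i).2 h)) t, mul_zero]
  · refine ⟨fun _ => 0, 1, one_ne_zero, fun t _ => ⟨1, one_ne_zero, fun i => ?_⟩⟩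
    have h1 : ρ (Pi.single i (M / w i)) = 0 := by
      by_contra h
      exact hI ⟨i, Finset.mem_filter.2 ⟨Finset.mem_univ i, h⟩⟩
    rw [hz i h1 t, mul_zero]
    exact Polynomial.eval_zero

end Pool.Agent.Lib.MP_1e3e9c_agR
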