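import Mathlib
import Pool.Agent.Lib.MP_1e3e9c_agR.RDefs

/-!
# MP_1e3e9c_ag, project R, leaf B3: points of the image of the zero set of `S`

Copy of leaf N3a of project W (`MP_1e3e9c_agW/N3a.lean`, proved), with `hm w M a G` in place of `hs G e`. PROOF. Let
`A = k[y_t]`, `B = k[x_0..x_n]`, `h : A → B`, `y_t ↦ hm w M a G t` (`MvPolynomial.aeval`), `J` = the vanishing ideal of
the zero set of `S`. `B` is integral over `A`: `x_i^(M / w_i)` is the image of a variable (the exponent vector
`(M / w_i) e_i` is in `Mon w M`; `w i ∣ M`, `0 < M`). Let `Q ∈ h⁻¹(J)`. Its homogeneous components `Q_m` are in `h⁻¹(J)`: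
the zero set of `S` is stable under `v ↦ (b^(w_i) v_i)` (`hS`), and all `hm t` are weighted homogeneous of weight `M`
(`a g = M`), so `0 = Q(h(b v)) = ∑ b^(M m) Q_m(h(v))` for all `b ∈ k`, `k` infinite. So `Q_m ∈ SW S (hm ..)` and
`Q_m(y) = 0`, so `Q(y) = 0`: the maximal ideal `M_y` of `A` (kernel of the evaluation at `y`) contains `h⁻¹(J)`.
`A/h⁻¹(J) → B/J` is injective and integral, so there is a prime `N ⊇ J` of `B` with `h⁻¹(N) = M_y`, it is maximal and
`N` is the ideal of a point `v` (`MvPolynomial.isMaximal_iff_eq_vanishingIdeal_singleton`). `h⁻¹(N) = M_y` gives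
`hm .. t (v) = y_t`; `J ⊆ N` gives `P(v) = 0` for `P ∈ S`.
-/

set_option autoImplicit false

namespace Pool.Agent.Lib.MP_1e3e9c_agR

open Pool.Agent.Lib.MP_1e3e9c_agU Pool.Agent.Lib.MP_1e3e9c_agW

private theorem B3_eval_mul {R : Type} [CommRing R] {σ : Type} {H : MvPolynomial σ R} {g : ℕ}
    (hH : H.IsHomogeneous g) (a : R) (z : σ → R) :
    MvPolynomial.eval (fun i => a * z i) H = a ^ g * MvPolynomial.eval z H := by
  rw [MvPolynomial.eval_eq, MvPolynomial.eval_eq, Finset.mul_sum]
  refine Finset.sum_congr rfl fun m hm => ?_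
  have h1 : ∏ i ∈ m.support, (a * z i) ^ m i = a ^ g * ∏ i ∈ m.support, z i ^ m i := by
    simp_rw [mul_pow]
    rw [Finset.prod_mul_distrib, Finset.prod_pow_eq_pow_sum]
    congr 2
    have h2 := hH (MvPolynomial.mem_support_iff.1 hm)
    rw [← h2, Finsupp.weight_apply, Finsupp.sum]
    simp
  rw [h1]
  ring

private theorem B3_weval_mul {R : Type} [CommRing R] {σ : Type} {w : σ → ℕ} {H : MvPolynomial σ R} {g : ℕ}
    (hH : H.IsWeightedHomogeneous w g) (a : R) (z : σ → R) :
    MvPolynomial.eval (fun i => a ^ w i * z i) H = a ^ g * MvPolynomial.eval z H := by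
  rw [MvPolynomial.eval_eq, MvPolynomial.eval_eq, Finset.mul_sum]
  refine Finset.sum_congr rfl fun m hm => ?_
  have h1 : ∏ i ∈ m.support, (a ^ w i * z i) ^ m i = a ^ g * ∏ i ∈ m.support, z i ^ m i := by
    simp_rw [mul_pow, ← pow_mul]
    rw [Finset.prod_mul_distrib, Finset.prod_pow_eq_pow_sum]
    congr 2
    have h2 := hH (MvPolynomial.mem_support_iff.1 hm)
    rw [← h2, Finsupp.weight_apply, Finsupp.sum]
    refine Finset.sum_congr rfl fun i _ => ?_
    rw [smul_eq_mul, mul_comm]
  rw [h1]
  ring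

private theorem B3_hom {k : Type} [Field k] {n M a g : ℕ} {w : Fin (n + 1) → ℕ}
    {G : MvPolynomial (Fin (n + 1)) k} (hG : G.IsWeightedHomogeneous w g) (ha : a * g = M) (t) :
    (hm w M a G t).IsWeightedHomogeneous w M := by
  refine Fin.cases ?_ (fun t => ?_) t
  · have h1 := hG.pow a
    rw [smul_eq_mul, ha] at h1
    exact h1
  · let α := (Fintype.equivFin (Mon w M)).symm t
    have h1 : (∏ i, (MvPolynomial.X i : MvPolynomial (Fin (n + 1)) k) ^ ((α.1 i : Fin (M + 1)) : ℕ)).IsWeightedHomogeneous w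
        (∑ i, ((α.1 i : Fin (M + 1)) : ℕ) • w i) :=
      MvPolynomial.IsWeightedHomogeneous.prod _ _ _ fun i _ =>
        (MvPolynomial.isWeightedHomogeneous_X k w i).pow _
    have h2 : (∑ i, ((α.1 i : Fin (M + 1)) : ℕ) • w i) = M := by
      refine Eq.trans (Finset.sum_congr rfl fun i _ => ?_) α.2
      rw [smul_eq_mul, mul_comm]
    rw [h2] at h1
    exact h1

/-- Composition of evaluations. -/
private theorem B3_comp {k : Type} [Field k] {n : ℕ} {τ : Type} (f : τ → MvPolynomial (Fin (n + 1)) k)
    (v : Fin (n + 1) → k) (Q : MvPolynomial τ k) :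
    MvPolynomial.eval v (MvPolynomial.aeval f Q) = MvPolynomial.eval (fun t => MvPolynomial.eval v (f t)) Q := by
  have h1 := MvPolynomial.comp_aeval_apply (φ := (MvPolynomial.aeval v : MvPolynomial (Fin (n + 1)) k →ₐ[k] k)) f Q
  simp only [MvPolynomial.aeval_eq_eval] at h1
  exact h1

/-- If `Q` vanishes at all multiples `b z`, then so do its homogeneous components. -/
private theorem B3_cone {k : Type} [Field k] [Infinite k] {τ : Type} (Q : MvPolynomial τ k) (z : τ → k)
    (h : ∀ b : k, MvPolynomial.eval (fun t => b * z t) Q = 0) (m : ℕ) :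
    MvPolynomial.eval z (MvPolynomial.homogeneousComponent m Q) = 0 := by
  by_cases hm : m ∈ Finset.range (Q.totalDegree + 1)
  · let p : Polynomial k := ∑ l ∈ Finset.range (Q.totalDegree + 1),
      Polynomial.C (MvPolynomial.eval z (MvPolynomial.homogeneousComponent l Q)) * Polynomial.X ^ l
    have hp : p = 0 := by
      refine Polynomial.funext fun b => ?_
      rw [Polynomial.eval_zero]
      have h1 := h b
      rw [← MvPolynomial.sum_homogeneousComponent Q, map_sum] at h1
      show Polynomial.eval b (∑ l ∈ Finset.range (Q.totalDegree + 1),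
        Polynomial.C (MvPolynomial.eval z (MvPolynomial.homogeneousComponent l Q)) * Polynomial.X ^ l) = 0
      rw [Polynomial.eval_finsetSum, ← h1]
      refine Finset.sum_congr rfl fun l _ => ?_
      rw [B3_eval_mul (MvPolynomial.homogeneousComponent_isHomogeneous l Q), Polynomial.eval_mul,
        Polynomial.eval_C, Polynomial.eval_pow, Polynomial.eval_X, mul_comm]
    have h2 : p.coeff m = MvPolynomial.eval z (MvPolynomial.homogeneousComponent m Q) := by
      show (∑ l ∈ Finset.range (Q.totalDegree + 1),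
        Polynomial.C (MvPolynomial.eval z (MvPolynomial.homogeneousComponent l Q)) * Polynomial.X ^ l).coeff m = _
      rw [Polynomial.finsetSum_coeff, Finset.sum_eq_single m]
      · rw [Polynomial.coeff_C_mul_X_pow, if_pos rfl]
      · intro l _ hl
        rw [Polynomial.coeff_C_mul_X_pow, if_neg (fun h => hl h.symm)]
      · intro h
        exact absurd hm h
    rw [← h2, hp, Polynomial.coeff_zero]
  · rw [MvPolynomial.homogeneousComponent_eq_zero _ _ (by
      rw [Finset.mem_range] at hm
      omega), map_zero]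

private theorem B3_int {k : Type} [Field k] {n M a : ℕ} {w : Fin (n + 1) → ℕ} (hM : 0 < M)
    (hwM : ∀ i, w i ∣ M) (G : MvPolynomial (Fin (n + 1)) k) :
    (MvPolynomial.aeval (hm w M a G) : MvPolynomial (Fin (mn w M + 1)) k →ₐ[k]
      MvPolynomial (Fin (n + 1)) k).toRingHom.IsIntegral := by
  classical
  let A := MvPolynomial (Fin (mn w M + 1)) k
  let B := MvPolynomial (Fin (n + 1)) k
  let g : A →ₐ[k] B := MvPolynomial.aeval (hm w M a G)
  let f : A →+* B := g.toRingHom
  let _ : Algebra A B := f.toAlgebra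
  have key : ∀ i : Fin (n + 1), IsIntegral A (MvPolynomial.X i : B) := by
    intro i
    have hw : 0 < w i := Nat.pos_of_dvd_of_pos (hwM i) hM
    have hp : 0 < M / w i := Nat.div_pos (Nat.le_of_dvd hM (hwM i)) hw
    refine IsIntegral.of_pow hp ?_
    let α : Mon w M := ⟨Function.update (fun _ => 0) i ⟨M / w i, Nat.lt_succ_of_le (Nat.div_le_self M (w i))⟩, by
      rw [Finset.sum_eq_single i]
      · rw [Function.update_self]
        exact Nat.mul_div_cancel' (hwM i)
      · intro j _ hj
        rw [Function.update_of_ne hj]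
        rfl
      · intro h
        exact absurd (Finset.mem_univ i) h⟩
    have h1 : (MvPolynomial.X i : B) ^ (M / w i) =
        f (MvPolynomial.X (Fin.succ (Fintype.equivFin (Mon w M) α))) := by
      show _ = g (MvPolynomial.X (Fin.succ (Fintype.equivFin (Mon w M) α)))
      show _ = (MvPolynomial.aeval (hm w M a G)) (MvPolynomial.X (Fin.succ (Fintype.equivFin (Mon w M) α)))
      rw [MvPolynomial.aeval_X]
      unfold hm
      rw [Fin.cons_succ, Equiv.symm_apply_apply, Finset.prod_eq_single i]
      · show _ = (MvPolynomial.X i : B) ^ ((Function.update (fun _ => (0 : Fin (M + 1))) i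
          ⟨M / w i, Nat.lt_succ_of_le (Nat.div_le_self M (w i))⟩ i : Fin (M + 1)) : ℕ)
        rw [Function.update_self]
      · intro j _ hj
        show (MvPolynomial.X j : B) ^ ((Function.update (fun _ => (0 : Fin (M + 1))) i
          ⟨M / w i, Nat.lt_succ_of_le (Nat.div_le_self M (w i))⟩ j : Fin (M + 1)) : ℕ) = 1
        rw [Function.update_of_ne hj]
        exact pow_zero _
      · intro h
        exact absurd (Finset.mem_univ i) h
    rw [h1]
    exact isIntegral_algebraMap (R := A) (A := B)
  intro x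
  show IsIntegral A x
  induction x using MvPolynomial.induction_on with
  | C a =>
    have h1 : (MvPolynomial.C a : B) = f (MvPolynomial.C a) := (g.commutes a).symm
    rw [h1]
    exact isIntegral_algebraMap (R := A) (A := B)
  | add p q hp hq => exact hp.add hq
  | mul_X p q hp => exact hp.mul (key q)

theorem points_lift {k : Type} [Field k] [IsAlgClosed k] {n M a g : ℕ} {w : Fin (n + 1) → ℕ}
    (hM : 0 < M) (hwM : ∀ i, w i ∣ M)
    {S : Set (MvPolynomial (Fin (n + 1)) k)} (hS : ∀ P ∈ S, ∃ m, P.IsWeightedHomogeneous w m)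
    {G : MvPolynomial (Fin (n + 1)) k} (hG : G.IsWeightedHomogeneous w g) (ha : a * g = M)
    (y : Fin (mn w M + 1) → k)
    (hy : ∀ Q ∈ SW S (hm w M a G), MvPolynomial.eval y Q = 0) :
    ∃ v : Fin (n + 1) → k, (∀ P ∈ S, MvPolynomial.eval v P = 0) ∧
      ∀ t, MvPolynomial.eval v (hm w M a G t) = y t := by
  classical
  have hinf : Infinite k := IsAlgClosed.instInfinite
  let A := MvPolynomial (Fin (mn w M + 1)) k
  let B := MvPolynomial (Fin (n + 1)) k
  let g' : A →ₐ[k] B := MvPolynomial.aeval (hm w M a G)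
  let f : A →+* B := g'.toRingHom
  let ev : A →+* k := MvPolynomial.eval y
  have hev : Function.Surjective ev := fun a => ⟨MvPolynomial.C a, MvPolynomial.eval_C a⟩
  have hMx : (RingHom.ker ev).IsMaximal := RingHom.ker_isMaximal_of_surjective ev hev
  let J : Ideal B := MvPolynomial.vanishingIdeal k {v | ∀ P ∈ S, MvPolynomial.eval v P = 0}
  have hJ : ∀ H : B, H ∈ J ↔ ∀ v : Fin (n + 1) → k, (∀ P ∈ S, MvPolynomial.eval v P = 0) →
      MvPolynomial.eval v H = 0 := by
    intro H
    show H ∈ MvPolynomial.vanishingIdeal k {v | ∀ P ∈ S, MvPolynomial.eval v P = 0} ↔ _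
    rw [MvPolynomial.mem_vanishingIdeal_iff]
    constructor
    · intro h v hv
      have h1 := h v hv
      rw [MvPolynomial.aeval_eq_eval] at h1
      exact h1
    · intro h v hv
      rw [MvPolynomial.aeval_eq_eval]
      exact h v hv
  have hle : J.comap f ≤ RingHom.ker ev := by
    intro Q hQ
    have hQ1 : g' Q ∈ J := hQ
    rw [hJ] at hQ1
    have hQ2 : ∀ m, MvPolynomial.homogeneousComponent m Q ∈ SW S (hm w M a G) := by
      intro m
      refine ⟨⟨m, MvPolynomial.homogeneousComponent_isHomogeneous m Q⟩, fun v hv => ?_⟩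
      refine B3_cone Q _ (fun b => ?_) m
      obtain ⟨c, hc⟩ := IsAlgClosed.exists_pow_nat_eq b hM
      have h1 := hQ1 (fun i => c ^ w i * v i) (fun P hP => by
        obtain ⟨l, hl⟩ := hS P hP
        rw [B3_weval_mul hl, hv P hP, mul_zero])
      have h2 : MvPolynomial.eval (fun i => c ^ w i * v i) (MvPolynomial.aeval (hm w M a G) Q) = 0 := h1
      rw [B3_comp] at h2
      have h3 : (fun t => MvPolynomial.eval (fun i => c ^ w i * v i) (hm w M a G t)) =
          fun t => b * MvPolynomial.eval v (hm w M a G t) := by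
        funext t
        rw [B3_weval_mul (B3_hom hG ha t), hc]
      rw [h3] at h2
      exact h2
    show MvPolynomial.eval y Q = 0
    rw [← MvPolynomial.sum_homogeneousComponent Q, map_sum]
    exact Finset.sum_eq_zero fun m _ => hy _ (hQ2 m)
  let _ : Algebra A B := f.toAlgebra
  have hint : Algebra.IsIntegral A B := ⟨B3_int (a := a) hM hwM G⟩
  obtain ⟨Q, hQ, hQp, hQc⟩ := Ideal.exists_ideal_over_prime_of_isIntegral (R := A) (S := B)
    (RingHom.ker ev) J hle
  have hQm : Q.IsMaximal := Ideal.isMaximal_of_isIntegral_of_isMaximal_comap (R := A) (S := B) Q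
    (hQc ▸ hMx)
  obtain ⟨x, hx⟩ := (MvPolynomial.isMaximal_iff_eq_vanishingIdeal_singleton (K := k)).1 hQm
  have hmem : ∀ p ∈ Q, MvPolynomial.eval x p = 0 := fun p hp => by
    rw [hx, MvPolynomial.mem_vanishingIdeal_iff] at hp
    have h1 := hp x rfl
    rw [MvPolynomial.aeval_eq_eval] at h1
    exact h1
  refine ⟨x, fun P hP => hmem P (hQ ((hJ P).2 fun v hv => hv P hP)), fun t => ?_⟩
  have h1 : (MvPolynomial.X t - MvPolynomial.C (y t) : A) ∈ RingHom.ker ev := by
    rw [RingHom.mem_ker, map_sub, sub_eq_zero]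
    show MvPolynomial.eval y (MvPolynomial.X t) = MvPolynomial.eval y (MvPolynomial.C (y t))
    rw [MvPolynomial.eval_X, MvPolynomial.eval_C]
  rw [← hQc] at h1
  have h2 : MvPolynomial.aeval (hm w M a G) (MvPolynomial.X t - MvPolynomial.C (y t) : A) ∈ Q := h1
  have h3 := hmem _ h2
  rw [B3_comp, map_sub, MvPolynomial.eval_X, MvPolynomial.eval_C, sub_eq_zero] at h3
  exact h3

end Pool.Agent.Lib.MP_1e3e9c_agR
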