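import Mathlib
import Pool.Agent.Lib.MP_1e3e9c_agR.B2
import Pool.Agent.Lib.MP_1e3e9c_agR.B3

/-!
# MP_1e3e9c_ag, project R, leaf B4: no rational curves in the image

PROOF. `M₀` = 1 + the number of `lift_poly`. Let `r` be a tuple as in `NRk` (`MP_1e3e9c_agW/DefsE.lean`). (1) For every
`x` the vector `y_t = ev (r t) x` is a zero of `SW S (hm ..)`, so by `points_lift` there is `v(x)` in the zero set of `S`
with `hm t (v(x)) = ev (r t) x`; for `t = 0`: `G(v(x))^a = ev (r 0) x = 0`, `a ≠ 0` (`a g = M > 0`), so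
`G(v(x)) = 0`. (2) For an exponent vector `α` of weight `M` there is an index `t ≠ 0` with `hm t = x^α` (`α i ≤ M`
because `0 < w i`); `ρ(α)` = the polynomial `∑_j r t j T^j` (`ev (r t) ![1, T]`); `ρ(α) = 0` if `α` has another
weight; `v t = v(1, t)`. `lift_poly`: `p`, `q`. If `q(t) ≠ 0`, `val p t` is `Same` as `v t`, a zero of `insert G S`, hence
`val p t` is one too (weighted homogeneous polynomials). For `P ∈ insert G S` the polynomial `P(p)` vanishes at all `t`
with `q(t) ≠ 0`, so it is `0` (`k` infinite), and `val p t` is a zero of `insert G S` for all `t`. (3) So, as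
`¬ HasRat`, all nonzero `val p t` are `Same`. If `val p t = 0` for all `t` with `q(t) ≠ 0`, then `v t = 0` there,
`ev (r i) ![1, t] = 0` (`M > 0`), so `r = 0`. Otherwise fix `s` with `q(s) ≠ 0`, `val p s ≠ 0`, and `z_i = ev (r i) ![1, s]`.
For `q(t) ≠ 0`, `val p t ≠ 0`: `v t` is `Same` as `v s` (`Same` is an equivalence relation), so
`ev (r i) ![1, t] = b z_i` for some `b` (`b = λ^M`); if `val p t = 0` the same with `b = 0`. So
`ev (r i) ![1, t] z_i' = ev (r i') ![1, t] z_i` for all `t` with `q(t) ≠ 0`, so `r i j z_i' = r i' j z_i`. `z ≠ 0` (since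
`v s ≠ 0`: some pure power `(v s i)^(M / w_i) ≠ 0`), so the `2 × 2` minors of `r` vanish.
-/

set_option autoImplicit false

namespace Pool.Agent.Lib.MP_1e3e9c_agR

open Pool.Agent.Lib.MP_1e3e9c_agU Pool.Agent.Lib.MP_1e3e9c_agW

private theorem B4_scale {k : Type} [Field k] {n m : ℕ} {w : Fin (n + 1) → ℕ}
    {F : MvPolynomial (Fin (n + 1)) k} (hF : F.IsWeightedHomogeneous w m) (b : k)
    (v : Fin (n + 1) → k) :
    MvPolynomial.eval (fun i => b ^ w i * v i) F = b ^ m * MvPolynomial.eval v F := by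
  rw [MvPolynomial.eval_eq', MvPolynomial.eval_eq', Finset.mul_sum]
  refine Finset.sum_congr rfl fun d hd => ?_
  have h1 : Finsupp.weight w d = m := hF (MvPolynomial.mem_support_iff.1 hd)
  have h2 : ∏ i, (b ^ w i * v i) ^ d i = b ^ m * ∏ i, v i ^ d i := by
    simp only [mul_pow]
    rw [Finset.prod_mul_distrib]
    congr 1
    simp only [← pow_mul]
    rw [Finset.prod_pow_eq_pow_sum, ← h1, Finsupp.weight_apply, Finsupp.sum_fintype _ _ (by simp)]
    congr 1
    refine Finset.sum_congr rfl fun i _ => ?_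
    rw [smul_eq_mul, mul_comm]
  rw [h2]
  ring

/-- the polynomial with the coefficients `c` -/
private noncomputable def B4_pol {k : Type} [Field k] {N : ℕ} (c : Fin (N + 1) → k) : Polynomial k :=
  ∑ j : Fin (N + 1), Polynomial.C (c j) * Polynomial.X ^ (j : ℕ)

private theorem B4_eval {k : Type} [Field k] {N : ℕ} (c : Fin (N + 1) → k) (t : k) :
    (B4_pol c).eval t = ev c ![1, t] := by
  unfold B4_pol ev
  rw [Polynomial.eval_finsetSum]
  refine Finset.sum_congr rfl fun j _ => ?_
  simp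

private theorem B4_coeff {k : Type} [Field k] {N : ℕ} (c : Fin (N + 1) → k) (j : Fin (N + 1)) :
    (B4_pol c).coeff (j : ℕ) = c j := by
  unfold B4_pol
  rw [Polynomial.finsetSum_coeff, Finset.sum_eq_single j]
  · rw [Polynomial.coeff_C_mul, Polynomial.coeff_X_pow, if_pos rfl, mul_one]
  · intro i _ hi
    rw [Polynomial.coeff_C_mul, Polynomial.coeff_X_pow, if_neg, mul_zero]
    intro h
    exact hi (Fin.ext h.symm)
  · intro h
    exact absurd (Finset.mem_univ _) h

private theorem B4_zero {k : Type} [Field k] [Infinite k] {R q : Polynomial k} (hq : q ≠ 0)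
    (h : ∀ t, q.eval t ≠ 0 → R.eval t = 0) : R = 0 := by
  have h1 : R * q = 0 := by
    refine Polynomial.funext fun t => ?_
    rw [Polynomial.eval_mul, Polynomial.eval_zero]
    by_cases h2 : q.eval t = 0
    · rw [h2, mul_zero]
    · rw [h t h2, zero_mul]
  rcases mul_eq_zero.1 h1 with h2 | h2
  · exact h2
  · exact absurd h2 hq

private theorem B4_val {k : Type} [Field k] {n : ℕ} (p : Fin (n + 1) → Polynomial k) (t : k)
    (F : MvPolynomial (Fin (n + 1)) k) :
    (MvPolynomial.aeval p F).eval t = MvPolynomial.eval (val p t) F := by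
  induction F using MvPolynomial.induction_on with
  | C a => simp
  | add P Q hP hQ => rw [map_add, Polynomial.eval_add, hP, hQ, map_add]
  | mul_X P i hP =>
    rw [map_mul, Polynomial.eval_mul, hP, map_mul, MvPolynomial.aeval_X, MvPolynomial.eval_X]
    rfl

/-- every exponent vector of weight `M` is in the list of the coordinates -/
private theorem B4_idx {k : Type} [Field k] {n M a : ℕ} {w : Fin (n + 1) → ℕ} (hw : ∀ i, 0 < w i)
    (G : MvPolynomial (Fin (n + 1)) k) (α : Fin (n + 1) → ℕ) (hα : ∑ i, w i * α i = M) :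
    ∃ t : Fin (mn w M + 1), ∀ v : Fin (n + 1) → k,
      MvPolynomial.eval v (hm w M a G t) = ∏ i, v i ^ α i := by
  have h1 : ∀ i, α i < M + 1 := by
    intro i
    have h2 : w i * α i ≤ M := by
      rw [← hα]
      exact Finset.single_le_sum (f := fun i => w i * α i) (fun _ _ => Nat.zero_le _)
        (Finset.mem_univ i)
    have h3 : α i ≤ w i * α i := Nat.le_mul_of_pos_left _ (hw i)
    omega
  let β : Mon w M := ⟨fun i => ⟨α i, h1 i⟩, hα⟩
  refine ⟨Fin.succ (Fintype.equivFin (Mon w M) β), fun v => ?_⟩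
  have h4 : hm w M a G (Fin.succ (Fintype.equivFin (Mon w M) β)) =
      ∏ i, MvPolynomial.X i ^ α i := by
    unfold hm
    rw [Fin.cons_succ]
    refine Finset.prod_congr rfl fun i _ => ?_
    rw [Equiv.symm_apply_apply]
  rw [h4, MvPolynomial.eval_prod]
  refine Finset.prod_congr rfl fun i _ => ?_
  rw [map_pow, MvPolynomial.eval_X]

/-- the coordinates of a multiple -/
private theorem B4_hm {k : Type} [Field k] {n M a g : ℕ} {w : Fin (n + 1) → ℕ}
    {G : MvPolynomial (Fin (n + 1)) k} (hG : G.IsWeightedHomogeneous w g) (ha : a * g = M)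
    (t : Fin (mn w M + 1)) (b : k) (v : Fin (n + 1) → k) :
    MvPolynomial.eval (fun i => b ^ w i * v i) (hm w M a G t) =
      b ^ M * MvPolynomial.eval v (hm w M a G t) := by
  refine Fin.cases ?_ (fun s => ?_) t
  · have h1 : hm w M a G 0 = G ^ a := by
      unfold hm
      rw [Fin.cons_zero]
    rw [h1, map_pow, map_pow, B4_scale hG, mul_pow, ← pow_mul, mul_comm g a, ha]
  · have h1 : hm w M a G (Fin.succ s) = ∏ i, (MvPolynomial.X i : MvPolynomial (Fin (n + 1)) k) ^
        ((((Fintype.equivFin (Mon w M)).symm s).1 i : Fin (M + 1)) : ℕ) := by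
      unfold hm
      rw [Fin.cons_succ]
    rw [h1, MvPolynomial.eval_prod, MvPolynomial.eval_prod]
    simp only [map_pow, MvPolynomial.eval_X, mul_pow]
    rw [Finset.prod_mul_distrib]
    congr 1
    simp only [← pow_mul]
    rw [Finset.prod_pow_eq_pow_sum]
    congr 1
    exact ((Fintype.equivFin (Mon w M)).symm s).2

/-- the coordinates of the vertex -/
private theorem B4_hm0 {k : Type} [Field k] {n M a : ℕ} {w : Fin (n + 1) → ℕ} (hM : 0 < M)
    {G : MvPolynomial (Fin (n + 1)) k} (t : Fin (mn w M + 1)) (ht : t ≠ 0) :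
    MvPolynomial.eval (fun _ => (0 : k)) (hm w M a G t) = 0 := by
  obtain ⟨s, rfl⟩ := Fin.exists_succ_eq.2 ht
  have h1 : hm w M a G (Fin.succ s) = ∏ i, (MvPolynomial.X i : MvPolynomial (Fin (n + 1)) k) ^
      ((((Fintype.equivFin (Mon w M)).symm s).1 i : Fin (M + 1)) : ℕ) := by
    unfold hm
    rw [Fin.cons_succ]
  have h2 := ((Fintype.equivFin (Mon w M)).symm s).2
  obtain ⟨i, _, hi⟩ := Finset.exists_ne_zero_of_sum_ne_zero (h2.trans_ne hM.ne')
  rw [h1, MvPolynomial.eval_prod, Finset.prod_eq_zero (Finset.mem_univ i)]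
  rw [map_pow, MvPolynomial.eval_X]
  exact zero_pow (right_ne_zero_of_mul hi)

theorem nrk_w {k : Type} [Field k] [IsAlgClosed k] {n : ℕ} (w : Fin (n + 1) → ℕ)
    (hw : ∀ i, 0 < w i) :
    ∃ M₀ : ℕ, ∀ M, M₀ ≤ M → (∏ i, w i) ∣ M → ∀ (a g : ℕ), a * g = M →
      ∀ (S : Set (MvPolynomial (Fin (n + 1)) k)), (∀ P ∈ S, ∃ m, P.IsWeightedHomogeneous w m) →
      ∀ G : MvPolynomial (Fin (n + 1)) k, G.IsWeightedHomogeneous w g →
        ¬ HasRat w (insert G S) → NRk (SW S (hm w M a G)) := by
  obtain ⟨M₀, hM₀⟩ := lift_poly (k := k) w hw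
  refine ⟨M₀ + 1, fun M hM hdvd a g hag S hS G hG hrat N r h1 h0 => ?_⟩
  have hMpos : 0 < M := by omega
  have ha : a ≠ 0 := by
    rintro rfl
    rw [zero_mul] at hag
    omega
  have hwM : ∀ i, w i ∣ M := fun i => (Finset.dvd_prod_of_mem w (Finset.mem_univ i)).trans hdvd
  have hr0 : ∀ x : Fin 2 → k, ev (r 0) x = 0 := by
    intro x
    unfold ev
    refine Finset.sum_eq_zero fun j _ => ?_
    rw [h0 j, zero_mul, zero_mul]
  -- (1)
  have hpt : ∀ t : k, ∃ v : Fin (n + 1) → k, (∀ P ∈ insert G S, MvPolynomial.eval v P = 0) ∧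
      ∀ i, MvPolynomial.eval v (hm w M a G i) = ev (r i) ![1, t] := by
    intro t
    obtain ⟨v, hv1, hv2⟩ := points_lift hMpos hwM hS hG hag (fun i => ev (r i) ![1, t])
      (fun Q hQ => h1 ![1, t] Q hQ)
    refine ⟨v, ?_, hv2⟩
    intro P hP
    rcases Set.mem_insert_iff.1 hP with rfl | hP
    · have h2 := hv2 0
      have h3 : hm w M a P 0 = P ^ a := by
        unfold hm
        rw [Fin.cons_zero]
      rw [h3, map_pow, hr0] at h2
      exact pow_eq_zero_iff ha |>.1 h2
    · exact hv1 P hP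
  choose vt hvt1 hvt2 using hpt
  -- (2)
  have hidx : ∀ α : Fin (n + 1) → ℕ, ∃ t : Fin (mn w M + 1), ∑ i, w i * α i = M →
      ∀ v : Fin (n + 1) → k, MvPolynomial.eval v (hm w M a G t) = ∏ i, v i ^ α i := by
    intro α
    by_cases h : ∑ i, w i * α i = M
    · obtain ⟨t, ht⟩ := B4_idx (a := a) hw G α h
      exact ⟨t, fun _ => ht⟩
    · exact ⟨0, fun h2 => absurd h2 h⟩
  choose idx hidx using hidx
  obtain ⟨p, q, hq, hpq⟩ := hM₀ M (by omega) hdvd (fun α => B4_pol (r (idx α))) vt
    (fun t α hα => by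
      show (B4_pol (r (idx α))).eval t = ∏ i, vt t i ^ α i
      rw [B4_eval, ← hvt2, hidx α hα])
  have hSG : ∀ P ∈ insert G S, ∃ m, P.IsWeightedHomogeneous w m := by
    intro P hP
    rcases Set.mem_insert_iff.1 hP with rfl | hP
    · exact ⟨g, hG⟩
    · exact hS P hP
  have hbase : ∀ t, ∀ P ∈ insert G S, MvPolynomial.eval (val p t) P = 0 := by
    intro t P hP
    have h2 : MvPolynomial.aeval p P = 0 := by
      refine B4_zero hq fun s hs => ?_
      obtain ⟨b, _, hb⟩ := hpq s hs
      obtain ⟨m, hm'⟩ := hSG P hP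
      rw [B4_val]
      have h3 : val p s = fun i => b ^ w i * vt s i := funext hb
      rw [h3, B4_scale hm', hvt1 s P hP, mul_zero]
    rw [← B4_val, h2, Polynomial.eval_zero]
  -- (3)
  have hsame : ∀ s t, val p s ≠ 0 → val p t ≠ 0 → Same w (val p s) (val p t) := by
    intro s t hs ht
    by_contra h
    exact hrat ⟨p, hbase, s, t, hs, ht, h⟩
  have hzero : ∀ t, q.eval t ≠ 0 → val p t = 0 → ∀ i, ev (r i) ![1, t] = 0 := by
    intro t ht hv i
    obtain ⟨b, hb0, hb⟩ := hpq t ht
    have h2 : vt t = fun _ => (0 : k) := by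
      funext l
      have h3 := hb l
      rw [hv] at h3
      rcases mul_eq_zero.1 h3.symm with h4 | h4
      · exact absurd h4 (pow_ne_zero _ hb0)
      · exact h4
    by_cases hi : i = 0
    · rw [hi, hr0]
    · rw [← hvt2, h2, B4_hm0 hMpos i hi]
  by_cases hall : ∀ t, q.eval t ≠ 0 → val p t = 0
  · have hr : ∀ i j, r i j = 0 := by
      intro i j
      have h2 : B4_pol (r i) = 0 := by
        refine B4_zero hq fun t ht => ?_
        rw [B4_eval]
        exact hzero t ht (hall t ht) i
      rw [← B4_coeff (r i) j, h2, Polynomial.coeff_zero]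
    intro i i' j j'
    rw [hr i j, hr i j', zero_mul, zero_mul]
  · push Not at hall
    obtain ⟨s, hs, hsv⟩ := hall
    have hmul : ∀ t, q.eval t ≠ 0 → ∃ b : k, ∀ i, ev (r i) ![1, t] = b * ev (r i) ![1, s] := by
      intro t ht
      by_cases hv : val p t = 0
      · exact ⟨0, fun i => by rw [hzero t ht hv i, zero_mul]⟩
      · obtain ⟨b1, hb1, e1⟩ := hpq t ht
        obtain ⟨b2, hb2, e2⟩ := hpq s hs
        obtain ⟨b3, hb3, e3⟩ := hsame s t hsv hv
        have h2 : vt t = fun i => (b3 * b2 * b1⁻¹) ^ w i * vt s i := by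
          funext i
          have h3 : b1 ^ w i * vt t i = b3 ^ w i * (b2 ^ w i * vt s i) := by
            rw [← e1 i, ← e2 i, ← e3 i]
          have h4 : b1 ^ w i ≠ 0 := pow_ne_zero _ hb1
          rw [mul_pow, mul_pow, inv_pow]
          field_simp
          linear_combination h3
        refine ⟨(b3 * b2 * b1⁻¹) ^ M, fun i => ?_⟩
        rw [← hvt2 t i, h2, B4_hm hG hag, hvt2 s i]
    obtain ⟨i₁, hi₁⟩ : ∃ i₁, ev (r i₁) ![1, s] ≠ 0 := by
      obtain ⟨b2, hb2, e2⟩ := hpq s hs
      obtain ⟨l, hl⟩ := Function.ne_iff.1 hsv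
      have h2 : vt s l ≠ 0 := by
        intro h3
        refine hl ?_
        rw [e2 l, h3, mul_zero]
        rfl
      have hα : ∑ i, w i * (Pi.single l (M / w l) : Fin (n + 1) → ℕ) i = M := by
        rw [Finset.sum_eq_single l]
        · rw [Pi.single_eq_same]
          exact Nat.mul_div_cancel' (hwM l)
        · intro i _ hi
          rw [Pi.single_eq_of_ne hi, mul_zero]
        · intro h
          exact absurd (Finset.mem_univ _) h
      refine ⟨idx (Pi.single l (M / w l)), ?_⟩
      rw [← hvt2, hidx _ hα, Finset.prod_eq_single l]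
      · rw [Pi.single_eq_same]
        exact pow_ne_zero _ h2
      · intro i _ hi
        rw [Pi.single_eq_of_ne hi, pow_zero]
      · intro h
        exact absurd (Finset.mem_univ _) h
    have hrel : ∀ i i' j, r i j * ev (r i') ![1, s] = r i' j * ev (r i) ![1, s] := by
      intro i i' j
      have h2 : B4_pol (r i) * Polynomial.C (ev (r i') ![1, s]) -
          B4_pol (r i') * Polynomial.C (ev (r i) ![1, s]) = 0 := by
        refine B4_zero hq fun t ht => ?_
        obtain ⟨b, hb⟩ := hmul t ht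
        rw [Polynomial.eval_sub, Polynomial.eval_mul, Polynomial.eval_mul, Polynomial.eval_C,
          Polynomial.eval_C, B4_eval, B4_eval, hb i, hb i']
        ring
      have h3 := congrArg (fun P => Polynomial.coeff P (j : ℕ)) h2
      simp only [Polynomial.coeff_sub, Polynomial.coeff_mul_C, B4_coeff, Polynomial.coeff_zero] at h3
      exact sub_eq_zero.1 h3
    intro i i' j j'
    have e1 := hrel i i₁ j
    have e2 := hrel i' i₁ j'
    have e3 := hrel i i₁ j'
    have e4 := hrel i' i₁ j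
    have h2 : (r i j * r i' j') * (ev (r i₁) ![1, s] * ev (r i₁) ![1, s]) =
        (r i j' * r i' j) * (ev (r i₁) ![1, s] * ev (r i₁) ![1, s]) := by
      calc (r i j * r i' j') * (ev (r i₁) ![1, s] * ev (r i₁) ![1, s])
          = (r i j * ev (r i₁) ![1, s]) * (r i' j' * ev (r i₁) ![1, s]) := by ring
        _ = (r i₁ j * ev (r i) ![1, s]) * (r i₁ j' * ev (r i') ![1, s]) := by rw [e1, e2]
        _ = (r i₁ j' * ev (r i) ![1, s]) * (r i₁ j * ev (r i') ![1, s]) := by ring
        _ = (r i j' * ev (r i₁) ![1, s]) * (r i' j * ev (r i₁) ![1, s]) := by rw [e3, e4]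
        _ = (r i j' * r i' j) * (ev (r i₁) ![1, s] * ev (r i₁) ![1, s]) := by ring
    exact mul_right_cancel₀ (mul_ne_zero hi₁ hi₁) h2

end Pool.Agent.Lib.MP_1e3e9c_agR
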