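import Mathlib
import Pool.Agent.Lib.MP_1e3e9c_agR.RDefs

/-!
# MP_1e3e9c_ag, project R, leaf B6: dimensions and the map `hm`; finite fibres

`dm_pull`: adapt `E10_int`, `E10_hs`, `E10_integral`, `E10_dim` (`MP_1e3e9c_agW/E10.lean`): `h = MvPolynomial.aeval (hm w M a G)`;
`k[x]` is integral over `h(k[y])` since `x_i^(M / w_i)` is the image of a variable (`(M / w_i) e_i ∈ Mon w M`,
`w i ∣ M`, `0 < M`, so `M / w_i ≠ 0`); `J` = vanishing ideal of `B`: `dim k[x]/J ≤ dim k[y]/h⁻¹(J)`, and the vanishing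
ideal of `E` is contained in `h⁻¹(J)` (`hBE`), so `dim k[y]/h⁻¹(J) ≤ dm E` (`ringKrullDim_le_of_surjective`).
`finite_fibre`: `(v i)^(M / w_i)` is a coordinate of the given vector, so `v i` is a root of a polynomial
`X^(M/w_i) - const ≠ 0`: finitely many values; `Set.Finite.pi`.
-/

set_option autoImplicit false

namespace Pool.Agent.Lib.MP_1e3e9c_agR

open Pool.Agent.Lib.MP_1e3e9c_agU Pool.Agent.Lib.MP_1e3e9c_agW

private theorem B6_int {R S : Type} [CommRing R] [CommRing S] (g : R →+* S)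
    (hg : g.IsIntegral) : ringKrullDim S ≤ ringKrullDim R := by
  let := g.toAlgebra
  refine Order.krullDim_le_of_strictMono (PrimeSpectrum.comap g) ?_
  intro p q hpq
  have hle : p.asIdeal ≤ q.asIdeal := hpq.le
  obtain ⟨x, hxq, hxp⟩ : ∃ x ∈ q.asIdeal, x ∉ p.asIdeal := SetLike.exists_of_lt hpq
  exact Ideal.comap_lt_comap_of_integral_mem_sdiff hle ⟨hxq, hxp⟩ (hg x)

private theorem B6_ne {n M : ℕ} {w : Fin (n + 1) → ℕ} (hM : 0 < M) (hwM : ∀ i, w i ∣ M)
    (i : Fin (n + 1)) : M / w i ≠ 0 :=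
  (Nat.div_pos (Nat.le_of_dvd hM (hwM i)) (Nat.pos_of_dvd_of_pos (hwM i) hM)).ne'

private theorem B6_hm {k : Type} [Field k] {n M a : ℕ} {w : Fin (n + 1) → ℕ} (hwM : ∀ i, w i ∣ M)
    (G : MvPolynomial (Fin (n + 1)) k) (i : Fin (n + 1)) :
    ∃ t, hm w M a G t = MvPolynomial.X i ^ (M / w i) := by
  classical
  obtain ⟨α, hα⟩ : ∃ α : Mon w M, ∀ j, ((α.1 j : Fin (M + 1)) : ℕ) = if j = i then M / w i else 0 := by
    refine ⟨⟨fun j => if j = i then ⟨M / w i, Nat.lt_succ_of_le (Nat.div_le_self M (w i))⟩ else 0, ?_⟩, ?_⟩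
    · rw [Finset.sum_eq_single i]
      · simp only [if_true]
        exact Nat.mul_div_cancel' (hwM i)
      · intro j _ hj
        simp [hj]
      · intro h
        exact absurd (Finset.mem_univ i) h
    · intro j
      by_cases hj : j = i
      · simp [hj]
      · simp [hj]
  refine ⟨Fin.succ (Fintype.equivFin (Mon w M) α : Fin (mn w M)), ?_⟩
  unfold hm
  rw [Fin.cons_succ]
  have h1 : (Fintype.equivFin (Mon w M)).symm (Fintype.equivFin (Mon w M) α) = α :=
    Equiv.symm_apply_apply _ _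
  rw [Finset.prod_eq_single i]
  · rw [h1, hα, if_pos rfl]
  · intro j _ hj
    rw [h1, hα, if_neg hj, pow_zero]
  · intro h
    exact absurd (Finset.mem_univ i) h

private theorem B6_integral {k : Type} [Field k] {n M a : ℕ} {w : Fin (n + 1) → ℕ} (hM : 0 < M)
    (hwM : ∀ i, w i ∣ M) (G : MvPolynomial (Fin (n + 1)) k) :
    (MvPolynomial.aeval (hm w M a G) : MvPolynomial (Fin (mn w M + 1)) k →ₐ[k]
      MvPolynomial (Fin (n + 1)) k).toRingHom.IsIntegral := by
  let f : MvPolynomial (Fin (mn w M + 1)) k →+* MvPolynomial (Fin (n + 1)) k :=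
    (MvPolynomial.aeval (hm w M a G) : MvPolynomial (Fin (mn w M + 1)) k →ₐ[k]
      MvPolynomial (Fin (n + 1)) k).toRingHom
  change f.IsIntegral
  intro p
  induction p using MvPolynomial.induction_on with
  | C c =>
    have h1 : f (MvPolynomial.C c) = MvPolynomial.C c :=
      (MvPolynomial.aeval (hm w M a G) : MvPolynomial (Fin (mn w M + 1)) k →ₐ[k]
        MvPolynomial (Fin (n + 1)) k).commutes c
    rw [← h1]
    exact f.isIntegralElem_map
  | add p q hp hq => exact RingHom.IsIntegralElem.add f hp hq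
  | mul_X p i hp =>
    refine RingHom.IsIntegralElem.mul f hp ?_
    have h1 : f.IsIntegralElem (MvPolynomial.X i ^ (M / w i)) := by
      obtain ⟨t, ht⟩ := B6_hm (a := a) hwM G i
      have h2 : f (MvPolynomial.X t) = MvPolynomial.X i ^ (M / w i) := by
        change MvPolynomial.aeval (hm w M a G) (MvPolynomial.X _) = _
        rw [MvPolynomial.aeval_X, ht]
      rw [← h2]
      exact f.isIntegralElem_map
    obtain ⟨P, hP, hPe⟩ := h1
    refine ⟨P.comp (Polynomial.X ^ (M / w i)), ?_, ?_⟩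
    · exact hP.comp (Polynomial.monic_X_pow (M / w i)) (by
        rw [Polynomial.natDegree_X_pow]
        exact B6_ne hM hwM i)
    · rw [Polynomial.eval₂_comp, Polynomial.eval₂_pow, Polynomial.eval₂_X]
      exact hPe

private theorem B6_dim {k : Type} [Field k] {n M a : ℕ} {w : Fin (n + 1) → ℕ} (hM : 0 < M)
    (hwM : ∀ i, w i ∣ M) (G : MvPolynomial (Fin (n + 1)) k)
    (J : Ideal (MvPolynomial (Fin (n + 1)) k)) :
    ringKrullDim (MvPolynomial (Fin (n + 1)) k ⧸ J) ≤
      ringKrullDim (MvPolynomial (Fin (mn w M + 1)) k ⧸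
        J.comap (MvPolynomial.aeval (hm w M a G) : MvPolynomial (Fin (mn w M + 1)) k →ₐ[k]
          MvPolynomial (Fin (n + 1)) k)) := by
  let f : MvPolynomial (Fin (mn w M + 1)) k →+* MvPolynomial (Fin (n + 1)) k :=
    (MvPolynomial.aeval (hm w M a G) : MvPolynomial (Fin (mn w M + 1)) k →ₐ[k]
      MvPolynomial (Fin (n + 1)) k).toRingHom
  change ringKrullDim (MvPolynomial (Fin (n + 1)) k ⧸ J) ≤
    ringKrullDim (MvPolynomial (Fin (mn w M + 1)) k ⧸ J.comap f)
  refine B6_int (Ideal.quotientMap J f le_rfl) ?_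
  intro x
  obtain ⟨y, rfl⟩ := Ideal.Quotient.mk_surjective x
  obtain ⟨p, hp, hy⟩ := B6_integral (a := a) hM hwM G y
  refine ⟨p.map (Ideal.Quotient.mk (J.comap f)), hp.map _, ?_⟩
  rw [Polynomial.eval₂_map]
  have h1 : (Ideal.quotientMap J f le_rfl).comp (Ideal.Quotient.mk (J.comap f)) =
      (Ideal.Quotient.mk J).comp f := RingHom.ext fun a => rfl
  rw [h1, ← Polynomial.hom_eval₂]
  have h2 : Polynomial.eval₂ f y p = 0 := hy
  rw [h2, map_zero]

theorem dm_pull {k : Type} [Field k] {n M a : ℕ} {w : Fin (n + 1) → ℕ} (hM : 0 < M)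
    (hwM : ∀ i, w i ∣ M) (G : MvPolynomial (Fin (n + 1)) k) (B : Set (Fin (n + 1) → k))
    (E : Set (Fin (mn w M + 1) → k))
    (hBE : ∀ v ∈ B, (fun t => MvPolynomial.eval v (hm w M a G t)) ∈ E) : dm B ≤ dm E := by
  unfold dm
  refine (B6_dim (a := a) hM hwM G (MvPolynomial.vanishingIdeal k B)).trans ?_
  have hle : MvPolynomial.vanishingIdeal k E ≤ (MvPolynomial.vanishingIdeal k B).comap
      (MvPolynomial.aeval (hm w M a G) : MvPolynomial (Fin (mn w M + 1)) k →ₐ[k]
        MvPolynomial (Fin (n + 1)) k) := by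
    intro H hH
    rw [Ideal.mem_comap, MvPolynomial.mem_vanishingIdeal_iff]
    intro v hv
    have h1 := (MvPolynomial.mem_vanishingIdeal_iff.1 hH) _ (hBE v hv)
    have h2 : (MvPolynomial.aeval v) ((MvPolynomial.aeval (hm w M a G)) H) =
        (MvPolynomial.aeval fun t => MvPolynomial.eval v (hm w M a G t)) H := by
      rw [← AlgHom.comp_apply]
      congr 1
      apply MvPolynomial.algHom_ext
      intro t
      rw [AlgHom.comp_apply, MvPolynomial.aeval_X, MvPolynomial.aeval_X]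
      exact MvPolynomial.aeval_eq_eval v ▸ rfl
    rw [h2]
    exact h1
  exact ringKrullDim_le_of_surjective (Ideal.Quotient.factor hle) (Ideal.Quotient.factor_surjective hle)

theorem finite_fibre {k : Type} [Field k] {n M a : ℕ} {w : Fin (n + 1) → ℕ} (hM : 0 < M)
    (hwM : ∀ i, w i ∣ M) (G : MvPolynomial (Fin (n + 1)) k) (z : Fin (mn w M + 1) → k) :
    {v : Fin (n + 1) → k | ∀ t, MvPolynomial.eval v (hm w M a G t) = z t}.Finite := by
  have h1 : ∀ i, ({u : k | ∃ t, hm w M a G t = MvPolynomial.X i ^ (M / w i) ∧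
      u ^ (M / w i) = z t}).Finite := by
    intro i
    have h2 : {u : k | ∃ t, hm w M a G t = MvPolynomial.X i ^ (M / w i) ∧ u ^ (M / w i) = z t} ⊆
        ⋃ t, {u : k | u ^ (M / w i) = z t} := by
      rintro u ⟨t, _, ht⟩
      exact Set.mem_iUnion.2 ⟨t, ht⟩
    refine (Set.finite_iUnion fun t => ?_).subset h2
    have h3 : (Polynomial.X ^ (M / w i) - Polynomial.C (z t) : Polynomial k) ≠ 0 :=
      Polynomial.X_pow_sub_C_ne_zero (Nat.pos_of_ne_zero (B6_ne hM hwM i)) (z t)
    refine (Polynomial.finite_setOfPred_isRoot h3).subset ?_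
    intro u hu
    have hu' : u ^ (M / w i) = z t := hu
    simp [Polynomial.IsRoot, hu']
  refine (Set.Finite.pi h1).subset ?_
  intro v hv i _
  obtain ⟨t, ht⟩ := B6_hm (a := a) hwM G i
  refine ⟨t, ht, ?_⟩
  have h4 : MvPolynomial.eval v (hm w M a G t) = z t := hv t
  rw [ht] at h4
  simpa using h4

end Pool.Agent.Lib.MP_1e3e9c_agR
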