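import Mathlib
import Pool.Agent.Lib.MP_1e3e9c_agR.RDefs

/-!
# MP_1e3e9c_ag, project R, leaf R1: fewer equations than the local dimension

Copy of `common_zero_gen` (`Pool/Agent/Lib/MP_1e3e9c_ag/C2/CZ.lean`, `ℂ` replaced by an algebraically closed
field `k`, `U2` empty, so `height_mv` is not needed). PROOF. `B = MvPolynomial U k ⧸ A`, `m` = the image of the
ideal of the origin (`hA`: maximal), `m.height = dimAt A`. Assume that `c = 0` is the only common zero. Claim: `m` is a
minimal prime over `J = span (mk (f i))`. First `J ≤ m` (`hf`). Let `Q` be a prime, `J ≤ Q ≤ m`, `Q' = Q.comap mk`: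
prime, contains `A` and the `f i`; the only point of its zero locus is `0`; Nullstellensatz
(`MvPolynomial.vanishingIdeal_zeroLocus_eq_radical`): `Q' = radical Q' ⊇ ker constantCoeff`, so `m ≤ Q`. Krull:
`Ideal.height_le_card_of_mem_minimalPrimes_span_finset` (`J` is spanned by `Finset.univ.image`):
`m.height ≤ card κ`, contradiction.
-/

set_option autoImplicit false

namespace Pool.Agent.Lib.MP_1e3e9c_agR

open Pool.Agent.Lib.MP_1e3e9c_agU Pool.Agent.Lib.MP_1e3e9c_agW

theorem common_zero {k U κ : Type} [Field k] [IsAlgClosed k] [Fintype U] [Fintype κ]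
    (A : Ideal (MvPolynomial U k)) (hA : ∀ q ∈ A, MvPolynomial.constantCoeff q = 0)
    (f : κ → MvPolynomial U k) (hf : ∀ i, MvPolynomial.constantCoeff (f i) = 0)
    (hcard : (Fintype.card κ : ℕ∞) < dimAt A) :
    ∃ c : U → k, c ≠ 0 ∧ (∀ q ∈ A, MvPolynomial.eval c q = 0) ∧
      ∀ i, MvPolynomial.eval c (f i) = 0 := by
  classical
  by_contra hcon
  push Not at hcon
  have hae : ∀ (c : U → k) (q : MvPolynomial U k), MvPolynomial.aeval c q = MvPolynomial.eval c q :=
    fun c q => DFunLike.congr_fun (MvPolynomial.coe_aeval_eq_eval c) q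
  have hA' : A ≤ RingHom.ker (MvPolynomial.constantCoeff : MvPolynomial U k →+* k) :=
    fun q hq => RingHom.mem_ker.2 (hA q hq)
  have hm0 : (RingHom.ker (MvPolynomial.constantCoeff : MvPolynomial U k →+* k)).IsMaximal :=
    RingHom.ker_isMaximal_of_surjective _ fun a =>
      ⟨MvPolynomial.C a, MvPolynomial.constantCoeff_C _ a⟩
  have hmk : Function.Surjective (Ideal.Quotient.mk A) := Ideal.Quotient.mk_surjective
  have hM : (Ideal.map (Ideal.Quotient.mk A)
      (RingHom.ker (MvPolynomial.constantCoeff : MvPolynomial U k →+* k))).IsMaximal :=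
    Ideal.IsMaximal.map_of_surjective_of_ker_le hmk (by rw [Ideal.mk_ker]; exact hA')
  have hcomapM : ∀ q : MvPolynomial U k, Ideal.Quotient.mk A q ∈ Ideal.map (Ideal.Quotient.mk A)
      (RingHom.ker (MvPolynomial.constantCoeff : MvPolynomial U k →+* k)) ↔
        MvPolynomial.constantCoeff q = 0 := by
    intro q
    rw [← Ideal.mem_comap, Ideal.comap_map_quotientMk, sup_of_le_right hA', RingHom.mem_ker]
  -- the maximal ideal of the origin is a minimal prime of the equations
  have hmin : Ideal.map (Ideal.Quotient.mk A)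
        (RingHom.ker (MvPolynomial.constantCoeff : MvPolynomial U k →+* k)) ∈
      (Ideal.span ((Finset.univ.image fun i => Ideal.Quotient.mk A (f i) :
        Finset (MvPolynomial U k ⧸ A)) : Set _)).minimalPrimes := by
    refine ⟨⟨hM.isPrime, ?_⟩, ?_⟩
    · rw [Ideal.span_le]
      intro z hz
      obtain ⟨i, _, rfl⟩ := Finset.mem_image.1 (Finset.mem_coe.1 hz)
      exact (hcomapM _).2 (hf i)
    · rintro Q ⟨hQ, hJQ⟩ hQP
      have hQ' : (Ideal.comap (Ideal.Quotient.mk A) Q).IsPrime := Ideal.comap_isPrime _ Q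
      have hfQ : ∀ i, f i ∈ Ideal.comap (Ideal.Quotient.mk A) Q := fun i => by
        rw [Ideal.mem_comap]
        exact hJQ (Ideal.subset_span (Finset.mem_coe.2 (Finset.mem_image.2
          ⟨i, Finset.mem_univ i, rfl⟩)))
      have hAQ : ∀ q ∈ A, q ∈ Ideal.comap (Ideal.Quotient.mk A) Q := fun q hq => by
        rw [Ideal.mem_comap, Ideal.Quotient.eq_zero_iff_mem.2 hq]
        exact Q.zero_mem
      have hzero : ∀ c ∈ MvPolynomial.zeroLocus k (Ideal.comap (Ideal.Quotient.mk A) Q), c = 0 := by
        intro c hc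
        by_contra hc0
        obtain ⟨i, hi⟩ := hcon c hc0 (fun q hq => by
          have h := hc _ (hAQ q hq)
          rw [hae] at h
          exact h)
        apply hi
        have h := hc _ (hfQ i)
        rw [hae] at h
        exact h
      have hnull := MvPolynomial.vanishingIdeal_zeroLocus_eq_radical (k := k) (K := k)
        (Ideal.comap (Ideal.Quotient.mk A) Q)
      rw [hQ'.radical] at hnull
      intro z hz
      obtain ⟨g, rfl⟩ := hmk z
      have hg : MvPolynomial.constantCoeff g = 0 := (hcomapM g).1 hz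
      have hgQ : g ∈ Ideal.comap (Ideal.Quotient.mk A) Q := by
        rw [← hnull, MvPolynomial.mem_vanishingIdeal_iff]
        intro c hc
        rw [hzero c hc, hae, ← hg, MvPolynomial.eval_zero]
      exact hgQ
  have h1 := Ideal.height_le_card_of_mem_minimalPrimes_span_finset
    (R := MvPolynomial U k ⧸ A) (s := Finset.univ.image fun i => Ideal.Quotient.mk A (f i)) hmin
  have h2 : (((Finset.univ.image fun i => Ideal.Quotient.mk A (f i)).card : ℕ) : ℕ∞) ≤
      (Fintype.card κ : ℕ∞) := by
    exact_mod_cast (Finset.card_image_le :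
      (Finset.univ.image fun i => Ideal.Quotient.mk A (f i)).card ≤ _)
  exact absurd hcard (not_lt.2 (h1.trans h2))

end Pool.Agent.Lib.MP_1e3e9c_agR
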