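import Mathlib
import Pool.Agent.Lib.MP_1e3e9c_agR.R1

/-!
# MP_1e3e9c_ag, project R, leaf R2: contact

PROOF. Let `K = k[Un]`, `genX i = C (C (v i)) + ∑ l, C (X ⟨i,l⟩) X^(l+1) : Polynomial K` (the generic curve),
`Γ = MvPolynomial.aeval genX G` (or `eval₂`) in `Polynomial K`. For `c : Un w D → k`: the evaluation of the
coefficients at `c` (`Polynomial.map (MvPolynomial.eval c)`) sends `genX i` to `crv w D v c i`, so `Γ_j(c)` (`Γ_j` the
coefficient of `t^j`) is the coefficient of `t^j` of `G(crv w D v c)`. `G` is weighted homogeneous of weight `g`,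
`natDegree (genX i) ≤ w i * D`, so `natDegree Γ ≤ g D` (`Polynomial.natDegree_prod_le`, sum over the monomials;
same for the polynomial over `k`). `Γ_0(c) = G(v) = 0`. `Γ_j` for `j ≥ 1` has constant coefficient `0`: at `c = 0` the
curve is constant, `G(v) = 0`. `v i₀ ≠ 0` for some `i₀`; `0 < w i₀ * D`; `θ = X ⟨i₀, 0⟩`. Apply `common_zero` with
the `g D - 2` equations `Γ_1, …, Γ_(gD-2)` and `θ` (`κ = Option (Fin (g D - 2))`,
`card κ = g D - 2 + 1 < max (g D) 2 ≤ dimAt A`; natural subtraction; `g D ≥ 1`). So there is `c ≠ 0`, `Γ_j(c) = 0`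
for `1 ≤ j ≤ gD-2`, `c ⟨i₀, 0⟩ = 0`. If `c` were `Triv` with `b`: the coefficient of `t^1` of
`v_(i₀) (1 + b t)^(w_(i₀) D)` is `v_(i₀) w_(i₀) D b`, so `b = 0` (characteristic `0`), so all the coefficients of
`crv` of positive degree are `0`, `c = 0`: contradiction. `α = Γ_(gD-1)(c)` (if `g D = 1` this is `Γ_0(c) = 0`),
`β = Γ_(gD)(c)`.
-/

set_option autoImplicit false

namespace Pool.Agent.Lib.MP_1e3e9c_agR

open Pool.Agent.Lib.MP_1e3e9c_agU Pool.Agent.Lib.MP_1e3e9c_agW

private theorem r2_coeff {k : Type} [Field k] {n : ℕ} {w : Fin (n + 1) → ℕ} {D : ℕ} (v : Fin (n + 1) → k)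
    (c : Un w D → k) (i : Fin (n + 1)) (l : Fin (w i * D)) :
    (crv w D v c i).coeff ((l : ℕ) + 1) = c ⟨i, l⟩ := by
  unfold crv
  rw [Polynomial.coeff_add, Polynomial.coeff_C_succ, zero_add, Polynomial.finsetSum_coeff,
    Finset.sum_eq_single l]
  · rw [Polynomial.coeff_C_mul, Polynomial.coeff_X_pow, if_pos rfl, mul_one]
  · intro m _ hm
    rw [Polynomial.coeff_C_mul, Polynomial.coeff_X_pow, if_neg, mul_zero]
    intro h
    exact hm (Fin.ext (by omega))
  · intro h
    exact absurd (Finset.mem_univ _) h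

private theorem r2_deg {k : Type} [Field k] {n : ℕ} {w : Fin (n + 1) → ℕ} {D : ℕ} (v : Fin (n + 1) → k)
    (c : Un w D → k) (i : Fin (n + 1)) : (crv w D v c i).natDegree ≤ w i * D := by
  unfold crv
  refine Polynomial.natDegree_add_le_of_degree_le ?_ ?_
  · rw [Polynomial.natDegree_C]
    exact Nat.zero_le _
  · refine Polynomial.natDegree_sum_le_of_forall_le _ _ fun l _ => ?_
    exact (Polynomial.natDegree_C_mul_X_pow_le _ _).trans (by have := l.2; omega)

private theorem r2_natDegree {k : Type} [Field k] {n D g : ℕ} {w : Fin (n + 1) → ℕ}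
    {G : MvPolynomial (Fin (n + 1)) k} (hG : G.IsWeightedHomogeneous w g)
    (p : Fin (n + 1) → Polynomial k) (hp : ∀ i, (p i).natDegree ≤ w i * D) :
    (MvPolynomial.aeval p G).natDegree ≤ g * D := by
  rw [MvPolynomial.aeval_def, MvPolynomial.eval₂_eq']
  refine Polynomial.natDegree_sum_le_of_forall_le _ _ fun d hd => ?_
  have hw := hG (MvPolynomial.mem_support_iff.1 hd)
  have h1 : ∑ i, d i * w i = g := by
    rw [← hw, Finsupp.weight_apply, Finsupp.sum_fintype]
    · rfl
    · intro i
      exact zero_smul _ _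
  refine (Polynomial.natDegree_C_mul_le _ _).trans ?_
  refine (Polynomial.natDegree_prod_le _ _).trans ?_
  calc _ ≤ ∑ i, d i * (w i * D) := by
        refine Finset.sum_le_sum fun i _ => ?_
        exact (Polynomial.natDegree_pow_le).trans (Nat.mul_le_mul_left _ (hp i))
    _ = (∑ i, d i * w i) * D := by
        rw [Finset.sum_mul]
        exact Finset.sum_congr rfl fun i _ => by ring
    _ = g * D := by rw [h1]

private theorem r2_coeff_zero {k : Type} [Field k] {n D : ℕ} {w : Fin (n + 1) → ℕ}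
    (G : MvPolynomial (Fin (n + 1)) k) (v : Fin (n + 1) → k) (c : Un w D → k) :
    (MvPolynomial.aeval (crv w D v c) G).coeff 0 = MvPolynomial.eval v G := by
  have h : ∀ p : Fin (n + 1) → Polynomial k, (MvPolynomial.aeval p G).coeff 0 =
      MvPolynomial.eval (fun i => (p i).eval 0) G := by
    intro p
    rw [Polynomial.coeff_zero_eq_eval_zero, ← Polynomial.coe_evalRingHom, MvPolynomial.aeval_def,
      MvPolynomial.eval₂_comp_left]
    have h2 : (Polynomial.evalRingHom (0 : k)).comp (algebraMap k (Polynomial k)) = RingHom.id k := by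
      ext a
      simp
    rw [h2]
    rfl
  rw [h]
  have h3 : (fun i => (crv w D v c i).eval 0) = v := by
    funext i
    unfold crv
    rw [Polynomial.eval_add, Polynomial.eval_C, Polynomial.eval_finsetSum, Finset.sum_eq_zero, add_zero]
    intro l _
    rw [Polynomial.eval_mul, Polynomial.eval_pow, Polynomial.eval_X, zero_pow (Nat.succ_ne_zero _), mul_zero]
  rw [h3]

private noncomputable def r2_gen {k : Type} [Field k] {n : ℕ} (w : Fin (n + 1) → ℕ) (D : ℕ) (v : Fin (n + 1) → k)
    (i : Fin (n + 1)) : Polynomial (MvPolynomial (Un w D) k) :=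
  Polynomial.C (MvPolynomial.C (v i)) + ∑ l : Fin (w i * D),
    Polynomial.C (MvPolynomial.X (⟨i, l⟩ : Un w D)) * Polynomial.X ^ ((l : ℕ) + 1)

private theorem r2_map {k : Type} [Field k] {n D : ℕ} {w : Fin (n + 1) → ℕ}
    (G : MvPolynomial (Fin (n + 1)) k) (v : Fin (n + 1) → k) (c : Un w D → k) (j : ℕ) :
    MvPolynomial.eval c ((MvPolynomial.eval₂ (Polynomial.C.comp MvPolynomial.C) (r2_gen w D v) G).coeff j) =
      (MvPolynomial.aeval (crv w D v c) G).coeff j := by
  have h : Polynomial.map (MvPolynomial.eval c)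
      (MvPolynomial.eval₂ (Polynomial.C.comp MvPolynomial.C) (r2_gen w D v) G) =
      MvPolynomial.aeval (crv w D v c) G := by
    rw [← Polynomial.coe_mapRingHom, MvPolynomial.eval₂_comp_left, MvPolynomial.aeval_def]
    congr 1
    · ext a
      simp
    · funext i
      simp only [Function.comp_apply, r2_gen, crv, Polynomial.coe_mapRingHom, Polynomial.map_add,
        Polynomial.map_sum, Polynomial.map_mul, Polynomial.map_pow, Polynomial.map_C, Polynomial.map_X,
        MvPolynomial.eval_C, MvPolynomial.eval_X]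
  rw [← h, Polynomial.coeff_map]

private theorem r2_const {k : Type} [Field k] {n D : ℕ} {w : Fin (n + 1) → ℕ}
    (G : MvPolynomial (Fin (n + 1)) k) (v : Fin (n + 1) → k) (hGv : MvPolynomial.eval v G = 0) (j : ℕ) :
    (MvPolynomial.aeval (crv w D v (0 : Un w D → k)) G).coeff j = 0 := by
  have h : crv w D v (0 : Un w D → k) = fun i => Polynomial.C (v i) := by
    funext i
    unfold crv
    rw [Finset.sum_eq_zero, add_zero]
    intro l _
    rw [Pi.zero_apply, map_zero, zero_mul]
  have h2 : MvPolynomial.aeval (fun i => (Polynomial.C (v i) : Polynomial k)) G = 0 := by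
    have h3 := MvPolynomial.eval₂_comp_left (Polynomial.C : k →+* Polynomial k) (RingHom.id k) v G
    rw [RingHom.comp_id] at h3
    have h4 : MvPolynomial.eval₂ (RingHom.id k) v G = 0 := hGv
    rw [h4, map_zero] at h3
    rw [MvPolynomial.aeval_def]
    exact h3.symm
  rw [h, h2, Polynomial.coeff_zero]

private theorem r2_lin {k : Type} [Field k] (b : k) (N : ℕ) :
    ((1 + Polynomial.C b * Polynomial.X : Polynomial k) ^ N).coeff 1 = N * b := by
  have h := Polynomial.coeff_derivative ((1 + Polynomial.C b * Polynomial.X : Polynomial k) ^ N) 0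
  rw [zero_add, Nat.cast_zero, zero_add, mul_one] at h
  rw [← h, Polynomial.coeff_zero_eq_eval_zero, Polynomial.derivative_pow]
  simp

theorem contact {k : Type} [Field k] [IsAlgClosed k] [CharZero k] {n D g : ℕ}
    {w : Fin (n + 1) → ℕ} (hw : ∀ i, 0 < w i) (hD : 0 < D) (hg : 0 < g)
    {G : MvPolynomial (Fin (n + 1)) k} (hG : G.IsWeightedHomogeneous w g) {v : Fin (n + 1) → k}
    (hv : v ≠ 0) (hGv : MvPolynomial.eval v G = 0) (A : Ideal (MvPolynomial (Un w D) k))
    (hA : ∀ q ∈ A, MvPolynomial.constantCoeff q = 0)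
    (hdim : ((max (g * D) 2 : ℕ) : ℕ∞) ≤ dimAt A) :
    ∃ c : Un w D → k, (∀ q ∈ A, MvPolynomial.eval c q = 0) ∧ ¬ Triv w D v c ∧
      ∃ α β : k, MvPolynomial.aeval (crv w D v c) G =
        Polynomial.C α * Polynomial.X ^ (g * D - 1) + Polynomial.C β * Polynomial.X ^ (g * D) := by
  classical
  have hgD : 1 ≤ g * D := Nat.mul_pos hg hD
  obtain ⟨i₀, hi₀⟩ : ∃ i, v i ≠ 0 := by
    by_contra h
    push Not at h
    exact hv (funext h)
  have hw₀ : 0 < w i₀ * D := Nat.mul_pos (hw i₀) hD
  obtain ⟨c, hc0, hcA, hcf⟩ := common_zero (κ := Option (Fin (g * D - 2))) A hA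
    (fun o => o.elim (MvPolynomial.X (⟨i₀, ⟨0, hw₀⟩⟩ : Un w D)) fun j =>
      (MvPolynomial.eval₂ (Polynomial.C.comp MvPolynomial.C) (r2_gen w D v) G).coeff ((j : ℕ) + 1))
    (by
      rintro (_ | j)
      · simp only [Option.elim_none, MvPolynomial.constantCoeff_X]
      · have h := r2_map G v (0 : Un w D → k) ((j : ℕ) + 1)
        rw [r2_const G v hGv, MvPolynomial.eval_zero] at h
        exact h)
    (by
      refine lt_of_lt_of_le ?_ hdim
      rw [Nat.cast_lt, Fintype.card_option, Fintype.card_fin]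
      have h1 : g * D ≤ max (g * D) 2 := le_max_left _ _
      have h2 : 2 ≤ max (g * D) 2 := le_max_right _ _
      omega)
  have hc1 : c ⟨i₀, ⟨0, hw₀⟩⟩ = 0 := by
    have h := hcf none
    simpa only [Option.elim_none, MvPolynomial.eval_X] using h
  refine ⟨c, hcA, ?_, (MvPolynomial.aeval (crv w D v c) G).coeff (g * D - 1),
    (MvPolynomial.aeval (crv w D v c) G).coeff (g * D), ?_⟩
  · rintro ⟨b, hb⟩
    have h1 : (v i₀) * ((w i₀ * D : ℕ) * b) = 0 := by
      rw [← r2_lin, ← Polynomial.coeff_C_mul, ← hb i₀]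
      have h := r2_coeff v c i₀ ⟨0, hw₀⟩
      rw [hc1] at h
      exact h
    have hb0 : b = 0 := by
      rcases mul_eq_zero.1 h1 with h | h
      · exact absurd h hi₀
      · rcases mul_eq_zero.1 h with h | h
        · exact absurd (Nat.cast_eq_zero.1 h) hw₀.ne'
        · exact h
    apply hc0
    funext x
    obtain ⟨i, l⟩ := x
    rw [← r2_coeff v c i l, hb i, hb0, map_zero, zero_mul, add_zero, one_pow, mul_one,
      Polynomial.coeff_C_succ, Pi.zero_apply]
  · ext j
    rw [Polynomial.coeff_add, Polynomial.coeff_C_mul, Polynomial.coeff_C_mul, Polynomial.coeff_X_pow,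
      Polynomial.coeff_X_pow]
    by_cases h1 : j = g * D
    · rw [if_neg (by omega), if_pos h1, h1, mul_zero, zero_add, mul_one]
    by_cases h2 : j = g * D - 1
    · rw [if_pos h2, if_neg h1, h2, mul_zero, add_zero, mul_one]
    rw [if_neg h1, if_neg h2, mul_zero, mul_zero, add_zero]
    rcases Nat.lt_or_ge (g * D) j with h3 | h3
    · exact Polynomial.coeff_eq_zero_of_natDegree_lt
        ((r2_natDegree hG _ (r2_deg v c)).trans_lt h3)
    · rcases Nat.eq_zero_or_pos j with h4 | h4
      · rw [h4, r2_coeff_zero, hGv]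
      · have h := hcf (some ⟨j - 1, by omega⟩)
        simp only [Option.elim_some] at h
        rw [r2_map, Nat.sub_add_cancel h4] at h
        exact h

end Pool.Agent.Lib.MP_1e3e9c_agR
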