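import Mathlib
import Pool.Agent.Lib.MP_1e3e9c_agU.FmC
import Pool.Agent.Lib.MP_1e3e9c_agU.G0a
import Pool.Agent.Lib.MP_1e3e9c_agU.G0b
import Pool.Agent.Lib.MP_1e3e9c_agU.G0c
import Pool.Agent.Lib.MP_1e3e9c_agR.RDefs

/-!
# MP_1e3e9c_ag, project R, leaf R3: equations over all fields

Copy of the part `eqs` of `faw_of` (`MP_1e3e9c_agW/E0.lean`; only `WE0_ev`, `WE0_ev_map`, `WE0_pt`, `WE0_mem_inj` are
needed): if `P(f(x)) ≠ 0` over `M`, `WE0_pt` (`exists_point`) with the coefficients of `c` and the coordinates of `x` as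
unknowns gives a member over `k` and a point with `P(f(x)) ≠ 0`.
-/

set_option autoImplicit false

namespace Pool.Agent.Lib.MP_1e3e9c_agR

open Pool.Agent.Lib.MP_1e3e9c_agU Pool.Agent.Lib.MP_1e3e9c_agW

/-- the value of a form over a ring -/
private def R3_ev {R : Type} [CommRing R] {D : ℕ} (f : Fin (D + 1) → R) (x : Fin 2 → R) : R :=
  ∑ j : Fin (D + 1), f j * x 0 ^ (D - (j : ℕ)) * x 1 ^ (j : ℕ)

private theorem R3_ev_map {R : Type} [CommRing R] {M : Type} [Field M] (χ : R →+* M) {D : ℕ}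
    (f : Fin (D + 1) → R) (x : Fin 2 → R) :
    χ (R3_ev f x) = ev (fun j => χ (f j)) (fun a => χ (x a)) := by
  unfold R3_ev ev
  rw [map_sum]
  refine Finset.sum_congr rfl fun j _ => ?_
  rw [map_mul, map_mul, map_pow, map_pow]

private theorem R3_pt {k : Type} [Field k] [IsAlgClosed k] {L : Type} [Field L] {n D : ℕ}
    {I : Ideal (MvPolynomial (Fin (n + 1) × Fin (D + 1)) k)} (φ : k →+* L)
    (c : Fin (n + 1) → Fin (D + 1) → L) (hc : Mem φ I c) {τ : Type} [Finite τ] (x : τ → L)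
    (S : Set (MvPolynomial ((Fin (n + 1) × Fin (D + 1)) ⊕ τ) k))
    (Q : MvPolynomial ((Fin (n + 1) × Fin (D + 1)) ⊕ τ) k)
    (hS : ∀ P ∈ S, MvPolynomial.eval₂Hom φ (Sum.elim (fun q => c q.1 q.2) x) P = 0)
    (hQ : MvPolynomial.eval₂Hom φ (Sum.elim (fun q => c q.1 q.2) x) Q ≠ 0) :
    ∃ (c' : Fin (n + 1) → Fin (D + 1) → k) (y : τ → k), Mem (RingHom.id k) I c' ∧
      (∀ P ∈ S, MvPolynomial.eval (Sum.elim (fun q => c' q.1 q.2) y) P = 0) ∧
      MvPolynomial.eval (Sum.elim (fun q => c' q.1 q.2) y) Q ≠ 0 := by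
  obtain ⟨y, h1, h2⟩ := exists_point φ (S ∪ (MvPolynomial.rename Sum.inl '' (I : Set _))) Q
    (Sum.elim (fun q => c q.1 q.2) x) (by
      rintro P (hP | ⟨P, hP, rfl⟩)
      · exact hS P hP
      · rw [MvPolynomial.eval₂_rename]
        exact hc P hP) hQ
  have hy : Sum.elim (fun q : Fin (n + 1) × Fin (D + 1) => y (Sum.inl (q.1, q.2)))
      (fun t => y (Sum.inr t)) = y := by
    funext q
    rcases q with q | q <;> rfl
  refine ⟨fun i j => y (Sum.inl (i, j)), fun t => y (Sum.inr t), ?_, ?_, ?_⟩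
  · intro P hP
    have h3 := h1 _ (Or.inr ⟨P, hP, rfl⟩)
    rw [MvPolynomial.eval_rename] at h3
    exact h3
  · intro P hP
    rw [hy]
    exact h1 P (Or.inl hP)
  · rw [hy]
    exact h2

theorem eqs_of_k {k : Type} [Field k] [IsAlgClosed k] {n D : ℕ}
    {S : Set (MvPolynomial (Fin (n + 1)) k)}
    {I : Ideal (MvPolynomial (Fin (n + 1) × Fin (D + 1)) k)}
    (h : ∀ c : Fin (n + 1) → Fin (D + 1) → k, Mem (RingHom.id k) I c → InV S c)
    (L : Type) [Field L] (φ : k →+* L) (c : Fin (n + 1) → Fin (D + 1) → L) (hc : Mem φ I c) :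
    Eqs S φ c := by
  intro P hP M _ ψ x
  by_contra hne
  obtain ⟨c', y, h1, _, h3⟩ := R3_pt (ψ.comp φ) (fun i j => ψ (c i j)) (mem_map φ ψ I c hc) x ∅
    (MvPolynomial.eval₂ MvPolynomial.C (fun i => R3_ev
      (fun j => (MvPolynomial.X (Sum.inl (i, j)) :
        MvPolynomial ((Fin (n + 1) × Fin (D + 1)) ⊕ (Fin 2)) k))
      (fun a => MvPolynomial.X (Sum.inr a))) P)
    (fun P hP => absurd hP (Set.notMem_empty P)) (by
      rw [MvPolynomial.hom_eval₂]
      have e1 : (MvPolynomial.eval₂Hom (ψ.comp φ) (Sum.elim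
          (fun q : Fin (n + 1) × Fin (D + 1) => ψ (c q.1 q.2)) x)).comp MvPolynomial.C =
          ψ.comp φ := by
        ext a
        simp
      rw [e1]
      simp only [R3_ev_map, MvPolynomial.eval₂Hom_X', Sum.elim_inl, Sum.elim_inr]
      exact hne)
  apply h3
  have h4 := h c' h1 y P hP
  rw [MvPolynomial.hom_eval₂]
  have e1 : (MvPolynomial.eval (Sum.elim
      (fun q : Fin (n + 1) × Fin (D + 1) => c' q.1 q.2) y)).comp MvPolynomial.C =
      RingHom.id k := by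
    ext a
    simp
  rw [e1]
  simp only [R3_ev_map, MvPolynomial.eval_X, Sum.elim_inl, Sum.elim_inr]
  exact h4

end Pool.Agent.Lib.MP_1e3e9c_agR
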