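import Mathlib
import Pool.Agent.Lib.MP_1e3e9c_agU.FmC
import Pool.Agent.Lib.MP_1e3e9c_agU.Defs3
import Pool.Agent.Lib.MP_1e3e9c_agU.G0b
import Pool.Agent.Lib.MP_1e3e9c_agW.E2
import Pool.Agent.Lib.MP_1e3e9c_agR.RDefs

/-!
# MP_1e3e9c_ag, project R, leaf R4: the generic member of a prime family

Adapt `exists_norm_w` (`MP_1e3e9c_agW/E1.lean`, only its beginning: the generic point, `bpf_open`) and
`exists_dat_w` (`MP_1e3e9c_agW/E2.lean`). PROOF. `R = MvPolynomial _ k ⧸ P` is a domain, `F₀ = FractionRing R`, `φ₀`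
the composite `k → F₀`, `c₀ i j` the image of `X (i, j)`: `eval₂ φ₀ c₀ Q = 0` if and only if `Q ∈ P`. `c₀ 0 ≠ 0`: for
the given member `c` some `c 0 j ≠ 0`, so `X (0, j) ∉ P`. `BPF c₀`: `bpf_open` for `A = k[X]`, `h = X (i,j)`, `ψ` =
evaluation at `c`: `Δ(c) ≠ 0`, so `Δ ∉ P`, so the image of `Δ` in `F₀` is not `0`. `exists_fac (c₀ 0)` gives the finite
extension `E` of `F₀` and the factorisation (`Dat`). `FF`: as in E2 (`E` is finite over `F₀`, which is generated by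
the `c₀ i j` over `φ₀(k)`: every element of `FractionRing R` is a quotient of polynomials in the `c₀ i j`).
`eval₂ φ (D.c) Q = 0` in `E` gives `eval₂ φ₀ c₀ Q = 0` in `F₀` (injective), so `Q ∈ P`.
-/

set_option autoImplicit false

namespace Pool.Agent.Lib.MP_1e3e9c_agR

open Pool.Agent.Lib.MP_1e3e9c_agU Pool.Agent.Lib.MP_1e3e9c_agW

theorem dat_of_prime {k : Type} [Field k] [IsAlgClosed k] [CharZero k] {n d : ℕ}
    (P : Ideal (MvPolynomial (Fin (n + 1) × Fin (d + 1 + 1)) k)) (hP : P.IsPrime)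
    (hb : ∃ c : Fin (n + 1) → Fin (d + 1 + 1) → k, Mem (RingHom.id k) P c ∧ Bp c ∧ c 0 ≠ 0) :
    ∃ (F : Type) (_ : Field F) (_ : CharZero F) (φ : k →+* F) (D : Dat P φ) (m : ℕ),
      FF φ.fieldRange m ∧
      ∀ Q : MvPolynomial (Fin (n + 1) × Fin (d + 1 + 1)) k,
        MvPolynomial.eval₂ φ (fun q => D.c q.1 q.2) Q = 0 → Q ∈ P := by
  classical
  obtain ⟨c, hc, hcb, hc0⟩ := hb
  have hdom : IsDomain (MvPolynomial (Fin (n + 1) × Fin (d + 1 + 1)) k ⧸ P) :=
    Ideal.Quotient.isDomain P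
  -- the generic point
  obtain ⟨F₀, iF, χ, hχ, hdiv⟩ : ∃ (F₀ : Type) (_ : Field F₀)
      (χ : MvPolynomial (Fin (n + 1) × Fin (d + 1 + 1)) k →+* F₀), (∀ Q, χ Q = 0 ↔ Q ∈ P) ∧
      ∀ x : F₀, ∃ Q Q', x = χ Q / χ Q' := by
    refine ⟨FractionRing (MvPolynomial (Fin (n + 1) × Fin (d + 1 + 1)) k ⧸ P), inferInstance,
      (algebraMap _ (FractionRing (MvPolynomial (Fin (n + 1) × Fin (d + 1 + 1)) k ⧸ P))).comp
        (Ideal.Quotient.mk P), fun Q => ?_, fun x => ?_⟩
    · rw [RingHom.comp_apply]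
      constructor
      · intro h
        exact Ideal.Quotient.eq_zero_iff_mem.1
          ((map_eq_zero_iff _ (IsFractionRing.injective _ _)).1 h)
      · intro h
        rw [Ideal.Quotient.eq_zero_iff_mem.2 h, map_zero]
    · obtain ⟨a, b, hb, rfl⟩ := IsFractionRing.div_surjective
        (A := MvPolynomial (Fin (n + 1) × Fin (d + 1 + 1)) k ⧸ P) x
      obtain ⟨Q, rfl⟩ := Ideal.Quotient.mk_surjective a
      obtain ⟨Q', rfl⟩ := Ideal.Quotient.mk_surjective b
      exact ⟨Q, Q', rfl⟩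
  obtain ⟨φ₀, hφ₀⟩ : ∃ φ₀ : k →+* F₀, φ₀ = χ.comp MvPolynomial.C := ⟨_, rfl⟩
  obtain ⟨c₀, hc₀⟩ : ∃ c₀ : Fin (n + 1) → Fin (d + 1 + 1) → F₀,
    c₀ = fun i j => χ (MvPolynomial.X (i, j)) := ⟨_, rfl⟩
  have hev : ∀ Q : MvPolynomial (Fin (n + 1) × Fin (d + 1 + 1)) k,
      MvPolynomial.eval₂ φ₀ (fun q => c₀ q.1 q.2) Q = χ Q := by
    intro Q
    have h1 : MvPolynomial.eval₂Hom φ₀ (fun q : Fin (n + 1) × Fin (d + 1 + 1) => c₀ q.1 q.2) = χ := by
      refine MvPolynomial.ringHom_ext (fun a => ?_) fun q => ?_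
      · rw [MvPolynomial.eval₂Hom_C, hφ₀]
        rfl
      · rw [MvPolynomial.eval₂Hom_X', hc₀]
    exact RingHom.congr_fun h1 Q
  have hm₀ : Mem φ₀ P c₀ := fun Q hQ => by
    rw [hev]
    exact (hχ Q).2 hQ
  have hb₀ : BPF c₀ := by
    have hbc : BPF c := bpf_of_algClosed hcb
    obtain ⟨Δ, h1, h2⟩ := bpf_open (A := MvPolynomial (Fin (n + 1) × Fin (d + 1 + 1)) k)
      (fun i j => MvPolynomial.X (i, j)) (MvPolynomial.eval₂Hom (RingHom.id k) fun q => c q.1 q.2)
      (by simpa only [MvPolynomial.eval₂Hom_X'] using hbc)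
    rw [hc₀]
    refine h2 F₀ χ fun h3 => h1 ?_
    exact hc Δ ((hχ Δ).1 h3)
  have h0 : c₀ 0 ≠ 0 := by
    intro h1
    apply hc0
    funext j
    have h2 : χ (MvPolynomial.X (0, j)) = 0 := by
      have h3 := congrFun h1 j
      rw [hc₀] at h3
      exact h3
    have h3 := hc _ ((hχ _).1 h2)
    rw [MvPolynomial.eval₂_X] at h3
    exact h3
  have hch : CharZero F₀ := charZero_of_injective_ringHom φ₀.injective
  obtain ⟨E, fE, aE, fdE, e, p, he, hp, hfac⟩ := exists_fac (c₀ 0) h0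
  have hchE : CharZero E := charZero_of_injective_ringHom (algebraMap F₀ E).injective
  let φ' : k →+* E := (algebraMap F₀ E).comp φ₀
  let D : Dat P φ' :=
    { c := fun i j => algebraMap F₀ E (c₀ i j)
      p := p
      e := e
      mem := mem_map φ₀ (algebraMap F₀ E) P c₀ hm₀
      bpf := BPF.map (algebraMap F₀ E) hb₀
      pne := hp
      ene := he
      fac := hfac }
  have hevE : ∀ Q : MvPolynomial (Fin (n + 1) × Fin (d + 1 + 1)) k,
      MvPolynomial.eval₂ φ' (fun q => D.c q.1 q.2) Q = algebraMap F₀ E (χ Q) := by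
    intro Q
    rw [← hev, MvPolynomial.hom_eval₂]
  -- subfields of `E` which contain the generators contain `F₀`
  have hgen : ∀ M : Subfield E, (∀ a, φ' a ∈ M) → (∀ i j, D.c i j ∈ M) →
      ∀ x : F₀, algebraMap F₀ E x ∈ M := by
    intro M h1 h2 x
    have h3 : ∀ Q : MvPolynomial (Fin (n + 1) × Fin (d + 1 + 1)) k, algebraMap F₀ E (χ Q) ∈ M := by
      intro Q
      rw [← hevE]
      induction Q using MvPolynomial.induction_on with
      | C a =>
        rw [MvPolynomial.eval₂_C]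
        exact h1 a
      | add p q hp hq =>
        rw [MvPolynomial.eval₂_add]
        exact add_mem hp hq
      | mul_X p q hp =>
        rw [MvPolynomial.eval₂_mul, MvPolynomial.eval₂_X]
        exact mul_mem hp (h2 q.1 q.2)
    obtain ⟨Q, Q', rfl⟩ := hdiv x
    rw [map_div₀]
    exact div_mem (h3 Q) (h3 Q')
  -- finite generation
  have hfg : (⊤ : IntermediateField φ'.fieldRange E).FG := by
    let b := Module.finBasis F₀ E
    refine IntermediateField.fg_def.2 ⟨(Set.range fun q : Fin (n + 1) × Fin (d + 1 + 1) => D.c q.1 q.2) ∪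
      Set.range b, (Set.finite_range _).union (Set.finite_range _), ?_⟩
    rw [eq_top_iff]
    intro x _
    set N := IntermediateField.adjoin φ'.fieldRange
      ((Set.range fun q : Fin (n + 1) × Fin (d + 1 + 1) => D.c q.1 q.2) ∪ Set.range b) with hN'
    have hsub := IntermediateField.subset_adjoin φ'.fieldRange
      ((Set.range fun q : Fin (n + 1) × Fin (d + 1 + 1) => D.c q.1 q.2) ∪ Set.range b)
    have h1 : ∀ y : F₀, algebraMap F₀ E y ∈ N.toSubfield := by
      refine hgen N.toSubfield (fun a => ?_) (fun i j => ?_)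
      · exact N.algebraMap_mem ⟨φ' a, ⟨a, rfl⟩⟩
      · exact hsub (Or.inl ⟨(i, j), rfl⟩)
    rw [← b.sum_repr x]
    refine sum_mem fun i _ => ?_
    rw [Algebra.smul_def]
    exact mul_mem (h1 _) (hsub (Or.inr ⟨i, rfl⟩))
  have hess : Algebra.EssFiniteType φ'.fieldRange E := IntermediateField.fg_top_iff.1 hfg
  obtain ⟨m, hm'⟩ := Cardinal.lt_aleph0.1 (trdeg_lt_aleph0 φ'.fieldRange E)
  refine ⟨E, fE, hchE, φ', D, m, ⟨hfg, hm'⟩, fun Q hQ => ?_⟩
  rw [hevE] at hQ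
  exact (hχ Q).1 ((map_eq_zero (algebraMap F₀ E)).1 hQ)

end Pool.Agent.Lib.MP_1e3e9c_agR
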