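import Mathlib
import Pool.Agent.Lib.MP_1e3e9c_agU.G8
import Pool.Agent.Lib.MP_1e3e9c_agW.E7a
import Pool.Agent.Lib.MP_1e3e9c_agW.E7b
import Pool.Agent.Lib.MP_1e3e9c_agW.E7c
import Pool.Agent.Lib.MP_1e3e9c_agW.E8
import Pool.Agent.Lib.MP_1e3e9c_agW.H5
import Pool.Agent.Lib.MP_1e3e9c_agR.R3
import Pool.Agent.Lib.MP_1e3e9c_agR.R4

/-!
# MP_1e3e9c_ag, project R, R5: the theorem for one irreducible family in normal form
-/

set_option autoImplicit false

namespace Pool.Agent.Lib.MP_1e3e9c_agR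

open Pool.Agent.Lib.MP_1e3e9c_agU Pool.Agent.Lib.MP_1e3e9c_agW

private theorem R5_const {k A : Type} [Field k] [IsAlgClosed k] [Field A] (ψ : k →+* A)
    {K : Subfield A} (hK : K ≤ ψ.fieldRange) {z : A} (h : IsAlgebraic K z) :
    ∃ y : k, ψ y = z := by
  let := ψ.toAlgebra
  have h5 : IsAlgebraic k z := by
    obtain ⟨p, hp, hpz⟩ := h
    have h1 : ∀ x : K, ∃ y : k, ψ y = x := fun x => hK x.2
    choose θ hθ using h1
    have hθi : ∀ x y, θ x = θ y → x = y := fun x y hxy => Subtype.ext (by rw [← hθ x, ← hθ y, hxy])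
    let Θ : K →+* k :=
      { toFun := θ
        map_one' := ψ.injective (by rw [hθ, map_one]; rfl)
        map_mul' := fun x y => ψ.injective (by rw [hθ, map_mul, hθ, hθ]; rfl)
        map_zero' := ψ.injective (by rw [hθ, map_zero]; rfl)
        map_add' := fun x y => ψ.injective (by rw [hθ, map_add, hθ, hθ]; rfl) }
    refine ⟨p.map Θ, (Polynomial.map_ne_zero_iff Θ.injective).2 hp, ?_⟩
    rw [Polynomial.aeval_def, Polynomial.eval₂_map]
    have h2 : (algebraMap k A).comp Θ = algebraMap K A := by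
      ext x
      exact hθ x
    rw [h2]
    exact hpz
  have h6 : IsIntegral k z := h5.isIntegral
  exact minpoly.mem_range_of_degree_eq_one k z
    (IsAlgClosed.degree_eq_one_of_irreducible k (minpoly.irreducible h6))

private theorem R5_pr_div {F ι : Type} [Field F] {z z' : ι → F} (h : Pr z z') (i j : ι) :
    z' i / z' j = z i / z j := by
  obtain ⟨a, ha, hz'⟩ := h
  rw [hz', hz', mul_div_mul_left _ _ ha]

private theorem R5_pr_ne {F ι : Type} [Field F] {z z' : ι → F} (h : Pr z z') {j : ι}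
    (hj : z j ≠ 0) : z' j ≠ 0 := by
  obtain ⟨a, ha, hz'⟩ := h
  rw [hz']
  exact mul_ne_zero ha hj

/-- Exchange the two zeros. -/
private theorem R5_swap {k F : Type} [Field k] [Field F] {n d : ℕ}
    {S : Set (MvPolynomial (Fin (n + 1)) k)} {φ : k →+* F} (T : Two S φ d) :
    ∃ T' : Two S φ d, T'.c = T.c ∧ T'.p 0 = T.p 1 := by
  refine ⟨{ c := T.c
            p := ![T.p 1, T.p 0]
            mu := ![T.mu 1, T.mu 0]
            e := T.e
            eqs := T.eqs
            bpf := T.bpf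
            ene := T.ene
            wne := ?_
            mupos := ?_
            musum := ?_
            fac := ?_ }, rfl, rfl⟩
  · intro h
    apply T.wne
    unfold wd at h ⊢
    simp only [Matrix.cons_val_zero, Matrix.cons_val_one] at h
    linear_combination -h
  · intro a
    fin_cases a
    · exact T.mupos 1
    · exact T.mupos 0
  · have := T.musum
    simp only [Matrix.cons_val_zero, Matrix.cons_val_one]
    omega
  · intro M _ ψ x
    rw [T.fac M ψ x]
    simp only [Matrix.cons_val_zero, Matrix.cons_val_one]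
    ring

/-- A generic member is the specialisation of its generic translate. -/
private theorem R5_gen {k F : Type} [Field k] [Field F] {n D : ℕ}
    {P : Ideal (MvPolynomial (Fin (n + 1) × Fin (D + 1)) k)} {φ : k →+* F}
    {c : Fin (n + 1) → Fin (D + 1) → F}
    (hQ : ∀ Q : MvPolynomial (Fin (n + 1) × Fin (D + 1)) k,
      MvPolynomial.eval₂ φ (fun q => c q.1 q.2) Q = 0 → Q ∈ P) : Gen P φ c := by
  intro Q hQ0
  obtain ⟨A, hA⟩ := act_univ D
  obtain ⟨t, ht⟩ : ∃ t : Fin (n + 1) × Fin (D + 1) → MvPolynomial (Fin 2 × Fin 2) F,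
      t = fun q => MvPolynomial.eval₂ (Int.castRingHom _)
        (Sum.elim (fun i => MvPolynomial.C (c q.1 i)) (fun r => MvPolynomial.X r)) (A q.2) :=
    ⟨_, rfl⟩
  have h1 : ∀ q, algebraMap (MvPolynomial (Fin 2 × Fin 2) F) (GF F (Fin 2 × Fin 2)) (t q) =
      gt c q := by
    intro q
    unfold gt
    rw [hA, ht]
    simp only []
    rw [MvPolynomial.hom_eval₂]
    refine congrArg₂ (fun f g => MvPolynomial.eval₂ f g (A q.2)) (RingHom.ext_int _ _) ?_
    funext x
    rcases x with i | r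
    · simp only [Sum.elim_inl]
      rfl
    · simp only [Sum.elim_inr]
      rfl
  have h2 : ∀ q, MvPolynomial.eval (fun r : Fin 2 × Fin 2 => (1 : Matrix (Fin 2) (Fin 2) F) r.1 r.2)
      (t q) = c q.1 q.2 := by
    intro q
    rw [← congrFun (act_one (c q.1)) q.2, hA, ht]
    simp only []
    rw [MvPolynomial.hom_eval₂]
    refine congrArg₂ (fun f g => MvPolynomial.eval₂ f g (A q.2)) (RingHom.ext_int _ _) ?_
    funext x
    rcases x with i | r
    · simp only [Sum.elim_inl, MvPolynomial.eval_C]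
    · simp only [Sum.elim_inr, MvPolynomial.eval_X]
  have h3 : MvPolynomial.eval₂ ((MvPolynomial.C : F →+* MvPolynomial (Fin 2 × Fin 2) F).comp φ) t Q =
      0 := by
    apply IsFractionRing.injective (MvPolynomial (Fin 2 × Fin 2) F) (GF F (Fin 2 × Fin 2))
    rw [map_zero, MvPolynomial.hom_eval₂, ← hQ0]
    refine congrArg₂ (fun f g => MvPolynomial.eval₂ f g Q) ?_ (funext h1)
    rfl
  apply hQ
  have h4 := congrArg (MvPolynomial.eval
    (fun r : Fin 2 × Fin 2 => (1 : Matrix (Fin 2) (Fin 2) F) r.1 r.2)) h3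
  rw [map_zero, MvPolynomial.hom_eval₂] at h4
  rw [← h4]
  refine congrArg₂ (fun f g => MvPolynomial.eval₂ f g Q) ?_ (funext fun q => (h2 q).symm)
  ext a
  simp

private theorem R5_scale {k F : Type} [Field k] [Field F] {n s : ℕ} (φ : k →+* F)
    {H : MvPolynomial (Fin (n + 1)) k} (hH : H.IsHomogeneous s) (b : F) (u : Fin (n + 1) → F) :
    MvPolynomial.eval₂ φ (fun i => b * u i) H = b ^ s * MvPolynomial.eval₂ φ u H := by
  rw [MvPolynomial.eval₂_eq, MvPolynomial.eval₂_eq, Finset.mul_sum]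
  refine Finset.sum_congr rfl fun α hα => ?_
  have h1 : ∑ i, α i = s := by
    have h2 := hH (MvPolynomial.mem_support_iff.1 hα)
    rw [← h2, Finsupp.weight_apply, Finsupp.sum_fintype _ _ (fun i => by simp)]
    simp
  have h3 : (∏ i ∈ α.support, (b * u i) ^ α i) = b ^ s * ∏ i ∈ α.support, u i ^ α i := by
    simp only [mul_pow]
    rw [Finset.prod_mul_distrib, Finset.prod_pow_eq_pow_sum, ← h1]
    refine congrArg (fun e => b ^ e * _) ?_
    exact Finset.sum_subset (Finset.subset_univ _) fun i _ hi => Finsupp.notMem_support_iff.1 hi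
  rw [h3]
  ring

theorem direct_main {k : Type} [Field k] [IsAlgClosed k] [CharZero k] {n d : ℕ}
    {S : Set (MvPolynomial (Fin (n + 1)) k)} (hS : NR S) {i₁ : Fin (d + 1 + 1)} (hi : i₁ ≠ 0)
    (P : Ideal (MvPolynomial (Fin (n + 1) × Fin (d + 1 + 1)) k)) (hP : P.IsPrime)
    (hV : ∀ c : Fin (n + 1) → Fin (d + 1 + 1) → k, Mem (RingHom.id k) P c → InV S c)
    (h0 : ∀ c : Fin (n + 1) → Fin (d + 1 + 1) → k, Mem (RingHom.id k) P c →
      ∀ j, j ≠ i₁ → c 0 j = 0)
    (hb : ∃ c : Fin (n + 1) → Fin (d + 1 + 1) → k, Mem (RingHom.id k) P c ∧ Bp c ∧ c 0 ≠ 0)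
    (h4 : ((3 + 1 : ℕ) : WithBot ℕ∞) ≤ dm {v : Fin (n + 1) → k |
      ∃ c : Fin (n + 1) → Fin (d + 1 + 1) → k, Mem (RingHom.id k) P c ∧ v = fun i => c i 0}) :
    ∃ y : Fin (n + 1) → k, y 0 ≠ 0 ∧
      ∀ c : Fin (n + 1) → Fin (d + 1 + 1) → k, Mem (RingHom.id k) P c → Th c y := by
  classical
  obtain ⟨F, fF, cF, φ, D, m, hF, hQ⟩ := dat_of_prime P hP hb
  have hG : Gen P φ D.c := R5_gen hQ
  have hEq : Eqs S φ D.c := eqs_of_k hV F φ D.c D.mem
  -- members and the prime ideal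
  have hmem : ∀ (c : Fin (n + 1) → Fin (d + 1 + 1) → k), Mem (RingHom.id k) P c → ∀ Q ∈ P,
      MvPolynomial.eval (fun q : Fin (n + 1) × Fin (d + 1 + 1) => c q.1 q.2) Q = 0 :=
    fun c hc Q hQ' => hc Q hQ'
  -- the coordinates of `f_0`
  have hc0 : ∀ j, j ≠ i₁ → D.c 0 j = 0 := by
    intro j hj
    by_contra hne
    obtain ⟨y, hy, hy'⟩ := exists_point φ (P : Set (MvPolynomial (Fin (n + 1) × Fin (d + 1 + 1)) k))
      (MvPolynomial.X (0, j)) (fun q => D.c q.1 q.2) D.mem (by rwa [MvPolynomial.eval₂_X])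
    apply hy'
    rw [MvPolynomial.eval_X]
    exact h0 (fun i j => y (i, j)) (fun Q hQ' => hy Q hQ') j hj
  have hne0 : D.c 0 i₁ ≠ 0 := by
    intro h
    obtain ⟨c, hc, _, hcne⟩ := hb
    apply hcne
    funext j
    by_cases hj : j = i₁
    · subst hj
      have h1 : (MvPolynomial.X (0, j) : MvPolynomial (Fin (n + 1) × Fin (d + 1 + 1)) k) ∈ P := by
        apply hQ
        rw [MvPolynomial.eval₂_X]
        exact h
      have h2 := hmem c hc _ h1
      rwa [MvPolynomial.eval_X] at h2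
    · exact h0 c hc j hj
  have hev0 : ∀ x : Fin 2 → F, ev (D.c 0) x =
      D.c 0 i₁ * x 0 ^ (d + 1 - (i₁ : ℕ)) * x 1 ^ (i₁ : ℕ) := by
    intro x
    unfold ev
    rw [Finset.sum_eq_single i₁]
    · intro j _ hj
      rw [hc0 j hj, zero_mul, zero_mul]
    · intro h
      exact absurd (Finset.mem_univ _) h
  have hfac : ∀ x : Fin 2 → F, ev (D.c 0) x = D.e * ∏ l, wd (D.p l) x := by
    intro x
    exact D.fac F (RingHom.id F) x
  have hi1 : (i₁ : ℕ) ≠ 0 := fun h => hi (Fin.ext h)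
  have hpl : ∀ l, D.p l 0 = 0 ∨ D.p l 1 = 0 := by
    intro l
    have h1 : ev (D.c 0) (D.p l) = 0 := by
      rw [hfac, Finset.prod_eq_zero (Finset.mem_univ l), mul_zero]
      unfold wd
      ring
    rw [hev0] at h1
    rcases mul_eq_zero.1 h1 with h2 | h2
    · rcases mul_eq_zero.1 h2 with h3 | h3
      · exact absurd h3 hne0
      · exact Or.inl (eq_zero_of_pow_eq_zero h3)
    · exact Or.inr (eq_zero_of_pow_eq_zero h2)
  have hfew : D.few 2 := by
    obtain ⟨a, ha⟩ : ∃ a, ∀ l, D.p l 0 = 0 → D.p a 0 = 0 := by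
      by_cases h : ∃ a, D.p a 0 = 0
      · obtain ⟨a, ha⟩ := h
        exact ⟨a, fun _ _ => ha⟩
      · exact ⟨0, fun l hl => absurd ⟨l, hl⟩ h⟩
    obtain ⟨b, hb'⟩ : ∃ b, ∀ l, D.p l 1 = 0 → D.p b 1 = 0 := by
      by_cases h : ∃ a, D.p a 1 = 0
      · obtain ⟨a, ha⟩ := h
        exact ⟨a, fun _ _ => ha⟩
      · exact ⟨0, fun l hl => absurd ⟨l, hl⟩ h⟩
    refine ⟨{a, b}, Finset.card_le_two, fun l => ?_⟩
    rcases hpl l with h | h
    · refine ⟨a, by simp, ?_⟩
      unfold wd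
      rw [h, ha l h]
      ring
    · refine ⟨b, by simp, ?_⟩
      unfold wd
      rw [h, hb' l h]
      ring
  obtain ⟨l, hl1⟩ : ∃ l, D.p l 1 = 0 := by
    have h1 : ev (D.c 0) ![1, 0] = 0 := by
      rw [hev0, show (![1, 0] : Fin 2 → F) 1 = 0 from rfl, zero_pow hi1, mul_zero]
    rw [hfac, mul_eq_zero, or_iff_right D.ene, Finset.prod_eq_zero_iff] at h1
    obtain ⟨l, _, hl⟩ := h1
    refine ⟨l, ?_⟩
    unfold wd at hl
    simp only [Matrix.cons_val_zero, Matrix.cons_val_one] at hl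
    linear_combination -hl
  have hz : D.pt (D.p l) = fun i => D.p l 0 ^ (d + 1) * D.c i 0 := by
    funext i
    unfold Dat.pt ev
    rw [Finset.sum_eq_single 0]
    · simp only [Fin.val_zero, Nat.sub_zero, pow_zero, mul_one]
      ring
    · intro j _ hj
      rw [hl1, zero_pow (fun h => hj (Fin.ext h)), mul_zero]
    · intro h
      exact absurd (Finset.mem_univ _) h
  have hlne : D.p l 0 ≠ 0 := by
    intro h
    apply D.pne l
    funext a
    fin_cases a
    · exact h
    · exact hl1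
  -- the dimension
  have hPz : Pz φ (D.pt (D.p l)) ≤ MvPolynomial.vanishingIdeal k {v : Fin (n + 1) → k |
      ∃ c : Fin (n + 1) → Fin (d + 1 + 1) → k, Mem (RingHom.id k) P c ∧ v = fun i => c i 0} := by
    intro H hH
    rw [MvPolynomial.mem_vanishingIdeal_iff]
    rintro v ⟨c, hc, rfl⟩
    rw [MvPolynomial.aeval_eq_eval]
    rw [← MvPolynomial.sum_homogeneousComponent H, map_sum]
    refine Finset.sum_eq_zero fun s _ => ?_
    have h1 := (mem_Pz φ _ H).1 hH s
    rw [hz, R5_scale φ (MvPolynomial.homogeneousComponent_isHomogeneous s H), mul_eq_zero,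
      or_iff_right (pow_ne_zero _ (pow_ne_zero _ hlne))] at h1
    have h2 : MvPolynomial.rename (fun i : Fin (n + 1) => ((i, 0) : Fin (n + 1) × Fin (d + 1 + 1)))
        (MvPolynomial.homogeneousComponent s H) ∈ P := by
      apply hQ
      rw [MvPolynomial.eval₂_rename]
      exact h1
    have h3 := hmem c hc _ h2
    rw [MvPolynomial.eval_rename] at h3
    exact h3
  have hl : ((3 + 1 : ℕ) : WithBot ℕ∞) ≤
      ringKrullDim (MvPolynomial (Fin (n + 1)) k ⧸ Pz φ (D.pt (D.p l))) := by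
    refine h4.trans ?_
    exact ringKrullDim_le_of_surjective (Ideal.Quotient.factor hPz)
      (Ideal.Quotient.factor_surjective hPz)
  have hm3 : 3 ≤ m := le_of_dim φ hF _ hl
  obtain ⟨m', rfl⟩ : ∃ m', m = m' + 3 := ⟨m - 3, by omega⟩
  obtain ⟨i₀, i, hi₀, hind⟩ := indep_of_dim φ _ hl
  obtain ⟨d', T, N, g', hg', hcomp, hpr⟩ := exists_two D hEq hfew
  obtain ⟨a, ha⟩ := hpr l
  obtain ⟨T', hT'c, hT'p⟩ : ∃ T' : Two S φ d', T'.c = T.c ∧ T'.pt (T'.p 0) = T.pt (T.p a) := by
    fin_cases a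
    · exact ⟨T, rfl, rfl⟩
    · obtain ⟨T', h1, h2⟩ := R5_swap T
      refine ⟨T', h1, ?_⟩
      unfold Two.pt
      rw [h1, h2]
      rfl
  have hi₀' : T'.pt (T'.p 0) i₀ ≠ 0 := by
    rw [hT'p]
    exact R5_pr_ne ha hi₀
  have hind' : AlgebraicIndependent φ.fieldRange
      (fun j => T'.pt (T'.p 0) (i j) / T'.pt (T'.p 0) i₀) := by
    rw [hT'p]
    have h1 : (fun j => T.pt (T.p a) (i j) / T.pt (T.p a) i₀) =
        fun j => D.pt (D.p l) (i j) / D.pt (D.p l) i₀ := funext fun j => R5_pr_div ha _ _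
    rw [h1]
    exact hind
  obtain ⟨A, fA, aA, q, hq, hq0, hcon⟩ := Two.core2 hS T' (K := φ.fieldRange)
    (fun a => ⟨a, rfl⟩) m' hF i₀ i hi₀' hind'
  -- the point
  have hKle : upK A φ.fieldRange ≤ ((algebraMap F A).comp φ).fieldRange := by
    rintro _ ⟨_, ⟨t, rfl⟩, rfl⟩
    exact ⟨t, rfl⟩
  have hy : ∀ i, ∃ t : k, algebraMap F A (φ t) =
      ev (fun j => algebraMap F A (T'.c i j)) q / ev (fun j => algebraMap F A (T'.c 0 j)) q := by
    intro i
    exact R5_const ((algebraMap F A).comp φ) hKle (hcon i 0 hq0)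
  choose y hy using hy
  have hy0 : y 0 ≠ 0 := by
    intro h0
    have h1 := hy 0
    rw [h0, map_zero, map_zero, div_self hq0] at h1
    exact zero_ne_one h1
  have hw : ∀ i, ev (fun j => algebraMap F A (T'.c i j)) q =
      ev (fun j => algebraMap F A (T'.c 0 j)) q * algebraMap F A (φ (y i)) := by
    intro i
    rw [hy i, mul_div_cancel₀ _ hq0]
  obtain ⟨i, hi⟩ := hg' A (algebraMap F A) q hq
  refine ⟨y, hy0, fun c' hc' => all_through φ D.c hG A
    (fun a => ev (fun j => algebraMap F A (g' a j)) q) ?_ y ?_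
    (ev (fun j => algebraMap F A (T'.c 0 j)) q) ?_ c' hc'⟩
  · intro h0
    exact hi (congrFun h0 i)
  · intro h0
    exact hy0 (congrFun h0 0)
  · intro i
    have h1 := hcomp A (algebraMap F A) q i
    unfold ptA
    rw [← h1, ← hT'c]
    exact hw i

end Pool.Agent.Lib.MP_1e3e9c_agR
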