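import Mathlib
import Pool.Agent.Lib.MP_1e3e9c_agR.R5
import Pool.Agent.Lib.MP_1e3e9c_agR.R6

/-!
# MP_1e3e9c_ag, project R, leaf R7: the components of the families in normal form

PROOF. `Z` = the set of all `c : Fin (n+1) → Fin (d+2) → k` with `InV S c` and `c 0 j = 0` for `j ≠ i₁`. It is the zero
set of the ideal `J` = vanishing ideal of `Z` (as a set of points of `Fin (n+1) × Fin (d+2) → k`): a common zero `c` of
`J` is in `Z`, because for `P ∈ S` and `x : Fin 2 → k` the polynomial `P(ev (X ..) x)` in the coefficients is in `J`, and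
so are the `X (0, j)`, `j ≠ i₁`. `J` has finitely many minimal primes (`Ideal.finite_minimalPrimes_of_isNoetherianRing`),
and every `c` in `Z` is a zero of one of them: the ideal of the point `c` is a prime which contains `J`, so it
contains a minimal prime of `J` (`Ideal.exists_minimalPrimes_le`). For a minimal prime `P` put
`B_P = {fun i => c i 0 | Mem id P c}` and `Y_P = {y}` with the `y` of `direct_main` (leaf R5) if `P` has a member `c`
with `Bp c`, `c 0 ≠ 0`, and `dm B_P ≥ 4`; `Y_P = ∅` otherwise. `Y` = the union of the `Y_P`. The set in question is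
contained in the union of the `B_P` with `dm B_P ≤ 3` (if `dm B_P` is not `≥ 4` it is `≤ 3`: `WithBot ℕ∞`): `dm_mono`,
`dm_iUnion`. (`P` is a zero of `J`, so all members of `P` are in `Z`.)
-/

set_option autoImplicit false

namespace Pool.Agent.Lib.MP_1e3e9c_agR

open Pool.Agent.Lib.MP_1e3e9c_agU Pool.Agent.Lib.MP_1e3e9c_agW

private lemma r7_le {x : WithBot ℕ∞} (h : ¬ (((3 + 1 : ℕ) : WithBot ℕ∞) ≤ x)) : x ≤ ((3 : ℕ) : WithBot ℕ∞) := by
  induction x using WithBot.recBotCoe with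
  | bot => exact bot_le
  | coe a =>
    have h1 : a < ((3 + 1 : ℕ) : ℕ∞) := by
      by_contra hc
      apply h
      have h2 : ((3 + 1 : ℕ) : ℕ∞) ≤ a := not_lt.1 hc
      exact WithBot.coe_le_coe.2 h2
    have h3 : a ≤ ((3 : ℕ) : ℕ∞) := by
      have h4 : a < ((3 : ℕ) : ℕ∞) + 1 := by
        have h5 : ((3 + 1 : ℕ) : ℕ∞) = ((3 : ℕ) : ℕ∞) + 1 := by norm_num
        rw [← h5]
        exact h1
      exact (ENat.lt_add_one_iff (ENat.natCast_ne_top 3)).1 h4
    exact WithBot.coe_le_coe.2 h3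

/-- The equation `P(ev c x) = 0` in the coefficients. -/
private noncomputable def r7q {k : Type} [Field k] {n D : ℕ} (P : MvPolynomial (Fin (n + 1)) k) (x : Fin 2 → k) :
    MvPolynomial (Fin (n + 1) × Fin (D + 1)) k :=
  MvPolynomial.bind₁ (fun i => ∑ j : Fin (D + 1),
    MvPolynomial.X (i, j) * MvPolynomial.C (x 0 ^ (D - (j : ℕ))) * MvPolynomial.C (x 1 ^ (j : ℕ))) P

private lemma r7q_aeval {k : Type} [Field k] {n D : ℕ} (P : MvPolynomial (Fin (n + 1)) k) (x : Fin 2 → k)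
    (e : Fin (n + 1) × Fin (D + 1) → k) :
    MvPolynomial.aeval e (r7q (D := D) P x) = MvPolynomial.eval (fun i => ev (fun j => e (i, j)) x) P := by
  unfold r7q
  rw [MvPolynomial.aeval_bind₁, ← MvPolynomial.aeval_eq_eval]
  congr 1
  congr 1
  funext i
  unfold ev
  rw [map_sum]
  refine Finset.sum_congr rfl fun j _ => ?_
  rw [map_mul, map_mul, MvPolynomial.aeval_X, MvPolynomial.aeval_C, MvPolynomial.aeval_C]
  rfl

theorem comp_family {k : Type} [Field k] [IsAlgClosed k] [CharZero k] {n d : ℕ}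
    {S : Set (MvPolynomial (Fin (n + 1)) k)} (hS : NR S) (i₁ : Fin (d + 1 + 1)) (hi : i₁ ≠ 0) :
    ∃ Y : Finset (Fin (n + 1) → k), (∀ y ∈ Y, y 0 ≠ 0) ∧
      dm {v : Fin (n + 1) → k | ∃ c : Fin (n + 1) → Fin (d + 1 + 1) → k, InV S c ∧
        (∀ j, j ≠ i₁ → c 0 j = 0) ∧ c 0 ≠ 0 ∧ Bp c ∧ v = (fun i => c i 0) ∧
        ∀ y ∈ Y, ¬ Th c y} ≤ (3 : ℕ) := by
  classical
  set Z : Set (Fin (n + 1) × Fin (d + 1 + 1) → k) :=
    {e | InV S (fun i j => e (i, j)) ∧ ∀ j, j ≠ i₁ → e (0, j) = 0} with hZ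
  set J : Ideal (MvPolynomial (Fin (n + 1) × Fin (d + 1 + 1)) k) := MvPolynomial.vanishingIdeal k Z with hJ
  -- the zero set of `J` is `Z`
  have hzero : ∀ e : Fin (n + 1) × Fin (d + 1 + 1) → k, (∀ p ∈ J, MvPolynomial.aeval e p = 0) → e ∈ Z := by
    intro e he
    refine ⟨?_, ?_⟩
    · intro x P hP
      have h1 : r7q (D := d + 1) P x ∈ J := by
        rw [hJ, MvPolynomial.mem_vanishingIdeal_iff]
        intro e' he'
        rw [r7q_aeval]
        exact he'.1 x P hP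
      have h2 := he _ h1
      rw [r7q_aeval] at h2
      exact h2
    · intro j hj
      have h1 : (MvPolynomial.X (0, j) : MvPolynomial (Fin (n + 1) × Fin (d + 1 + 1)) k) ∈ J := by
        rw [hJ, MvPolynomial.mem_vanishingIdeal_iff]
        intro e' he'
        rw [MvPolynomial.aeval_X]
        exact he'.2 j hj
      have h2 := he _ h1
      rw [MvPolynomial.aeval_X] at h2
      exact h2
  have hmem : ∀ (P : Ideal (MvPolynomial (Fin (n + 1) × Fin (d + 1 + 1)) k)), J ≤ P →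
      ∀ c : Fin (n + 1) → Fin (d + 1 + 1) → k, Mem (RingHom.id k) P c →
        (fun q : Fin (n + 1) × Fin (d + 1 + 1) => c q.1 q.2) ∈ Z := by
    intro P hP c hc
    refine hzero _ fun p hp => ?_
    have h1 := hc p (hP hp)
    rw [MvPolynomial.aeval_def]
    exact h1
  -- the minimal primes
  have hfin : J.minimalPrimes.Finite := J.finite_minimalPrimes_of_isNoetherianRing
  set B : Ideal (MvPolynomial (Fin (n + 1) × Fin (d + 1 + 1)) k) → Set (Fin (n + 1) → k) :=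
    fun P => {v | ∃ c : Fin (n + 1) → Fin (d + 1 + 1) → k, Mem (RingHom.id k) P c ∧ v = fun i => c i 0} with hB
  have hY : ∀ P : Ideal (MvPolynomial (Fin (n + 1) × Fin (d + 1 + 1)) k), ∃ Y : Finset (Fin (n + 1) → k),
      (∀ y ∈ Y, y 0 ≠ 0) ∧ (P ∈ J.minimalPrimes →
        (∃ c : Fin (n + 1) → Fin (d + 1 + 1) → k, Mem (RingHom.id k) P c ∧ Bp c ∧ c 0 ≠ 0) →
        ((3 + 1 : ℕ) : WithBot ℕ∞) ≤ dm (B P) →
        ∃ y ∈ Y, ∀ c : Fin (n + 1) → Fin (d + 1 + 1) → k, Mem (RingHom.id k) P c → Th c y) := by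
    intro P
    by_cases hg : P ∈ J.minimalPrimes ∧
        (∃ c : Fin (n + 1) → Fin (d + 1 + 1) → k, Mem (RingHom.id k) P c ∧ Bp c ∧ c 0 ≠ 0) ∧
        ((3 + 1 : ℕ) : WithBot ℕ∞) ≤ dm (B P)
    · obtain ⟨hg1, hg2, hg3⟩ := hg
      have hJP : J ≤ P := hg1.1.2
      obtain ⟨y, hy0, hy⟩ := direct_main hS hi P hg1.1.1
        (fun c hc => (hmem P hJP c hc).1) (fun c hc => (hmem P hJP c hc).2) hg2 hg3
      refine ⟨{y}, ?_, fun _ _ _ => ⟨y, Finset.mem_singleton_self y, hy⟩⟩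
      intro y' hy'
      rw [Finset.mem_singleton.1 hy']
      exact hy0
    · exact ⟨∅, fun y hy => absurd hy (Finset.notMem_empty y), fun h1 h2 h3 => absurd ⟨h1, h2, h3⟩ hg⟩
  choose Y hY0 hY1 using hY
  refine ⟨hfin.toFinset.biUnion Y, ?_, ?_⟩
  · intro y hy
    obtain ⟨P, _, hyP⟩ := Finset.mem_biUnion.1 hy
    exact hY0 P y hyP
  · have : Finite {P : Ideal (MvPolynomial (Fin (n + 1) × Fin (d + 1 + 1)) k) //
        P ∈ J.minimalPrimes ∧ dm (B P) ≤ ((3 : ℕ) : WithBot ℕ∞)} :=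
      (hfin.subset fun P hP => hP.1).to_subtype
    refine le_trans (dm_mono ?_) (dm_iUnion (fun P : {P : Ideal (MvPolynomial (Fin (n + 1) × Fin (d + 1 + 1)) k) //
        P ∈ J.minimalPrimes ∧ dm (B P) ≤ ((3 : ℕ) : WithBot ℕ∞)} => B P.1) 3 fun P => P.2.2)
    rintro v ⟨c, hc1, hc2, hc3, hc4, rfl, hc5⟩
    have hcZ : (fun q : Fin (n + 1) × Fin (d + 1 + 1) => c q.1 q.2) ∈ Z := ⟨hc1, hc2⟩
    have hker : J ≤ RingHom.ker (MvPolynomial.aeval (R := k)
        (fun q : Fin (n + 1) × Fin (d + 1 + 1) => c q.1 q.2)).toRingHom := by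
      intro p hp
      rw [RingHom.mem_ker]
      rw [hJ, MvPolynomial.mem_vanishingIdeal_iff] at hp
      exact hp _ hcZ
    have : (RingHom.ker (MvPolynomial.aeval (R := k)
        (fun q : Fin (n + 1) × Fin (d + 1 + 1) => c q.1 q.2)).toRingHom).IsPrime := RingHom.ker_isPrime _
    obtain ⟨P, hP, hPle⟩ := Ideal.exists_minimalPrimes_le hker
    have hmc : Mem (RingHom.id k) P c := by
      intro p hp
      have h1 := hPle hp
      rw [RingHom.mem_ker] at h1
      have h2 : MvPolynomial.aeval (R := k) (fun q : Fin (n + 1) × Fin (d + 1 + 1) => c q.1 q.2) p = 0 := h1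
      rw [MvPolynomial.aeval_def] at h2
      exact h2
    have hdm : dm (B P) ≤ ((3 : ℕ) : WithBot ℕ∞) := by
      by_contra hcon
      have h4 : ((3 + 1 : ℕ) : WithBot ℕ∞) ≤ dm (B P) := by
        by_contra h5
        exact hcon (r7_le h5)
      obtain ⟨y, hy, hy2⟩ := hY1 P hP ⟨c, hmc, hc4, hc3⟩ h4
      exact hc5 y (Finset.mem_biUnion.2 ⟨P, hfin.mem_toFinset.2 hP, hy⟩) (hy2 c hmc)
    exact Set.mem_iUnion.2 ⟨⟨P, hP, hdm⟩, c, hmc, rfl⟩

end Pool.Agent.Lib.MP_1e3e9c_agR
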