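import Mathlib
import Pool.Agent.Lib.MP_1e3e9c_agR.RDefs

/-!
# MP_1e3e9c_ag, project R, leaf R8: common factors

`exists_bp`: `f_i(t) = c_i(1, t)`, a polynomial in `t` of degree `≤ D`; `g` = the gcd of the `f_i` (`EuclideanDomain`,
`Finset.gcd`), `f_i = g h_i`, the `h_i` have no common zero; `D' = max (natDegree h_i)`, `h` = the form of degree
`D - D'` with coefficients of `g` (`natDegree g + D' ≤ D`), `c'` = the tuple with the coefficients of the `h_i`. No
common zero: at `x` with `x 0 ≠ 0` because the `h_i` have none, at `(0, x_1)` because the coefficient of degree `D'`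
of some `h_i` is not `0`. This is the first half of the proof of `minors_of_norat` (`MP_1e3e9c_agW/N2.lean`, see
`N2_pl`, `N2_ev`): copy it. The identity holds for `x 0 ≠ 0`, hence everywhere (polynomials, `k` infinite).

`dvd_two`: `f'(1, t)` divides `u t^i (a + b t)^j`, all not `0`; `t` is prime and `a + b t` is a unit, or zero, or prime
up to a constant, so `f'(1, t) = u' t^i' (a + b t)^j'` (if `b = 0` take `j'` = `M'` minus the degree, and so on:
compare degrees: `ev f' x` is homogeneous of degree `M'`, so `ev f' x = x_0^M' f'(1, x_1/x_0)`, and if `b = 0` the form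
`a x_0 + b x_1` is `a x_0`). Or: by induction on `i + j`: if `i > 0` and `h(1,0) ≠ 0`, then `f'(1, 0) = 0` and `x_1`
divides `f'`; a common treatment: for a linear form `l` (`x_1` or `a x_0 + b x_1`, `(a,b) ≠ 0`) and forms `h`, `f'`
with `h f' = l q` either `l ∣ h` or `l ∣ f'` (evaluate at the zero of `l`).
-/

set_option autoImplicit false

namespace Pool.Agent.Lib.MP_1e3e9c_agR

open Pool.Agent.Lib.MP_1e3e9c_agU Pool.Agent.Lib.MP_1e3e9c_agW

private theorem R8_poly {k : Type} [Field k] {D : ℕ} (c : Fin (D + 1) → k) :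
    ∃ F : Polynomial k, F.natDegree ≤ D ∧ ∀ j : Fin (D + 1), F.coeff (j : ℕ) = c j := by
  classical
  refine ⟨∑ j : Fin (D + 1), Polynomial.monomial (j : ℕ) (c j), ?_, fun j => ?_⟩
  · refine Polynomial.natDegree_sum_le_of_forall_le _ _ fun j _ => ?_
    exact (Polynomial.natDegree_monomial_le _).trans (Nat.lt_succ_iff.1 j.2)
  · rw [Polynomial.finsetSum_coeff, Finset.sum_eq_single j]
    · rw [Polynomial.coeff_monomial, if_pos rfl]
    · intro i' _ hi
      rw [Polynomial.coeff_monomial, if_neg]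
      exact fun h => hi (Fin.ext h)
    · intro h
      exact absurd (Finset.mem_univ j) h

/-- The value of the homogenisation. -/
private theorem R8_ev {k : Type} [Field k] {D : ℕ} {f : Polynomial k} (hf : f.natDegree ≤ D) {x : Fin 2 → k}
    (hx : x 0 ≠ 0) : ev (fun j : Fin (D + 1) => f.coeff (j : ℕ)) x = x 0 ^ D * f.eval (x 1 / x 0) := by
  rw [Polynomial.eval_eq_sum_range' (Nat.lt_succ_of_le hf), Finset.mul_sum, ← Fin.sum_univ_eq_sum_range
    (fun i => x 0 ^ D * (f.coeff i * (x 1 / x 0) ^ i)) (D + 1)]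
  unfold ev
  refine Finset.sum_congr rfl fun j _ => ?_
  have hj : (j : ℕ) ≤ D := Nat.lt_succ_iff.1 j.2
  have h1 : x 0 ^ D = x 0 ^ (D - (j : ℕ)) * x 0 ^ (j : ℕ) := by
    rw [← pow_add, Nat.sub_add_cancel hj]
  rw [h1, div_pow]
  have h2 : x 0 ^ (j : ℕ) ≠ 0 := pow_ne_zero _ hx
  field_simp

/-- The value at `(0, x_1)`. -/
private theorem R8_ev0 {k : Type} [Field k] {D : ℕ} (f : Polynomial k) {x : Fin 2 → k}
    (hx : x 0 = 0) : ev (fun j : Fin (D + 1) => f.coeff (j : ℕ)) x = f.coeff D * x 1 ^ D := by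
  unfold ev
  rw [Finset.sum_eq_single (Fin.last D)]
  · rw [Fin.val_last, Nat.sub_self, pow_zero, mul_one]
    rfl
  · intro b _ hb
    have h5 : (b : ℕ) < D := Fin.lt_last_iff_ne_last.2 hb
    rw [hx, zero_pow (by omega), mul_zero, zero_mul]
  · intro h0
    exact absurd (Finset.mem_univ _) h0

/-- The form of a product. -/
private theorem R8_mul {k : Type} [Field k] {D E d : ℕ} (hD : E + d = D) {g h : Polynomial k}
    (hg : g.natDegree ≤ E) (hh : h.natDegree ≤ d) (x : Fin 2 → k) :
    ev (fun j : Fin (D + 1) => (g * h).coeff (j : ℕ)) x =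
      ev (fun j : Fin (E + 1) => g.coeff (j : ℕ)) x * ev (fun j : Fin (d + 1) => h.coeff (j : ℕ)) x := by
  subst hD
  by_cases hx : x 0 = 0
  · rw [R8_ev0 _ hx, R8_ev0 _ hx, R8_ev0 _ hx, Polynomial.coeff_mul_add_eq_of_natDegree_le hg hh, pow_add]
    ring
  · rw [R8_ev (Polynomial.natDegree_mul_le.trans (Nat.add_le_add hg hh)) hx, R8_ev hg hx, R8_ev hh hx,
      Polynomial.eval_mul, pow_add]
    ring

/-- A form of positive degree over an algebraically closed field has a zero. -/
private theorem R8_zero {k : Type} [Field k] [IsAlgClosed k] {m : ℕ} (f : Fin (m + 1 + 1) → k) :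
    ∃ p : Fin 2 → k, p ≠ 0 ∧ ev f p = 0 := by
  obtain ⟨F, hF, hc⟩ := R8_poly f
  have hfe : f = fun j : Fin (m + 1 + 1) => F.coeff (j : ℕ) := funext fun j => (hc j).symm
  by_cases h0 : F.coeff (m + 1) = 0
  · refine ⟨![0, 1], ?_, ?_⟩
    · intro h
      have := congrFun h 1
      simp at this
    · rw [hfe, R8_ev0 F (x := ![0, 1]) rfl, h0, zero_mul]
  · have hd : F.natDegree = m + 1 := le_antisymm hF (Polynomial.le_natDegree_of_ne_zero h0)
    obtain ⟨t, ht⟩ := IsAlgClosed.exists_root F (by
      intro h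
      have := Polynomial.natDegree_eq_zero_iff_degree_le_zero.2 h.le
      omega)
    have h1 : (![1, t] : Fin 2 → k) 0 ≠ 0 := one_ne_zero
    refine ⟨![1, t], ?_, ?_⟩
    · intro h
      have := congrFun h 0
      simp at this
    · rw [hfe, R8_ev hF h1]
      have h2 : (![1, t] : Fin 2 → k) 1 / (![1, t] : Fin 2 → k) 0 = t := by simp
      rw [h2, ht, mul_zero]

/-- A form which vanishes at `p` is divisible by `wd p x`. -/
private theorem R8_div {k : Type} [Field k] {m : ℕ} (f : Fin (m + 1 + 1) → k) {p : Fin 2 → k}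
    (hp : p ≠ 0) (h : ev f p = 0) : ∃ f' : Fin (m + 1) → k, ∀ x, ev f x = wd p x * ev f' x := by
  obtain ⟨F, hF, hc⟩ := R8_poly f
  have hfe : f = fun j : Fin (m + 1 + 1) => F.coeff (j : ℕ) := funext fun j => (hc j).symm
  have hsm : ∀ (a : k) (c : Fin (m + 1) → k) (x : Fin 2 → k), ev (fun j => a * c j) x = a * ev c x := by
    intro a c x
    unfold ev
    rw [Finset.mul_sum]
    exact Finset.sum_congr rfl fun j _ => by ring
  by_cases h0 : p 0 = 0
  · have hp1 : p 1 ≠ 0 := by
      intro h1
      apply hp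
      funext a
      fin_cases a
      · exact h0
      · exact h1
    rw [hfe, R8_ev0 F h0] at h
    have h2 : F.coeff (m + 1) = 0 := (mul_eq_zero.1 h).resolve_right (pow_ne_zero _ hp1)
    have hF' : F.natDegree ≤ m := by
      by_contra hcon
      have h3 : F.natDegree = m + 1 := by omega
      have h4 : F ≠ 0 := by
        rintro rfl
        simp at h3
      apply Polynomial.leadingCoeff_ne_zero.2 h4
      rw [Polynomial.leadingCoeff, h3, h2]
    refine ⟨fun j => (-(p 1)⁻¹) * F.coeff (j : ℕ), fun x => ?_⟩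
    have h5 := R8_mul (D := m + 1) (E := 1) (d := m) (by omega) (g := 1) (h := F)
      (by simp) hF' x
    rw [one_mul] at h5
    rw [hfe, h5, hsm]
    have h6 : ev (fun j : Fin (1 + 1) => (1 : Polynomial k).coeff (j : ℕ)) x = x 0 := by
      unfold ev
      rw [Fin.sum_univ_two]
      simp [Polynomial.coeff_one]
    rw [h6]
    unfold wd
    rw [h0]
    field_simp
    ring
  · have hroot : F.eval (p 1 / p 0) = 0 := by
      rw [hfe, R8_ev hF h0] at h
      exact (mul_eq_zero.1 h).resolve_left (pow_ne_zero _ h0)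
    obtain ⟨Q, hQ⟩ := Polynomial.dvd_iff_isRoot.2 hroot
    have hQd : Q.natDegree ≤ m := by
      by_cases hQ0 : Q = 0
      · rw [hQ0]
        simp
      · have h3 : F.natDegree = 1 + Q.natDegree := by
          rw [hQ, Polynomial.natDegree_mul (Polynomial.X_sub_C_ne_zero _) hQ0, Polynomial.natDegree_X_sub_C]
        omega
    refine ⟨fun j => (p 0)⁻¹ * Q.coeff (j : ℕ), fun x => ?_⟩
    have h5 := R8_mul (D := m + 1) (E := 1) (d := m) (by omega)
      (g := Polynomial.X - Polynomial.C (p 1 / p 0)) (h := Q) (Polynomial.natDegree_X_sub_C_le _) hQd x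
    rw [hfe, hQ, h5, hsm]
    have h6 : ev (fun j : Fin (1 + 1) => (Polynomial.X - Polynomial.C (p 1 / p 0) : Polynomial k).coeff
        (j : ℕ)) x = x 1 - p 1 / p 0 * x 0 := by
      unfold ev
      rw [Fin.sum_univ_two]
      simp [Polynomial.coeff_X, Polynomial.coeff_C]
      ring
    rw [h6]
    unfold wd
    field_simp

/-- A form all of whose zeros are `(1, 0)` and the zero of `a x_0 + b x_1`. -/
private theorem R8_ind {k : Type} [Field k] [IsAlgClosed k] (a b : k) : ∀ (M : ℕ) (f : Fin (M + 1) → k),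
    (∀ x : Fin 2 → k, x ≠ 0 → ev f x = 0 → x 1 = 0 ∨ (a * x 0 + b * x 1 = 0 ∧ (a ≠ 0 ∨ b ≠ 0))) →
      ∃ (u : k) (i j : ℕ), ∀ x : Fin 2 → k, ev f x = u * x 1 ^ i * (a * x 0 + b * x 1) ^ j := by
  intro M
  induction M with
  | zero =>
    intro f _
    refine ⟨f 0, 0, 0, fun x => ?_⟩
    unfold ev
    simp
  | succ m ih =>
    intro f hf
    obtain ⟨p, hp, hfp⟩ := R8_zero f
    obtain ⟨f', hf'⟩ := R8_div f hp hfp
    obtain ⟨u, i, j, huij⟩ := ih f' fun x hx h => hf x hx (by rw [hf', h, mul_zero])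
    rcases hf p hp hfp with h1 | ⟨h1, h2⟩
    · refine ⟨p 0 * u, i + 1, j, fun x => ?_⟩
      rw [hf', huij]
      unfold wd
      rw [h1]
      ring
    · obtain ⟨s, hs⟩ : ∃ s : k, ∀ x : Fin 2 → k, wd p x = s * (a * x 0 + b * x 1) := by
        rcases h2 with ha | hb
        · refine ⟨-p 1 / a, fun x => ?_⟩
          have h3 : p 0 = -(b * p 1) / a := by
            field_simp
            linear_combination h1
          unfold wd
          rw [h3]
          field_simp
          ring
        · refine ⟨p 0 / b, fun x => ?_⟩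
          have h3 : p 1 = -(a * p 0) / b := by
            field_simp
            linear_combination h1
          unfold wd
          rw [h3]
          field_simp
          ring
      refine ⟨s * u, i, j + 1, fun x => ?_⟩
      rw [hf', huij, hs]
      ring

theorem exists_bp {k : Type} [Field k] [IsAlgClosed k] {n D : ℕ}
    (c : Fin (n + 1) → Fin (D + 1) → k) (hc : c ≠ 0) :
    ∃ (D' E : ℕ) (h : Fin (E + 1) → k) (c' : Fin (n + 1) → Fin (D' + 1) → k), D' + E = D ∧ Bp c' ∧
      ∀ i x, ev (c i) x = ev h x * ev (c' i) x := by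
  classical
  choose f hdeg hcoef using fun i => R8_poly (c i)
  have hce : ∀ i, c i = fun j : Fin (D + 1) => (f i).coeff (j : ℕ) := fun i => funext fun j => (hcoef i j).symm
  have hall : ∃ i, f i ≠ 0 := by
    by_contra hcon
    push Not at hcon
    apply hc
    funext i
    rw [hce i, hcon i]
    funext j
    rw [Polynomial.coeff_zero]
    rfl
  -- the greatest common divisor
  obtain ⟨g, hg⟩ : ∃ g : Polynomial k, Ideal.span (Set.range f) = Ideal.span {g} :=
    (IsPrincipalIdealRing.principal (Ideal.span (Set.range f))).principal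
  have hgd : ∀ i, g ∣ f i := by
    intro i
    rw [← Ideal.mem_span_singleton, ← hg]
    exact Ideal.subset_span ⟨i, rfl⟩
  have hg0 : g ≠ 0 := by
    rintro rfl
    obtain ⟨i, hi⟩ := hall
    exact hi (zero_dvd_iff.1 (hgd i))
  choose h hh using hgd
  obtain ⟨a, ha⟩ : ∃ a : Fin (n + 1) → Polynomial k, ∑ i, a i * h i = 1 := by
    have h3 : g ∈ Ideal.span (Set.range f) := by
      rw [hg]
      exact Ideal.mem_span_singleton_self g
    obtain ⟨a, ha⟩ := Ideal.mem_span_range_iff_exists_fun.1 h3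
    refine ⟨a, ?_⟩
    have h4 : g * ∑ i, a i * h i = g * 1 := by
      rw [mul_one, Finset.mul_sum]
      refine Eq.trans (Finset.sum_congr rfl fun i _ => ?_) ha
      rw [hh i]
      ring
    exact mul_left_cancel₀ hg0 h4
  -- the degree
  obtain ⟨i0, hi0, hmax⟩ : ∃ i0, h i0 ≠ 0 ∧ ∀ i, (h i).natDegree ≤ (h i0).natDegree := by
    have hne : (Finset.univ.filter fun i => h i ≠ 0).Nonempty := by
      obtain ⟨i, hi⟩ := hall
      refine ⟨i, by
        rw [Finset.mem_filter]
        refine ⟨Finset.mem_univ _, fun h0 => hi ?_⟩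
        rw [hh i, h0, mul_zero]⟩
    obtain ⟨i0, hi0, hm⟩ := Finset.exists_max_image _ (fun i => (h i).natDegree) hne
    refine ⟨i0, (Finset.mem_filter.1 hi0).2, fun i => ?_⟩
    by_cases h0 : h i = 0
    · rw [h0, Polynomial.natDegree_zero]
      exact Nat.zero_le _
    · exact hm i (Finset.mem_filter.2 ⟨Finset.mem_univ _, h0⟩)
  have hsum : g.natDegree + (h i0).natDegree ≤ D := by
    rw [← Polynomial.natDegree_mul hg0 hi0, ← hh i0]
    exact hdeg i0
  refine ⟨(h i0).natDegree, D - (h i0).natDegree, fun j => g.coeff (j : ℕ), fun i j => (h i).coeff (j : ℕ),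
    by omega, ?_, ?_⟩
  · intro x hx
    by_cases hx0 : x 0 = 0
    · refine ⟨i0, ?_⟩
      have hx1 : x 1 ≠ 0 := by
        intro h0
        apply hx
        funext a
        fin_cases a
        · exact hx0
        · exact h0
      rw [R8_ev0 (h i0) hx0]
      exact mul_ne_zero (Polynomial.leadingCoeff_ne_zero.2 hi0) (pow_ne_zero _ hx1)
    · by_contra hcon
      push Not at hcon
      have h5 : ∀ i, (h i).eval (x 1 / x 0) = 0 := by
        intro i
        have h6 := hcon i
        rw [R8_ev (hmax i) hx0] at h6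
        exact (mul_eq_zero.1 h6).resolve_left (pow_ne_zero _ hx0)
      have h6 := congrArg (Polynomial.eval (x 1 / x 0)) ha
      rw [Polynomial.eval_finsetSum, Polynomial.eval_one] at h6
      rw [Finset.sum_eq_zero fun i _ => by rw [Polynomial.eval_mul, h5 i, mul_zero]] at h6
      exact zero_ne_one h6
  · intro i x
    rw [hce i, hh i]
    exact R8_mul (by omega) (by omega) (hmax i) x

theorem dvd_two {k : Type} [Field k] [IsAlgClosed k] {M' E : ℕ} (h : Fin (E + 1) → k)
    (f' : Fin (M' + 1) → k) {u a b : k} {i j : ℕ} (hne : ∃ x : Fin 2 → k, ev h x * ev f' x ≠ 0)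
    (hx : ∀ x : Fin 2 → k, ev h x * ev f' x = u * x 1 ^ i * (a * x 0 + b * x 1) ^ j) :
    ∃ (u' : k) (i' j' : ℕ), ∀ x : Fin 2 → k, ev f' x = u' * x 1 ^ i' * (a * x 0 + b * x 1) ^ j' := by
  obtain ⟨y, hy⟩ := hne
  refine R8_ind a b M' f' fun x _ h0 => ?_
  have h1 := hx x
  rw [h0, mul_zero] at h1
  have h2 := hy
  rw [hx y] at h2
  have hu : u ≠ 0 := by
    rintro rfl
    apply h2
    ring
  rcases mul_eq_zero.1 h1.symm with h3 | h3
  · left
    rcases mul_eq_zero.1 h3 with h4 | h4
    · exact absurd h4 hu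
    · by_contra h5
      exact pow_ne_zero _ h5 h4
  · right
    have h5 : a * x 0 + b * x 1 = 0 := by
      by_contra h6
      exact pow_ne_zero _ h6 h3
    refine ⟨h5, ?_⟩
    by_contra h6
    push Not at h6
    have hj : j ≠ 0 := by
      rintro rfl
      rw [pow_zero] at h3
      exact one_ne_zero h3
    apply h2
    rw [h6.1, h6.2, zero_mul, zero_mul, add_zero, zero_pow hj, mul_zero]

end Pool.Agent.Lib.MP_1e3e9c_agR
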