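import Mathlib
import Pool.Agent.Lib.MP_1e3e9c_agR.R7
import Pool.Agent.Lib.MP_1e3e9c_agR.R8

/-!
# MP_1e3e9c_ag, project R, leaf R9: all curves with at most two zeros of `f_0`

PROOF. `Y` = the union of the `Y(d, i₁)` of `comp_family`, `d < M`, `i₁ : Fin (d + 2)`, `i₁ ≠ 0`. Let `v` be in the set,
with `c`. `c ≠ 0`; `exists_bp`: `c = h c'` of degree `D'`. `v = h(1,0) c'(1,0)`, so `h(1,0) ≠ 0` (`v ≠ 0`).
`f = c 0 = h c'_0 ≠ 0`; `dvd_two`: `c'_0 = u' x_1^i' (a x_0 + b x_1)^j'`. `c'_0(1,0) = 0` as `f(1,0) = 0`, `h(1,0) ≠ 0`;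
so `D' ≥ 1` (if `D' = 0`, `c'_0` is a constant, so `c'_0 = 0`, `f = 0`): `D' = d + 1`. If `a ≠ 0` let
`c'' (x) = c'((x_0 - b x_1) / a, x_1)` (`act` of the matrix `![![1/a, -b/a], ![0, 1]]`, `ev_act`):
`c''_0 = u' x_1^i' x_0^j'`, a monomial (`i' + j' = d + 1` because `c'_0 ≠ 0` is a form of degree `d + 1`; or all the
other coefficients are `0` by comparing coefficients), `c''(1,0) = a^(-D') c'(1,0)`. If `a = 0`: `c'_0` is
`u' b^j' x_1^(i'+j')`, `c'' = c'`. `i₁` = the exponent of `x_1`: not `0`, since `c''_0(1,0) = 0`. `c''` is base point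
free (invertible substitution), `InV S c''`: `P(c(x)) = h(x)^m P(c'(x))` for `P ∈ S` homogeneous, so `P(c'(x)) = 0`
where `h(x) ≠ 0`, and everywhere (`k` infinite; a binary form which vanishes where `h ≠ 0` is `0`). Multiply `c''` by a
constant `γ ≠ 0` such that `v = γ c''(1,0)`. If `γ c''` passes through no `y ∈ Y`, `v` is in the set of `comp_family`.
Otherwise `c''(q) = b y`, `b ≠ 0`, for some `y ∈ Y`, so `c'(q') = b y`, and `Cl c y`: if `Q` is a form which vanishes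
on `c`, it vanishes on `c'` (as for `P`), so `Q(y) = 0`: contradiction. So the set is contained in the finite union of
the sets of `comp_family`: `dm_mono`, `dm_iUnion`.
-/

set_option autoImplicit false

namespace Pool.Agent.Lib.MP_1e3e9c_agR

open Pool.Agent.Lib.MP_1e3e9c_agU Pool.Agent.Lib.MP_1e3e9c_agW

private theorem R9_ev10 {k : Type} [Field k] {D : ℕ} (f : Fin (D + 1) → k) : ev f ![1, 0] = f 0 := by
  unfold ev
  rw [Finset.sum_eq_single (0 : Fin (D + 1))]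
  · simp
  · intro j _ hj
    have h1 : (j : ℕ) ≠ 0 := fun h => hj (Fin.ext h)
    simp [h1]
  · intro h
    exact absurd (Finset.mem_univ _) h

private theorem R9_hom {k σ : Type} [Field k] [Fintype σ] {P : MvPolynomial σ k} {m : ℕ}
    (hP : P.IsHomogeneous m) (a : k) (z : σ → k) :
    MvPolynomial.eval (fun i => a * z i) P = a ^ m * MvPolynomial.eval z P := by
  rw [MvPolynomial.eval_eq', MvPolynomial.eval_eq', Finset.mul_sum]
  refine Finset.sum_congr rfl fun d hd => ?_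
  have h1 : ∑ i, d i = m := by
    have h2 := hP (MvPolynomial.mem_support_iff.1 hd)
    rw [Finsupp.weight_apply, Finsupp.sum_fintype _ _ (by intro i; simp)] at h2
    simpa using h2
  have h3 : ∏ i, (a * z i) ^ d i = a ^ m * ∏ i, z i ^ d i := by
    rw [← h1, ← Finset.prod_pow_eq_pow_sum, ← Finset.prod_mul_distrib]
    exact Finset.prod_congr rfl fun i _ => mul_pow _ _ _
  rw [h3]
  ring

/-- the polynomial in two variables of a binary form -/
private noncomputable def R9_pl {k : Type} [Field k] {D : ℕ} (f : Fin (D + 1) → k) : MvPolynomial (Fin 2) k :=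
  ∑ j : Fin (D + 1), MvPolynomial.C (f j) * MvPolynomial.X 0 ^ (D - (j : ℕ)) * MvPolynomial.X 1 ^ (j : ℕ)

private theorem R9_pl_ev {k : Type} [Field k] {D : ℕ} (f : Fin (D + 1) → k) (x : Fin 2 → k) :
    MvPolynomial.eval x (R9_pl f) = ev f x := by
  unfold R9_pl ev
  simp [map_sum, map_mul, map_pow]

/-- a form which vanishes on the curve `h c'` vanishes on `c'` -/
private theorem R9_van {k : Type} [Field k] [Infinite k] {n D D' E : ℕ} {m : ℕ}
    {Q : MvPolynomial (Fin (n + 1)) k} (hQ : Q.IsHomogeneous m) {c : Fin (n + 1) → Fin (D + 1) → k}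
    {h : Fin (E + 1) → k} {c' : Fin (n + 1) → Fin (D' + 1) → k}
    (hc : ∀ i x, ev (c i) x = ev h x * ev (c' i) x) (h0 : ∃ x, ev h x ≠ 0)
    (hz : ∀ x : Fin 2 → k, MvPolynomial.eval (fun i => ev (c i) x) Q = 0) (x : Fin 2 → k) :
    MvPolynomial.eval (fun i => ev (c' i) x) Q = 0 := by
  let F : MvPolynomial (Fin 2) k := MvPolynomial.bind₁ (fun i => R9_pl (c' i)) Q
  have hF : ∀ y, MvPolynomial.eval y F = MvPolynomial.eval (fun i => ev (c' i) y) Q := by
    intro y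
    have h1 : MvPolynomial.eval y F =
        MvPolynomial.eval (fun i => MvPolynomial.eval y (R9_pl (c' i))) Q := by
      change MvPolynomial.eval₂Hom _ _ _ = _
      rw [MvPolynomial.eval₂Hom_bind₁]
      rfl
    have h4 : (fun i => MvPolynomial.eval y (R9_pl (c' i))) = fun i => ev (c' i) y :=
      funext fun i => R9_pl_ev _ _
    rw [h1, h4]
  have hprod : R9_pl h * F = 0 := by
    refine MvPolynomial.funext fun y => ?_
    rw [map_mul, map_zero, R9_pl_ev, hF]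
    by_cases hy : ev h y = 0
    · rw [hy, zero_mul]
    · have h2 := hz y
      have h3 : (fun i => ev (c i) y) = fun i => ev h y * ev (c' i) y := funext fun i => hc i y
      rw [h3, R9_hom hQ] at h2
      rcases mul_eq_zero.1 h2 with h4 | h4
      · exact absurd h4 (pow_ne_zero m hy)
      · rw [h4, mul_zero]
  rcases mul_eq_zero.1 hprod with h5 | h5
  · obtain ⟨y, hy⟩ := h0
    exact absurd (by rw [← R9_pl_ev, h5, map_zero]) hy
  · rw [← hF, h5, map_zero]

/-- a form which is a monomial -/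
private theorem R9_mono {k : Type} [Field k] [Infinite k] {D : ℕ} {f : Fin (D + 1) → k} {u : k} (hu : u ≠ 0)
    {p q : ℕ} (hf : ∀ x : Fin 2 → k, ev f x = u * x 1 ^ p * x 0 ^ q) :
    ∃ i₁ : Fin (D + 1), (i₁ : ℕ) = p ∧ f i₁ = u ∧ ∀ j, j ≠ i₁ → f j = 0 := by
  have h1 : (∑ j : Fin (D + 1), Polynomial.C (f j) * Polynomial.X ^ (j : ℕ)) =
      Polynomial.C u * Polynomial.X ^ p := by
    refine Polynomial.funext fun t => ?_
    have h2 := hf ![1, t]
    have h3 : ev f ![1, t] = ∑ j : Fin (D + 1), f j * t ^ (j : ℕ) := by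
      unfold ev
      exact Finset.sum_congr rfl fun j _ => by simp
    rw [h3] at h2
    rw [Polynomial.eval_finsetSum]
    simpa using h2
  have h4 : ∀ i : Fin (D + 1), (∑ j : Fin (D + 1), Polynomial.C (f j) * Polynomial.X ^ (j : ℕ)).coeff i = f i := by
    intro i
    rw [Polynomial.finsetSum_coeff, Finset.sum_eq_single i]
    · simp
    · intro j _ hj
      rw [Polynomial.coeff_C_mul_X_pow, if_neg]
      intro h
      exact hj (Fin.ext h.symm)
    · intro h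
      exact absurd (Finset.mem_univ _) h
  have h5 : p < D + 1 := by
    by_contra hp
    have h6 := congrArg (fun P => Polynomial.coeff P p) h1
    simp only [Polynomial.coeff_C_mul_X_pow, if_true] at h6
    rw [Polynomial.finsetSum_coeff] at h6
    have h7 : ∑ b : Fin (D + 1), (Polynomial.C (f b) * Polynomial.X ^ (b : ℕ)).coeff p = 0 := by
      refine Finset.sum_eq_zero fun b _ => ?_
      rw [Polynomial.coeff_C_mul_X_pow, if_neg]
      intro h
      have := b.2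
      omega
    rw [h7] at h6
    exact hu h6.symm
  refine ⟨⟨p, h5⟩, rfl, ?_, ?_⟩
  · have h6 := h4 ⟨p, h5⟩
    rw [h1, Polynomial.coeff_C_mul_X_pow] at h6
    simpa using h6.symm
  · intro j hj
    have h6 := h4 j
    rw [h1, Polynomial.coeff_C_mul_X_pow, if_neg] at h6
    · exact h6.symm
    · intro h
      exact hj (Fin.ext h)

/-- the normal form of a form with two zeros -/
private theorem R9_norm {k : Type} [Field k] {D : ℕ} {f : Fin (D + 1) → k} {u a b : k} {i j : ℕ}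
    (hf : ∀ x : Fin 2 → k, ev f x = u * x 1 ^ i * (a * x 0 + b * x 1) ^ j) (hne : ∃ x, ev f x ≠ 0) :
    ∃ (g : Matrix (Fin 2) (Fin 2) k) (α u' : k) (p q : ℕ), g.det ≠ 0 ∧ α ≠ 0 ∧ u' ≠ 0 ∧
      g.mulVec ![1, 0] = (fun t => α * (![1, 0] : Fin 2 → k) t) ∧
      ∀ x : Fin 2 → k, ev f (g.mulVec x) = u' * x 1 ^ p * x 0 ^ q := by
  obtain ⟨y, hy⟩ := hne
  have hu : u ≠ 0 := by
    rintro rfl
    exact hy (by rw [hf]; ring)
  by_cases ha : a = 0
  · subst ha
    have hbj : b ^ j ≠ 0 := by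
      intro hb
      apply hy
      rw [hf, zero_mul, zero_add, mul_pow, hb]
      ring
    refine ⟨1, 1, u * b ^ j, i + j, 0, ?_, one_ne_zero, mul_ne_zero hu hbj, ?_, ?_⟩
    · rw [Matrix.det_one]
      exact one_ne_zero
    · rw [Matrix.one_mulVec]
      funext t
      rw [one_mul]
    · intro x
      rw [Matrix.one_mulVec, hf]
      ring
  · refine ⟨!![1 / a, -b / a; 0, 1], 1 / a, u, i, j, ?_, one_div_ne_zero ha, hu, ?_, ?_⟩
    · rw [Matrix.det_fin_two_of]
      simpa using ha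
    · funext t
      fin_cases t
      · simp [Matrix.mulVec, dotProduct, Fin.sum_univ_two]
      · simp [Matrix.mulVec, dotProduct, Fin.sum_univ_two]
    · intro x
      have h0 : (!![1 / a, -b / a; 0, 1] : Matrix (Fin 2) (Fin 2) k).mulVec x 0 = 1 / a * x 0 + -b / a * x 1 := by
        simp [Matrix.mulVec, dotProduct, Fin.sum_univ_two]
      have h1 : (!![1 / a, -b / a; 0, 1] : Matrix (Fin 2) (Fin 2) k).mulVec x 1 = x 1 := by
        simp [Matrix.mulVec, dotProduct, Fin.sum_univ_two]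
      rw [hf, h0, h1]
      congr 2
      field_simp
      ring

/-- the reduction of one curve to the normal form -/
private theorem R9_red {k : Type} [Field k] [IsAlgClosed k] {n M : ℕ}
    {S : Set (MvPolynomial (Fin (n + 1)) k)} (hS : ∀ P ∈ S, ∃ m, P.IsHomogeneous m)
    {v : Fin (n + 1) → k} (hv : v ≠ 0) {c : Fin (n + 1) → Fin (M + 1) → k} (hc : InV S c)
    (h2 : TwoZ (c 0)) (hvc : v = (fun i => c i 0)) :
    ∃ (d : ℕ) (_ : d < M) (i₁ : Fin (d + 1 + 1)) (_ : i₁ ≠ 0) (C : Fin (n + 1) → Fin (d + 1 + 1) → k),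
      InV S C ∧ (∀ j, j ≠ i₁ → C 0 j = 0) ∧ C 0 ≠ 0 ∧ Bp C ∧ v = (fun i => C i 0) ∧
      ∀ y, Th C y → Cl c y := by
  have : Infinite k := IsAlgClosed.instInfinite
  obtain ⟨hf0, hf10, u, a, b, i, j, hfx⟩ := h2
  have hcne : c ≠ 0 := by
    rintro rfl
    exact hf0 rfl
  obtain ⟨D', E, h, c', hDE, hbp, hcc⟩ := exists_bp c hcne
  have hvi : ∀ t, v t = ev h ![1, 0] * ev (c' t) ![1, 0] := by
    intro t
    rw [← hcc, R9_ev10, hvc]
  have hh10 : ev h ![1, 0] ≠ 0 := by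
    intro h0
    apply hv
    funext t
    rw [hvi, h0, zero_mul]
    rfl
  have hfne : ∃ x : Fin 2 → k, ev (c 0) x ≠ 0 := by
    by_contra hcon
    push Not at hcon
    apply hf0
    refine ev_ext fun x => ?_
    rw [hcon x]
    unfold ev
    simp
  have hne : ∃ x : Fin 2 → k, ev h x * ev (c' 0) x ≠ 0 := by
    obtain ⟨x, hx⟩ := hfne
    exact ⟨x, by rw [← hcc]; exact hx⟩
  obtain ⟨u', i', j', hf'⟩ := dvd_two h (c' 0) hne (fun x => by rw [← hcc]; exact hfx x)
  have hc'ne : ∃ x : Fin 2 → k, ev (c' 0) x ≠ 0 := by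
    obtain ⟨x, hx⟩ := hne
    exact ⟨x, fun h0 => hx (by rw [h0, mul_zero])⟩
  have hc'10 : ev (c' 0) ![1, 0] = 0 := by
    have h1 := hcc 0 ![1, 0]
    rw [hf10] at h1
    rcases mul_eq_zero.1 h1.symm with h3 | h3
    · exact absurd h3 hh10
    · exact h3
  have hvanS : InV S c' := by
    intro x P hP
    obtain ⟨m, hm⟩ := hS P hP
    exact R9_van hm hcc ⟨_, hh10⟩ (fun y => hc y P hP) x
  rcases D' with _ | d
  · exfalso
    obtain ⟨x, hx⟩ := hc'ne
    apply hx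
    rw [R9_ev10] at hc'10
    unfold ev
    rw [Fin.sum_univ_one]
    rw [hc'10]
    ring
  obtain ⟨g, α, w, p, q, hg, hα, hw, hg10, hgx⟩ := R9_norm hf' hc'ne
  have hM : ∀ x, ev (act g (c' 0)) x = w * x 1 ^ p * x 0 ^ q := fun x => by rw [ev_act, hgx]
  obtain ⟨i₁, hip, hi1, hi2⟩ := R9_mono hw hM
  have hi₁0 : i₁ ≠ 0 := by
    rintro rfl
    apply hw
    rw [← hi1, ← R9_ev10 (act g (c' 0)), ev_act, hg10, ev_scale, hc'10, mul_zero]
  have hγ : ev h ![1, 0] / α ^ (d + 1) ≠ 0 := div_ne_zero hh10 (pow_ne_zero _ hα)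
  have hCx : ∀ t x, ev (fun l => ev h ![1, 0] / α ^ (d + 1) * act g (c' t) l) x =
      ev h ![1, 0] / α ^ (d + 1) * ev (c' t) (g.mulVec x) := fun t x => by rw [ev_smul, ev_act]
  have hgx0 : ∀ x : Fin 2 → k, x ≠ 0 → g.mulVec x ≠ 0 := by
    intro x hx h0
    exact hx (Matrix.eq_zero_of_mulVec_eq_zero hg h0)
  refine ⟨d, by omega, i₁, hi₁0, fun t l => ev h ![1, 0] / α ^ (d + 1) * act g (c' t) l, ?_, ?_, ?_, ?_, ?_, ?_⟩
  · intro x P hP
    obtain ⟨m, hm⟩ := hS P hP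
    have h3 : (fun t => ev (fun l => ev h ![1, 0] / α ^ (d + 1) * act g (c' t) l) x) =
        fun t => ev h ![1, 0] / α ^ (d + 1) * ev (c' t) (g.mulVec x) := funext fun t => hCx t x
    rw [h3, R9_hom hm, hvanS _ P hP, mul_zero]
  · intro l hl
    change ev h ![1, 0] / α ^ (d + 1) * act g (c' 0) l = 0
    rw [hi2 l hl, mul_zero]
  · intro h0
    have h3 := congrFun h0 i₁
    change ev h ![1, 0] / α ^ (d + 1) * act g (c' 0) i₁ = 0 at h3
    rw [hi1] at h3
    exact mul_ne_zero hγ hw h3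
  · intro x hx
    obtain ⟨t, ht⟩ := hbp (g.mulVec x) (hgx0 x hx)
    exact ⟨t, by rw [hCx]; exact mul_ne_zero hγ ht⟩
  · funext t
    change v t = ev h ![1, 0] / α ^ (d + 1) * act g (c' t) 0
    rw [hvi, ← R9_ev10 (act g (c' t)), ev_act, hg10, ev_scale, div_mul_eq_mul_div, ← mul_assoc,
      mul_comm (ev h ![1, 0]) (α ^ (d + 1)), mul_assoc, mul_div_assoc, mul_div_cancel₀]
    exact pow_ne_zero _ hα
  · rintro y ⟨x, hx, b', hb'⟩ m Q hQ hQ0
    have hQc' := R9_van hQ hcc ⟨_, hh10⟩ hQ0 (g.mulVec x)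
    have hb'0 : b' ≠ 0 := by
      rintro rfl
      obtain ⟨t, ht⟩ := hbp (g.mulVec x) (hgx0 x hx)
      have h3 := hb' t
      rw [hCx, zero_mul] at h3
      exact mul_ne_zero hγ ht h3
    have hy : y = fun t => (b'⁻¹ * (ev h ![1, 0] / α ^ (d + 1))) * ev (c' t) (g.mulVec x) := by
      funext t
      have h3 := hb' t
      rw [hCx] at h3
      rw [mul_assoc, h3, inv_mul_cancel_left₀ hb'0]
    rw [hy, R9_hom hQ, hQc', mul_zero]

theorem global {k : Type} [Field k] [IsAlgClosed k] [CharZero k] {n : ℕ} (M : ℕ)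
    {S : Set (MvPolynomial (Fin (n + 1)) k)} (hS : NR S) :
    ∃ Y : Finset (Fin (n + 1) → k), (∀ y ∈ Y, y 0 ≠ 0) ∧
      dm {v : Fin (n + 1) → k | v ≠ 0 ∧ ∃ c : Fin (n + 1) → Fin (M + 1) → k, InV S c ∧
        TwoZ (c 0) ∧ v = (fun i => c i 0) ∧ ∀ y ∈ Y, ¬ Cl c y} ≤ (3 : ℕ) := by
  classical
  have key : ∀ q : (Σ d : Fin M, {i₁ : Fin ((d : ℕ) + 1 + 1) // i₁ ≠ 0}), ∃ Y : Finset (Fin (n + 1) → k),
      (∀ y ∈ Y, y 0 ≠ 0) ∧
      dm {v : Fin (n + 1) → k | ∃ c : Fin (n + 1) → Fin ((q.1 : ℕ) + 1 + 1) → k, InV S c ∧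
        (∀ j, j ≠ q.2.1 → c 0 j = 0) ∧ c 0 ≠ 0 ∧ Bp c ∧ v = (fun i => c i 0) ∧
        ∀ y ∈ Y, ¬ Th c y} ≤ (3 : ℕ) := fun q => comp_family hS q.2.1 q.2.2
  choose Y hY0 hY using key
  refine ⟨Finset.univ.biUnion Y, ?_, ?_⟩
  · intro y hy
    obtain ⟨q, _, hq⟩ := Finset.mem_biUnion.1 hy
    exact hY0 q y hq
  · refine le_trans (dm_mono ?_) (dm_iUnion _ 3 hY)
    rintro v ⟨hv, c, hc, h2, hvc, hcl⟩
    obtain ⟨d, hd, i₁, hi₁, C, hC1, hC2, hC3, hC4, hC5, hC6⟩ := R9_red hS.hom hv hc h2 hvc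
    refine Set.mem_iUnion.2 ⟨⟨⟨d, hd⟩, ⟨i₁, hi₁⟩⟩, C, hC1, hC2, hC3, hC4, hC5, ?_⟩
    intro y hy hTh
    exact hcl y (Finset.mem_biUnion.2 ⟨_, Finset.mem_univ _, hy⟩) (hC6 y hTh)

end Pool.Agent.Lib.MP_1e3e9c_agR
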