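import Mathlib
import Pool.Agent.Lib.MP_1e3e9c_agW.N1
import Pool.Agent.Lib.MP_1e3e9c_agR.R2
import Pool.Agent.Lib.MP_1e3e9c_agR.R6
import Pool.Agent.Lib.MP_1e3e9c_agR.R9
import Pool.Agent.Lib.MP_1e3e9c_agR.B4
import Pool.Agent.Lib.MP_1e3e9c_agR.B5
import Pool.Agent.Lib.MP_1e3e9c_agR.B6

/-!
# MP_1e3e9c_ag, project R, B8: curves which meet the divisor in at most two points
-/

set_option autoImplicit false

namespace Pool.Agent.Lib.MP_1e3e9c_agR

open Pool.Agent.Lib.MP_1e3e9c_agU Pool.Agent.Lib.MP_1e3e9c_agW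

/-- `p` is a polynomial curve of degree `D` in the zero set of `S`, `p(0) = v`, which meets `G = 0` in at most
two points of the projective line (besides `t = 0` one more point, possibly `t = ∞`). -/
structure TwoC {k : Type} [Field k] {n : ℕ} (w : Fin (n + 1) → ℕ)
    (S : Set (MvPolynomial (Fin (n + 1)) k)) (G : MvPolynomial (Fin (n + 1)) k) (g D : ℕ)
    (v : Fin (n + 1) → k) (p : Fin (n + 1) → Polynomial k) : Prop where
  deg : ∀ i, (p i).natDegree ≤ w i * D
  zero : val p 0 = v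
  base : ∀ t, ∀ P ∈ S, MvPolynomial.eval (val p t) P = 0
  ne : MvPolynomial.aeval p G ≠ 0
  two : ∃ (i j : ℕ) (α β : k), i + j = g * D ∧ MvPolynomial.aeval p G =
    Polynomial.X ^ i * (Polynomial.C α + Polynomial.C β * Polynomial.X) ^ j

/-- the form with the coefficients of `X^i (α + β X)^j` -/
private theorem B8_ev {k : Type} [Field k] [Infinite k] {N i j : ℕ} (hN : i + j = N) (α β : k)
    (x : Fin 2 → k) :
    ev (fun l : Fin (N + 1) => (Polynomial.X ^ i * (Polynomial.C α + Polynomial.C β * Polynomial.X) ^ j :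
      Polynomial k).coeff (l : ℕ)) x = x 1 ^ i * (α * x 0 + β * x 1) ^ j := by
  obtain ⟨p, hp⟩ : ∃ p : Fin (1 + 1) → Polynomial k,
      p = ![Polynomial.X, Polynomial.C α + Polynomial.C β * Polynomial.X] := ⟨_, rfl⟩
  have hd : ∀ i, (p i).natDegree ≤ (fun _ : Fin (1 + 1) => 1) i * 1 := by
    intro i
    rw [hp]
    fin_cases i
    · exact Polynomial.natDegree_X_le
    · show (Polynomial.C α + Polynomial.C β * Polynomial.X : Polynomial k).natDegree ≤ 1
      rw [add_comm]
      exact Polynomial.natDegree_linear_le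
  have hF : (MvPolynomial.X 0 ^ i * MvPolynomial.X 1 ^ j :
      MvPolynomial (Fin (1 + 1)) k).IsWeightedHomogeneous (fun _ => 1) (i + j) := by
    have h1 := (MvPolynomial.isWeightedHomogeneous_X k (fun _ : Fin (1 + 1) => 1) 0).pow i
    have h2 := (MvPolynomial.isWeightedHomogeneous_X k (fun _ : Fin (1 + 1) => 1) 1).pow j
    have h3 := h1.mul h2
    simpa using h3
  have h := hv_eval (w := fun _ : Fin (1 + 1) => 1) (D := 1) hd hF x
  have hval : MvPolynomial.aeval p (MvPolynomial.X 0 ^ i * MvPolynomial.X 1 ^ j :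
      MvPolynomial (Fin (1 + 1)) k) =
      Polynomial.X ^ i * (Polynomial.C α + Polynomial.C β * Polynomial.X) ^ j := by
    rw [map_mul, map_pow, map_pow, MvPolynomial.aeval_X, MvPolynomial.aeval_X, hp]
    rfl
  have h0 : hv (fun _ : Fin (1 + 1) => 1) 1 p x 0 = x 1 := by
    unfold hv
    rw [hp]
    show ∑ j ∈ Finset.range 2, (Polynomial.X : Polynomial k).coeff j * x 0 ^ (1 - j) * x 1 ^ j = _
    rw [Finset.sum_range_succ, Finset.sum_range_succ, Finset.sum_range_zero]
    simp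
  have h1 : hv (fun _ : Fin (1 + 1) => 1) 1 p x 1 = α * x 0 + β * x 1 := by
    unfold hv
    rw [hp]
    show ∑ j ∈ Finset.range 2, (Polynomial.C α + Polynomial.C β * Polynomial.X :
      Polynomial k).coeff j * x 0 ^ (1 - j) * x 1 ^ j = _
    rw [Finset.sum_range_succ, Finset.sum_range_succ, Finset.sum_range_zero]
    simp
  have key : ∀ N', N' = (i + j) * 1 → ev (fun l : Fin (N' + 1) =>
      (Polynomial.X ^ i * (Polynomial.C α + Polynomial.C β * Polynomial.X) ^ j :
      Polynomial k).coeff (l : ℕ)) x = x 1 ^ i * (α * x 0 + β * x 1) ^ j := by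
    rintro _ rfl
    rw [← hval, ← h, map_mul, map_pow, map_pow, MvPolynomial.eval_X, MvPolynomial.eval_X, h0, h1]
  exact key N (by omega)

/-- the equations hold on the whole curve -/
private theorem B8_van {k : Type} [Field k] [Infinite k] {n D : ℕ} {w : Fin (n + 1) → ℕ}
    {p : Fin (n + 1) → Polynomial k} (hp : ∀ i, (p i).natDegree ≤ w i * D) {m : ℕ}
    {F : MvPolynomial (Fin (n + 1)) k} (hF : F.IsWeightedHomogeneous w m)
    (h : ∀ t, MvPolynomial.eval (val p t) F = 0) (x : Fin 2 → k) :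
    MvPolynomial.eval (hv w D p x) F = 0 := by
  rw [hv_eval hp hF]
  have h1 : MvPolynomial.aeval p F = 0 := by
    apply Polynomial.funext
    intro t
    rw [← eval_val, h t, Polynomial.eval_zero]
  rw [h1]
  unfold ev
  simp

/-- one degree -/
private theorem B8_one {k : Type} [Field k] [IsAlgClosed k] [CharZero k] {n g : ℕ}
    {w : Fin (n + 1) → ℕ} (hw : ∀ i, 0 < w i) (hg : 0 < g)
    {S : Set (MvPolynomial (Fin (n + 1)) k)} (hS : ∀ P ∈ S, ∃ m, P.IsWeightedHomogeneous w m)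
    {G : MvPolynomial (Fin (n + 1)) k} (hG : G.IsWeightedHomogeneous w g)
    (hX : ¬ HasRat w (insert G S)) (D : ℕ) :
    ∃ Y : Finset (Fin (n + 1) → k), (∀ y ∈ Y, MvPolynomial.eval y G ≠ 0) ∧
      wdm w {v | v ≠ 0 ∧ MvPolynomial.eval v G = 0 ∧ ∃ p, TwoC w S G g D v p ∧
        ∀ y ∈ Y, ¬ OnC w p y} ≤ (3 : ℕ) := by
  classical
  obtain ⟨M₀, hM₀⟩ := nrk_w (k := k) w hw
  have hpi : 0 < ∏ i, w i := Finset.prod_pos fun i _ => hw i
  obtain ⟨a, ha⟩ : ∃ a, a = (∏ i, w i) * (M₀ + 1) := ⟨_, rfl⟩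
  have ha0 : 0 < a := by
    rw [ha]
    exact Nat.mul_pos hpi (Nat.succ_pos _)
  obtain ⟨M, hM⟩ : ∃ M, a * g = M := ⟨_, rfl⟩
  have hM0 : 0 < M := by
    rw [← hM]
    exact Nat.mul_pos ha0 hg
  have hM1 : M₀ ≤ M := by
    rw [← hM, ha]
    calc M₀ ≤ M₀ + 1 := Nat.le_succ _
      _ = 1 * (M₀ + 1) * 1 := by ring
      _ ≤ (∏ i, w i) * (M₀ + 1) * g :=
        Nat.mul_le_mul (Nat.mul_le_mul hpi le_rfl) hg
  have hM2 : (∏ i, w i) ∣ M := by
    rw [← hM, ha, mul_assoc]
    exact Dvd.intro _ rfl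
  have hwM : ∀ i, w i ∣ M := fun i => (Finset.dvd_prod_of_mem w (Finset.mem_univ i)).trans hM2
  have hNR : NR (SW S (hm w M a G)) :=
    nr_of (fun P hP => hP.1) (hM₀ M hM1 hM2 a g hM S hS G hG hX)
  obtain ⟨Y'', hY0, hE⟩ := global (M * D) hNR
  -- the points
  have hfin : {y : Fin (n + 1) → k | (fun t => MvPolynomial.eval y (hm w M a G t)) ∈ Y''}.Finite := by
    have h1 : {y : Fin (n + 1) → k | (fun t => MvPolynomial.eval y (hm w M a G t)) ∈ Y''} ⊆
        ⋃ z ∈ (Y'' : Set (Fin (mn w M + 1) → k)),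
          {v : Fin (n + 1) → k | ∀ t, MvPolynomial.eval v (hm w M a G t) = z t} := by
      intro y hy
      refine Set.mem_iUnion₂.2 ⟨_, hy, fun t => rfl⟩
    exact (Set.Finite.biUnion Y''.finite_toSet fun z _ => finite_fibre hM0 hwM G z).subset h1
  have hYmem : ∀ y : Fin (n + 1) → k, y ∈ hfin.toFinset ↔
      (fun t => MvPolynomial.eval y (hm w M a G t)) ∈ Y'' := by
    intro y
    rw [Set.Finite.mem_toFinset]
    rfl
  refine ⟨hfin.toFinset, ?_, ?_⟩
  · intro y hy hG0
    apply hY0 _ ((hYmem y).1 hy)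
    show MvPolynomial.eval y (G ^ a) = 0
    rw [map_pow, hG0, zero_pow ha0.ne']
  refine le_trans ?_ hE
  unfold wdm
  refine dm_pull (a := a) hM0 hwM G _ _ ?_
  rintro x ⟨b, hb, v, ⟨hv0, hGv, p, ⟨hp, hp0, hbase, hpne, i₀, j₀, α, β, hij, htwo⟩, hno⟩, rfl⟩
  -- the curve in the Veronese coordinates
  have hvS : ∀ (x : Fin 2 → k), ∀ P ∈ S, MvPolynomial.eval (hv w D p x) P = 0 := by
    intro x P hP
    obtain ⟨m, hPm⟩ := hS P hP
    exact B8_van hp hPm (fun t => hbase t P hP) x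
  obtain ⟨f, hfdef⟩ : ∃ f : Fin (mn w M + 1) → Fin (M * D + 1) → k,
      f = fun t (j : Fin (M * D + 1)) =>
        (MvPolynomial.aeval p (hm w M a G t)).coeff (j : ℕ) := ⟨_, rfl⟩
  have hf : ∀ t x, ev (f t) x = MvPolynomial.eval (hv w D p x) (hm w M a G t) := by
    intro t x
    rw [hv_eval hp (hm_hom hG hM t), hfdef]
  have hv10 : hv w D p ![1, 0] = v := by
    rw [hv_coe hp, hp0]
  have hInV : InV (SW S (hm w M a G)) f := by
    intro x Q hQ
    have h1 : (fun t => ev (f t) x) =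
        fun t => MvPolynomial.eval (hv w D p x) (hm w M a G t) := funext fun t => hf t x
    rw [h1]
    exact hQ.2 _ (hvS x)
  have hf0 : ∀ x, ev (f 0) x = (x 1 ^ i₀ * (α * x 0 + β * x 1) ^ j₀) ^ a := by
    intro x
    rw [hf]
    show MvPolynomial.eval (hv w D p x) (G ^ a) = _
    rw [map_pow, hv_eval hp hG, htwo, B8_ev hij]
  have hTwo : TwoZ (f 0) := by
    refine ⟨?_, ?_, 1, α, β, i₀ * a, j₀ * a, ?_⟩
    · intro h0
      have h1 : MvPolynomial.aeval p (G ^ a) = 0 := by
        have h2 : (MvPolynomial.aeval p (G ^ a)).natDegree ≤ M * D :=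
          natDegree_le hp (hm_hom hG hM 0)
        ext l
        rw [Polynomial.coeff_zero]
        by_cases hl : l < M * D + 1
        · have h3 := congrFun h0 ⟨l, hl⟩
          rw [hfdef] at h3
          exact h3
        · exact Polynomial.coeff_eq_zero_of_natDegree_lt (by omega)
      rw [map_pow] at h1
      exact hpne (eq_zero_of_pow_eq_zero h1)
    · rw [hf, hv10]
      show MvPolynomial.eval v (G ^ a) = 0
      rw [map_pow, hGv, zero_pow ha0.ne']
    · intro x
      rw [hf0, mul_pow, ← pow_mul, ← pow_mul, one_mul]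
  -- the point is in the exceptional set
  have hpt : ∀ t, MvPolynomial.eval (fun i => b ^ w i * v i) (hm w M a G t) = b ^ M * f t 0 := by
    intro t
    rw [eval_smul_w (hm_hom hG hM t)]
    refine congrArg (fun z => b ^ M * z) ?_
    rw [hfdef]
    show _ = (MvPolynomial.aeval p (hm w M a G t)).coeff 0
    rw [Polynomial.coeff_zero_eq_eval_zero, ← eval_val, hp0]
  have hsc : ∀ (t : Fin (mn w M + 1)) (x : Fin 2 → k),
      ev (fun j => b ^ M * f t j) x = b ^ M * ev (f t) x := by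
    intro t x
    unfold ev
    rw [Finset.mul_sum]
    exact Finset.sum_congr rfl fun j _ => by ring
  have hbM : b ^ M ≠ 0 := pow_ne_zero _ hb
  have hhom : ∀ (m : ℕ) (Q : MvPolynomial (Fin (mn w M + 1)) k), Q.IsHomogeneous m →
      ∀ (b' : k) (u : Fin (mn w M + 1) → k),
        MvPolynomial.eval (fun t => b' * u t) Q = b' ^ m * MvPolynomial.eval u Q := by
    intro m Q hQ b' u
    have h1 := eval_smul_w (w := fun _ => 1) (m := m) (F := Q) hQ b' u
    simpa using h1
  refine ⟨?_, fun t j => b ^ M * f t j, ?_, ?_, ?_, ?_⟩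
  · -- not zero
    intro h0
    apply hv0
    have h1 : (fun i => b ^ w i * v i) = 0 := by
      have h2 := finite_fibre (a := a) hM0 hwM G (0 : Fin (mn w M + 1) → k)
      funext i
      -- pure powers
      by_contra hi
      have h3 : ∀ s : k, (fun i => (s ^ w i) * (b ^ w i * v i)) ∈
          {v : Fin (n + 1) → k | ∀ t, MvPolynomial.eval v (hm w M a G t) =
            (0 : Fin (mn w M + 1) → k) t} := by
        intro s t
        rw [eval_smul_w (hm_hom hG hM t)]
        rw [show MvPolynomial.eval (fun i => b ^ w i * v i) (hm w M a G t) = 0 from congrFun h0 t,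
          mul_zero]
        rfl
      have h4 : Set.Finite (Set.range fun s : k => s ^ w i) := by
        have h5 : (Set.range fun s : k => s ^ w i) ⊆
            (fun u : Fin (n + 1) → k => u i / (b ^ w i * v i)) '' {v : Fin (n + 1) → k |
              ∀ t, MvPolynomial.eval v (hm w M a G t) = (0 : Fin (mn w M + 1) → k) t} := by
          rintro _ ⟨s, rfl⟩
          exact ⟨_, h3 s, mul_div_cancel_right₀ _ hi⟩
        exact (h2.image _).subset h5
      have h6 : (Set.range fun s : k => s ^ w i) = Set.univ := by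
        rw [Set.eq_univ_iff_forall]
        intro z
        obtain ⟨s, hs⟩ := IsAlgClosed.exists_pow_nat_eq z (hw i)
        exact ⟨s, hs⟩
      rw [h6] at h4
      exact Set.infinite_univ h4
    funext i
    have h2 := congrFun h1 i
    exact (mul_eq_zero.1 h2).resolve_left (pow_ne_zero _ hb)
  · intro x Q hQ
    obtain ⟨m, hQm⟩ := hQ.1
    have h1 : (fun t => ev (fun j => b ^ M * f t j) x) = fun t => b ^ M * ev (f t) x :=
      funext fun t => hsc t x
    rw [h1, hhom m Q hQm, hInV x Q hQ, mul_zero]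
  · obtain ⟨h1, h2, u, a', b', i, j, h3⟩ := hTwo
    refine ⟨?_, ?_, b ^ M * u, a', b', i, j, ?_⟩
    · intro h
      apply h1
      funext l
      exact (mul_eq_zero.1 (congrFun h l)).resolve_left hbM
    · rw [hsc, h2, mul_zero]
    · intro x
      rw [hsc, h3]
      ring
  · funext t
    exact hpt t
  · intro z hz hcl
    have hcl' : Cl f z := by
      intro m Q hQ hQ0
      refine hcl m Q hQ fun x => ?_
      have h1 : (fun t => ev (fun j => b ^ M * f t j) x) = fun t => b ^ M * ev (f t) x :=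
        funext fun t => hsc t x
      rw [h1, hhom m Q hQ, hQ0 x, mul_zero]
    obtain ⟨y, hy1, hy2⟩ := points_lift (a := a) (g := g) hM0 hwM
      (S := {F | (∃ m, F.IsWeightedHomogeneous w m) ∧ ∀ t, MvPolynomial.eval (val p t) F = 0})
      (fun P hP => hP.1) hG hM z (by
        rintro Q ⟨⟨m, hQm⟩, hQ0⟩
        refine hcl' m Q hQm fun x => ?_
        have h1 : (fun t => ev (f t) x) =
            fun t => MvPolynomial.eval (hv w D p x) (hm w M a G t) := funext fun t => hf t x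
        rw [h1]
        refine hQ0 _ fun F hF' => ?_
        obtain ⟨⟨m', hFm⟩, hF0⟩ := hF'
        exact B8_van hp hFm hF0 x)
    refine hno y ((hYmem y).2 ?_) ?_
    · rw [show (fun t => MvPolynomial.eval y (hm w M a G t)) = z from funext hy2]
      exact hz
    · intro m F hFm hF0
      exact hy1 F ⟨⟨m, hFm⟩, hF0⟩

/-- **Curves which meet the divisor in at most two points.** -/
theorem two_points {k : Type} [Field k] [IsAlgClosed k] [CharZero k] {n g : ℕ}
    {w : Fin (n + 1) → ℕ} (hw : ∀ i, 0 < w i) (hg : 0 < g)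
    {S : Set (MvPolynomial (Fin (n + 1)) k)} (hS : ∀ P ∈ S, ∃ m, P.IsWeightedHomogeneous w m)
    {G : MvPolynomial (Fin (n + 1)) k} (hG : G.IsWeightedHomogeneous w g)
    (hX : ¬ HasRat w (insert G S)) (D : ℕ) :
    ∃ Y : Finset (Fin (n + 1) → k), (∀ y ∈ Y, (∀ P ∈ S, MvPolynomial.eval y P = 0) ∧
        MvPolynomial.eval y G ≠ 0) ∧
      wdm w {v | v ≠ 0 ∧ MvPolynomial.eval v G = 0 ∧ ∃ D' ≤ D, ∃ p, TwoC w S G g D' v p ∧
        ∀ y ∈ Y, ¬ OnC w p y} ≤ (3 : ℕ) := by
  classical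
  choose Y hY hdm using fun D' : ℕ => B8_one hw hg hS hG hX D'
  refine ⟨((Finset.range (D + 1)).biUnion Y).filter fun y => ∀ P ∈ S, MvPolynomial.eval y P = 0,
    ?_, ?_⟩
  · intro y hy
    obtain ⟨h1, h2⟩ := Finset.mem_filter.1 hy
    obtain ⟨D', _, h3⟩ := Finset.mem_biUnion.1 h1
    exact ⟨h2, hY D' y h3⟩
  · have h1 := dm_iUnion (fun D' : Fin (D + 1) => {x : Fin (n + 1) → k | ∃ a : k, a ≠ 0 ∧
      ∃ v ∈ {v : Fin (n + 1) → k | v ≠ 0 ∧ MvPolynomial.eval v G = 0 ∧
        ∃ p, TwoC w S G g D' v p ∧ ∀ y ∈ Y D', ¬ OnC w p y}, x = fun i => a ^ w i * v i}) 3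
      (fun D' => hdm D')
    refine le_trans ?_ h1
    unfold wdm
    refine dm_mono ?_
    rintro x ⟨b, hb, v, ⟨hv0, hGv, D', hD', p, hp, hno⟩, rfl⟩
    refine Set.mem_iUnion.2 ⟨⟨D', by omega⟩, b, hb, v, ⟨hv0, hGv, p, hp, ?_⟩, rfl⟩
    intro y hy hon
    refine hno y (Finset.mem_filter.2 ⟨Finset.mem_biUnion.2 ⟨D', ?_, hy⟩, ?_⟩) hon
    · exact Finset.mem_range.2 (by omega)
    · intro P hP
      obtain ⟨m, hm⟩ := hS P hP
      exact hon m P hm fun t => hp.base t P hP

end Pool.Agent.Lib.MP_1e3e9c_agR
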