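import Mathlib
import Pool.Agent.Lib.MP_1e3e9c_agR.B8

/-!
# MP_1e3e9c_ag, project R, B9: the contact curve of a family
-/

set_option autoImplicit false

namespace Pool.Agent.Lib.MP_1e3e9c_agR

open Pool.Agent.Lib.MP_1e3e9c_agU Pool.Agent.Lib.MP_1e3e9c_agW

theorem contact_curve {k : Type} [Field k] [IsAlgClosed k] [CharZero k] {n D g : ℕ}
    {w : Fin (n + 1) → ℕ} (hw : ∀ i, 0 < w i) (hD : 0 < D) (hg : 0 < g)
    {S : Set (MvPolynomial (Fin (n + 1)) k)}
    {G : MvPolynomial (Fin (n + 1)) k} (hG : G.IsWeightedHomogeneous w g)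
    (hX : ¬ HasRat w (insert G S)) {v : Fin (n + 1) → k} (hv : v ≠ 0)
    (hGv : MvPolynomial.eval v G = 0) {A : Ideal (MvPolynomial (Un w D) k)}
    (hF : IsFam w S D v (max (g * D) 2) A) :
    ∃ c : Un w D → k, (∀ q ∈ A, MvPolynomial.eval c q = 0) ∧ ¬ Triv w D v c ∧
      TwoC w S G g D v (crv w D v c) ∧
      ∃ α β : k, MvPolynomial.aeval (crv w D v c) G =
        Polynomial.X ^ (g * D - 1) * (Polynomial.C α + Polynomial.C β * Polynomial.X) := by
  obtain ⟨c, hmem, hnt, α, β, hαβ⟩ := contact hw hD hg hG hv hGv A hF.zero hF.dim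
  obtain ⟨p, hpdef⟩ : ∃ p, p = crv w D v c := ⟨_, rfl⟩
  have hp : ∀ i, (p i).natDegree ≤ w i * D := by
    rw [hpdef]
    exact natDegree_crv v c
  have hp0 : val p 0 = v := by
    rw [hpdef]
    exact val_crv_zero v c
  have hgD : 0 < g * D := Nat.mul_pos hg hD
  have hαβ' : MvPolynomial.aeval p G =
      Polynomial.X ^ (g * D - 1) * (Polynomial.C α + Polynomial.C β * Polynomial.X) := by
    obtain ⟨N, hN⟩ : ∃ N, g * D = N + 1 := ⟨g * D - 1, by omega⟩
    rw [hpdef, hαβ, hN, Nat.add_sub_cancel]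
    ring
  have hbase : ∀ t, ∀ P ∈ S, MvPolynomial.eval (val p t) P = 0 := by
    intro t P hP
    rw [hpdef]
    exact hF.base c hmem t P hP
  refine ⟨c, hmem, hnt, ?_, α, β, ?_⟩
  · rw [← hpdef]
    refine ⟨hp, hp0, hbase, ?_, g * D - 1, 1, α, β, by omega, ?_⟩
    · intro h1
      apply hnt
      refine hF.const c hmem fun t => ?_
      rw [← hpdef]
      by_cases ht : val p t = 0
      · refine ⟨0, fun i => ?_⟩
        rw [zero_pow (hw i).ne', zero_mul]
        exact congrFun ht i
      · by_contra hcon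
        apply hX
        refine ⟨p, fun s P hP => ?_, 0, t, ?_, ht, ?_⟩
        · rcases Set.mem_insert_iff.1 hP with rfl | hP
          · rw [eval_val, h1, Polynomial.eval_zero]
          · exact hbase s P hP
        · rw [hp0]
          exact hv
        · rintro ⟨a', _, h⟩
          apply hcon
          refine ⟨a', fun i => ?_⟩
          have h2 := h i
          rw [hp0] at h2
          exact h2
    · rw [hαβ', pow_one]
  · rw [← hpdef]
    exact hαβ'

end Pool.Agent.Lib.MP_1e3e9c_agR
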