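import Mathlib
import Pool.Agent.Lib.MP_1e3e9c_agU.G0b
import Pool.Agent.Lib.MP_1e3e9c_agR.CDefs

/-!
# MP_1e3e9c_ag, project R, leaf C4: binary forms without common zero generate a subring of finite index

PROOF. `P i` binary forms of degree `N ≥ 1` without common zero. (1) Every binary form of degree `m ≥ 2N - 1` (or `m ≥ m₀`)
is `∑ A_i P_i`, `A_i` forms of degree `m - N`: this is `G0b_span` in `MP_1e3e9c_agU/G0b.lean` (private: copy it with what it needs),
or: choose two combinations `P'`, `P''` of the `P_i` without common zero (`k` infinite: for `P' ≠ 0` some combination avoids the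
finitely many zeros of `P'`); the map `(A, B) ↦ A P' + B P''` on forms of degree `N-1` is injective (`P'`, `P''` coprime), and the
dimensions `N + N = 2N` agree, so it is onto the forms of degree `2N - 1`; every monomial of degree `m ≥ 2N-1` is a monomial times one of
degree `2N-1`. (2) `B = k[s_0, s_1]` (`MvPolynomial (Fin 2) k`) is a finite module over its subalgebra
`A = Algebra.adjoin k {P_i}` : by strong induction on the degree every form is an `A`-combination of the monomials of degree
`< 2N - 1` (or `< m₀`). So `θ` is integral over `A` (`IsIntegral.of_finite`): a monic equation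
`θ^m + ∑_(j < m) a_j θ^j = 0`, `a_j ∈ A`, `a_j = q'_j(P)`. (3) Take the homogeneous component of degree `m N` (`m ≥ 1`; multiply by `θ` if
`m = 0`): `θ^m + ∑_j q_j(P) θ^j = 0` with `q_j` = the homogeneous component of `q'_j` of degree `m - j`
(`MvPolynomial.homogeneousComponent`), because `q(P)` is a form of degree `N s` for a form `q` of degree `s`. Evaluate at `x`.
-/

set_option autoImplicit false

namespace Pool.Agent.Lib.MP_1e3e9c_agR

open Pool.Agent.Lib.MP_1e3e9c_agU Pool.Agent.Lib.MP_1e3e9c_agW

private noncomputable def c4_form {k : Type} [Field k] {N : ℕ} (c : Fin (N + 1) → k) : MvPolynomial (Fin 2) k :=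
  ∑ j : Fin (N + 1), MvPolynomial.C (c j) *
    (MvPolynomial.X 0 ^ (N - (j : ℕ)) * MvPolynomial.X 1 ^ (j : ℕ))

private theorem c4_eval {k : Type} [Field k] {N : ℕ} (c : Fin (N + 1) → k) (x : Fin 2 → k) :
    MvPolynomial.eval x (c4_form c) = ev c x := by
  unfold c4_form ev
  rw [map_sum]
  refine Finset.sum_congr rfl fun j _ => ?_
  simp only [map_mul, map_pow, MvPolynomial.eval_C, MvPolynomial.eval_X]
  ring

private theorem c4_hom {k : Type} [Field k] {N : ℕ} (c : Fin (N + 1) → k) : (c4_form c).IsHomogeneous N := by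
  unfold c4_form
  refine MvPolynomial.IsHomogeneous.sum _ _ _ fun j _ => ?_
  have h := ((MvPolynomial.isHomogeneous_X_pow (R := k) (0 : Fin 2) (N - (j : ℕ))).mul
    (MvPolynomial.isHomogeneous_X_pow (R := k) (1 : Fin 2) (j : ℕ))).C_mul (c j)
  have e : N - (j : ℕ) + j = N := by
    have := j.2
    omega
  rwa [e] at h

private theorem c4_comp {σ k : Type} [Field k] {A P : MvPolynomial σ k} {N : ℕ} (hP : P.IsHomogeneous N)
    (a b : ℕ) (hb : b = a + N) : MvPolynomial.homogeneousComponent b (A * P) =
      MvPolynomial.homogeneousComponent a A * P := by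
  subst hb
  have h1 := MvPolynomial.sum_homogeneousComponent A
  conv_lhs => rw [← h1]
  rw [Finset.sum_mul, map_sum]
  have h2 : ∀ i, MvPolynomial.homogeneousComponent (a + N) (MvPolynomial.homogeneousComponent i A * P) =
      if i = a then MvPolynomial.homogeneousComponent a A * P else 0 := by
    intro i
    rw [MvPolynomial.homogeneousComponent_of_mem (n := i + N) ((MvPolynomial.mem_homogeneousSubmodule _ _).2
      ((MvPolynomial.homogeneousComponent_isHomogeneous i A).mul hP))]
    by_cases h : i = a
    · rw [if_pos (by omega), if_pos h, h]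
    · rw [if_neg (by omega), if_neg h]
  rw [Finset.sum_congr rfl fun i _ => h2 i, Finset.sum_ite_eq']
  split_ifs with h
  · rfl
  · rw [MvPolynomial.homogeneousComponent_eq_zero _ _ (by rw [Finset.mem_range] at h; omega), zero_mul]

private theorem c4_comp2 {k : Type} [Field k] {n N : ℕ} (hN : 0 < N) (P : Fin (n + 1) → MvPolynomial (Fin 2) k)
    (hP : ∀ i, (P i).IsHomogeneous N) (q : MvPolynomial (Fin (n + 1)) k) (t : ℕ) :
    MvPolynomial.homogeneousComponent (N * t) (MvPolynomial.aeval P q) =
      MvPolynomial.aeval P (MvPolynomial.homogeneousComponent t q) := by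
  have h1 := MvPolynomial.sum_homogeneousComponent q
  conv_lhs => rw [← h1]
  rw [map_sum, map_sum]
  have h2 : ∀ i, MvPolynomial.homogeneousComponent (N * t)
      (MvPolynomial.aeval P (MvPolynomial.homogeneousComponent i q)) =
      if i = t then MvPolynomial.aeval P (MvPolynomial.homogeneousComponent t q) else 0 := by
    intro i
    rw [MvPolynomial.homogeneousComponent_of_mem (n := N * i) ((MvPolynomial.mem_homogeneousSubmodule _ _).2
      ((MvPolynomial.homogeneousComponent_isHomogeneous i q).aeval _ hP))]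
    by_cases h : i = t
    · rw [if_pos (by rw [h]), if_pos h, h]
    · rw [if_neg (fun h' => h (Nat.eq_of_mul_eq_mul_left hN h').symm), if_neg h]
  rw [Finset.sum_congr rfl fun i _ => h2 i, Finset.sum_ite_eq']
  split_ifs with h
  · rfl
  · rw [MvPolynomial.homogeneousComponent_eq_zero _ _ (by rw [Finset.mem_range] at h; omega), map_zero]

private theorem c4_mon {k : Type} [Field k] (d : Fin 2 →₀ ℕ) (a : k) : MvPolynomial.monomial d a =
    MvPolynomial.C a * (MvPolynomial.X 0 ^ d 0 * MvPolynomial.X 1 ^ d 1) := by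
  rw [MvPolynomial.monomial_eq, Finsupp.prod_fintype _ _ (fun i => pow_zero _), Fin.prod_univ_two]

private theorem c4_rad {k : Type} [Field k] [IsAlgClosed k] {n : ℕ} (P : Fin (n + 1) → MvPolynomial (Fin 2) k)
    (hP : ∀ x : Fin 2 → k, (∀ i, MvPolynomial.eval x (P i) = 0) → x = 0) :
    ∃ e : ℕ, ∀ j : Fin 2, (MvPolynomial.X j : MvPolynomial (Fin 2) k) ^ e ∈ Ideal.span (Set.range P) := by
  have h : ∀ j : Fin 2, ∃ e : ℕ, (MvPolynomial.X j : MvPolynomial (Fin 2) k) ^ e ∈ Ideal.span (Set.range P) := by
    intro j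
    have h1 : (MvPolynomial.X j : MvPolynomial (Fin 2) k) ∈
        MvPolynomial.vanishingIdeal k (MvPolynomial.zeroLocus k (Ideal.span (Set.range P))) := by
      intro x hx
      have hx0 : x = 0 := hP x fun i => hx (P i) (Ideal.subset_span ⟨i, rfl⟩)
      rw [MvPolynomial.aeval_X, hx0, Pi.zero_apply]
    rw [MvPolynomial.vanishingIdeal_zeroLocus_eq_radical] at h1
    exact h1
  obtain ⟨e0, h0⟩ := h 0
  obtain ⟨e1, h1⟩ := h 1
  refine ⟨e0 + e1, fun j => ?_⟩
  fin_cases j
  · show (MvPolynomial.X 0 : MvPolynomial (Fin 2) k) ^ (e0 + e1) ∈ _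
    rw [pow_add]
    exact Ideal.mul_mem_right _ _ h0
  · show (MvPolynomial.X 1 : MvPolynomial (Fin 2) k) ^ (e0 + e1) ∈ _
    rw [pow_add]
    exact Ideal.mul_mem_left _ _ h1

private theorem c4_finite {k : Type} [Field k] [IsAlgClosed k] {n N : ℕ} (hN : 0 < N)
    (P : Fin (n + 1) → MvPolynomial (Fin 2) k) (hPh : ∀ i, (P i).IsHomogeneous N)
    (hP : ∀ x : Fin 2 → k, (∀ i, MvPolynomial.eval x (P i) = 0) → x = 0) :
    Module.Finite (Algebra.adjoin k (Set.range P)) (MvPolynomial (Fin 2) k) := by
  classical
  obtain ⟨e, he⟩ := c4_rad P hP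
  let T : Finset (MvPolynomial (Fin 2) k) :=
    (Finset.range (2 * e + N) ×ˢ Finset.range (2 * e + N)).image
      fun ab => MvPolynomial.X 0 ^ ab.1 * MvPolynomial.X 1 ^ ab.2
  let W : Submodule (Algebra.adjoin k (Set.range P)) (MvPolynomial (Fin 2) k) := Submodule.span _ (T : Set _)
  have hC : ∀ (a : k) (F : MvPolynomial (Fin 2) k), F ∈ W → MvPolynomial.C a * F ∈ W := by
    intro a F hF
    have h := W.smul_mem (algebraMap k (Algebra.adjoin k (Set.range P)) a) hF
    have h2 : (algebraMap k (Algebra.adjoin k (Set.range P)) a) • F = MvPolynomial.C a * F := rfl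
    rwa [h2] at h
  have hPm : ∀ (i : Fin (n + 1)) (F : MvPolynomial (Fin 2) k), F ∈ W → F * P i ∈ W := by
    intro i F hF
    have h := W.smul_mem (⟨P i, Algebra.subset_adjoin ⟨i, rfl⟩⟩ : Algebra.adjoin k (Set.range P)) hF
    have h2 : (⟨P i, Algebra.subset_adjoin ⟨i, rfl⟩⟩ : Algebra.adjoin k (Set.range P)) • F = P i * F := rfl
    rw [h2, mul_comm] at h
    exact h
  have key : ∀ m a b : ℕ, a + b = m →
      (MvPolynomial.X 0 ^ a * MvPolynomial.X 1 ^ b : MvPolynomial (Fin 2) k) ∈ W := by
    intro m
    induction m using Nat.strong_induction_on with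
    | _ m ih =>
      intro a b hab
      rcases Nat.lt_or_ge m (2 * e + N) with hm | hm
      · refine Submodule.subset_span (Finset.mem_coe.2 (Finset.mem_image.2 ⟨(a, b), ?_, rfl⟩))
        rw [Finset.mem_product, Finset.mem_range, Finset.mem_range]
        constructor
        · show a < 2 * e + N
          omega
        · show b < 2 * e + N
          omega
      · have hI : (MvPolynomial.X 0 ^ a * MvPolynomial.X 1 ^ b : MvPolynomial (Fin 2) k) ∈
            Ideal.span (Set.range P) := by
          rcases Nat.lt_or_ge a e with ha | ha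
          · have hb : b = e + (b - e) := by omega
            rw [hb, pow_add]
            exact Ideal.mul_mem_left _ _ (Ideal.mul_mem_right _ _ (he 1))
          · have ha' : a = e + (a - e) := by omega
            rw [ha', pow_add]
            exact Ideal.mul_mem_right _ _ (Ideal.mul_mem_right _ _ (he 0))
        obtain ⟨A, hA⟩ := Ideal.mem_span_range_iff_exists_fun.1 hI
        have hh : (MvPolynomial.X 0 ^ a * MvPolynomial.X 1 ^ b : MvPolynomial (Fin 2) k).IsHomogeneous m := by
          have h := (MvPolynomial.isHomogeneous_X_pow (R := k) (0 : Fin 2) a).mul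
            (MvPolynomial.isHomogeneous_X_pow (R := k) (1 : Fin 2) b)
          rwa [hab] at h
        have hs : (MvPolynomial.X 0 ^ a * MvPolynomial.X 1 ^ b : MvPolynomial (Fin 2) k) =
            ∑ i, MvPolynomial.homogeneousComponent (m - N) (A i) * P i := by
          rw [← MvPolynomial.homogeneousComponent_eq_self hh, ← hA, map_sum]
          exact Finset.sum_congr rfl fun i _ => c4_comp (hPh i) _ _ (by omega)
        rw [hs]
        refine W.sum_mem fun i _ => hPm i _ ?_
        rw [MvPolynomial.homogeneousComponent_apply]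
        refine W.sum_mem fun d hd => ?_
        rw [c4_mon]
        refine hC _ _ (ih (m - N) (by omega) _ _ ?_)
        have h3 := (Finset.mem_filter.1 hd).2
        rw [← h3, Finsupp.degree_eq_sum, Fin.sum_univ_two]
  refine ⟨⟨T, ?_⟩⟩
  rw [eq_top_iff]
  intro F _
  show F ∈ W
  rw [MvPolynomial.as_sum F]
  refine W.sum_mem fun d _ => ?_
  rw [c4_mon]
  exact hC _ _ (key _ _ _ rfl)

theorem form_integral {k : Type} [Field k] [IsAlgClosed k] {n N : ℕ} (hN : 0 < N)
    (P : Fin (n + 1) → Fin (N + 1) → k) (hP : ∀ x : Fin 2 → k, x ≠ 0 → ∃ i, ev (P i) x ≠ 0)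
    (θ : Fin (N + 1) → k) :
    ∃ (m : ℕ) (q : Fin m → MvPolynomial (Fin (n + 1)) k), 0 < m ∧
      (∀ j, (q j).IsHomogeneous (m - (j : ℕ))) ∧
      ∀ x : Fin 2 → k, ev θ x ^ m +
        ∑ j, MvPolynomial.eval (fun i => ev (P i) x) (q j) * ev θ x ^ (j : ℕ) = 0 := by
  classical
  have hPh : ∀ i, (c4_form (P i)).IsHomogeneous N := fun i => c4_hom _
  have hfin := c4_finite hN (fun i => c4_form (P i)) hPh (by
    intro x hx
    by_contra hne
    obtain ⟨i, hi⟩ := hP x hne
    exact hi (by rw [← c4_eval]; exact hx i))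
  obtain ⟨f, hf, hf0⟩ := IsIntegral.of_finite (Algebra.adjoin k (Set.range fun i => c4_form (P i))) (c4_form θ)
  have hq : ∀ j : ℕ, ∃ q : MvPolynomial (Fin (n + 1)) k,
      MvPolynomial.aeval (fun i => c4_form (P i)) q = (f.coeff j : MvPolynomial (Fin 2) k) := by
    intro j
    have h : ∀ y ∈ Algebra.adjoin k (Set.range fun i => c4_form (P i)),
        ∃ q : MvPolynomial (Fin (n + 1)) k, MvPolynomial.aeval (fun i => c4_form (P i)) q = y := by
      intro y hy
      rw [Algebra.adjoin_range_eq_range_aeval] at hy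
      exact hy
    exact h _ (f.coeff j).2
  choose q hq using hq
  rw [Polynomial.eval₂_eq_sum_range, Finset.sum_range_succ, hf.coeff_natDegree, map_one, one_mul,
    Finset.sum_range] at hf0
  have hf1 : ∑ j : Fin f.natDegree, MvPolynomial.aeval (fun i => c4_form (P i)) (q j) * c4_form θ ^ (j : ℕ) +
      c4_form θ ^ f.natDegree = 0 := by
    rw [← hf0]
    congr 1
    refine Finset.sum_congr rfl fun j _ => ?_
    rw [hq]
    rfl
  have hpos : 0 < f.natDegree := by
    rcases Nat.eq_zero_or_pos f.natDegree with h0 | h0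
    · exfalso
      have : IsEmpty (Fin f.natDegree) := by
        rw [h0]
        infer_instance
      rw [Finset.univ_eq_empty, Finset.sum_empty, zero_add, h0, pow_zero] at hf1
      exact one_ne_zero hf1
    · exact h0
  have hf2 := congrArg (MvPolynomial.homogeneousComponent (N * f.natDegree)) hf1
  rw [map_add, map_sum, map_zero, MvPolynomial.homogeneousComponent_eq_self ((c4_hom θ).pow _)] at hf2
  refine ⟨f.natDegree, fun j => MvPolynomial.homogeneousComponent (f.natDegree - (j : ℕ)) (q j), hpos,
    fun j => MvPolynomial.homogeneousComponent_isHomogeneous _ _, fun x => ?_⟩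
  have hf3 := congrArg (MvPolynomial.eval x) hf2
  rw [map_add, map_sum, map_pow, c4_eval, map_zero, add_comm] at hf3
  rw [← hf3]
  congr 1
  refine Finset.sum_congr rfl fun j _ => ?_
  rw [c4_comp ((c4_hom θ).pow (j : ℕ)) (N * (f.natDegree - (j : ℕ))) (N * f.natDegree) (by
    rw [← Nat.mul_add, Nat.sub_add_cancel j.2.le]), c4_comp2 hN _ hPh, map_mul, map_pow, c4_eval]
  congr 1
  have h4 : ∀ r : MvPolynomial (Fin (n + 1)) k, MvPolynomial.eval x
      (MvPolynomial.aeval (fun i => c4_form (P i)) r) = MvPolynomial.eval (fun i => ev (P i) x) r := by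
    intro r
    rw [MvPolynomial.aeval_def, MvPolynomial.eval₂_comp_left]
    have h5 : (MvPolynomial.eval x).comp (algebraMap k (MvPolynomial (Fin 2) k)) = RingHom.id k := by
      ext a
      simp
    rw [h5]
    have h6 : (⇑(MvPolynomial.eval x) ∘ fun i => c4_form (P i)) = fun i => ev (P i) x := by
      funext i
      exact c4_eval _ _
    rw [h6]
    rfl
  rw [h4]

end Pool.Agent.Lib.MP_1e3e9c_agR
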