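import Mathlib
import Pool.Agent.Lib.MP_1e3e9c_agR.B5
import Pool.Agent.Lib.MP_1e3e9c_agR.C4

/-!
# MP_1e3e9c_ag, project R, leaf X0: the image of a curve without base points is closed

PROOF. Let `φ : k[x_0..x_n] → k[s_0, s_1]` (`MvPolynomial (Fin 2) k`), `x_i ↦ ∑_j (p_i)_j s_0^(w_i D - j) s_1^j`, a form of degree
`w_i D`; `eval x (φ F) = eval (hv w D p x) F`. (1) `φ` is integral: let `W = ∏ w_i`, `N = W D > 0`, `P_i` = the form of degree `N`
with `P_i(x) = (hv x i)^(W / w_i)` (the coefficients of `(p i)^(W / w_i)`, `hv_eval` of B5, as in the proof of `no_vertex`, C5.lean);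
they have no common zero, so `form_integral` (C4) for `θ = s_0^N` and `θ = s_1^N`: `s_0^N`, `s_1^N` satisfy monic equations with
coefficients `q_j(P) = φ(q_j(x_i^(W/w_i)))` (the equations hold for all `x ∈ k^2`, `k` infinite, so as polynomials:
`MvPolynomial.funext`). So `s_0`, `s_1` are integral over the range of `φ`, and so is all of `k[s_0, s_1]`. (2) The kernel of `φ` is contained in
the ideal of the point `y`: if `φ F = 0` then the weighted homogeneous components `F_m` of `F`
(`MvPolynomial.weightedHomogeneousComponent`) satisfy `φ F_m = 0` (the component of degree `m D` of `φ F`; or: `F(hv (c x)) = ∑ c^(m D) F_m(hv x)`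
for all `c`, `D > 0`), so `F_m` vanishes on all `val p t`, `F_m(y) = 0` by `hy`. (3) So the maximal ideal `M_y` (kernel of
`eval y`) contains `ker φ` and there is a maximal ideal of `k[s_0, s_1]` over it (`Ideal.exists_ideal_over_maximal_of_isIntegral`, for
`φ.toAlgebra`), the ideal of a point `x` (`MvPolynomial.isMaximal_iff_eq_vanishingIdeal_singleton`, as in N3a / B3): `X i - C (y i) ∈ M_y`
is mapped to `φ (X i) - C (y i)`, which vanishes at `x`: `hv x i = y i`.
-/

set_option autoImplicit false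

namespace Pool.Agent.Lib.MP_1e3e9c_agR

open Pool.Agent.Lib.MP_1e3e9c_agU Pool.Agent.Lib.MP_1e3e9c_agW

private noncomputable def X0_f {k : Type} [Field k] {n : ℕ} (w : Fin (n + 1) → ℕ) (D : ℕ)
    (p : Fin (n + 1) → Polynomial k) (i : Fin (n + 1)) : MvPolynomial (Fin 2) k :=
  ∑ j ∈ Finset.range (w i * D + 1),
    MvPolynomial.C ((p i).coeff j) * MvPolynomial.X 0 ^ (w i * D - j) * MvPolynomial.X 1 ^ j

private theorem X0_f_eval {k : Type} [Field k] {n : ℕ} (w : Fin (n + 1) → ℕ) (D : ℕ)
    (p : Fin (n + 1) → Polynomial k) (i : Fin (n + 1)) (x : Fin 2 → k) :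
    MvPolynomial.eval x (X0_f w D p i) = hv w D p x i := by
  unfold X0_f hv
  rw [map_sum]
  refine Finset.sum_congr rfl fun j _ => ?_
  rw [map_mul, map_mul, map_pow, map_pow, MvPolynomial.eval_C, MvPolynomial.eval_X, MvPolynomial.eval_X]

private theorem X0_ev {k σ τ : Type} [Field k] (F : σ → MvPolynomial τ k) (q : MvPolynomial σ k)
    (v : τ → k) : MvPolynomial.eval v (MvPolynomial.aeval F q)
      = MvPolynomial.eval (fun i => MvPolynomial.eval v (F i)) q := by
  rw [MvPolynomial.map_aeval]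
  have h : (MvPolynomial.eval v).comp (algebraMap k (MvPolynomial τ k)) = RingHom.id k := by
    ext c
    simp
  rw [h]
  rfl

private theorem X0_ev2 {k : Type} [Field k] {n : ℕ} (w : Fin (n + 1) → ℕ) (D : ℕ)
    (p : Fin (n + 1) → Polynomial k) (F : MvPolynomial (Fin (n + 1)) k) (x : Fin 2 → k) :
    MvPolynomial.eval x (MvPolynomial.aeval (X0_f w D p) F) = MvPolynomial.eval (hv w D p x) F := by
  rw [X0_ev]
  have h : (fun i => MvPolynomial.eval x (X0_f w D p i)) = hv w D p x := funext fun i => X0_f_eval w D p i x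
  rw [h]

private theorem X0_smul {k : Type} [Field k] {n : ℕ} (w : Fin (n + 1) → ℕ) (D : ℕ)
    (p : Fin (n + 1) → Polynomial k) (c : k) (x : Fin 2 → k) :
    hv w D p (fun j => c * x j) = fun i => (c ^ D) ^ w i * hv w D p x i := by
  funext i
  unfold hv
  rw [Finset.mul_sum]
  refine Finset.sum_congr rfl fun j hj => ?_
  have hj' : j ≤ w i * D := Nat.lt_succ_iff.1 (Finset.mem_range.1 hj)
  have h1 : (c ^ D) ^ w i = c ^ (w i * D - j) * c ^ j := by
    rw [← pow_mul, ← pow_add, Nat.sub_add_cancel hj', mul_comm D]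
  rw [h1, mul_pow, mul_pow]
  ring

private theorem X0_ker {k : Type} [Field k] [Infinite k] {n D : ℕ} {w : Fin (n + 1) → ℕ}
    (hD : 0 < D) {p : Fin (n + 1) → Polynomial k} (hp : ∀ i, (p i).natDegree ≤ w i * D)
    {y : Fin (n + 1) → k} (hy : OnC w p y) (F : MvPolynomial (Fin (n + 1)) k)
    (hF : ∀ x, MvPolynomial.eval (hv w D p x) F = 0) : MvPolynomial.eval y F = 0 := by
  classical
  obtain ⟨S, hS⟩ : ∃ S : Finset ℕ, F = ∑ m ∈ S, MvPolynomial.weightedHomogeneousComponent w m F := by
    refine ⟨(MvPolynomial.weightedHomogeneousComponent_finsupp (w := w) F).toFinset, ?_⟩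
    have h1 := MvPolynomial.sum_weightedHomogeneousComponent w F
    rw [finsum_eq_sum _ (MvPolynomial.weightedHomogeneousComponent_finsupp F)] at h1
    exact h1.symm
  have key : ∀ m ∈ S, ∀ x, MvPolynomial.eval (hv w D p x) (MvPolynomial.weightedHomogeneousComponent w m F) = 0 := by
    intro m₀ hm₀ x
    have hQ : (∑ m ∈ S, Polynomial.C (MvPolynomial.eval (hv w D p x)
        (MvPolynomial.weightedHomogeneousComponent w m F)) * Polynomial.X ^ (m * D)) = 0 := by
      refine Polynomial.funext fun c => ?_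
      rw [Polynomial.eval_finsetSum, Polynomial.eval_zero]
      have h1 := hF (fun j => c * x j)
      rw [X0_smul, hS, map_sum] at h1
      refine Eq.trans (Finset.sum_congr rfl fun m _ => ?_) h1
      rw [eval_smul_w (MvPolynomial.weightedHomogeneousComponent_isWeightedHomogeneous m F), Polynomial.eval_mul,
        Polynomial.eval_C, Polynomial.eval_pow, Polynomial.eval_X, ← pow_mul, mul_comm D m, mul_comm]
    have h2 := congrArg (fun Q : Polynomial k => Q.coeff (m₀ * D)) hQ
    simp only [Polynomial.finsetSum_coeff, Polynomial.coeff_C_mul, Polynomial.coeff_X_pow, Polynomial.coeff_zero] at h2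
    rw [Finset.sum_eq_single m₀] at h2
    · rw [if_pos rfl, mul_one] at h2
      exact h2
    · intro m _ hm
      rw [if_neg, mul_zero]
      intro h3
      exact hm (Nat.eq_of_mul_eq_mul_right hD h3).symm
    · intro h
      exact absurd hm₀ h
  rw [hS, map_sum]
  refine Finset.sum_eq_zero fun m hm => ?_
  refine hy m _ (MvPolynomial.weightedHomogeneousComponent_isWeightedHomogeneous m F) fun t => ?_
  rw [← hv_coe hp t]
  exact key m hm _

private theorem X0_int {k : Type} [Field k] [IsAlgClosed k] {n D : ℕ} {w : Fin (n + 1) → ℕ}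
    (hw : ∀ i, 0 < w i) (hD : 0 < D) {p : Fin (n + 1) → Polynomial k}
    (hp : ∀ i, (p i).natDegree ≤ w i * D)
    (hfree : ∀ x : Fin 2 → k, x ≠ 0 → ∃ i, hv w D p x i ≠ 0) :
    (MvPolynomial.aeval (X0_f w D p) :
      MvPolynomial (Fin (n + 1)) k →ₐ[k] MvPolynomial (Fin 2) k).toRingHom.IsIntegral := by
  classical
  have hinf : Infinite k := IsAlgClosed.instInfinite
  obtain ⟨W, hWdef⟩ : ∃ W, W = ∏ i, w i := ⟨_, rfl⟩
  have hW : 0 < W := by
    rw [hWdef]
    exact Finset.prod_pos fun i _ => hw i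
  have hdw : ∀ i, w i ∣ W := by
    intro i
    rw [hWdef]
    exact Finset.dvd_prod_of_mem w (Finset.mem_univ i)
  have hFi : ∀ i : Fin (n + 1), ((MvPolynomial.X i : MvPolynomial (Fin (n + 1)) k) ^ (W / w i)
      ).IsWeightedHomogeneous w W := by
    intro i
    have h1 := (MvPolynomial.isWeightedHomogeneous_X k w i).pow (W / w i)
    have h2 : (W / w i) • w i = W := Nat.div_mul_cancel (hdw i)
    rwa [h2] at h1
  obtain ⟨P, hPdef⟩ : ∃ P : Fin (n + 1) → Fin (W * D + 1) → k, P = fun (i : Fin (n + 1)) (j : Fin (W * D + 1)) =>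
      (MvPolynomial.aeval p ((MvPolynomial.X i : MvPolynomial (Fin (n + 1)) k) ^ (W / w i))).coeff
        (j : ℕ) := ⟨_, rfl⟩
  have hPev : ∀ i x, ev (P i) x = hv w D p x i ^ (W / w i) := by
    intro i x
    have h1 := hv_eval hp (hFi i) x
    rw [map_pow, MvPolynomial.eval_X] at h1
    rw [hPdef, h1]
  have hP : ∀ x : Fin 2 → k, x ≠ 0 → ∃ i, ev (P i) x ≠ 0 := by
    intro x hx
    obtain ⟨i, hi⟩ := hfree x hx
    refine ⟨i, ?_⟩
    rw [hPev]
    exact pow_ne_zero _ hi
  let _ : Algebra (MvPolynomial (Fin (n + 1)) k) (MvPolynomial (Fin 2) k) :=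
    (MvPolynomial.aeval (X0_f w D p) :
      MvPolynomial (Fin (n + 1)) k →ₐ[k] MvPolynomial (Fin 2) k).toRingHom.toAlgebra
  have hth : ∀ l : Fin 2, ∃ θ : Fin (W * D + 1) → k, ∀ x, ev θ x = x l ^ (W * D) := by
    intro l
    fin_cases l
    · refine ⟨fun j => if (j : ℕ) = 0 then 1 else 0, fun x => ?_⟩
      unfold ev
      rw [Finset.sum_eq_single (0 : Fin (W * D + 1))]
      · simp
      · intro j _ hj
        have h1 : (j : ℕ) ≠ 0 := fun h => hj (Fin.ext h)
        change (if (j : ℕ) = 0 then (1 : k) else 0) * x 0 ^ (W * D - (j : ℕ)) * x 1 ^ (j : ℕ) = 0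
        rw [if_neg h1, zero_mul, zero_mul]
      · intro h
        exact absurd (Finset.mem_univ _) h
    · refine ⟨fun j => if (j : ℕ) = W * D then 1 else 0, fun x => ?_⟩
      unfold ev
      rw [Finset.sum_eq_single (Fin.last (W * D))]
      · simp
      · intro j _ hj
        have h1 : (j : ℕ) ≠ W * D := fun h => hj (Fin.ext h)
        change (if (j : ℕ) = W * D then (1 : k) else 0) * x 0 ^ (W * D - (j : ℕ)) * x 1 ^ (j : ℕ) = 0
        rw [if_neg h1, zero_mul, zero_mul]
      · intro h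
        exact absurd (Finset.mem_univ _) h
  have hX : ∀ l : Fin 2, IsIntegral (MvPolynomial (Fin (n + 1)) k) (MvPolynomial.X l : MvPolynomial (Fin 2) k) := by
    intro l
    obtain ⟨θ, hθ⟩ := hth l
    obtain ⟨m, q, hm, -, heq⟩ := form_integral (Nat.mul_pos hW hD) P hP θ
    refine IsIntegral.of_pow (Nat.mul_pos hW hD) ⟨Polynomial.X ^ m + ∑ j : Fin m,
      Polynomial.C (MvPolynomial.aeval (fun i : Fin (n + 1) =>
        ((MvPolynomial.X i : MvPolynomial (Fin (n + 1)) k) ^ (W / w i))) (q j)) * Polynomial.X ^ (j : ℕ), ?_, ?_⟩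
    · exact Polynomial.monic_X_pow_add (Polynomial.degree_sum_fin_lt _)
    · rw [Polynomial.eval₂_add, Polynomial.eval₂_X_pow, Polynomial.eval₂_finsetSum]
      refine MvPolynomial.funext fun x => ?_
      rw [map_add, map_sum, map_zero, map_pow, map_pow, MvPolynomial.eval_X]
      refine Eq.trans ?_ (heq x)
      rw [hθ]
      congr 1
      refine Finset.sum_congr rfl fun j _ => ?_
      rw [Polynomial.eval₂_mul, Polynomial.eval₂_C, Polynomial.eval₂_X_pow, map_mul, map_pow, map_pow,
        MvPolynomial.eval_X]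
      congr 1
      have h1 : MvPolynomial.eval x (algebraMap (MvPolynomial (Fin (n + 1)) k) (MvPolynomial (Fin 2) k)
          (MvPolynomial.aeval (fun i : Fin (n + 1) =>
            ((MvPolynomial.X i : MvPolynomial (Fin (n + 1)) k) ^ (W / w i))) (q j))) =
          MvPolynomial.eval (hv w D p x) (MvPolynomial.aeval (fun i : Fin (n + 1) =>
            ((MvPolynomial.X i : MvPolynomial (Fin (n + 1)) k) ^ (W / w i))) (q j)) := X0_ev2 w D p _ x
      rw [h1, X0_ev]
      refine congrArg (fun v : Fin (n + 1) → k => MvPolynomial.eval v (q j)) (funext fun i => ?_)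
      rw [map_pow, MvPolynomial.eval_X, hPev]
  intro F
  change IsIntegral (MvPolynomial (Fin (n + 1)) k) F
  induction F using MvPolynomial.induction_on with
  | C a =>
    have h1 : (MvPolynomial.C a : MvPolynomial (Fin 2) k) =
        algebraMap (MvPolynomial (Fin (n + 1)) k) (MvPolynomial (Fin 2) k) (MvPolynomial.C a) :=
      (MvPolynomial.aeval_C (X0_f w D p) a).symm
    rw [h1]
    exact isIntegral_algebraMap
  | add f g hf hg => exact hf.add hg
  | mul_X f i hf => exact hf.mul (hX i)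

theorem on_curve {k : Type} [Field k] [IsAlgClosed k] {n D : ℕ} {w : Fin (n + 1) → ℕ}
    (hw : ∀ i, 0 < w i) (hD : 0 < D) {p : Fin (n + 1) → Polynomial k}
    (hp : ∀ i, (p i).natDegree ≤ w i * D)
    (hfree : ∀ x : Fin 2 → k, x ≠ 0 → ∃ i, hv w D p x i ≠ 0)
    {y : Fin (n + 1) → k} (hy : OnC w p y) : ∃ x : Fin 2 → k, ∀ i, hv w D p x i = y i := by
  have hinf : Infinite k := IsAlgClosed.instInfinite
  have hint := X0_int hw hD hp hfree
  let _ : Algebra (MvPolynomial (Fin (n + 1)) k) (MvPolynomial (Fin 2) k) :=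
    (MvPolynomial.aeval (X0_f w D p) :
      MvPolynomial (Fin (n + 1)) k →ₐ[k] MvPolynomial (Fin 2) k).toRingHom.toAlgebra
  have : Algebra.IsIntegral (MvPolynomial (Fin (n + 1)) k) (MvPolynomial (Fin 2) k) := ⟨hint⟩
  have hmax : (MvPolynomial.vanishingIdeal k {y} : Ideal (MvPolynomial (Fin (n + 1)) k)).IsMaximal :=
    MvPolynomial.isMaximal_iff_eq_vanishingIdeal_singleton.2 ⟨y, rfl⟩
  obtain ⟨Q, hQ, hQc⟩ := Ideal.exists_ideal_over_maximal_of_isIntegral (S := MvPolynomial (Fin 2) k)
    (MvPolynomial.vanishingIdeal k {y} : Ideal (MvPolynomial (Fin (n + 1)) k)) (by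
      intro F hF
      rw [RingHom.mem_ker] at hF
      rw [MvPolynomial.mem_vanishingIdeal_iff]
      rintro x rfl
      rw [MvPolynomial.aeval_eq_eval]
      refine X0_ker hD hp hy F fun x => ?_
      rw [← X0_ev2]
      have h1 : MvPolynomial.aeval (X0_f w D p) F = 0 := hF
      rw [h1, map_zero])
  obtain ⟨x, rfl⟩ := MvPolynomial.isMaximal_iff_eq_vanishingIdeal_singleton.1 hQ
  refine ⟨x, fun i => ?_⟩
  have h1 : (MvPolynomial.X i - MvPolynomial.C (y i) : MvPolynomial (Fin (n + 1)) k) ∈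
      (MvPolynomial.vanishingIdeal k {y} : Ideal (MvPolynomial (Fin (n + 1)) k)) := by
    rw [MvPolynomial.mem_vanishingIdeal_iff]
    rintro x rfl
    rw [MvPolynomial.aeval_eq_eval, map_sub, MvPolynomial.eval_X, MvPolynomial.eval_C, sub_self]
  rw [← hQc, Ideal.mem_comap, MvPolynomial.mem_vanishingIdeal_iff] at h1
  have h2 := h1 x rfl
  rw [MvPolynomial.aeval_eq_eval] at h2
  have h3 : MvPolynomial.eval x (MvPolynomial.aeval (X0_f w D p) (MvPolynomial.X i - MvPolynomial.C (y i))) = 0 := h2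
  rw [X0_ev2, map_sub, MvPolynomial.eval_X, MvPolynomial.eval_C] at h3
  exact sub_eq_zero.1 h3

end Pool.Agent.Lib.MP_1e3e9c_agR
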