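import Mathlib
import Pool.Agent.Lib.MP_1e3e9c_agR.XDefs

/-!
# MP_1e3e9c_ag, project R, leaf X10: scaling of smooth points

PROOF. For `F` weighted homogeneous of weight `m`: `a^(w_i) * (∂_i F)(a v) = a^m * (∂_i F)(v)`, where `a v = (a^(w_j) v_j)_j` (enough for a
monomial `x^α`, `∑ w_j α_j = m`: `∂_i x^α = α_i x^(α - e_i)`, `a^(w_i) ∏ (a^(w_j) v_j)^(α_j - δ_ij) = a^m ∏ v_j^(α_j - δ_ij)` if
`α_i ≥ 1`, and both sides are `0` if `α_i = 0`; `MvPolynomial.pderiv_monomial`; sum over the support: `F = ∑ monomial`, `F.as_sum`). So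
`gr F (a v) i = a^m a^(-w_i) gr F v i`. The vectors `gr G (a v)`, `gr (P l) (a v)` are the images of `gr G v`, `gr (P l) v` under the
invertible diagonal map `(a^(-w_i))_i`, multiplied by nonzero constants: independent (`Fintype.linearIndependent_iff`, or
`LinearIndependent.units_smul` and `LinearIndependent.map'`). (`P l ∈ S` is weighted homogeneous by `hS`.)
-/

set_option autoImplicit false

namespace Pool.Agent.Lib.MP_1e3e9c_agR

open Pool.Agent.Lib.MP_1e3e9c_agU Pool.Agent.Lib.MP_1e3e9c_agW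

private theorem X10_eval {k : Type} [Field k] {n : ℕ} (w : Fin (n + 1) → ℕ) (a : k) (v : Fin (n + 1) → k)
    (F : MvPolynomial (Fin (n + 1)) k) :
    MvPolynomial.eval v (MvPolynomial.aeval (fun j => (MvPolynomial.C (a ^ w j) * MvPolynomial.X j :
      MvPolynomial (Fin (n + 1)) k)) F) = MvPolynomial.eval (fun j => a ^ w j * v j) F := by
  induction F using MvPolynomial.induction_on with
  | C c =>
    rw [MvPolynomial.aeval_C, MvPolynomial.algebraMap_eq, MvPolynomial.eval_C, MvPolynomial.eval_C]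
  | add p q hp hq => rw [map_add, map_add, map_add, hp, hq]
  | mul_X p j hp =>
    rw [map_mul, map_mul, map_mul, hp, MvPolynomial.aeval_X, MvPolynomial.eval_X, map_mul, MvPolynomial.eval_C,
      MvPolynomial.eval_X]

private theorem X10_chain {k : Type} [Field k] {n : ℕ} (w : Fin (n + 1) → ℕ) (a : k) (v : Fin (n + 1) → k)
    (i : Fin (n + 1)) (F : MvPolynomial (Fin (n + 1)) k) :
    MvPolynomial.eval v (MvPolynomial.pderiv i (MvPolynomial.aeval (fun j =>
      (MvPolynomial.C (a ^ w j) * MvPolynomial.X j : MvPolynomial (Fin (n + 1)) k)) F)) =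
      a ^ w i * MvPolynomial.eval (fun j => a ^ w j * v j) (MvPolynomial.pderiv i F) := by
  induction F using MvPolynomial.induction_on with
  | C c =>
    rw [MvPolynomial.aeval_C, MvPolynomial.algebraMap_eq, MvPolynomial.pderiv_C, map_zero, map_zero, mul_zero]
  | add p q hp hq => rw [map_add, map_add, map_add, hp, hq, map_add, map_add, mul_add]
  | mul_X p j hp =>
    rw [map_mul, MvPolynomial.pderiv_mul, MvPolynomial.pderiv_mul, map_add, map_mul, map_mul, map_add, map_mul, map_mul,
      hp, X10_eval, MvPolynomial.aeval_X, MvPolynomial.pderiv_C_mul, map_mul, MvPolynomial.eval_C,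
      X10_eval, MvPolynomial.eval_X]
    by_cases hij : i = j
    · subst hij
      rw [MvPolynomial.pderiv_X_self, map_one, map_one]
      ring
    · rw [MvPolynomial.pderiv_X_of_ne (Ne.symm hij), map_zero, map_zero]
      ring

private theorem X10_hom {k : Type} [Field k] {n m : ℕ} {w : Fin (n + 1) → ℕ} (a : k)
    {F : MvPolynomial (Fin (n + 1)) k} (hF : F.IsWeightedHomogeneous w m) :
    MvPolynomial.aeval (fun j => (MvPolynomial.C (a ^ w j) * MvPolynomial.X j :
      MvPolynomial (Fin (n + 1)) k)) F = MvPolynomial.C (a ^ m) * F := by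
  conv_lhs => rw [F.as_sum]
  conv_rhs => rw [F.as_sum]
  rw [map_sum, Finset.mul_sum]
  refine Finset.sum_congr rfl fun d hd => ?_
  have hw : Finsupp.weight w d = m := hF (MvPolynomial.mem_support_iff.1 hd)
  rw [MvPolynomial.aeval_monomial, MvPolynomial.algebraMap_eq, MvPolynomial.monomial_eq]
  have h1 : (d.prod fun i e => (MvPolynomial.C (a ^ w i) * MvPolynomial.X i : MvPolynomial (Fin (n + 1)) k) ^ e) =
      MvPolynomial.C (a ^ m) * d.prod fun i e => (MvPolynomial.X i : MvPolynomial (Fin (n + 1)) k) ^ e := by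
    simp only [mul_pow]
    rw [Finsupp.prod_mul]
    congr 1
    rw [← hw, Finsupp.weight_apply, Finsupp.sum, Finsupp.prod, ← Finset.prod_pow_eq_pow_sum, map_prod]
    refine Finset.prod_congr rfl fun i _ => ?_
    rw [← map_pow, ← pow_mul, smul_eq_mul, mul_comm]
  rw [h1]
  ring

private theorem X10_gr {k : Type} [Field k] {n m : ℕ} {w : Fin (n + 1) → ℕ} (a : k) (v : Fin (n + 1) → k)
    {F : MvPolynomial (Fin (n + 1)) k} (hF : F.IsWeightedHomogeneous w m) (i : Fin (n + 1)) :
    a ^ w i * gr F (fun i => a ^ w i * v i) i = a ^ m * gr F v i := by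
  unfold gr
  rw [← X10_chain, X10_hom a hF, MvPolynomial.pderiv_C_mul, map_mul, MvPolynomial.eval_C]

private theorem X10_li {k : Type} [Field k] {n : ℕ} {w : Fin (n + 1) → ℕ} {a : k} (ha : a ≠ 0) {T : Type} [Fintype T]
    (f f' : T → Fin (n + 1) → k) (m : T → ℕ) (h : ∀ t i, a ^ w i * f' t i = a ^ m t * f t i)
    (hf : LinearIndependent k f) : LinearIndependent k f' := by
  rw [Fintype.linearIndependent_iff] at hf ⊢
  intro c hc t
  have h1 := hf (fun t => c t * a ^ m t) (by
    funext i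
    have h2 := congrFun hc i
    rw [Finset.sum_apply] at h2 ⊢
    have h3 : ∑ t, ((c t * a ^ m t) • f t) i = a ^ w i * ∑ t, (c t • f' t) i := by
      rw [Finset.mul_sum]
      refine Finset.sum_congr rfl fun t _ => ?_
      rw [Pi.smul_apply, Pi.smul_apply, smul_eq_mul, smul_eq_mul, mul_assoc, ← h t i]
      ring
    rw [h3, h2, Pi.zero_apply, mul_zero]) t
  exact (mul_eq_zero.1 h1).resolve_right (pow_ne_zero _ ha)

theorem smo_smul {k : Type} [Field k] {n g c : ℕ} {w : Fin (n + 1) → ℕ}
    {S : Set (MvPolynomial (Fin (n + 1)) k)} (hS : ∀ P ∈ S, ∃ m, P.IsWeightedHomogeneous w m)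
    {G : MvPolynomial (Fin (n + 1)) k} (hG : G.IsWeightedHomogeneous w g) {v : Fin (n + 1) → k}
    (h : Smo S G c v) {a : k} (ha : a ≠ 0) : Smo S G c fun i => a ^ w i * v i := by
  obtain ⟨P, hP, hli⟩ := h
  have h1 : ∀ l, ∃ m, (P l).IsWeightedHomogeneous w m := fun l => hS (P l) (hP l)
  choose m hm using h1
  refine ⟨P, hP, X10_li (w := w) ha _ _ (Fin.cons g m) (fun t i => ?_) hli⟩
  refine Fin.cases ?_ (fun l => ?_) t
  · rw [Fin.cons_zero, Fin.cons_zero, Fin.cons_zero]
    exact X10_gr a v hG i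
  · rw [Fin.cons_succ, Fin.cons_succ, Fin.cons_succ]
    exact X10_gr a v (hm l) i

end Pool.Agent.Lib.MP_1e3e9c_agR
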