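import Mathlib
import Pool.Agent.Lib.MP_1e3e9c_agR.XDefs
import Pool.Agent.Lib.MP_1e3e9c_agR.B5

/-!
# MP_1e3e9c_ag, project R, leaf X1: normalisation of a curve through `y`

`norm_curve`. PROOF. `q_i(t) = ∑_j (p_i)_j (1 + x_0 t)^(w_i D - j) (x_1 t)^j` (`j ≤ w_i D`): degree `≤ w_i D`,
`q_i(t) = hv w D p (1 + x_0 t, x_1 t) i`, `q_i(0) = (p_i)_0 = v_i` (`hp0`), the coefficient of `t^(w_i D)` is
`hv w D p x i = y_i`. For `F` weighted homogeneous of weight `m`: `F(q)` = the polynomial
`∑_l (F(p))_l (1 + x_0 t)^(m D - l) (x_1 t)^l` (`hv_eval` of B5: both sides have the same value at all `t`). `base`: `F(p) = 0` for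
`F ∈ S` (it vanishes at all `t`, `k` infinite), so `F(q) = 0`. `con`: `F = G`: `(G(p))_l = 0` for `l < m`, so `t^m` divides.

`scale_curve`. Let `a ≠ 0`, `μ^D = a⁻¹` (`IsAlgClosed.exists_pow_nat_eq`). `q_i(t) = a^(w_i) p_i(μ t)`: `q_i(0) = a^(w_i) v_i`, the coefficient
of `t^(w_i D)` is `a^(w_i) μ^(w_i D) y_i = y_i`; `F(q(t)) = a^m F(p(μ t))` (`eval_smul_w`), so `G(q) = C (a^g) (G(p)).comp (C μ * X)`,
divisible by `(μ X)^m`, so by `X^m`.
-/

set_option autoImplicit false

namespace Pool.Agent.Lib.MP_1e3e9c_agR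

open Pool.Agent.Lib.MP_1e3e9c_agU Pool.Agent.Lib.MP_1e3e9c_agW

variable {k : Type} [Field k] [IsAlgClosed k] {n D g m : ℕ} {w : Fin (n + 1) → ℕ}
  {S : Set (MvPolynomial (Fin (n + 1)) k)} {G : MvPolynomial (Fin (n + 1)) k}

omit [IsAlgClosed k] in
open Polynomial in
private theorem X1_lin (c : k) : (C c * X : k[X]).natDegree ≤ 1 := by
  have h := natDegree_C_mul_X_pow_le c 1
  rwa [pow_one] at h

omit [IsAlgClosed k] in
open Polynomial in
private theorem X1_deg (x : Fin 2 → k) (c : k) {a j : ℕ} (hj : j ≤ a) :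
    (C c * (1 + C (x 0) * X) ^ (a - j) * (C (x 1) * X) ^ j : k[X]).natDegree ≤ a := by
  have h1 : (1 + C (x 0) * X : k[X]).natDegree ≤ 1 := by
    refine natDegree_add_le_of_degree_le ?_ (X1_lin _)
    rw [natDegree_one]
    exact Nat.zero_le _
  have h2 : ((1 + C (x 0) * X) ^ (a - j) : k[X]).natDegree ≤ a - j := by
    refine natDegree_pow_le.trans ?_
    calc (a - j) * (1 + C (x 0) * X : k[X]).natDegree ≤ (a - j) * 1 := Nat.mul_le_mul_left _ h1
      _ = a - j := mul_one _
  have h3 : ((C (x 1) * X) ^ j : k[X]).natDegree ≤ j := by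
    refine natDegree_pow_le.trans ?_
    calc j * (C (x 1) * X : k[X]).natDegree ≤ j * 1 := Nat.mul_le_mul_left _ (X1_lin _)
      _ = j := mul_one _
  have h4 : (C c * (1 + C (x 0) * X) ^ (a - j) : k[X]).natDegree ≤ a - j := (natDegree_C_mul_le _ _).trans h2
  refine natDegree_mul_le.trans ?_
  omega

omit [IsAlgClosed k] in
open Polynomial in
private theorem X1_coeff (x : Fin 2 → k) (c : k) {a j : ℕ} (hj : j ≤ a) :
    (C c * (1 + C (x 0) * X) ^ (a - j) * (C (x 1) * X) ^ j : k[X]).coeff a = c * x 0 ^ (a - j) * x 1 ^ j := by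
  have h1 : (1 + C (x 0) * X : k[X]).natDegree ≤ 1 := by
    refine natDegree_add_le_of_degree_le ?_ (X1_lin _)
    rw [natDegree_one]
    exact Nat.zero_le _
  have h2 : ((1 + C (x 0) * X) ^ (a - j) : k[X]).coeff (a - j) = x 0 ^ (a - j) := by
    have h3 := coeff_pow_of_natDegree_le (m := a - j) h1
    rw [mul_one] at h3
    rw [h3, coeff_add, coeff_C_mul, coeff_X_one, mul_one, coeff_one, if_neg one_ne_zero, zero_add]
  rw [mul_pow, ← C_pow, ← mul_assoc, coeff_mul_X_pow', if_pos hj, mul_assoc, coeff_C_mul, coeff_mul_C, h2,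
    mul_assoc]

private theorem X1_inf : Infinite k := IsAlgClosed.instInfinite

theorem norm_curve (hS : ∀ P ∈ S, ∃ m, P.IsWeightedHomogeneous w m)
    (hG : G.IsWeightedHomogeneous w g) {p : Fin (n + 1) → Polynomial k}
    (hp : ∀ i, (p i).natDegree ≤ w i * D) {v : Fin (n + 1) → k} (hp0 : val p 0 = v)
    (hbase : ∀ t, ∀ P ∈ S, MvPolynomial.eval (val p t) P = 0)
    (hcon : Polynomial.X ^ m ∣ MvPolynomial.aeval p G) (y : Fin (n + 1) → k) (x : Fin 2 → k)
    (hx : ∀ i, hv w D p x i = y i) : ∃ q, NC w S G m D v y q := by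
  classical
  have hinf : Infinite k := X1_inf
  let q : Fin (n + 1) → Polynomial k := fun i => ∑ j ∈ Finset.range (w i * D + 1),
    Polynomial.C ((p i).coeff j) * (1 + Polynomial.C (x 0) * Polynomial.X) ^ (w i * D - j) *
      (Polynomial.C (x 1) * Polynomial.X) ^ j
  have hq : ∀ t : k, val q t = hv w D p ![1 + x 0 * t, x 1 * t] := by
    intro t
    funext i
    unfold val hv
    rw [Polynomial.eval_finsetSum]
    refine Finset.sum_congr rfl fun j _ => ?_
    simp
  refine ⟨q, ?_, ?_, ?_, ?_, ?_⟩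
  · intro i
    refine Polynomial.natDegree_sum_le_of_forall_le _ _ fun j hj => ?_
    exact X1_deg x _ (Nat.lt_succ_iff.1 (Finset.mem_range.1 hj))
  · rw [hq, mul_zero, mul_zero, add_zero, hv_coe hp, hp0]
  · intro i
    rw [← hx i]
    unfold hv
    rw [Polynomial.finsetSum_coeff]
    refine Finset.sum_congr rfl fun j hj => ?_
    exact X1_coeff x _ (Nat.lt_succ_iff.1 (Finset.mem_range.1 hj))
  · intro t P hP
    obtain ⟨m', hm'⟩ := hS P hP
    have h1 : MvPolynomial.aeval p P = 0 := by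
      refine Polynomial.funext fun s => ?_
      rw [← eval_val, Polynomial.eval_zero]
      exact hbase s P hP
    rw [hq, hv_eval hp hm', h1]
    unfold ev
    refine Finset.sum_eq_zero fun j _ => ?_
    beta_reduce
    rw [Polynomial.coeff_zero, zero_mul, zero_mul]
  · have h1 : MvPolynomial.aeval q G = ∑ l : Fin (g * D + 1), Polynomial.C ((MvPolynomial.aeval p G).coeff (l : ℕ)) *
        (1 + Polynomial.C (x 0) * Polynomial.X) ^ (g * D - (l : ℕ)) * (Polynomial.C (x 1) * Polynomial.X) ^ (l : ℕ) := by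
      refine Polynomial.funext fun t => ?_
      rw [← eval_val, hq, hv_eval hp hG, Polynomial.eval_finsetSum]
      unfold ev
      refine Finset.sum_congr rfl fun l _ => ?_
      simp
    rw [h1]
    refine Finset.dvd_sum fun l _ => ?_
    by_cases hl : (l : ℕ) < m
    · rw [Polynomial.X_pow_dvd_iff.1 hcon l hl, Polynomial.C_0, zero_mul, zero_mul]
      exact dvd_zero _
    · refine Dvd.dvd.mul_left ?_ _
      rw [mul_pow]
      exact Dvd.dvd.mul_left (pow_dvd_pow _ (not_lt.1 hl)) _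

theorem scale_curve (hD : 0 < D) (hS : ∀ P ∈ S, ∃ m, P.IsWeightedHomogeneous w m)
    (hG : G.IsWeightedHomogeneous w g) {v y : Fin (n + 1) → k} {p : Fin (n + 1) → Polynomial k}
    (hp : NC w S G m D v y p) {a : k} (ha : a ≠ 0) :
    ∃ q, NC w S G m D (fun i => a ^ w i * v i) y q := by
  have hinf : Infinite k := X1_inf
  obtain ⟨μ, hμ⟩ := IsAlgClosed.exists_pow_nat_eq (a⁻¹) hD
  let q : Fin (n + 1) → Polynomial k := fun i =>
    Polynomial.C (a ^ w i) * (p i).comp (Polynomial.C μ * Polynomial.X)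
  have hq : ∀ t : k, val q t = fun i => a ^ w i * val p (μ * t) i := by
    intro t
    funext i
    change (Polynomial.C (a ^ w i) * (p i).comp (Polynomial.C μ * Polynomial.X)).eval t = a ^ w i * (p i).eval (μ * t)
    rw [Polynomial.eval_mul, Polynomial.eval_C, Polynomial.eval_comp, Polynomial.eval_mul, Polynomial.eval_C,
      Polynomial.eval_X]
  refine ⟨q, ?_, ?_, ?_, ?_, ?_⟩
  · intro i
    refine (Polynomial.natDegree_C_mul_le _ _).trans (Polynomial.natDegree_comp_le.trans ?_)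
    calc (p i).natDegree * (Polynomial.C μ * Polynomial.X).natDegree ≤ (w i * D) * 1 :=
          Nat.mul_le_mul (hp.deg i) (X1_lin _)
      _ = w i * D := mul_one _
  · rw [hq, mul_zero, hp.zero]
  · intro i
    change (Polynomial.C (a ^ w i) * (p i).comp (Polynomial.C μ * Polynomial.X)).coeff (w i * D) = y i
    rw [Polynomial.coeff_C_mul, Polynomial.comp_C_mul_X_coeff, hp.lead i, mul_comm (w i) D, pow_mul, hμ, inv_pow,
      mul_left_comm, mul_inv_cancel₀ (pow_ne_zero _ ha), mul_one]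
  · intro t P hP
    obtain ⟨m', hm'⟩ := hS P hP
    rw [hq, eval_smul_w hm', hp.base _ P hP, mul_zero]
  · have h1 : MvPolynomial.aeval q G =
        Polynomial.C (a ^ g) * (MvPolynomial.aeval p G).comp (Polynomial.C μ * Polynomial.X) := by
      refine Polynomial.funext fun t => ?_
      rw [← eval_val, hq, eval_smul_w hG, eval_val, Polynomial.eval_mul, Polynomial.eval_C, Polynomial.eval_comp,
        Polynomial.eval_mul, Polynomial.eval_C, Polynomial.eval_X]
    rw [h1]
    obtain ⟨r, hr⟩ := hp.con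
    rw [hr, Polynomial.mul_comp, Polynomial.pow_comp, Polynomial.X_comp]
    refine Dvd.dvd.mul_left (Dvd.dvd.mul_right ?_ _) _
    exact pow_dvd_pow_of_dvd (dvd_mul_left _ _) m

end Pool.Agent.Lib.MP_1e3e9c_agR
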