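import Mathlib
import Pool.Agent.Lib.MP_1e3e9c_agR.YDefs
import Pool.Agent.Lib.MP_1e3e9c_agR.X1

/-!
# MP_1e3e9c_ag, project R, leaf Y4b: scaling a curve, with the bound

PROOF. (Model: `scale_curve` in X1.lean.) Choose `μ ≠ 0` with `μ^D = a⁻¹` and let `q_i(t) = a^(w_i) p_i(μ t)`
(`Polynomial.C (a ^ w i) * (p i).comp (C μ * X)`): `NC` for `q` and `a • v` as in `scale_curve`. The bound for `q`: let `s j` be tangent tuples
along `q`, and `s'_(j,i)(t) = a^(-w_i) s_(j,i)(μ⁻¹ t)`: the degrees do not increase, and `s' j` is tangent along `p`: `p_i(t) = a^(-w_i) q_i(μ⁻¹ t)`, so for `P` of weight `m`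
`a^m (∂_i P)(p(t)) = a^(w_i) (∂_i P)(q(μ⁻¹ t))` (evaluate at `t ∈ k`, `k` infinite; `∂_i P` is weighted homogeneous, `MvPolynomial.IsWeightedHomogeneous.pderiv`; `smo_smul` in X10.lean does the same for `gr`; if `m < w_i` both sides are
zero), so `a^m ∑_i ∂_i P(p) s'_i = (∑_i ∂_i P(q) s_i)(μ⁻¹ t) = 0`. The minors: `mi s' I = (∏_b a^(-w_(I b))) (mi s I)(μ⁻¹ t)`: not zero if `mi s I ≠ 0`, divisible by `t^e` if `mi s I` is. So the bound for `p` gives the bound for `q`.
-/

set_option autoImplicit false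

namespace Pool.Agent.Lib.MP_1e3e9c_agR

open Pool.Agent.Lib.MP_1e3e9c_agU Pool.Agent.Lib.MP_1e3e9c_agW

private theorem Y4b_eval {k : Type} [Field k] {n : ℕ} (w : Fin (n + 1) → ℕ) (a : k) (v : Fin (n + 1) → k)
    (F : MvPolynomial (Fin (n + 1)) k) :
    MvPolynomial.eval v (MvPolynomial.aeval (fun j => (MvPolynomial.C (a ^ w j) * MvPolynomial.X j :
      MvPolynomial (Fin (n + 1)) k)) F) = MvPolynomial.eval (fun j => a ^ w j * v j) F := by
  induction F using MvPolynomial.induction_on with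
  | C c =>
    rw [MvPolynomial.aeval_C, MvPolynomial.algebraMap_eq, MvPolynomial.eval_C, MvPolynomial.eval_C]
  | add p q hp hq => rw [map_add, map_add, map_add, hp, hq]
  | mul_X p j hp =>
    rw [map_mul, map_mul, map_mul, hp, MvPolynomial.aeval_X, MvPolynomial.eval_X, map_mul, MvPolynomial.eval_C,
      MvPolynomial.eval_X]

private theorem Y4b_chain {k : Type} [Field k] {n : ℕ} (w : Fin (n + 1) → ℕ) (a : k) (v : Fin (n + 1) → k)
    (i : Fin (n + 1)) (F : MvPolynomial (Fin (n + 1)) k) :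
    MvPolynomial.eval v (MvPolynomial.pderiv i (MvPolynomial.aeval (fun j =>
      (MvPolynomial.C (a ^ w j) * MvPolynomial.X j : MvPolynomial (Fin (n + 1)) k)) F)) =
      a ^ w i * MvPolynomial.eval (fun j => a ^ w j * v j) (MvPolynomial.pderiv i F) := by
  induction F using MvPolynomial.induction_on with
  | C c =>
    rw [MvPolynomial.aeval_C, MvPolynomial.algebraMap_eq, MvPolynomial.pderiv_C, map_zero, map_zero, mul_zero]
  | add p q hp hq => rw [map_add, map_add, map_add, hp, hq, map_add, map_add, mul_add]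
  | mul_X p j hp =>
    rw [map_mul, MvPolynomial.pderiv_mul, MvPolynomial.pderiv_mul, map_add, map_mul, map_mul, map_add, map_mul, map_mul,
      hp, Y4b_eval, MvPolynomial.aeval_X, MvPolynomial.pderiv_C_mul, map_mul, MvPolynomial.eval_C,
      Y4b_eval, MvPolynomial.eval_X]
    by_cases hij : i = j
    · subst hij
      rw [MvPolynomial.pderiv_X_self, map_one, map_one]
      ring
    · rw [MvPolynomial.pderiv_X_of_ne (Ne.symm hij), map_zero, map_zero]
      ring

private theorem Y4b_hom {k : Type} [Field k] {n m : ℕ} {w : Fin (n + 1) → ℕ} (a : k)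
    {F : MvPolynomial (Fin (n + 1)) k} (hF : F.IsWeightedHomogeneous w m) :
    MvPolynomial.aeval (fun j => (MvPolynomial.C (a ^ w j) * MvPolynomial.X j :
      MvPolynomial (Fin (n + 1)) k)) F = MvPolynomial.C (a ^ m) * F := by
  conv_lhs => rw [F.as_sum]
  conv_rhs => rw [F.as_sum]
  rw [map_sum, Finset.mul_sum]
  refine Finset.sum_congr rfl fun d hd => ?_
  have hw : Finsupp.weight w d = m := hF (MvPolynomial.mem_support_iff.1 hd)
  rw [MvPolynomial.aeval_monomial, MvPolynomial.algebraMap_eq, MvPolynomial.monomial_eq]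
  have h1 : (d.prod fun i e => (MvPolynomial.C (a ^ w i) * MvPolynomial.X i : MvPolynomial (Fin (n + 1)) k) ^ e) =
      MvPolynomial.C (a ^ m) * d.prod fun i e => (MvPolynomial.X i : MvPolynomial (Fin (n + 1)) k) ^ e := by
    simp only [mul_pow]
    rw [Finsupp.prod_mul]
    congr 1
    rw [← hw, Finsupp.weight_apply, Finsupp.sum, Finsupp.prod, ← Finset.prod_pow_eq_pow_sum, map_prod]
    refine Finset.prod_congr rfl fun i _ => ?_
    rw [← map_pow, ← pow_mul, smul_eq_mul, mul_comm]
  rw [h1]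
  ring

private theorem Y4b_gr {k : Type} [Field k] {n m : ℕ} {w : Fin (n + 1) → ℕ} (a : k) (v : Fin (n + 1) → k)
    {F : MvPolynomial (Fin (n + 1)) k} (hF : F.IsWeightedHomogeneous w m) (i : Fin (n + 1)) :
    a ^ w i * gr F (fun i => a ^ w i * v i) i = a ^ m * gr F v i := by
  unfold gr
  rw [← Y4b_chain, Y4b_hom a hF, MvPolynomial.pderiv_C_mul, map_mul, MvPolynomial.eval_C]

private theorem Y4b_comp {k : Type} [Field k] {μ : k} (hμ : μ ≠ 0) (r : Polynomial k)
    (h : r.comp (Polynomial.C μ * Polynomial.X) = 0) : r = 0 := by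
  ext j
  have h1 := congrArg (fun s : Polynomial k => s.coeff j) h
  beta_reduce at h1
  rw [Polynomial.comp_C_mul_X_coeff, Polynomial.coeff_zero] at h1
  rw [Polynomial.coeff_zero]
  exact (mul_eq_zero.1 h1).resolve_right (pow_ne_zero _ hμ)

private theorem Y4b_dvd {k : Type} [Field k] (μ : k) {r : Polynomial k} {q : ℕ} (h : Polynomial.X ^ q ∣ r) :
    Polynomial.X ^ q ∣ r.comp (Polynomial.C μ * Polynomial.X) := by
  obtain ⟨c, rfl⟩ := h
  rw [Polynomial.mul_comp, Polynomial.pow_comp, Polynomial.X_comp]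
  exact Dvd.dvd.mul_right (pow_dvd_pow_of_dvd (dvd_mul_left _ _) q) _

private theorem Y4b_deg {k : Type} [Field k] (c μ : k) (r : Polynomial k) :
    (Polynomial.C c * r.comp (Polynomial.C μ * Polynomial.X)).natDegree ≤ r.natDegree := by
  have h0 : (Polynomial.C μ * Polynomial.X : Polynomial k).natDegree ≤ 1 := by
    have h := Polynomial.natDegree_C_mul_X_pow_le μ 1
    rwa [pow_one] at h
  refine (Polynomial.natDegree_C_mul_le _ _).trans (Polynomial.natDegree_comp_le.trans ?_)
  calc r.natDegree * (Polynomial.C μ * Polynomial.X).natDegree ≤ r.natDegree * 1 := Nat.mul_le_mul_left _ h0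
    _ = r.natDegree := mul_one _

private theorem Y4b_mi {k : Type} [Field k] {n N : ℕ} (w : Fin (n + 1) → ℕ) (b μ : k)
    (s : Fin (N + 1) → Fin (n + 1) → Polynomial k) (I : Fin (N + 1) → Fin (n + 1)) :
    mi (fun j i => Polynomial.C (b ^ w i) * (s j i).comp (Polynomial.C μ * Polynomial.X)) I =
      (∏ x, Polynomial.C (b ^ w (I x))) * (mi s I).comp (Polynomial.C μ * Polynomial.X) := by
  unfold mi
  have h1 := (Polynomial.compRingHom (Polynomial.C μ * Polynomial.X : Polynomial k)).map_det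
    (Matrix.of fun x y => s y (I x))
  rw [Polynomial.coe_compRingHom_apply] at h1
  rw [h1]
  exact Matrix.det_mul_column (fun x => Polynomial.C (b ^ w (I x)))
    ((Polynomial.compRingHom (Polynomial.C μ * Polynomial.X : Polynomial k)).mapMatrix (Matrix.of fun x y => s y (I x)))

private theorem Y4b_core {k : Type} [Field k] [IsAlgClosed k] {n D N M : ℕ} {w : Fin (n + 1) → ℕ}
    {S : Set (MvPolynomial (Fin (n + 1)) k)} (hS : ∀ P ∈ S, ∃ m, P.IsWeightedHomogeneous w m)
    {p p' : Fin (n + 1) → Polynomial k} (hK : KP w S D N M p') {b μ : k} (hb0 : b ≠ 0) (hμ0 : μ ≠ 0)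
    (hp' : ∀ t : k, val p' t = fun i => b ^ w i * val p (μ * t) i) : KP w S D N M p := by
  classical
  have hinf : Infinite k := IsAlgClosed.instInfinite
  intro s hs hT hI q hq
  obtain ⟨s', hs'⟩ : ∃ s' : Fin (N + 1) → Fin (n + 1) → Polynomial k,
      s' = fun j i => Polynomial.C (b ^ w i) * (s j i).comp (Polynomial.C μ * Polynomial.X) := ⟨_, rfl⟩
  refine hK s' ?_ ?_ ?_ q ?_
  · intro j i
    rw [hs']
    exact lt_of_le_of_lt (Y4b_deg _ _ _) (hs j i)
  · intro j P hP
    obtain ⟨m', hm'⟩ := hS P hP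
    refine Polynomial.funext fun t => ?_
    rw [Polynomial.eval_finsetSum, Polynomial.eval_zero]
    have h2 : ∀ i, ((MvPolynomial.aeval p' (MvPolynomial.pderiv i P)) * s' j i).eval t =
        b ^ m' * ((MvPolynomial.aeval p (MvPolynomial.pderiv i P)) * s j i).eval (μ * t) := by
      intro i
      have h3 : (s' j i).eval t = b ^ w i * (s j i).eval (μ * t) := by
        rw [hs']
        change (Polynomial.C (b ^ w i) * (s j i).comp (Polynomial.C μ * Polynomial.X)).eval t = _
        rw [Polynomial.eval_mul, Polynomial.eval_C, Polynomial.eval_comp, Polynomial.eval_mul, Polynomial.eval_C,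
          Polynomial.eval_X]
      have h4 := Y4b_gr b (val p (μ * t)) hm' i
      unfold gr at h4
      rw [Polynomial.eval_mul, Polynomial.eval_mul, ← eval_val, ← eval_val, h3, hp']
      calc MvPolynomial.eval (fun i => b ^ w i * val p (μ * t) i) (MvPolynomial.pderiv i P) *
            (b ^ w i * (s j i).eval (μ * t)) =
          (b ^ w i * MvPolynomial.eval (fun i => b ^ w i * val p (μ * t) i) (MvPolynomial.pderiv i P)) *
            (s j i).eval (μ * t) := by ring
        _ = b ^ m' * (MvPolynomial.eval (val p (μ * t)) (MvPolynomial.pderiv i P) * (s j i).eval (μ * t)) := by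
          rw [h4]
          ring
    rw [Finset.sum_congr rfl fun i _ => h2 i, ← Finset.mul_sum, ← Polynomial.eval_finsetSum]
    have h5 := hT j P hP
    rw [h5, Polynomial.eval_zero, mul_zero]
  · obtain ⟨I, hI⟩ := hI
    refine ⟨I, ?_⟩
    rw [hs', Y4b_mi]
    refine mul_ne_zero ?_ fun h => hI (Y4b_comp hμ0 _ h)
    exact Finset.prod_ne_zero_iff.2 fun x _ => Polynomial.C_ne_zero.2 (pow_ne_zero _ hb0)
  · intro I
    rw [hs', Y4b_mi]
    exact Dvd.dvd.mul_left (Y4b_dvd μ (hq I)) _

theorem scale_curve_KP {k : Type} [Field k] [IsAlgClosed k] {n D g m N M : ℕ} {w : Fin (n + 1) → ℕ} (hD : 0 < D)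
    {S : Set (MvPolynomial (Fin (n + 1)) k)} (hS : ∀ P ∈ S, ∃ m, P.IsWeightedHomogeneous w m)
    {G : MvPolynomial (Fin (n + 1)) k} (hG : G.IsWeightedHomogeneous w g) {v y : Fin (n + 1) → k}
    {p : Fin (n + 1) → Polynomial k} (hp : NC w S G m D v y p) (hK : KP w S D N M p) {a : k} (ha : a ≠ 0) :
    ∃ q, NC w S G m D (fun i => a ^ w i * v i) y q ∧ KP w S D N M q := by
  classical
  have hinf : Infinite k := IsAlgClosed.instInfinite
  obtain ⟨μ, hμ⟩ := IsAlgClosed.exists_pow_nat_eq (a⁻¹) hD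
  have hμ0 : μ ≠ 0 := by
    rintro rfl
    rw [zero_pow hD.ne'] at hμ
    exact inv_ne_zero ha hμ.symm
  have hba : a * a⁻¹ = 1 := mul_inv_cancel₀ ha
  let q : Fin (n + 1) → Polynomial k := fun i =>
    Polynomial.C (a ^ w i) * (p i).comp (Polynomial.C μ * Polynomial.X)
  have hq : ∀ t : k, val q t = fun i => a ^ w i * val p (μ * t) i := by
    intro t
    funext i
    change (Polynomial.C (a ^ w i) * (p i).comp (Polynomial.C μ * Polynomial.X)).eval t = a ^ w i * (p i).eval (μ * t)
    rw [Polynomial.eval_mul, Polynomial.eval_C, Polynomial.eval_comp, Polynomial.eval_mul, Polynomial.eval_C,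
      Polynomial.eval_X]
  refine ⟨q, ⟨?_, ?_, ?_, ?_, ?_⟩, ?_⟩
  · intro i
    exact (Y4b_deg _ _ _).trans (hp.deg i)
  · rw [hq, mul_zero, hp.zero]
  · intro i
    change (Polynomial.C (a ^ w i) * (p i).comp (Polynomial.C μ * Polynomial.X)).coeff (w i * D) = y i
    rw [Polynomial.coeff_C_mul, Polynomial.comp_C_mul_X_coeff, hp.lead i, mul_comm (w i) D, pow_mul, hμ,
      mul_left_comm, ← mul_pow, hba, one_pow, mul_one]
  · intro t P hP
    obtain ⟨m', hm'⟩ := hS P hP
    rw [hq, eval_smul_w hm', hp.base _ P hP, mul_zero]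
  · have h1 : MvPolynomial.aeval q G =
        Polynomial.C (a ^ g) * (MvPolynomial.aeval p G).comp (Polynomial.C μ * Polynomial.X) := by
      refine Polynomial.funext fun t => ?_
      rw [← eval_val, hq, eval_smul_w hG, eval_val, Polynomial.eval_mul, Polynomial.eval_C, Polynomial.eval_comp,
        Polynomial.eval_mul, Polynomial.eval_C, Polynomial.eval_X]
    rw [h1]
    exact Dvd.dvd.mul_left (Y4b_dvd μ hp.con) _
  · refine Y4b_core hS hK (inv_ne_zero ha) (inv_ne_zero hμ0) fun t => ?_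
    funext i
    rw [hq]
    show val p t i = a⁻¹ ^ w i * (a ^ w i * val p (μ * (μ⁻¹ * t)) i)
    rw [← mul_assoc, ← mul_pow, inv_mul_cancel₀ ha, one_pow, one_mul, ← mul_assoc, mul_inv_cancel₀ hμ0, one_mul]

end Pool.Agent.Lib.MP_1e3e9c_agR
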