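import Mathlib
import Pool.Agent.Lib.MP_1e3e9c_agR.YDefs
import Pool.Agent.Lib.MP_1e3e9c_agR.X1

/-!
# MP_1e3e9c_ag, project R, leaf Y5: a new parameter, with the bound

PROOF. (Model: `norm_curve` in X1.lean.) `q_i(t) = ∑_j p_(i,j) (1 + x_0 t)^(w_i D - j) (x_1 t)^j`, `j ≤ w_i D`, that is
`q_i(t) = (1 + x_0 t)^(w_i D) p_i(x_1 t / (1 + x_0 t))`: `NC` as in `norm_curve`. (`x_1 ≠ 0`: otherwise `y_i = x_0^(w_i D) v_i`, so `G(y) = x_0^(g D) G(v) = 0`
because `G(v) = 0` by `hcon`, `0 < m`.) The bound: let `r = x_1⁻¹`, `b = x_0`. The inverse substitution is `t = r τ / (1 - b r τ)`. Let `s j` be tangent tuples along `q`, of degrees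
`≤ e_i := w_i D - 1`, and `s'_(j,i)(τ) = ∑_l s_(j,i,l) (1 - b r τ)^(e_i - l) (r τ)^l` (so `s'_(j,i)(τ) = (1 - b r τ)^(e_i) s_(j,i)(r τ / (1 - b r τ))` where
`1 - b r τ ≠ 0`). The degrees are `≤ e_i`. For `τ` with `1 - b r τ ≠ 0` let `t = r τ / (1 - b r τ)`; then `1 + b t = 1 / (1 - b r τ)`, `x_1 t / (1 + b t) = τ`, so
`q_i(t) = (1 + b t)^(w_i D) p_i(τ)`, i.e. `q(t)` is the scaling of `p(τ)` by `λ = (1 + b t)^D`. For `P ∈ S` of weight `m'`: `(∂_i P)(q(t)) λ^(w_i) = λ^(m') (∂_i P)(p(τ))` (both zero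
if `m' < w_i`), and `s'_(j,i)(τ) = (1 - b r τ)^(w_i D - 1) s_(j,i)(t) = λ^(-w_i) (1 + b t) s_(j,i)(t)`, so `∑_i (∂_i P)(p(τ)) s'_(j,i)(τ) = λ^(-m') (1 + b t) ∑_i (∂_i P)(q(t)) s_(j,i)(t) = 0` for
all but one `τ`: the polynomial is zero (`k` infinite). The minors: `mi s' I (τ) = (1 - b r τ)^E (mi s I)(r τ / (1 - b r τ))`, `E = ∑_b e_(I b)`, for all but one `τ`: if `mi s I ≠ 0` then `mi s' I ≠ 0` (infinitely many `t`), and if
`mi s I = X^e h` then `mi s' I` is `(r τ)^e` times the homogenised `h`: `mi s' I = (C r * X)^e * ∑_l h_l (1 - b r τ)^(E - e - l) (r τ)^l` (`deg h ≤ E - e`; equality for infinitely many `τ`), so `X^e ∣ mi s' I`. So the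
bound for `p` (with `s'`) gives the bound for `q`.
-/

set_option autoImplicit false

namespace Pool.Agent.Lib.MP_1e3e9c_agR

open Pool.Agent.Lib.MP_1e3e9c_agU Pool.Agent.Lib.MP_1e3e9c_agW

private theorem Y5_geval {k : Type} [Field k] {n : ℕ} (w : Fin (n + 1) → ℕ) (a : k) (v : Fin (n + 1) → k)
    (F : MvPolynomial (Fin (n + 1)) k) :
    MvPolynomial.eval v (MvPolynomial.aeval (fun j => (MvPolynomial.C (a ^ w j) * MvPolynomial.X j :
      MvPolynomial (Fin (n + 1)) k)) F) = MvPolynomial.eval (fun j => a ^ w j * v j) F := by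
  induction F using MvPolynomial.induction_on with
  | C c =>
    rw [MvPolynomial.aeval_C, MvPolynomial.algebraMap_eq, MvPolynomial.eval_C, MvPolynomial.eval_C]
  | add p q hp hq => rw [map_add, map_add, map_add, hp, hq]
  | mul_X p j hp =>
    rw [map_mul, map_mul, map_mul, hp, MvPolynomial.aeval_X, MvPolynomial.eval_X, map_mul, MvPolynomial.eval_C,
      MvPolynomial.eval_X]

private theorem Y5_gchain {k : Type} [Field k] {n : ℕ} (w : Fin (n + 1) → ℕ) (a : k) (v : Fin (n + 1) → k)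
    (i : Fin (n + 1)) (F : MvPolynomial (Fin (n + 1)) k) :
    MvPolynomial.eval v (MvPolynomial.pderiv i (MvPolynomial.aeval (fun j =>
      (MvPolynomial.C (a ^ w j) * MvPolynomial.X j : MvPolynomial (Fin (n + 1)) k)) F)) =
      a ^ w i * MvPolynomial.eval (fun j => a ^ w j * v j) (MvPolynomial.pderiv i F) := by
  induction F using MvPolynomial.induction_on with
  | C c =>
    rw [MvPolynomial.aeval_C, MvPolynomial.algebraMap_eq, MvPolynomial.pderiv_C, map_zero, map_zero, mul_zero]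
  | add p q hp hq => rw [map_add, map_add, map_add, hp, hq, map_add, map_add, mul_add]
  | mul_X p j hp =>
    rw [map_mul, MvPolynomial.pderiv_mul, MvPolynomial.pderiv_mul, map_add, map_mul, map_mul, map_add, map_mul, map_mul,
      hp, Y5_geval, MvPolynomial.aeval_X, MvPolynomial.pderiv_C_mul, map_mul, MvPolynomial.eval_C,
      Y5_geval, MvPolynomial.eval_X]
    by_cases hij : i = j
    · subst hij
      rw [MvPolynomial.pderiv_X_self, map_one, map_one]
      ring
    · rw [MvPolynomial.pderiv_X_of_ne (Ne.symm hij), map_zero, map_zero]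
      ring

private theorem Y5_ghom {k : Type} [Field k] {n m : ℕ} {w : Fin (n + 1) → ℕ} (a : k)
    {F : MvPolynomial (Fin (n + 1)) k} (hF : F.IsWeightedHomogeneous w m) :
    MvPolynomial.aeval (fun j => (MvPolynomial.C (a ^ w j) * MvPolynomial.X j :
      MvPolynomial (Fin (n + 1)) k)) F = MvPolynomial.C (a ^ m) * F := by
  conv_lhs => rw [F.as_sum]
  conv_rhs => rw [F.as_sum]
  rw [map_sum, Finset.mul_sum]
  refine Finset.sum_congr rfl fun d hd => ?_
  have hw : Finsupp.weight w d = m := hF (MvPolynomial.mem_support_iff.1 hd)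
  rw [MvPolynomial.aeval_monomial, MvPolynomial.algebraMap_eq, MvPolynomial.monomial_eq]
  have h1 : (d.prod fun i e => (MvPolynomial.C (a ^ w i) * MvPolynomial.X i : MvPolynomial (Fin (n + 1)) k) ^ e) =
      MvPolynomial.C (a ^ m) * d.prod fun i e => (MvPolynomial.X i : MvPolynomial (Fin (n + 1)) k) ^ e := by
    simp only [mul_pow]
    rw [Finsupp.prod_mul]
    congr 1
    rw [← hw, Finsupp.weight_apply, Finsupp.sum, Finsupp.prod, ← Finset.prod_pow_eq_pow_sum, map_prod]
    refine Finset.prod_congr rfl fun i _ => ?_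
    rw [← map_pow, ← pow_mul, smul_eq_mul, mul_comm]
  rw [h1]
  ring

private theorem Y5_ggr {k : Type} [Field k] {n m : ℕ} {w : Fin (n + 1) → ℕ} (a : k) (v : Fin (n + 1) → k)
    {F : MvPolynomial (Fin (n + 1)) k} (hF : F.IsWeightedHomogeneous w m) (i : Fin (n + 1)) :
    a ^ w i * gr F (fun i => a ^ w i * v i) i = a ^ m * gr F v i := by
  unfold gr
  rw [← Y5_gchain, Y5_ghom a hF, MvPolynomial.pderiv_C_mul, map_mul, MvPolynomial.eval_C]

open Polynomial in
/-- homogenisation -/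
private noncomputable def Y5_h {k : Type} [Field k] (e : ℕ) (A B f : k[X]) : k[X] :=
  ∑ j ∈ Finset.range (e + 1), C (f.coeff j) * A ^ (e - j) * B ^ j

open Polynomial in
private theorem Y5_eval {k : Type} [Field k] {e : ℕ} (A B : k[X]) {f : k[X]} (hf : f.natDegree ≤ e) {t : k}
    (hA : A.eval t ≠ 0) : (Y5_h e A B f).eval t = (A.eval t) ^ e * f.eval (B.eval t / A.eval t) := by
  unfold Y5_h
  rw [eval_finsetSum, eval_eq_sum_range' (Nat.lt_succ_of_le hf), Finset.mul_sum]
  refine Finset.sum_congr rfl fun j hj => ?_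
  have hj' : j ≤ e := Nat.lt_succ_iff.1 (Finset.mem_range.1 hj)
  have h1 : (A.eval t) ^ e = (A.eval t) ^ (e - j) * (A.eval t) ^ j := by
    rw [← pow_add, Nat.sub_add_cancel hj']
  rw [eval_mul, eval_mul, eval_C, eval_pow, eval_pow, div_pow, h1]
  field_simp

open Polynomial in
private theorem Y5_deg {k : Type} [Field k] (e : ℕ) {A B : k[X]} (f : k[X]) (hA : A.natDegree ≤ 1)
    (hB : B.natDegree ≤ 1) : (Y5_h e A B f).natDegree ≤ e := by
  refine natDegree_sum_le_of_forall_le _ _ fun j hj => ?_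
  have hj' : j ≤ e := Nat.lt_succ_iff.1 (Finset.mem_range.1 hj)
  have h2 : (A ^ (e - j)).natDegree ≤ e - j := by
    refine natDegree_pow_le.trans ?_
    calc (e - j) * A.natDegree ≤ (e - j) * 1 := Nat.mul_le_mul_left _ hA
      _ = e - j := mul_one _
  have h3 : (B ^ j).natDegree ≤ j := by
    refine natDegree_pow_le.trans ?_
    calc j * B.natDegree ≤ j * 1 := Nat.mul_le_mul_left _ hB
      _ = j := mul_one _
  have h4 : (C (f.coeff j) * A ^ (e - j)).natDegree ≤ e - j := (natDegree_C_mul_le _ _).trans h2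
  refine natDegree_mul_le.trans ?_
  omega

open Polynomial in
private theorem Y5_dvd {k : Type} [Field k] {e m : ℕ} {A B f : k[X]} (hB : X ∣ B) (hf : X ^ m ∣ f) :
    X ^ m ∣ Y5_h e A B f := by
  unfold Y5_h
  refine Finset.dvd_sum fun j _ => ?_
  by_cases hj : j < m
  · rw [X_pow_dvd_iff.1 hf j hj, C_0, zero_mul, zero_mul]
    exact dvd_zero _
  · refine Dvd.dvd.mul_left ?_ _
    exact (pow_dvd_pow X (not_lt.1 hj)).trans (pow_dvd_pow_of_dvd hB j)

open Polynomial in
private theorem Y5_lin {k : Type} [Field k] (c : k) : (C c * X : k[X]).natDegree ≤ 1 := by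
  have h := natDegree_C_mul_X_pow_le c 1
  rwa [pow_one] at h

open Polynomial in
private theorem Y5_lin' {k : Type} [Field k] (c : k) : (1 + C c * X : k[X]).natDegree ≤ 1 := by
  refine natDegree_add_le_of_degree_le ?_ (Y5_lin _)
  rw [natDegree_one]
  exact Nat.zero_le _

open Polynomial in
private theorem Y5_coeff {k : Type} [Field k] (x : Fin 2 → k) (c : k) {a j : ℕ} (hj : j ≤ a) :
    (C c * (1 + C (x 0) * X) ^ (a - j) * (C (x 1) * X) ^ j : k[X]).coeff a = c * x 0 ^ (a - j) * x 1 ^ j := by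
  have h2 : ((1 + C (x 0) * X) ^ (a - j) : k[X]).coeff (a - j) = x 0 ^ (a - j) := by
    have h3 := coeff_pow_of_natDegree_le (m := a - j) (Y5_lin' (x 0))
    rw [mul_one] at h3
    rw [h3, coeff_add, coeff_C_mul, coeff_X_one, mul_one, coeff_one, if_neg one_ne_zero, zero_add]
  rw [mul_pow, ← C_pow, ← mul_assoc, coeff_mul_X_pow', if_pos hj, mul_assoc, coeff_C_mul, coeff_mul_C, h2,
    mul_assoc]

open Polynomial in
/-- two polynomials which agree where `A` is not zero -/
private theorem Y5_ext {k : Type} [Field k] [Infinite k] (A : k[X]) (hA : A ≠ 0) {P Q : k[X]}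
    (h : ∀ t, A.eval t ≠ 0 → P.eval t = Q.eval t) : P = Q := by
  have h1 : (P - Q) * A = 0 := by
    refine Polynomial.funext fun t => ?_
    rw [eval_mul, eval_sub, eval_zero]
    by_cases ht : A.eval t = 0
    · rw [ht, mul_zero]
    · rw [h t ht, sub_self, zero_mul]
  exact sub_eq_zero.1 ((mul_eq_zero.1 h1).resolve_right hA)

open Polynomial in
private theorem Y5_ne {k : Type} [Field k] (c : k) : (1 + C c * X : k[X]) ≠ 0 := by
  intro h
  have h1 := congrArg (fun p : k[X] => p.eval 0) h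
  beta_reduce at h1
  rw [eval_add, eval_one, eval_mul, eval_C, eval_X, mul_zero, add_zero, eval_zero] at h1
  exact one_ne_zero h1

open Polynomial in
private theorem Y5_mi {k : Type} [Field k] {n N : ℕ} (s s' : Fin (N + 1) → Fin (n + 1) → k[X]) (e : Fin (n + 1) → ℕ)
    {τ t a : k} (h : ∀ j i, (s' j i).eval τ = a ^ e i * (s j i).eval t) (I : Fin (N + 1) → Fin (n + 1)) :
    (mi s' I).eval τ = a ^ (∑ x, e (I x)) * (mi s I).eval t := by
  unfold mi
  have h1 := (Polynomial.evalRingHom τ).map_det (Matrix.of fun x y => s' y (I x))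
  have h2 := (Polynomial.evalRingHom t).map_det (Matrix.of fun x y => s y (I x))
  rw [Polynomial.coe_evalRingHom] at h1 h2
  rw [h1, h2, ← Finset.prod_pow_eq_pow_sum]
  rw [← Matrix.det_mul_column (fun x => a ^ e (I x)) ((Polynomial.evalRingHom t).mapMatrix (Matrix.of fun x y => s y (I x)))]
  refine congrArg Matrix.det ?_
  ext x y
  exact h y (I x)

open Polynomial in
private theorem Y5_NC {k : Type} [Field k] [IsAlgClosed k] {n D g m : ℕ} {w : Fin (n + 1) → ℕ}
    {S : Set (MvPolynomial (Fin (n + 1)) k)} (hS : ∀ P ∈ S, ∃ m, P.IsWeightedHomogeneous w m)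
    {G : MvPolynomial (Fin (n + 1)) k} (hG : G.IsWeightedHomogeneous w g)
    {p : Fin (n + 1) → Polynomial k} (hp : ∀ i, (p i).natDegree ≤ w i * D) {v : Fin (n + 1) → k}
    (hp0 : val p 0 = v) (hbase : ∀ t, ∀ P ∈ S, MvPolynomial.eval (val p t) P = 0)
    (hcon : Polynomial.X ^ m ∣ MvPolynomial.aeval p G) {y : Fin (n + 1) → k} (x : Fin 2 → k)
    (hx : ∀ i, hv w D p x i = y i) :
    NC w S G m D v y fun i => Y5_h (w i * D) (1 + C (x 0) * X) (C (x 1) * X) (p i) := by
  classical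
  have hinf : Infinite k := IsAlgClosed.instInfinite
  obtain ⟨q, hqd⟩ : ∃ q : Fin (n + 1) → k[X], q = fun i => Y5_h (w i * D) (1 + C (x 0) * X) (C (x 1) * X) (p i) :=
    ⟨_, rfl⟩
  rw [← hqd]
  have hq : ∀ t : k, val q t = hv w D p ![1 + x 0 * t, x 1 * t] := by
    intro t
    funext i
    rw [hqd]
    unfold val hv Y5_h
    rw [Polynomial.eval_finsetSum]
    refine Finset.sum_congr rfl fun j _ => ?_
    simp
  refine ⟨?_, ?_, ?_, ?_, ?_⟩
  · intro i
    rw [hqd]
    exact Y5_deg _ _ (Y5_lin' _) (Y5_lin _)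
  · rw [hq, mul_zero, mul_zero, add_zero, hv_coe hp, hp0]
  · intro i
    rw [← hx i, hqd]
    unfold hv Y5_h
    rw [Polynomial.finsetSum_coeff]
    refine Finset.sum_congr rfl fun j hj => ?_
    exact Y5_coeff x _ (Nat.lt_succ_iff.1 (Finset.mem_range.1 hj))
  · intro t P hP
    obtain ⟨m', hm'⟩ := hS P hP
    have h1 : MvPolynomial.aeval p P = 0 := by
      refine Polynomial.funext fun s => ?_
      rw [← eval_val, Polynomial.eval_zero]
      exact hbase s P hP
    rw [hq, hv_eval hp hm', h1]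
    unfold ev
    refine Finset.sum_eq_zero fun j _ => ?_
    beta_reduce
    rw [Polynomial.coeff_zero, zero_mul, zero_mul]
  · have h1 : MvPolynomial.aeval q G = ∑ l : Fin (g * D + 1), Polynomial.C ((MvPolynomial.aeval p G).coeff (l : ℕ)) *
        (1 + Polynomial.C (x 0) * Polynomial.X) ^ (g * D - (l : ℕ)) * (Polynomial.C (x 1) * Polynomial.X) ^ (l : ℕ) := by
      refine Polynomial.funext fun t => ?_
      rw [← eval_val, hq, hv_eval hp hG, Polynomial.eval_finsetSum]
      unfold ev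
      refine Finset.sum_congr rfl fun l _ => ?_
      simp
    rw [h1]
    refine Finset.dvd_sum fun l _ => ?_
    by_cases hl : (l : ℕ) < m
    · rw [Polynomial.X_pow_dvd_iff.1 hcon l hl, Polynomial.C_0, zero_mul, zero_mul]
      exact dvd_zero _
    · refine Dvd.dvd.mul_left ?_ _
      rw [mul_pow]
      exact Dvd.dvd.mul_left (pow_dvd_pow _ (not_lt.1 hl)) _

theorem norm_curve_KP {k : Type} [Field k] [IsAlgClosed k] {n D g m N M : ℕ} {w : Fin (n + 1) → ℕ}
    (hm : 0 < m) {S : Set (MvPolynomial (Fin (n + 1)) k)} (hS : ∀ P ∈ S, ∃ m, P.IsWeightedHomogeneous w m)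
    {G : MvPolynomial (Fin (n + 1)) k} (hG : G.IsWeightedHomogeneous w g)
    {p : Fin (n + 1) → Polynomial k} (hp : ∀ i, (p i).natDegree ≤ w i * D) {v : Fin (n + 1) → k}
    (hp0 : val p 0 = v) (hbase : ∀ t, ∀ P ∈ S, MvPolynomial.eval (val p t) P = 0)
    (hcon : Polynomial.X ^ m ∣ MvPolynomial.aeval p G) (hK : KP w S D N M p)
    {y : Fin (n + 1) → k} (hy : MvPolynomial.eval y G ≠ 0) (x : Fin 2 → k)
    (hx : ∀ i, hv w D p x i = y i) : ∃ q, NC w S G m D v y q ∧ KP w S D N M q := by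
  classical
  have hinf : Infinite k := IsAlgClosed.instInfinite
  have hx1 : x 1 ≠ 0 := by
    intro h0
    apply hy
    have hGv : MvPolynomial.eval v G = 0 := by
      rw [← hp0, eval_val]
      obtain ⟨r, hr⟩ := hcon
      rw [hr, Polynomial.eval_mul, Polynomial.eval_pow, Polynomial.eval_X, zero_pow hm.ne', zero_mul]
    have h1 : y = fun i => (x 0 ^ D) ^ w i * v i := by
      funext i
      rw [← hx i]
      unfold hv
      rw [Finset.sum_eq_single 0]
      · have h2 : v i = (p i).coeff 0 := by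
          rw [← hp0]
          unfold val
          rw [Polynomial.coeff_zero_eq_eval_zero]
        rw [pow_zero, mul_one, Nat.sub_zero, h2, ← pow_mul, mul_comm D, mul_comm]
      · intro j _ hj
        rw [h0, zero_pow hj, mul_zero]
      · intro h
        exact absurd (Finset.mem_range.2 (Nat.succ_pos _)) h
    rw [h1, eval_smul_w hG, hGv, mul_zero]
  obtain ⟨b, hb⟩ : ∃ b : k, b = x 0 := ⟨_, rfl⟩
  obtain ⟨r, hr⟩ : ∃ r : k, r = (x 1)⁻¹ := ⟨_, rfl⟩
  have hrx : r * x 1 = 1 := by rw [hr, inv_mul_cancel₀ hx1]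
  obtain ⟨q, hqd⟩ : ∃ q : Fin (n + 1) → Polynomial k, q = fun i =>
    Y5_h (w i * D) (1 + Polynomial.C (x 0) * Polynomial.X) (Polynomial.C (x 1) * Polynomial.X) (p i) := ⟨_, rfl⟩
  have hNC : NC w S G m D v y q := by
    rw [hqd]
    exact Y5_NC hS hG hp hp0 hbase hcon x hx
  refine ⟨q, hNC, ?_⟩
  -- the inverse substitution
  obtain ⟨A, hA⟩ : ∃ A : Polynomial k, A = 1 + Polynomial.C (-(b * r)) * Polynomial.X := ⟨_, rfl⟩
  obtain ⟨B, hB⟩ : ∃ B : Polynomial k, B = Polynomial.C r * Polynomial.X := ⟨_, rfl⟩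
  have hAe : ∀ τ, A.eval τ = 1 - b * r * τ := by
    intro τ
    rw [hA, Polynomial.eval_add, Polynomial.eval_one, Polynomial.eval_mul, Polynomial.eval_C, Polynomial.eval_X]
    ring
  have hBe : ∀ τ, B.eval τ = r * τ := by
    intro τ
    rw [hB, Polynomial.eval_mul, Polynomial.eval_C, Polynomial.eval_X]
  have hA0 : A ≠ 0 := by
    rw [hA]
    exact Y5_ne _
  have hXB : Polynomial.X ∣ B := by
    rw [hB]
    exact dvd_mul_left _ _
  have hqv : ∀ τ, A.eval τ ≠ 0 → val q (B.eval τ / A.eval τ) = fun i => (((A.eval τ)⁻¹) ^ D) ^ w i * val p τ i := by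
    intro τ hτ
    have h1 : (1 + Polynomial.C (x 0) * Polynomial.X : Polynomial k).eval (B.eval τ / A.eval τ) = (A.eval τ)⁻¹ := by
      rw [Polynomial.eval_add, Polynomial.eval_one, Polynomial.eval_mul, Polynomial.eval_C, Polynomial.eval_X, ← hb]
      rw [hAe] at hτ
      rw [hAe, hBe]
      field_simp
      ring
    have h2 : (Polynomial.C (x 1) * Polynomial.X : Polynomial k).eval (B.eval τ / A.eval τ) /
        (1 + Polynomial.C (x 0) * Polynomial.X : Polynomial k).eval (B.eval τ / A.eval τ) = τ := by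
      rw [h1, Polynomial.eval_mul, Polynomial.eval_C, Polynomial.eval_X, hBe]
      have h3 : x 1 * (r * τ / A.eval τ) / (A.eval τ)⁻¹ = (r * x 1) * τ := by
        field_simp
      rw [h3, hrx, one_mul]
    funext i
    rw [hqd]
    unfold val
    rw [Y5_eval _ _ (hp i) (by rw [h1]; exact inv_ne_zero hτ), h2, h1, ← pow_mul, mul_comm D]
  intro s hs hT hI e he
  have hwD : ∀ i, 0 < w i * D := fun i => lt_of_le_of_lt (Nat.zero_le _) (hs 0 i)
  obtain ⟨s', hs'⟩ : ∃ s' : Fin (N + 1) → Fin (n + 1) → Polynomial k,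
      s' = fun j i => Y5_h (w i * D - 1) A B (s j i) := ⟨_, rfl⟩
  have hs'v : ∀ τ, A.eval τ ≠ 0 → ∀ j i, (s' j i).eval τ =
      (A.eval τ) ^ (w i * D - 1) * (s j i).eval (B.eval τ / A.eval τ) := by
    intro τ hτ j i
    rw [hs']
    exact Y5_eval A B (Nat.le_sub_one_of_lt (hs j i)) hτ
  have hmi : ∀ I τ, A.eval τ ≠ 0 → (mi s' I).eval τ =
      (A.eval τ) ^ (∑ z, (w (I z) * D - 1)) * (mi s I).eval (B.eval τ / A.eval τ) := by
    intro I τ hτ
    exact Y5_mi s s' (fun i => w i * D - 1) (hs'v τ hτ) I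
  refine hK s' ?_ ?_ ?_ e ?_
  · intro j i
    rw [hs']
    have h1 := Y5_deg (w i * D - 1) (s j i) (A := A) (B := B) (by rw [hA]; exact Y5_lin' _) (by rw [hB]; exact Y5_lin _)
    have h2 := hwD i
    exact lt_of_le_of_lt h1 (by omega)
  · intro j P hP
    obtain ⟨m', hm'⟩ := hS P hP
    refine Y5_ext A hA0 fun τ hτ => ?_
    rw [Polynomial.eval_finsetSum, Polynomial.eval_zero]
    have h1 : ((A.eval τ)⁻¹ ^ D) ^ m' * A.eval τ ≠ 0 :=
      mul_ne_zero (pow_ne_zero _ (pow_ne_zero _ (inv_ne_zero hτ))) hτ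
    refine (mul_eq_zero.1 ?_).resolve_left h1
    have h2 := congrArg (fun u : Polynomial k => u.eval (B.eval τ / A.eval τ)) (hT j P hP)
    beta_reduce at h2
    rw [Polynomial.eval_finsetSum, Polynomial.eval_zero] at h2
    rw [← h2, Finset.mul_sum]
    refine Finset.sum_congr rfl fun i _ => ?_
    have h3 := Y5_ggr ((A.eval τ)⁻¹ ^ D) (val p τ) hm' i
    unfold gr at h3
    rw [← hqv τ hτ] at h3
    rw [Polynomial.eval_mul, Polynomial.eval_mul, ← eval_val, ← eval_val, hs'v τ hτ]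
    have h4 : A.eval τ * (A.eval τ) ^ (w i * D - 1) = (A.eval τ) ^ (w i * D) := by
      rw [← pow_succ', Nat.sub_add_cancel (hwD i)]
    have h5 : ((A.eval τ)⁻¹ ^ D) ^ w i * (A.eval τ) ^ (w i * D) = 1 := by
      rw [← pow_mul, mul_comm D, ← mul_pow, inv_mul_cancel₀ hτ, one_pow]
    calc ((A.eval τ)⁻¹ ^ D) ^ m' * A.eval τ * (MvPolynomial.eval (val p τ) (MvPolynomial.pderiv i P) *
          ((A.eval τ) ^ (w i * D - 1) * (s j i).eval (B.eval τ / A.eval τ))) =
        (((A.eval τ)⁻¹ ^ D) ^ m' * MvPolynomial.eval (val p τ) (MvPolynomial.pderiv i P)) *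
          (A.eval τ * (A.eval τ) ^ (w i * D - 1)) * (s j i).eval (B.eval τ / A.eval τ) := by ring
      _ = MvPolynomial.eval (val q (B.eval τ / A.eval τ)) (MvPolynomial.pderiv i P) *
          (((A.eval τ)⁻¹ ^ D) ^ w i * (A.eval τ) ^ (w i * D)) * (s j i).eval (B.eval τ / A.eval τ) := by
        rw [← h3, h4]
        ring
      _ = MvPolynomial.eval (val q (B.eval τ / A.eval τ)) (MvPolynomial.pderiv i P) *
          (s j i).eval (B.eval τ / A.eval τ) := by
        rw [h5, mul_one]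
  · obtain ⟨I, hI⟩ := hI
    refine ⟨I, fun h0 => hI ?_⟩
    refine Y5_ext (1 + Polynomial.C b * Polynomial.X) (Y5_ne b) fun t ht => ?_
    rw [Polynomial.eval_add, Polynomial.eval_one, Polynomial.eval_mul, Polynomial.eval_C, Polynomial.eval_X] at ht
    have h1 : A.eval (x 1 * t / (1 + b * t)) = (1 + b * t)⁻¹ := by
      rw [hAe]
      have h2 : b * r * (x 1 * t / (1 + b * t)) = (r * x 1) * (b * t / (1 + b * t)) := by ring
      rw [h2, hrx, one_mul]
      field_simp
      ring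
    have h3 : B.eval (x 1 * t / (1 + b * t)) / A.eval (x 1 * t / (1 + b * t)) = t := by
      rw [h1, hBe]
      have h4 : r * (x 1 * t / (1 + b * t)) / (1 + b * t)⁻¹ = (r * x 1) * t := by
        rw [div_inv_eq_mul, mul_assoc, div_mul_cancel₀ _ ht, mul_assoc]
      rw [h4, hrx, one_mul]
    have h5 := hmi I (x 1 * t / (1 + b * t)) (by rw [h1]; exact inv_ne_zero ht)
    rw [h0, Polynomial.eval_zero, h3, h1] at h5
    rw [Polynomial.eval_zero]
    exact (mul_eq_zero.1 h5.symm).resolve_left (pow_ne_zero _ (inv_ne_zero ht))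
  · intro I
    have h1 : mi s' I * A ^ (mi s I).natDegree =
        Y5_h ((∑ z, (w (I z) * D - 1)) + (mi s I).natDegree) A B (mi s I) := by
      refine Y5_ext A hA0 fun τ hτ => ?_
      rw [Y5_eval A B (Nat.le_add_left _ _) hτ, Polynomial.eval_mul, Polynomial.eval_pow, hmi I τ hτ, pow_add]
      ring
    have h2 : Polynomial.X ^ e ∣ mi s' I * A ^ (mi s I).natDegree := by
      rw [h1]
      exact Y5_dvd hXB (he I)
    have h3 : IsCoprime (Polynomial.X : Polynomial k) A := by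
      refine ⟨Polynomial.C (b * r), 1, ?_⟩
      rw [hA, Polynomial.C_neg]
      ring
    exact (h3.pow).dvd_of_dvd_mul_right h2

end Pool.Agent.Lib.MP_1e3e9c_agR
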