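import Mathlib

/-!
# MP_1e3e9c_ag, project R, leaf X4: derivations (MATHLIB ONLY)

`exists_ders`. PROOF. Extend `z` to a transcendence basis of `K` over `k` (`AlgebraicIndependent` extends:
`exists_isTranscendenceBasis_superset`, ..) `x : ι → K` with `x (e j) = z j`, `e` injective; `K` is algebraic over `k(x)`, characteristic `0`, so
separable: the derivation of `k(x)` (or `k[x]`) with `x i ↦` given values extends to `K`. This is `exists_derivation` in
`Pool/Agent/Lib/MP_17a322_nt/VN/E4.lean` (with E4a.lean; `Derivation ℤ`, zero on `k`): copy it (helpers private) or import it. `δ j` = the derivation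
with `z l ↦ if j = l then 1 else 0`, zero on `k`, the other basis elements to `0`; `k`-linear because it kills `k`.

`der_aeval`: `MvPolynomial.induction_on` (model: `der_aeval` in `MP_17a322_nt/VA/G07.lean`). `mapD`: the coefficientwise derivation
of `K[X]`: `p ↦ ∑ monomial i (δ (p.coeff i))` (`p.sum`), additive, Leibniz rule from `Polynomial.coeff_mul`, `k`-linear (or
`Derivation.mapCoeffs` and `PolynomialModule.equivPolynomialSelf`).
-/

set_option autoImplicit false

namespace Pool.Agent.Lib.MP_1e3e9c_agR

open MvPolynomial in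
private theorem X4_derivation_poly {k L ι : Type*} [Field k] [Field L] [Algebra k L] (x : ι → L)
    (δ : Derivation ℤ k L) (v : ι → L) :
    ∃ D : MvPolynomial ι k →+ L, (∀ p q, D (p * q) = aeval x p * D q + aeval x q * D p) ∧
      (∀ a, D (C a) = δ a) ∧ ∀ i, D (X i) = v i := by
  let c : k →+* TrivSqZeroExt L L :=
    { toFun := fun a => (algebraMap k L a, δ a)
      map_one' := TrivSqZeroExt.ext (map_one _) (Derivation.map_one_eq_zero δ)
      map_mul' := fun a b => TrivSqZeroExt.ext (map_mul _ a b) (by
        rw [TrivSqZeroExt.snd_mul]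
        show δ (a * b) = algebraMap k L a • δ b + MulOpposite.op (algebraMap k L b) • δ a
        rw [Derivation.leibniz, Algebra.smul_def, Algebra.smul_def, smul_eq_mul,
          op_smul_eq_mul, mul_comm (algebraMap k L b)])
      map_zero' := TrivSqZeroExt.ext (map_zero _) (map_zero δ)
      map_add' := fun a b => TrivSqZeroExt.ext (map_add _ a b) (map_add δ a b) }
  let φ : MvPolynomial ι k →+* TrivSqZeroExt L L := eval₂Hom c fun i => (x i, v i)
  have hfst : ∀ p, (φ p).fst = aeval x p := by
    intro p
    induction p using MvPolynomial.induction_on with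
    | C a =>
      show (eval₂Hom c _ (C a)).fst = _
      rw [eval₂Hom_C, aeval_C]
      rfl
    | add p q hp hq => rw [map_add, TrivSqZeroExt.fst_add, hp, hq, map_add]
    | mul_X p i hp =>
      rw [map_mul, TrivSqZeroExt.fst_mul, hp, map_mul, aeval_X]
      congr 1
      show (eval₂Hom c _ (X i)).fst = _
      rw [eval₂Hom_X']
      rfl
  refine ⟨{ toFun := fun p => (φ p).snd, map_zero' := ?_, map_add' := fun p q => ?_ },
    fun p q => ?_, fun a => ?_, fun i => ?_⟩
  · rw [map_zero, TrivSqZeroExt.snd_zero]
  · rw [map_add, TrivSqZeroExt.snd_add]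
  · show (φ (p * q)).snd = aeval x p * (φ q).snd + aeval x q * (φ p).snd
    rw [map_mul, TrivSqZeroExt.snd_mul, hfst, hfst, smul_eq_mul, op_smul_eq_mul,
      mul_comm (φ p).snd]
  · show (eval₂Hom c _ (C a)).snd = δ a
    rw [eval₂Hom_C]
    rfl
  · show (eval₂Hom c _ (X i)).snd = v i
    rw [eval₂Hom_X']
    rfl

open MvPolynomial in
open scoped IntermediateField.algebraAdjoinAdjoin in
private theorem X4_derivation {k L ι : Type*} [Field k] [CharZero k] [Field L] [Algebra k L] (X : ι → L)
    (hX : AlgebraicIndependent k X)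
    (hL : Algebra.IsAlgebraic (IntermediateField.adjoin k (Set.range X)) L)
    (δ : Derivation ℤ k L) (v : ι → L) :
    ∃ D : Derivation ℤ L L, (∀ a : k, D (algebraMap k L a) = δ a) ∧ ∀ i, D (X i) = v i := by
  obtain ⟨D0, hD0, hD1, hD2⟩ := X4_derivation_poly X δ v
  have hsep : Algebra.IsSeparable (IntermediateField.adjoin k (Set.range X)) L :=
    inferInstance
  have h1 : Algebra.FormallyEtale (Algebra.adjoin k (Set.range X))
      (IntermediateField.adjoin k (Set.range X)) :=
    Algebra.FormallyEtale.of_isLocalization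
      (nonZeroDivisors (Algebra.adjoin k (Set.range X)))
  have h2 : Algebra.FormallyEtale (IntermediateField.adjoin k (Set.range X)) L :=
    Algebra.FormallyEtale.of_isSeparable _ L
  have h3 : Algebra.FormallyEtale (Algebra.adjoin k (Set.range X)) L :=
    Algebra.FormallyEtale.comp _ (IntermediateField.adjoin k (Set.range X)) _
  have hbc : IsBaseChange L (KaehlerDifferential.map ℤ ℤ (Algebra.adjoin k (Set.range X)) L) :=
    KaehlerDifferential.isBaseChange_of_formallyEtale ℤ (Algebra.adjoin k (Set.range X)) L
  have hsm : ∀ s : Algebra.adjoin k (Set.range X), aeval X (hX.aevalEquiv.symm s) = (s : L) := by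
    intro s
    rw [← hX.algebraMap_aevalEquiv, AlgEquiv.apply_symm_apply]
    rfl
  let D1 : Algebra.adjoin k (Set.range X) →+ L :=
    D0.comp (hX.aevalEquiv.symm : Algebra.adjoin k (Set.range X) →+ MvPolynomial ι k)
  have hD1a : ∀ s, D1 s = D0 (hX.aevalEquiv.symm s) := fun _ => rfl
  let d : Derivation ℤ (Algebra.adjoin k (Set.range X)) L :=
    Derivation.mk' D1.toIntLinearMap (by
      intro a b
      change D1 (a * b) = (a : L) * D1 b + (b : L) * D1 a
      rw [hD1a, hD1a, hD1a, map_mul, hD0, hsm, hsm])
  have hd : ∀ s, d s = D0 (hX.aevalEquiv.symm s) := fun _ => rfl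
  let D : Derivation ℤ L L :=
    (hbc.lift d.liftKaehlerDifferential).compDer (KaehlerDifferential.D ℤ L)
  have hD : ∀ s : Algebra.adjoin k (Set.range X), D (s : L) = d s := by
    intro s
    have h4 : KaehlerDifferential.D ℤ L (algebraMap (Algebra.adjoin k (Set.range X)) L s)
        = KaehlerDifferential.map ℤ ℤ (Algebra.adjoin k (Set.range X)) L
          (KaehlerDifferential.D ℤ (Algebra.adjoin k (Set.range X)) s) := by
      rw [KaehlerDifferential.map_D]
    change hbc.lift d.liftKaehlerDifferential
      (KaehlerDifferential.D ℤ L (algebraMap (Algebra.adjoin k (Set.range X)) L s)) = _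
    rw [h4, hbc.lift_eq, Derivation.liftKaehlerDifferential_comp_D]
  refine ⟨D, ?_, ?_⟩
  · intro a
    have h5 := hD (algebraMap k (Algebra.adjoin k (Set.range X)) a)
    rw [hd, AlgEquiv.commutes, MvPolynomial.algebraMap_eq, hD1] at h5
    exact h5
  · intro i
    have h5 := hD (hX.aevalEquiv (MvPolynomial.X i))
    rw [hd, AlgEquiv.symm_apply_apply, hD2] at h5
    rw [← h5]
    congr 1
    have h6 := hX.algebraMap_aevalEquiv (MvPolynomial.X i)
    rw [aeval_X] at h6
    exact h6.symm

theorem exists_ders {k K : Type} [Field k] [CharZero k] [Field K] [Algebra k K] {N : ℕ}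
    (z : Fin N → K) (hz : AlgebraicIndependent k z) :
    ∃ δ : Fin N → Derivation k K K, ∀ j l, δ j (z l) = if j = l then 1 else 0 := by
  classical
  have hinj : Function.Injective z := hz.injective
  have hind : AlgebraicIndepOn k id (Set.range z) := hz.coe_range
  obtain ⟨t, hft, ht⟩ := exists_isTranscendenceBasis_superset hind
  have hmem : ∀ j, z j ∈ t := fun j => hft (Set.mem_range_self j)
  have key : ∀ j : Fin N, ∃ d : Derivation k K K, ∀ l, d (z l) = if j = l then 1 else 0 := by
    intro j
    obtain ⟨D, hD, hDX⟩ := X4_derivation ((↑) : t → K) ht.1 ht.isAlgebraic_field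
      (0 : Derivation ℤ k K) (fun i => if i = ⟨z j, hmem j⟩ then 1 else 0)
    have hD0 : ∀ a : k, D (algebraMap k K a) = 0 := fun a => by
      rw [hD]
      rfl
    have hsm : ∀ (a : k) (x : K), D (a • x) = a • D x := fun a x => by
      rw [Algebra.smul_def a x, Derivation.leibniz, hD0, smul_zero, add_zero,
        Algebra.smul_def a (D x), smul_eq_mul]
    let E : K →ₗ[k] K :=
      { toFun := fun x => D x
        map_add' := fun x y => map_add D x y
        map_smul' := hsm }
    refine ⟨Derivation.mk' E fun a b => Derivation.leibniz D a b, fun l => ?_⟩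
    · have h3 := hDX ⟨z l, hmem l⟩
      have h4 : D (z l) = if (⟨z l, hmem l⟩ : t) = ⟨z j, hmem j⟩ then 1 else 0 := h3
      have h5 : ((⟨z l, hmem l⟩ : t) = ⟨z j, hmem j⟩) ↔ j = l := by
        rw [Subtype.mk.injEq]
        exact ⟨fun h => (hinj h).symm, fun h => by rw [h]⟩
      show D (z l) = _
      rw [h4]
      by_cases h6 : j = l
      · rw [if_pos h6, if_pos (h5.2 h6)]
      · rw [if_neg h6, if_neg fun h => h6 (h5.1 h)]
  exact ⟨fun j => (key j).choose, fun j => (key j).choose_spec⟩

theorem der_aeval {k B : Type} [Field k] [CommRing B] [Algebra k B] (d : Derivation k B B) {n : ℕ}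
    (f : Fin (n + 1) → B) (P : MvPolynomial (Fin (n + 1)) k) :
    d (MvPolynomial.aeval f P) = ∑ i, MvPolynomial.aeval f (MvPolynomial.pderiv i P) * d (f i) := by
  classical
  induction P using MvPolynomial.induction_on with
  | C a =>
    rw [MvPolynomial.aeval_C, Derivation.map_algebraMap]
    refine (Finset.sum_eq_zero fun i _ => ?_).symm
    rw [MvPolynomial.pderiv_C, map_zero, zero_mul]
  | add p q hp hq =>
    rw [map_add, map_add, hp, hq, ← Finset.sum_add_distrib]
    refine Finset.sum_congr rfl fun i _ => ?_
    rw [map_add, map_add, add_mul]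
  | mul_X p j hp =>
    rw [map_mul, MvPolynomial.aeval_X, Derivation.leibniz, hp, smul_eq_mul, smul_eq_mul]
    have h : ∀ i : Fin (n + 1), MvPolynomial.aeval f (MvPolynomial.pderiv i (p * MvPolynomial.X j)) * d (f i) =
        (if i = j then MvPolynomial.aeval f p * d (f j) else 0) +
          f j * (MvPolynomial.aeval f (MvPolynomial.pderiv i p) * d (f i)) := by
      intro i
      rw [Derivation.leibniz, smul_eq_mul, smul_eq_mul, map_add, map_mul, map_mul, MvPolynomial.aeval_X,
        MvPolynomial.pderiv_X, Pi.single_apply]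
      by_cases hij : i = j
      · subst hij
        rw [if_pos rfl, if_pos rfl, map_one]
        ring
      · rw [if_neg hij, if_neg (Ne.symm hij), map_zero]
        ring
    rw [Finset.sum_congr rfl fun i _ => h i, Finset.sum_add_distrib, Finset.sum_ite_eq',
      if_pos (Finset.mem_univ _), ← Finset.mul_sum]

theorem exists_mapD {k K : Type} [Field k] [Field K] [Algebra k K] (δ : Derivation k K K) :
    ∃ d : Derivation k (Polynomial K) (Polynomial K),
      ∀ (p : Polynomial K) (i : ℕ), (d p).coeff i = δ (p.coeff i) :=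
  ⟨PolynomialModule.equivPolynomialSelf.compDer δ.mapCoeffs, fun _ _ => rfl⟩

end Pool.Agent.Lib.MP_1e3e9c_agR
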