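import Mathlib
import Pool.Agent.Lib.MP_1e3e9c_agR.XDefs

/-!
# MP_1e3e9c_ag, project R, leaf X5: the tangent tuples are independent (linear algebra over `K[t]`)

PROOF. Suppose all `(N+1)`-minors of the `(n+1) × (N+1)` matrix `(s j i)` vanish. Then its columns are linearly dependent over the field
of fractions `K(t)` (rank `< N + 1`: `Matrix.rank`, or: a matrix over a field with independent columns has a nonzero maximal minor, e.g.
`Matrix.exists_submatrix..`, `LinearIndependent` and `Matrix.det_ne_zero_of..`; the rows span `K(t)^(N+1)`, choose `N+1` independent rows), so there are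
polynomials `a j`, not all `0`, with `∑_j a_j s j i = 0` for all `i` (common denominator). Divide by the largest power of `X` which divides all
`a_j`: not all `a_j` are divisible by `X`. `∑_j a_j (γ · s_j) = 0`, so `X^μ ∣ a_0 (γ · s_0)` (`h1`), and `X^μ ∤ γ · s_0` (`h0`), `X` is
prime: `X ∣ a_0`. At `X = 0`: `∑_(j ≥ 1) a_j(0) s_j(0) = 0`, so `a_j(0) = 0` for all `j ≥ 1` (`hind`): all `a_j` are divisible by `X`: contradiction.
-/

set_option autoImplicit false

namespace Pool.Agent.Lib.MP_1e3e9c_agR

private theorem X5_minor {F : Type} [Field F] {n N : ℕ} (v : Fin (N + 1) → Fin (n + 1) → F)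
    (h : LinearIndependent F v) : ∃ I : Fin (N + 1) → Fin (n + 1), (Matrix.of fun a b => v b (I a)).det ≠ 0 := by
  classical
  obtain ⟨R, hR⟩ : ∃ R : Fin (n + 1) → Fin (N + 1) → F, R = fun i b => v b i := ⟨_, rfl⟩
  -- the rows span
  have hker : LinearMap.ker (Fintype.linearCombination F v) = ⊥ := by
    rw [LinearMap.ker_eq_bot]
    exact linearIndependent_iff_injective_fintypeLinearCombination.1 h
  obtain ⟨g, hg⟩ := LinearMap.exists_leftInverse_of_injective _ hker
  have hgv : ∀ b, g (v b) = Pi.single b 1 := by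
    intro b
    have h2 := LinearMap.congr_fun hg (Pi.single b 1)
    rw [LinearMap.comp_apply, Fintype.linearCombination_apply_single, one_smul] at h2
    exact h2
  have hspan : (⊤ : Submodule F (Fin (N + 1) → F)) ≤ Submodule.span F (Set.range R) := by
    rw [← (Pi.basisFun F (Fin (N + 1))).span_eq, Submodule.span_le]
    rintro _ ⟨b, rfl⟩
    have h1 : (Pi.basisFun F (Fin (N + 1))) b = ∑ i, (g (fun j => if i = j then 1 else 0) b) • R i := by
      funext b'
      have h2 := congrFun (hgv b') b
      rw [LinearMap.pi_apply_eq_sum_univ g (v b'), Finset.sum_apply] at h2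
      rw [Pi.basisFun_apply, Finset.sum_apply]
      have h3 : ∑ i, (g (fun j => if i = j then 1 else 0) b • R i) b' =
          ∑ c, (v b' c • g fun j => if c = j then 1 else 0) b := by
        refine Finset.sum_congr rfl fun i _ => ?_
        rw [Pi.smul_apply, Pi.smul_apply, smul_eq_mul, smul_eq_mul, hR, mul_comm]
      rw [h3, h2, Pi.single_apply, Pi.single_apply]
      by_cases hb : b = b'
      · rw [if_pos hb, if_pos hb.symm]
      · rw [if_neg hb, if_neg (fun h5 => hb h5.symm)]
    rw [h1]
    exact Submodule.sum_mem _ fun i _ => Submodule.smul_mem _ _ (Submodule.subset_span ⟨i, rfl⟩)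
  obtain ⟨κ, a, ha, hsp, hli⟩ := exists_linearIndependent' F R
  have hfin : Finite κ := Finite.of_injective a ha
  have hft := Fintype.ofFinite κ
  have hcard : Fintype.card κ = N + 1 := by
    have h1 := Module.finrank_eq_card_basis (Module.Basis.mk hli (by rw [hsp]; exact hspan))
    rw [Module.finrank_fin_fun] at h1
    exact h1.symm
  let e : Fin (N + 1) ≃ κ := (Fintype.equivFinOfCardEq hcard).symm
  refine ⟨fun x => a (e x), ?_⟩
  have h3 : LinearIndependent F (Matrix.of fun x b => v b (a (e x)) : Matrix (Fin (N + 1)) (Fin (N + 1)) F).row := by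
    have h4 := hli.comp e e.injective
    rw [hR] at h4
    exact h4
  have h5 := (Matrix.isUnit_iff_isUnit_det _).1 (Matrix.linearIndependent_rows_iff_isUnit.1 h3)
  exact h5.ne_zero

private theorem X5_dep {K : Type} [Field K] {n N : ℕ} (s : Fin (N + 1) → Fin (n + 1) → Polynomial K)
    (h : ∀ I, mi s I = 0) : ∃ a : Fin (N + 1) → Polynomial K, (∀ i, ∑ j, a j * s j i = 0) ∧ ∃ j, a j ≠ 0 := by
  by_contra hcon
  have hli : LinearIndependent (Polynomial K) s := by
    rw [Fintype.linearIndependent_iff]
    intro a ha j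
    by_contra hj
    refine hcon ⟨a, fun i => ?_, j, hj⟩
    have h1 := congrFun ha i
    rw [Finset.sum_apply] at h1
    exact h1
  have hli2 : LinearIndependent (Polynomial K)
      (fun j (i : Fin (n + 1)) => algebraMap (Polynomial K) (RatFunc K) (s j i)) := by
    rw [Fintype.linearIndependent_iff] at hli ⊢
    intro a ha j
    refine hli a ?_ j
    funext i
    have h1 := congrFun ha i
    rw [Finset.sum_apply, Pi.zero_apply] at h1
    rw [Finset.sum_apply, Pi.zero_apply]
    have h2 : algebraMap (Polynomial K) (RatFunc K) (∑ c, (a c • s c) i) = 0 := by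
      rw [map_sum]
      refine (Finset.sum_congr rfl fun c _ => ?_).trans h1
      rw [Pi.smul_apply, Pi.smul_apply, smul_eq_mul, map_mul, Algebra.smul_def]
    exact (RatFunc.algebraMap_injective K) (h2.trans (map_zero _).symm)
  have hli3 := (LinearIndependent.iff_fractionRing (Polynomial K) (RatFunc K)).1 hli2
  obtain ⟨I, hI⟩ := X5_minor _ hli3
  refine hI ?_
  have h3 := congrArg (algebraMap (Polynomial K) (RatFunc K)) (h I)
  rw [mi, RingHom.map_det, map_zero] at h3
  rw [← h3]
  rfl

theorem wedge_ne {K : Type} [Field K] {n N μ : ℕ} (s : Fin (N + 1) → Fin (n + 1) → Polynomial K)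
    (γ : Fin (n + 1) → Polynomial K) (h0 : ¬ Polynomial.X ^ μ ∣ ∑ i, γ i * s 0 i)
    (h1 : ∀ j : Fin N, Polynomial.X ^ μ ∣ ∑ i, γ i * s j.succ i)
    (hind : LinearIndependent K fun (j : Fin N) (i : Fin (n + 1)) => (s j.succ i).coeff 0) :
    ∃ I, mi s I ≠ 0 := by
  by_contra hcon
  push Not at hcon
  obtain ⟨a, ha, j₁, hj₁⟩ := X5_dep s hcon
  -- every relation is divisible by `X`
  have hdvd : ∀ a : Fin (N + 1) → Polynomial K, (∀ i, ∑ j, a j * s j i = 0) → ∀ j, Polynomial.X ∣ a j := by
    intro a ha
    have h2 : ∑ j, a j * ∑ i, γ i * s j i = 0 := by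
      have h3 : ∑ i, γ i * ∑ j, a j * s j i = 0 := Finset.sum_eq_zero fun i _ => by rw [ha i, mul_zero]
      rw [← h3]
      simp only [Finset.mul_sum]
      rw [Finset.sum_comm]
      exact Finset.sum_congr rfl fun i _ => Finset.sum_congr rfl fun j _ => by ring
    rw [Fin.sum_univ_succ] at h2
    have h4 : Polynomial.X ^ μ ∣ a 0 * ∑ i, γ i * s 0 i := by
      rw [eq_neg_of_add_eq_zero_left h2, dvd_neg]
      exact Finset.dvd_sum fun j _ => dvd_mul_of_dvd_right (h1 j) _
    have h5 : Polynomial.X ∣ a 0 := by
      by_contra h6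
      exact h0 (Polynomial.prime_X.pow_dvd_of_dvd_mul_left μ h6 h4)
    have h7 : ∀ j : Fin N, (a j.succ).coeff 0 = 0 := by
      rw [Fintype.linearIndependent_iff] at hind
      refine hind (fun j => (a j.succ).coeff 0) ?_
      funext i
      have h8 := congrArg (fun P => Polynomial.coeff P 0) (ha i)
      simp only [Polynomial.finsetSum_coeff, Polynomial.mul_coeff_zero, Polynomial.coeff_zero] at h8
      rw [Fin.sum_univ_succ, Polynomial.X_dvd_iff.1 h5, zero_mul, zero_add] at h8
      rw [Finset.sum_apply]
      exact h8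
    intro j
    refine Fin.cases h5 (fun j => ?_) j
    exact Polynomial.X_dvd_iff.2 (h7 j)
  -- descent
  have hdesc : ∀ m : ℕ, ∀ a : Fin (N + 1) → Polynomial K, (∀ i, ∑ j, a j * s j i = 0) → a j₁ ≠ 0 →
      (a j₁).natDegree ≤ m → False := by
    intro m
    induction m with
    | zero =>
      intro a ha hj hm
      obtain ⟨b, hb⟩ := hdvd a ha j₁
      have hb0 : b ≠ 0 := by
        intro h2
        rw [h2, mul_zero] at hb
        exact hj hb
      rw [hb, Polynomial.natDegree_mul Polynomial.X_ne_zero hb0, Polynomial.natDegree_X] at hm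
      omega
    | succ m ih =>
      intro a ha hj hm
      choose b hb using hdvd a ha
      have hb0 : b j₁ ≠ 0 := by
        intro h2
        have h3 := hb j₁
        rw [h2, mul_zero] at h3
        exact hj h3
      refine ih b (fun i => ?_) hb0 ?_
      · have h2 : (Polynomial.X : Polynomial K) * ∑ j, b j * s j i = 0 := by
          rw [← ha i, Finset.mul_sum]
          exact Finset.sum_congr rfl fun j _ => by rw [hb j, mul_assoc]
        exact (mul_eq_zero.1 h2).resolve_left Polynomial.X_ne_zero
      · rw [hb j₁, Polynomial.natDegree_mul Polynomial.X_ne_zero hb0, Polynomial.natDegree_X] at hm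
        omega
  exact hdesc _ a ha hj₁ le_rfl

end Pool.Agent.Lib.MP_1e3e9c_agR
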