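import Mathlib
import Pool.Agent.Lib.MP_1e3e9c_agR.XDefs

/-!
# MP_1e3e9c_ag, project R, leaf X6: all minors are divisible by `X^q` (linear algebra over `K[t]`)

PROOF. The `c + 1` vectors `γ(0)`, `J_l(0)` of `K^(n+1)` are independent; complete them by `N` unit vectors `e_i`, `i ∈ I'`, to a basis
(`n + 1 = (c + 1) + N`; `exists_linearIndependent_extension`, or a nonzero maximal minor of the `(c+1) × (n+1)` matrix and `I'` = the other columns). Let
`M` be the `(n+1) × (n+1)` matrix over `K[t]` with the rows `γ`, `J_l`, `e_i`: `(det M)(0) ≠ 0`, so `X ∤ det M`. Let `T` be the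
`(n+1) × (N+1)` matrix `T i j = s j i`. `M T` has the rows `(γ · s_j)_j` (divisible by `X^q`), `c` zero rows (`hJ`), and `N` more rows. For rows `I`:
`det M • T_I = (adj M)_I (M T)` (`Matrix.adjugate_mul`), and as the `c` rows of `M T` are `0`, `(adj M)_I (M T) = B T'` with `B` of size
`(N+1) × (N+1)` and `T'` = the row `γ · s_j` and the last `N` rows of `M T`. So `(det M)^(N+1) * mi s I = det B * det T'`, and `X^q ∣ det T'`
(Laplace expansion along the first row, `Matrix.det_succ_row_zero`). `X` is prime and `X ∤ det M`, so `X^q ∣ mi s I`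
(`Prime.pow_dvd_of_dvd_mul_left`).
-/

set_option autoImplicit false

namespace Pool.Agent.Lib.MP_1e3e9c_agR

/-- Completion of a linearly independent family to a family of `n + 1` vectors. -/
private theorem X6_ext {K : Type} [Field K] {n N c : ℕ} (hc : c + N = n)
    (v : Fin (c + 1) → Fin (n + 1) → K) (hv : LinearIndependent K v) :
    ∃ w : Fin N → Fin (n + 1) → K, LinearIndependent K (Sum.elim v w) := by
  classical
  obtain ⟨W, hW⟩ := Submodule.exists_isCompl (Submodule.span K (Set.range v))
  have h1 : Module.finrank K (Submodule.span K (Set.range v)) = c + 1 := by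
    rw [finrank_span_eq_card hv, Fintype.card_fin]
  have h2 := Submodule.finrank_add_eq_of_isCompl hW
  rw [h1, Module.finrank_fin_fun] at h2
  have h3 : Module.finrank K W = N := by omega
  let b : Module.Basis (Fin N) K W := Module.finBasisOfFinrankEq K W h3
  have hb : LinearIndependent K (fun i => (b i : Fin (n + 1) → K)) :=
    b.linearIndependent.map' W.subtype (Submodule.ker_subtype W)
  refine ⟨fun i => (b i : Fin (n + 1) → K), hv.sum_type hb ?_⟩
  refine hW.disjoint.mono_right ?_
  rw [Submodule.span_le]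
  rintro _ ⟨i, rfl⟩
  exact (b i).2

/-- The order of the rows. -/
private def X6_s (N c : ℕ) : Fin (N + 1) ⊕ Fin c → Fin (c + 1) ⊕ Fin N
  | Sum.inl a => Fin.cases (Sum.inl 0) (fun i => Sum.inr i) a
  | Sum.inr l => Sum.inl l.succ

private theorem X6_s_inj (N c : ℕ) : Function.Injective (X6_s N c) := by
  rintro (a | l) (b | m) h
  · refine Fin.cases ?_ (fun i => ?_) a h <;> refine Fin.cases ?_ (fun j => ?_) b
    · intro _; rfl
    · intro h; simp [X6_s] at h
    · intro h; simp [X6_s] at h
    · intro h
      simp only [X6_s, Fin.cases_succ, Sum.inr.injEq] at h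
      rw [h]
  · exfalso
    revert h
    refine Fin.cases ?_ (fun i => ?_) a
    · intro h
      simp only [X6_s, Fin.cases_zero, Sum.inl.injEq] at h
      exact (Fin.succ_ne_zero m h.symm).elim
    · intro h; simp [X6_s] at h
  · exfalso
    revert h
    refine Fin.cases ?_ (fun i => ?_) b
    · intro h
      simp only [X6_s, Fin.cases_zero, Sum.inl.injEq] at h
      exact (Fin.succ_ne_zero l h).elim
    · intro h; simp [X6_s] at h
  · simp only [X6_s, Sum.inl.injEq, Fin.succ_inj] at h
    rw [h]

theorem minors_dvd {K : Type} [Field K] {n N c q : ℕ} (hc : c + N = n)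
    (s : Fin (N + 1) → Fin (n + 1) → Polynomial K) (J : Fin c → Fin (n + 1) → Polynomial K)
    (γ : Fin (n + 1) → Polynomial K) (hJ : ∀ l j, ∑ i, J l i * s j i = 0)
    (hγ : ∀ j, Polynomial.X ^ q ∣ ∑ i, γ i * s j i)
    (hind : LinearIndependent K (Fin.cons (fun i => (γ i).coeff 0)
      (fun l i => (J l i).coeff 0) : Fin (c + 1) → Fin (n + 1) → K))
    (I : Fin (N + 1) → Fin (n + 1)) : Polynomial.X ^ q ∣ mi s I := by
  classical
  obtain ⟨w, hw⟩ := X6_ext hc _ hind
  have e : Fin (n + 1) ≃ Fin (N + 1) ⊕ Fin c := by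
    refine Fintype.equivOfCardEq ?_
    simp only [Fintype.card_sum, Fintype.card_fin]
    omega
  -- the rows
  let r : Fin (N + 1) ⊕ Fin c → Fin (n + 1) → Polynomial K :=
    Sum.elim (Fin.cons γ fun a i => Polynomial.C (w a i)) J
  let M : Matrix (Fin (N + 1) ⊕ Fin c) (Fin (N + 1) ⊕ Fin c) (Polynomial K) :=
    Matrix.of fun a b => r a (e.symm b)
  let T : Matrix (Fin (N + 1) ⊕ Fin c) (Fin (N + 1)) (Polynomial K) :=
    Matrix.of fun a j => s j (e.symm a)
  have hM : ¬ (Polynomial.X ∣ M.det) := by
    rw [Polynomial.X_dvd_iff]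
    have h1 : M.det.coeff 0 = (Polynomial.constantCoeff.mapMatrix M).det := by
      rw [← RingHom.map_det]
      rfl
    rw [h1]
    have h2 : LinearIndependent K (Polynomial.constantCoeff.mapMatrix M).row := by
      have h3 := hw.comp _ (X6_s_inj N c)
      have h4 : LinearIndependent K ((LinearEquiv.funCongrLeft K K e.symm) ∘ (Sum.elim
          (Fin.cons (fun i => (γ i).coeff 0) (fun l i => (J l i).coeff 0) :
            Fin (c + 1) → Fin (n + 1) → K) w ∘ X6_s N c)) :=
        h3.map' (LinearEquiv.funCongrLeft K K e.symm).toLinearMap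
          (LinearMap.ker_eq_bot.2 (LinearEquiv.funCongrLeft K K e.symm).injective)
      have h5 : (Polynomial.constantCoeff.mapMatrix M).row =
          ((LinearEquiv.funCongrLeft K K e.symm) ∘ (Sum.elim
          (Fin.cons (fun i => (γ i).coeff 0) (fun l i => (J l i).coeff 0) :
            Fin (c + 1) → Fin (n + 1) → K) w ∘ X6_s N c)) := by
        funext a b
        rcases a with a | l
        · refine Fin.cases ?_ (fun i => ?_) a
          · simp [M, r, X6_s, Matrix.row, LinearMap.funLeft]
          · simp [M, r, X6_s, Matrix.row, LinearMap.funLeft]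
        · simp [M, r, X6_s, Matrix.row, LinearMap.funLeft]
      rw [h5]
      exact h4
    rw [Matrix.linearIndependent_rows_iff_isUnit, Matrix.isUnit_iff_isUnit_det] at h2
    exact h2.ne_zero
  let T' : Matrix (Fin (N + 1)) (Fin (N + 1)) (Polynomial K) :=
    Matrix.of fun a j => (M * T) (Sum.inl a) j
  have hsum : ∀ a j, (M * T) a j = ∑ i, r a i * s j i := by
    intro a j
    rw [Matrix.mul_apply]
    exact Fintype.sum_equiv e.symm _ _ fun b => rfl
  have hMT : M * T = Matrix.fromRows T' 0 := by
    ext a j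
    rcases a with a | l
    · rfl
    · rw [hsum]
      simpa [r] using congrArg (fun p => Polynomial.coeff p _) (hJ l j)
  have hT' : Polynomial.X ^ q ∣ T'.det := by
    rw [Matrix.det_succ_row_zero]
    refine Finset.dvd_sum fun j _ => ?_
    refine Dvd.dvd.mul_right (Dvd.dvd.mul_left ?_ _) _
    have : T' 0 j = ∑ i, γ i * s j i := by
      change (M * T) (Sum.inl 0) j = _
      rw [hsum]
      rfl
    rw [this]
    exact hγ j
  let A : Matrix (Fin (N + 1)) (Fin (N + 1) ⊕ Fin c) (Polynomial K) :=
    M.adjugate.submatrix (fun a => e (I a)) id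
  have hA : M.det • (T.submatrix (fun a => e (I a)) id) = A * (M * T) := by
    have h1 : M.adjugate * (M * T) = M.det • T := by
      rw [← Matrix.mul_assoc, Matrix.adjugate_mul, Matrix.smul_mul, Matrix.one_mul]
    have h2 : A * (M * T) = (M.adjugate * (M * T)).submatrix (fun a => e (I a)) id := rfl
    rw [h2, h1]
    rfl
  have hB : A * (M * T) = A.toCols₁ * T' := by
    conv_lhs => rw [hMT, ← Matrix.fromCols_toCols A]
    rw [Matrix.fromCols_mul_fromRows, Matrix.mul_zero, add_zero]
  have hdet : M.det ^ (N + 1) * mi s I = A.toCols₁.det * T'.det := by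
    rw [← Matrix.det_mul, ← hB, ← hA, Matrix.det_smul, Fintype.card_fin]
    congr 1
    unfold mi
    congr 1
    ext a b
    simp [T]
  have hX : ¬ (Polynomial.X ∣ M.det ^ (N + 1)) := fun h => hM (Polynomial.prime_X.dvd_of_dvd_pow h)
  refine Polynomial.prime_X.pow_dvd_of_dvd_mul_left q hX ?_
  rw [hdet]
  exact Dvd.dvd.mul_left hT' _

end Pool.Agent.Lib.MP_1e3e9c_agR
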