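import Mathlib

/-!
# MP_1e3e9c_ag, project R, leaf X8: independence at the generic point (MATHLIB ONLY)

PROOF. `LinearIndependent k` of `c + 1` vectors of `k^(n+1)`: some `(c+1) × (c+1)` minor (columns `e : Fin (c+1) → Fin (n+1)`) is not
`0` (the rank of the matrix is `c + 1`; its columns span `k^(c+1)`, choose a basis among them). Let `Δ = det (R a (e b))`, a polynomial:
`eval v Δ` = this minor `≠ 0` (`RingHom.map_det`), so `aeval z Δ ≠ 0` is the minor of the vectors over `K`: they are independent (a relation gives a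
relation of the rows of an invertible matrix: `Matrix.linearIndependent_rows_of_det_ne_zero`, `LinearIndependent.of_comp` with the
projection to the columns `e`).
-/

set_option autoImplicit false

namespace Pool.Agent.Lib.MP_1e3e9c_agR

theorem ind_generic {k K : Type} [Field k] [Field K] [Algebra k K] {n c : ℕ}
    (R : Fin (c + 1) → Fin (n + 1) → MvPolynomial (Fin (n + 1)) k) (v : Fin (n + 1) → k)
    (z : Fin (n + 1) → K)
    (hz : ∀ Δ : MvPolynomial (Fin (n + 1)) k, MvPolynomial.eval v Δ ≠ 0 →
      MvPolynomial.aeval z Δ ≠ 0)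
    (h : LinearIndependent k fun a i => MvPolynomial.eval v (R a i)) :
    LinearIndependent K fun a i => MvPolynomial.aeval z (R a i) := by
  classical
  obtain ⟨M, hM⟩ : ∃ M : Matrix (Fin (c + 1)) (Fin (n + 1)) k,
      M = fun a i => MvPolynomial.eval v (R a i) := ⟨_, rfl⟩
  have hrow : LinearIndependent k M.row := by
    rw [hM]
    exact h
  have hrank : M.rank = c + 1 := by
    rw [hrow.rank_matrix, Fintype.card_fin]
  obtain ⟨κ, e, hinj, hspan, hli⟩ := exists_linearIndependent' k M.col
  have hfin : Finite κ := Finite.of_injective e hinj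
  have hft : Fintype κ := Fintype.ofFinite κ
  have hcard : Fintype.card κ = Fintype.card (Fin (c + 1)) := by
    rw [Fintype.card_fin, ← hrank, Matrix.rank_eq_finrank_span_cols, ← hspan,
      finrank_span_eq_card hli]
  obtain ⟨σ⟩ := Fintype.card_eq.1 hcard
  have hli' : LinearIndependent k ((M.col ∘ e) ∘ σ.symm) := hli.comp _ σ.symm.injective
  have hN : IsUnit (M.submatrix id (e ∘ σ.symm)) :=
    Matrix.linearIndependent_cols_iff_isUnit.1 hli'
  have hdet : (M.submatrix id (e ∘ σ.symm)).det ≠ 0 :=
    ((Matrix.isUnit_iff_isUnit_det _).1 hN).ne_zero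
  have h1 : MvPolynomial.eval v (Matrix.det (Matrix.of fun a b => R a (e (σ.symm b)))) ≠ 0 := by
    rw [RingHom.map_det]
    rw [hM] at hdet
    exact hdet
  have h2 := hz _ h1
  rw [AlgHom.map_det] at h2
  have h3 := Matrix.linearIndependent_rows_of_det_ne_zero h2
  exact LinearIndependent.of_comp (LinearMap.funLeft K K (fun b => e (σ.symm b))) h3

end Pool.Agent.Lib.MP_1e3e9c_agR
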