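import Mathlib
import Pool.Agent.Lib.MP_1e3e9c_agR.YDefs

/-!
# MP_1e3e9c_ag, project R, leaf Y1b: a component of a set of curves; the curves outside a proper closed subset suffice

`B` is any set of curves (vectors of coefficients) which satisfy `NC`. The proof is that of `exists_comp` (X2) and `exists_comp'` (Y1).
-/

set_option autoImplicit false

namespace Pool.Agent.Lib.MP_1e3e9c_agR

open Pool.Agent.Lib.MP_1e3e9c_agU Pool.Agent.Lib.MP_1e3e9c_agW

private lemma Y1b_le {N : ℕ} {x : WithBot ℕ∞} (h : ¬ (((N + 1 : ℕ) : WithBot ℕ∞) ≤ x)) : x ≤ ((N : ℕ) : WithBot ℕ∞) := by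
  induction x using WithBot.recBotCoe with
  | bot => exact bot_le
  | coe a =>
    have h1 : a < ((N + 1 : ℕ) : ℕ∞) := by
      by_contra hc
      apply h
      have h2 : ((N + 1 : ℕ) : ℕ∞) ≤ a := not_lt.1 hc
      exact WithBot.coe_le_coe.2 h2
    have h3 : a ≤ ((N : ℕ) : ℕ∞) := by
      have h4 : a < ((N : ℕ) : ℕ∞) + 1 := by
        have h5 : ((N + 1 : ℕ) : ℕ∞) = ((N : ℕ) : ℕ∞) + 1 := by norm_num
        rw [← h5]
        exact h1
      exact (ENat.lt_add_one_iff (ENat.natCast_ne_top N)).1 h4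
    exact WithBot.coe_le_coe.2 h3

private lemma Y1b_deg {k : Type} [CommRing k] {n D : ℕ} (w : Fin (n + 1) → ℕ) (u : Ua w D → k) (i : Fin (n + 1)) :
    (pu w D u i).natDegree ≤ w i * D := by
  unfold pu
  refine Polynomial.natDegree_sum_le_of_forall_le _ _ fun l _ => ?_
  refine (Polynomial.natDegree_C_mul_X_pow_le _ _).trans ?_
  exact Nat.lt_succ_iff.1 l.2

private lemma Y1b_coeff {k : Type} [CommRing k] {n D : ℕ} (w : Fin (n + 1) → ℕ) (u : Ua w D → k) (i : Fin (n + 1))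
    (l : Fin (w i * D + 1)) : (pu w D u i).coeff (l : ℕ) = u ⟨i, l⟩ := by
  unfold pu
  rw [Polynomial.finsetSum_coeff, Finset.sum_eq_single l]
  · rw [Polynomial.coeff_C_mul, Polynomial.coeff_X_pow, if_pos rfl, mul_one]
  · intro l' _ hl'
    rw [Polynomial.coeff_C_mul, Polynomial.coeff_X_pow, if_neg (fun h => hl' (Fin.ext h.symm)), mul_zero]
  · intro hl
    exact absurd (Finset.mem_univ l) hl

private lemma Y1b_pu {k : Type} [CommRing k] {n D : ℕ} (w : Fin (n + 1) → ℕ) (p : Fin (n + 1) → Polynomial k)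
    (hp : ∀ i, (p i).natDegree ≤ w i * D) : pu w D (fun q : Ua w D => (p q.1).coeff (q.2 : ℕ)) = p := by
  funext i
  unfold pu
  have h1 := Fin.sum_univ_eq_sum_range (fun l => Polynomial.C ((p i).coeff l) * Polynomial.X ^ l) (w i * D + 1)
  refine Eq.trans h1 ?_
  exact ((p i).as_sum_range_C_mul_X_pow' (Nat.lt_succ_of_le (hp i))).symm

private lemma Y1b_map {k : Type} [Field k] {n D : ℕ} (w : Fin (n + 1) → ℕ) (G : MvPolynomial (Fin (n + 1)) k)
    (u : Ua w D → k) (l : ℕ) :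
    MvPolynomial.aeval u ((MvPolynomial.aeval (R := k)
      (pu w D (fun q => (MvPolynomial.X q : MvPolynomial (Ua w D) k))) G).coeff l) =
      (MvPolynomial.aeval (R := k) (pu w D u) G).coeff l := by
  have h1 := MvPolynomial.comp_aeval_apply (R := k)
    (f := pu w D (fun q => (MvPolynomial.X q : MvPolynomial (Ua w D) k)))
    (Polynomial.mapAlgHom (MvPolynomial.aeval (R := k) u)) G
  have h2 : (fun i => Polynomial.mapAlgHom (MvPolynomial.aeval (R := k) u)
      (pu w D (fun q => (MvPolynomial.X q : MvPolynomial (Ua w D) k)) i)) = pu w D u := by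
    funext i
    rw [Polynomial.coe_mapAlgHom]
    unfold pu
    rw [Polynomial.map_sum]
    refine Finset.sum_congr rfl fun j _ => ?_
    rw [Polynomial.map_mul, Polynomial.map_C, Polynomial.map_pow, Polynomial.map_X]
    congr 2
    exact MvPolynomial.aeval_X u _
  rw [h2] at h1
  rw [← h1, Polynomial.coe_mapAlgHom, Polynomial.coeff_map]
  rfl

private theorem Y1b_compB {k : Type} [Field k] [IsAlgClosed k] {n D m N : ℕ} (w : Fin (n + 1) → ℕ)
    (S : Set (MvPolynomial (Fin (n + 1)) k)) (G : MvPolynomial (Fin (n + 1)) k)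
    (y : Fin (n + 1) → k) (B : Set (Ua w D → k)) (hN : 0 < N)
    (hdim : (N : WithBot ℕ∞) ≤ dm {v | ∃ u ∈ B, v = val (pu w D u) 0})
    (hB : ∀ u ∈ B, NC w S G m D (val (pu w D u) 0) y (pu w D u)) :
    ∃ Q : Ideal (MvPolynomial (Ua w D) k), Q.IsPrime ∧
      (∀ u : Ua w D → k, (∀ F ∈ Q, MvPolynomial.eval u F = 0) →
        NC w S G m D (val (pu w D u) 0) y (pu w D u)) ∧
      (N : WithBot ℕ∞) ≤ dm {v | ∃ u ∈ B, (∀ F ∈ Q, MvPolynomial.eval u F = 0) ∧
        v = val (pu w D u) 0} := by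
  classical
  set Z : Set (Ua w D → k) := {u | NC w S G m D (val (pu w D u) 0) y (pu w D u)} with hZ
  set J : Ideal (MvPolynomial (Ua w D) k) := MvPolynomial.vanishingIdeal k Z with hJ
  have hzero : ∀ u : Ua w D → k, (∀ p ∈ J, MvPolynomial.aeval u p = 0) → u ∈ Z := by
    intro u hu
    refine ⟨Y1b_deg w u, rfl, fun i => ?_, fun t P hP => ?_, ?_⟩
    · have h1 : (MvPolynomial.X ⟨i, Fin.last (w i * D)⟩ - MvPolynomial.C (y i) : MvPolynomial (Ua w D) k) ∈ J := by
        rw [hJ, MvPolynomial.mem_vanishingIdeal_iff]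
        intro u' hu'
        rw [map_sub, MvPolynomial.aeval_X, MvPolynomial.aeval_C]
        have h2 := hu'.lead i
        have h3 := Y1b_coeff w u' i (Fin.last (w i * D))
        rw [Fin.val_last] at h3
        rw [← h3, h2]
        exact sub_self (y i)
      have h2 := hu _ h1
      rw [map_sub, MvPolynomial.aeval_X, MvPolynomial.aeval_C] at h2
      have h3 := Y1b_coeff w u i (Fin.last (w i * D))
      rw [Fin.val_last] at h3
      rw [h3]
      exact sub_eq_zero.1 h2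
    · have h0 : ∀ u' : Ua w D → k, MvPolynomial.aeval u' (MvPolynomial.bind₁ (fun i =>
          ∑ l : Fin (w i * D + 1), MvPolynomial.X (⟨i, l⟩ : Ua w D) * MvPolynomial.C (t ^ (l : ℕ))) P) =
          MvPolynomial.eval (val (pu w D u') t) P := by
        intro u'
        rw [MvPolynomial.aeval_bind₁, ← MvPolynomial.aeval_eq_eval]
        congr 1
        congr 1
        funext i
        unfold val pu
        rw [map_sum, Polynomial.eval_finsetSum]
        refine Finset.sum_congr rfl fun l _ => ?_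
        rw [map_mul, MvPolynomial.aeval_X, MvPolynomial.aeval_C, Polynomial.eval_mul, Polynomial.eval_C,
          Polynomial.eval_pow, Polynomial.eval_X]
        rfl
      have h1 : MvPolynomial.bind₁ (fun i =>
          ∑ l : Fin (w i * D + 1), MvPolynomial.X (⟨i, l⟩ : Ua w D) * MvPolynomial.C (t ^ (l : ℕ))) P ∈ J := by
        rw [hJ, MvPolynomial.mem_vanishingIdeal_iff]
        intro u' hu'
        rw [h0]
        exact hu'.base t P hP
      have h2 := hu _ h1
      rw [h0] at h2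
      exact h2
    · rw [Polynomial.X_pow_dvd_iff]
      intro l hl
      rw [← Y1b_map]
      apply hu
      rw [hJ, MvPolynomial.mem_vanishingIdeal_iff]
      intro u' hu'
      rw [Y1b_map]
      exact Polynomial.X_pow_dvd_iff.1 hu'.con l hl
  have hQ : ∀ Q : Ideal (MvPolynomial (Ua w D) k), J ≤ Q → ∀ u : Ua w D → k,
      (∀ F ∈ Q, MvPolynomial.eval u F = 0) → NC w S G m D (val (pu w D u) 0) y (pu w D u) := by
    intro Q hJQ u hu
    refine hzero u fun p hp => ?_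
    rw [MvPolynomial.aeval_eq_eval]
    exact hu p (hJQ hp)
  have hfin : J.minimalPrimes.Finite := J.finite_minimalPrimes_of_isNoetherianRing
  by_contra hcon
  have hall : ∀ Q ∈ J.minimalPrimes, ¬ ((N : WithBot ℕ∞) ≤ dm {v | ∃ u ∈ B,
      (∀ F ∈ Q, MvPolynomial.eval u F = 0) ∧ v = val (pu w D u) 0}) := by
    intro Q hQm h
    exact hcon ⟨Q, hQm.1.1, hQ Q hQm.1.2, h⟩
  obtain ⟨M, rfl⟩ : ∃ M, N = M + 1 := ⟨N - 1, by omega⟩
  have hft : Finite {Q : Ideal (MvPolynomial (Ua w D) k) // Q ∈ J.minimalPrimes} := hfin.to_subtype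
  have hle : dm {v | ∃ u ∈ B, v = val (pu w D u) 0} ≤ ((M : ℕ) : WithBot ℕ∞) := by
    refine le_trans (dm_mono ?_) (dm_iUnion
      (fun Q : {Q : Ideal (MvPolynomial (Ua w D) k) // Q ∈ J.minimalPrimes} => {v | ∃ u ∈ B,
      (∀ F ∈ Q.1, MvPolynomial.eval u F = 0) ∧ v = val (pu w D u) 0}) M fun Q => Y1b_le (hall Q.1 Q.2))
    rintro v ⟨u, huB, hvu⟩
    have huZ : u ∈ Z := hB u huB
    have hker : J ≤ RingHom.ker (MvPolynomial.aeval (R := k) u).toRingHom := by
      intro q hq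
      rw [RingHom.mem_ker]
      rw [hJ, MvPolynomial.mem_vanishingIdeal_iff] at hq
      exact hq _ huZ
    have hpr : (RingHom.ker (MvPolynomial.aeval (R := k) u).toRingHom).IsPrime := RingHom.ker_isPrime _
    obtain ⟨Q, hQm, hQle⟩ := Ideal.exists_minimalPrimes_le hker
    refine Set.mem_iUnion.2 ⟨⟨Q, hQm⟩, u, huB, fun F hF => ?_, hvu⟩
    have h1 := hQle hF
    rw [RingHom.mem_ker] at h1
    rw [← MvPolynomial.aeval_eq_eval]
    exact h1
  have h1 := hdim.trans hle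
  have h2 : ((M + 1 : ℕ) : ℕ∞) ≤ ((M : ℕ) : ℕ∞) := WithBot.coe_le_coe.1 h1
  have h3 : M + 1 ≤ M := by exact_mod_cast h2
  omega

theorem exists_comp_curves {k : Type} [Field k] [IsAlgClosed k] {n D m N : ℕ} (w : Fin (n + 1) → ℕ)
    (S : Set (MvPolynomial (Fin (n + 1)) k)) (G : MvPolynomial (Fin (n + 1)) k)
    (y : Fin (n + 1) → k) (B : Set (Ua w D → k)) (hN : 0 < N)
    (hdim : (N : WithBot ℕ∞) ≤ dm {v | ∃ u ∈ B, v = val (pu w D u) 0})
    (hB : ∀ u ∈ B, NC w S G m D (val (pu w D u) 0) y (pu w D u)) :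
    ∃ Q : Ideal (MvPolynomial (Ua w D) k), Q.IsPrime ∧
      (∀ u : Ua w D → k, (∀ F ∈ Q, MvPolynomial.eval u F = 0) →
        NC w S G m D (val (pu w D u) 0) y (pu w D u)) ∧
      ∀ Δ ∉ Q, (N : WithBot ℕ∞) ≤ dm {v | ∃ u ∈ B,
        (∀ F ∈ Q, MvPolynomial.eval u F = 0) ∧ MvPolynomial.eval u Δ ≠ 0 ∧
        v = val (pu w D u) 0} := by
  classical
  obtain ⟨T, hT⟩ : ∃ T : Set (Ideal (MvPolynomial (Ua w D) k)), T = {Q | Q.IsPrime ∧
      (∀ u : Ua w D → k, (∀ F ∈ Q, MvPolynomial.eval u F = 0) →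
        NC w S G m D (val (pu w D u) 0) y (pu w D u)) ∧
      (N : WithBot ℕ∞) ≤ dm {v | ∃ u ∈ B, (∀ F ∈ Q, MvPolynomial.eval u F = 0) ∧
        v = val (pu w D u) 0}} := ⟨_, rfl⟩
  have hne : T.Nonempty := by
    obtain ⟨Q, hQ⟩ := Y1b_compB w S G y B hN hdim hB
    exact ⟨Q, by rw [hT]; exact hQ⟩
  obtain ⟨Q, hQT, hmax⟩ := WellFounded.has_min
    (wellFounded_gt : WellFounded ((· > ·) : Ideal (MvPolynomial (Ua w D) k) → Ideal (MvPolynomial (Ua w D) k) → Prop))
    T hne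
  rw [hT] at hQT
  obtain ⟨hQp, hQ1, hQ2⟩ := hQT
  refine ⟨Q, hQp, hQ1, fun Δ hΔ => ?_⟩
  by_contra hcon
  obtain ⟨M, rfl⟩ : ∃ M, N = M + 1 := ⟨N - 1, by omega⟩
  obtain ⟨J, hJ⟩ : ∃ J : Ideal (MvPolynomial (Ua w D) k), J = Q ⊔ Ideal.span {Δ} := ⟨_, rfl⟩
  have hfin : J.minimalPrimes.Finite := J.finite_minimalPrimes_of_isNoetherianRing
  have hft : Finite {Q' : Ideal (MvPolynomial (Ua w D) k) // Q' ∈ J.minimalPrimes} := hfin.to_subtype
  have hQ' : ∀ Q' ∈ J.minimalPrimes, ¬ (((M + 1 : ℕ) : WithBot ℕ∞) ≤ dm {v | ∃ u ∈ B,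
      (∀ F ∈ Q', MvPolynomial.eval u F = 0) ∧ v = val (pu w D u) 0}) := by
    intro Q' hQ'm h
    have hJQ : J ≤ Q' := hQ'm.1.2
    have hQQ : Q ≤ Q' := le_trans (by rw [hJ]; exact le_sup_left) hJQ
    have hΔQ : Δ ∈ Q' := hJQ (by
      rw [hJ]
      exact Ideal.mem_sup_right (Ideal.mem_span_singleton_self Δ))
    have hlt : Q' > Q := lt_of_le_of_ne hQQ (fun h0 => hΔ (by rw [h0]; exact hΔQ))
    refine hmax Q' ?_ hlt
    rw [hT]
    exact ⟨hQ'm.1.1, fun u hu => hQ1 u fun F hF => hu F (hQQ hF), h⟩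
  have hle : dm {v | ∃ u ∈ B, (∀ F ∈ Q, MvPolynomial.eval u F = 0) ∧
      v = val (pu w D u) 0} ≤ ((M : ℕ) : WithBot ℕ∞) := by
    refine le_trans (dm_mono ?_) (dm_iUnion
      (fun o : Option {Q' : Ideal (MvPolynomial (Ua w D) k) // Q' ∈ J.minimalPrimes} =>
        o.elim {v | ∃ u ∈ B, (∀ F ∈ Q, MvPolynomial.eval u F = 0) ∧ MvPolynomial.eval u Δ ≠ 0 ∧
          v = val (pu w D u) 0}
        (fun Q' => {v | ∃ u ∈ B, (∀ F ∈ Q'.1, MvPolynomial.eval u F = 0) ∧
          v = val (pu w D u) 0})) M ?_)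
    · rintro v ⟨u, huB, hu, hvu⟩
      by_cases hΔu : MvPolynomial.eval u Δ = 0
      · have hker : J ≤ RingHom.ker (MvPolynomial.eval u) := by
          rw [hJ]
          refine sup_le (fun F hF => ?_) ?_
          · rw [RingHom.mem_ker]
            exact hu F hF
          · rw [Ideal.span_le, Set.singleton_subset_iff]
            exact hΔu
        have hpr : (RingHom.ker (MvPolynomial.eval u)).IsPrime := RingHom.ker_isPrime _
        obtain ⟨Q', hQ'm, hQle⟩ := Ideal.exists_minimalPrimes_le hker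
        refine Set.mem_iUnion.2 ⟨some ⟨Q', hQ'm⟩, u, huB, fun F hF => ?_, hvu⟩
        have h1 := hQle hF
        rwa [RingHom.mem_ker] at h1
      · exact Set.mem_iUnion.2 ⟨none, u, huB, hu, hΔu, hvu⟩
    · rintro (_ | Q')
      · exact Y1b_le hcon
      · exact Y1b_le (hQ' Q'.1 Q'.2)
  have h1 := hQ2.trans hle
  have h2 : ((M + 1 : ℕ) : ℕ∞) ≤ ((M : ℕ) : ℕ∞) := WithBot.coe_le_coe.1 h1
  have h3 : M + 1 ≤ M := by exact_mod_cast h2
  omega

end Pool.Agent.Lib.MP_1e3e9c_agR
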