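import Mathlib
import Pool.Agent.Lib.MP_1e3e9c_agR.YDefs

/-!
# MP_1e3e9c_ag, project R, leaf Y2: the generic curve (explicit form) of an irreducible family

PROOF. `R = k[U] ⧸ Q`, a domain, `K = FractionRing R`, `f = pu w D (the images of the X ⟨i,l⟩)`. `χ : k[U] → K`: `χ F = 0` if and only if
`F ∈ Q`, and if `F` vanishes at all zeros of `Q` then `F ∈ Q` (Nullstellensatz, `Q` prime:
`MvPolynomial.vanishingIdeal_zeroLocus_eq_radical`). `deg`: `pu`. `lead`: `X ⟨i, w_i D⟩ - C (y i)` vanishes at all zeros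
of `Q` (`lead`). For `P ∈ S` the coefficients of `P(pu X) ∈ k[U][T]` vanish at all zeros `u` of `Q` (`base`, `k` infinite: `P(pu u) = 0`), so
`aeval f P = 0`. For `l < m` the coefficient of `T^l` in `G(pu X)` vanishes at all `u` (`con`), so `X^m ∣ aeval f G`.
`aeval f G ≠ 0`: its coefficient of `T^(g D)` is the image of `G(y) ≠ 0`: `G` is weighted homogeneous, so the coefficient of
`T^(g D)` in `G(f)` is `G` of the coefficients of `T^(w_i D)` of the `f_i` (or: for a zero `u₀` of `Q` (there is one: `1 ∉ Q`, or `Δ`), and `hv_eval` of B5 at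
`(0, 1)`: the coefficient `gD` of `G(pu u₀)` is `G(y) ≠ 0`, so this coefficient, as an element of `k[U]`, is not in `Q`).
The independent coordinates: let `z i = (f i).coeff 0 = χ (X ⟨i, 0⟩)`, `I` = the kernel of `aeval z : k[x] → K`. `F ∈ I` if and only if `F`
vanishes at all `val (pu u) 0`, `u` a zero of `Q` (Nullstellensatz), so `I ≤` the vanishing ideal of the given set `B'`, and
`N ≤ dm B' ≤ dim k[x] ⧸ I` (`ringKrullDim_le_of_surjective`). `k[x] ⧸ I ≅ k[z_i]` is a domain of finite type over `k`, so its transcendence degree is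
`≥ N`, and a transcendence basis can be chosen among the `z i`: model: `indep_of_dim`, `E7c_dim` (`MP_1e3e9c_agW/E7c.lean`).
The last statement: `F ∉ I` by the description of `I`.
-/

set_option autoImplicit false

namespace Pool.Agent.Lib.MP_1e3e9c_agR

open Pool.Agent.Lib.MP_1e3e9c_agU Pool.Agent.Lib.MP_1e3e9c_agW

private theorem Y2_int {R S : Type} [CommRing R] [CommRing S] (g : R →+* S)
    (hg : g.IsIntegral) : ringKrullDim S ≤ ringKrullDim R := by
  let := g.toAlgebra
  refine Order.krullDim_le_of_strictMono (PrimeSpectrum.comap g) ?_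
  intro p q hpq
  have hle : p.asIdeal ≤ q.asIdeal := hpq.le
  obtain ⟨x, hxq, hxp⟩ : ∃ x ∈ q.asIdeal, x ∉ p.asIdeal := SetLike.exists_of_lt hpq
  exact Ideal.comap_lt_comap_of_integral_mem_sdiff hle ⟨hxq, hxp⟩ (hg x)

private theorem Y2_dim {k B : Type} [Field k] [CommRing B] [Nontrivial B] [Algebra k B]
    [Algebra.FiniteType k B] {N : ℕ} (h : Algebra.trdeg k B ≤ (N : Cardinal)) :
    ringKrullDim B ≤ ((N : ℕ) : WithBot ℕ∞) := by
  obtain ⟨s, g, hi, hint⟩ := exists_integral_inj_algHom_of_fg k B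
  have h1 : ringKrullDim B ≤ ringKrullDim (MvPolynomial (Fin s) k) := Y2_int g.toRingHom hint
  rw [MvPolynomial.ringKrullDim_of_isNoetherianRing, ringKrullDim_eq_zero_of_field, zero_add,
    Nat.card_fin] at h1
  have h2 : (s : Cardinal) ≤ Algebra.trdeg k B := by
    have h3 : AlgebraicIndependent k (fun i => g (MvPolynomial.X i)) := by
      have h4 : MvPolynomial.aeval (fun i => g (MvPolynomial.X i)) = g := by
        apply MvPolynomial.algHom_ext
        intro i
        simp
      rw [algebraicIndependent_iff_injective_aeval, h4]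
      exact hi
    have h5 := h3.cardinalMk_le_trdeg
    rwa [Cardinal.mk_fin] at h5
  have h4 : s ≤ N := by exact_mod_cast h2.trans h
  exact h1.trans (by exact_mod_cast h4)

/-- independent coordinates -/
private theorem Y2_indep {k K : Type} [Field k] [Field K] [Algebra k K] {n N : ℕ} (z : Fin (n + 1) → K)
    (h : ((N : ℕ) : WithBot ℕ∞) ≤ ringKrullDim (MvPolynomial (Fin (n + 1)) k ⧸
      RingHom.ker (MvPolynomial.aeval z : MvPolynomial (Fin (n + 1)) k →ₐ[k] K))) :
    ∃ i : Fin N → Fin (n + 1), AlgebraicIndependent k fun j => z (i j) := by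
  let A : Subalgebra k K := Algebra.adjoin k (Set.range z)
  have hzA : ∀ i, z i ∈ A := fun i => Algebra.subset_adjoin ⟨i, rfl⟩
  let z' : Fin (n + 1) → A := fun i => ⟨z i, hzA i⟩
  let s : Set A := ((↑) : A → K) ⁻¹' (Set.range z)
  have hs : Algebra.adjoin k s = ⊤ := Algebra.adjoin_adjoin_coe_preimage
  have halg : Algebra.IsAlgebraic (Algebra.adjoin k s) A := by
    refine ⟨fun x => ?_⟩
    have hx : x ∈ Algebra.adjoin k s := by
      rw [hs]
      exact Algebra.mem_top
    exact isAlgebraic_algebraMap (A := A) (⟨x, hx⟩ : Algebra.adjoin k s)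
  obtain ⟨t, hts, ht⟩ := exists_isTranscendenceBasis_subset (R := k) s
  have hsf : s.Finite := (Set.finite_range z).preimage Subtype.val_injective.injOn
  have htf : t.Finite := hsf.subset hts
  have hcard : (t.ncard : Cardinal) = Algebra.trdeg k A := by
    rw [← ht.cardinalMk_eq_trdeg, Set.cast_ncard htf]
  let f : MvPolynomial (Fin (n + 1)) k →ₐ[k] A := MvPolynomial.aeval z'
  have hf : A.val.comp f = MvPolynomial.aeval z := by
    apply MvPolynomial.algHom_ext
    intro i
    show A.val (f (MvPolynomial.X i)) = MvPolynomial.aeval z (MvPolynomial.X i)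
    rw [MvPolynomial.aeval_X, MvPolynomial.aeval_X]
    rfl
  have hker : RingHom.ker (MvPolynomial.aeval z : MvPolynomial (Fin (n + 1)) k →ₐ[k] K) = RingHom.ker f := by
    ext P
    rw [RingHom.mem_ker, RingHom.mem_ker, ← hf, AlgHom.comp_apply]
    exact map_eq_zero_iff A.val Subtype.val_injective
  rw [hker] at h
  have hnt : Nontrivial (MvPolynomial (Fin (n + 1)) k ⧸ RingHom.ker f) :=
    Ideal.Quotient.nontrivial_iff.2 (RingHom.ker_ne_top _)
  have h5 := h.trans (Y2_dim (N := t.ncard)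
    ((_root_.trdeg_le_of_injective (Ideal.kerLiftAlg f) (Ideal.kerLiftAlg_injective f)).trans hcard.ge))
  have h7 : N ≤ t.ncard := by exact_mod_cast h5
  have htf' : Finite t := htf
  have h8 : N ≤ Nat.card t := h7
  obtain ⟨e⟩ : Nonempty (Fin N ↪ t) := by
    have := Fintype.ofFinite t
    rw [Nat.card_eq_fintype_card] at h8
    refine Function.Embedding.nonempty_of_card_le ?_
    rwa [Fintype.card_fin]
  have h9 : ∀ j : Fin N, ∃ i : Fin (n + 1), z i = ((e j : A) : K) := fun j => hts (e j).2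
  choose i hi using h9
  refine ⟨i, ?_⟩
  have h10 : AlgebraicIndependent k (fun j : Fin N => ((e j : t) : A)) := ht.1.comp e e.injective
  have h11 : AlgebraicIndependent k (fun j : Fin N => A.val ((e j : t) : A)) :=
    h10.map' (f := A.val) Subtype.val_injective
  have e3 : (fun j => z (i j)) = fun j : Fin N => A.val ((e j : t) : A) := funext fun j => hi j
  rw [e3]
  exact h11

private theorem Y2_pu_map {R R' : Type} [CommRing R] [CommRing R'] {n D : ℕ} {w : Fin (n + 1) → ℕ}
    (φ : R →+* R') (u : Ua w D → R) (i : Fin (n + 1)) :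
    (pu w D u i).map φ = pu w D (fun x => φ (u x)) i := by
  unfold pu
  rw [Polynomial.map_sum]
  refine Finset.sum_congr rfl fun l _ => ?_
  rw [Polynomial.map_mul, Polynomial.map_C, Polynomial.map_pow, Polynomial.map_X]

private theorem Y2_pu_coeff {R : Type} [CommRing R] {n D : ℕ} {w : Fin (n + 1) → ℕ}
    (u : Ua w D → R) (i : Fin (n + 1)) (l : Fin (w i * D + 1)) :
    (pu w D u i).coeff l = u ⟨i, l⟩ := by
  unfold pu
  rw [Polynomial.finsetSum_coeff, Finset.sum_eq_single l]
  · rw [Polynomial.coeff_C_mul_X_pow, if_pos rfl]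
  · intro l' _ hl'
    rw [Polynomial.coeff_C_mul_X_pow, if_neg fun h => hl' (Fin.ext h.symm)]
  · exact fun h => absurd (Finset.mem_univ _) h

private theorem Y2_pu_deg {R : Type} [CommRing R] {n D : ℕ} {w : Fin (n + 1) → ℕ}
    (u : Ua w D → R) (i : Fin (n + 1)) : (pu w D u i).natDegree ≤ w i * D := by
  unfold pu
  refine Polynomial.natDegree_sum_le_of_forall_le _ _ fun l _ => ?_
  refine (Polynomial.natDegree_C_mul_X_pow_le _ _).trans ?_
  have := l.2
  omega

/-- the polynomials `P(f)` for the tuple `f` with indeterminate coefficients, specialised -/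
private theorem Y2_spec {k R : Type} [Field k] [CommRing R] [Algebra k R] {n D : ℕ} {w : Fin (n + 1) → ℕ}
    (φ : MvPolynomial (Ua w D) k →ₐ[k] R) (P : MvPolynomial (Fin (n + 1)) k) (l : ℕ) :
    (MvPolynomial.aeval (pu w D fun x => φ (MvPolynomial.X x)) P : Polynomial R).coeff l =
      φ ((MvPolynomial.aeval (pu w D fun x => (MvPolynomial.X x : MvPolynomial (Ua w D) k)) P :
        Polynomial (MvPolynomial (Ua w D) k)).coeff l) := by
  have h1 : (Polynomial.mapAlgHom φ).comp
      (MvPolynomial.aeval (pu w D fun x => (MvPolynomial.X x : MvPolynomial (Ua w D) k))) =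
      (MvPolynomial.aeval (pu w D fun x => φ (MvPolynomial.X x)) :
        MvPolynomial (Fin (n + 1)) k →ₐ[k] Polynomial R) := by
    rw [MvPolynomial.comp_aeval]
    congr 1
    funext i
    rw [Polynomial.coe_mapAlgHom]
    exact Y2_pu_map (φ : MvPolynomial (Ua w D) k →+* R) _ i
  rw [← h1, AlgHom.comp_apply, Polynomial.coe_mapAlgHom, Polynomial.coeff_map]
  rfl

private theorem Y2_eval_val {k : Type} [Field k] {n : ℕ} (p : Fin (n + 1) → Polynomial k) (t : k)
    (F : MvPolynomial (Fin (n + 1)) k) :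
    MvPolynomial.eval (val p t) F = (MvPolynomial.aeval p F).eval t := by
  induction F using MvPolynomial.induction_on with
  | C a => simp
  | add f g hf hg => rw [map_add, map_add, Polynomial.eval_add, hf, hg]
  | mul_X f i hf =>
    rw [map_mul, map_mul, Polynomial.eval_mul, hf, MvPolynomial.eval_X, MvPolynomial.aeval_X]
    rfl

private theorem Y2_prod {K : Type} [Field K] {n D : ℕ} {w : Fin (n + 1) → ℕ} {f : Fin (n + 1) → Polynomial K}
    (hf : ∀ i, (f i).natDegree ≤ w i * D) (α : Fin (n + 1) → ℕ) (s : Finset (Fin (n + 1))) :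
    (∏ i ∈ s, f i ^ α i).natDegree ≤ ∑ i ∈ s, α i * (w i * D) ∧
    (∏ i ∈ s, f i ^ α i).coeff (∑ i ∈ s, α i * (w i * D)) = ∏ i ∈ s, (f i).coeff (w i * D) ^ α i := by
  classical
  induction s using Finset.induction_on with
  | empty => simp
  | insert a s ha ih =>
    obtain ⟨ih1, ih2⟩ := ih
    have h1 : (f a ^ α a).natDegree ≤ α a * (w a * D) :=
      Polynomial.natDegree_pow_le.trans (Nat.mul_le_mul_left _ (hf a))
    rw [Finset.prod_insert ha, Finset.sum_insert ha, Finset.prod_insert ha]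
    refine ⟨Polynomial.natDegree_mul_le.trans (Nat.add_le_add h1 ih1), ?_⟩
    rw [Polynomial.coeff_mul_add_eq_of_natDegree_le h1 ih1, ih2, Polynomial.coeff_pow_of_natDegree_le (hf a)]

private theorem Y2_lead {k K : Type} [Field k] [Field K] [Algebra k K] {n D g : ℕ} {w : Fin (n + 1) → ℕ}
    {G : MvPolynomial (Fin (n + 1)) k} (hG : G.IsWeightedHomogeneous w g) {f : Fin (n + 1) → Polynomial K}
    (hf : ∀ i, (f i).natDegree ≤ w i * D) :
    (MvPolynomial.aeval f G).coeff (g * D) = MvPolynomial.aeval (fun i => (f i).coeff (w i * D)) G := by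
  rw [MvPolynomial.aeval_def, MvPolynomial.aeval_def, MvPolynomial.eval₂_eq', MvPolynomial.eval₂_eq',
    Polynomial.finsetSum_coeff]
  refine Finset.sum_congr rfl fun α hα => ?_
  rw [MvPolynomial.mem_support_iff] at hα
  have h1 : ∑ i, α i * (w i * D) = g * D := by
    have h2 := hG hα
    rw [Finsupp.weight_apply, Finsupp.sum_fintype _ _ (fun i => by rw [zero_smul])] at h2
    rw [← h2, Finset.sum_mul]
    refine Finset.sum_congr rfl fun i _ => ?_
    rw [smul_eq_mul, mul_assoc]
  rw [Polynomial.algebraMap_apply, Polynomial.coeff_C_mul, ← h1]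
  congr 1
  exact (Y2_prod hf α Finset.univ).2

private theorem Y2_main {k K : Type} [Field k] [IsAlgClosed k] [Field K] [Algebra k K] {n D g m N : ℕ}
    {w : Fin (n + 1) → ℕ}
    {S : Set (MvPolynomial (Fin (n + 1)) k)} {G : MvPolynomial (Fin (n + 1)) k}
    (hG : G.IsWeightedHomogeneous w g) {y : Fin (n + 1) → k} (hy : MvPolynomial.eval y G ≠ 0)
    (Q : Ideal (MvPolynomial (Ua w D) k)) (hQ : Q.IsPrime)
    (hQ' : ∀ u : Ua w D → k, (∀ F ∈ Q, MvPolynomial.eval u F = 0) →
      NC w S G m D (val (pu w D u) 0) y (pu w D u))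
    (B' : Set (Fin (n + 1) → k)) (hB' : ∀ v ∈ B', ∃ u : Ua w D → k,
      (∀ F ∈ Q, MvPolynomial.eval u F = 0) ∧ v = val (pu w D u) 0)
    (hdim : (N : WithBot ℕ∞) ≤ dm B') (χ : MvPolynomial (Ua w D) k →ₐ[k] K) (hχ : ∀ F, χ F = 0 ↔ F ∈ Q) :
    ∃ (f : Fin (n + 1) → Polynomial K), (f = pu w D fun x => χ (MvPolynomial.X x)) ∧
      (∀ i, (f i).natDegree ≤ w i * D) ∧
      (∀ i, (f i).coeff (w i * D) = algebraMap k K (y i)) ∧
      (∀ P ∈ S, MvPolynomial.aeval f P = 0) ∧ Polynomial.X ^ m ∣ MvPolynomial.aeval f G ∧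
      MvPolynomial.aeval f G ≠ 0 ∧
      (∃ i : Fin N → Fin (n + 1), AlgebraicIndependent k fun j => (f (i j)).coeff 0) ∧
      ∀ v ∈ B', ∀ Δ : MvPolynomial (Fin (n + 1)) k, MvPolynomial.eval v Δ ≠ 0 →
        MvPolynomial.aeval (fun i => (f i).coeff 0) Δ ≠ 0 := by
  have hnull : ∀ F : MvPolynomial (Ua w D) k, (∀ u : Ua w D → k, (∀ F' ∈ Q, MvPolynomial.eval u F' = 0) →
      MvPolynomial.eval u F = 0) → χ F = 0 := by
    intro F hF
    rw [hχ]
    have h1 : F ∈ MvPolynomial.vanishingIdeal k (MvPolynomial.zeroLocus k Q) := by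
      rw [MvPolynomial.mem_vanishingIdeal_iff]
      intro u hu
      rw [MvPolynomial.mem_zeroLocus_iff] at hu
      have h2 := hF u (fun F' hF' => by
        have h3 := hu F' hF'
        rwa [MvPolynomial.aeval_eq_eval] at h3)
      rwa [MvPolynomial.aeval_eq_eval]
    rw [MvPolynomial.vanishingIdeal_zeroLocus_eq_radical, hQ.radical] at h1
    exact h1
  have hu_eq : ∀ u : Ua w D → k, (fun x => (MvPolynomial.aeval u : MvPolynomial (Ua w D) k →ₐ[k] k)
      (MvPolynomial.X x)) = u := fun u => funext fun x => MvPolynomial.aeval_X _ _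
  -- the coefficients of `P(f)`
  have hcoef : ∀ (P : MvPolynomial (Fin (n + 1)) k) (l : ℕ), (∀ u : Ua w D → k, (∀ F' ∈ Q, MvPolynomial.eval u F' = 0) →
      (MvPolynomial.aeval (pu w D u) P : Polynomial k).coeff l = 0) →
      (MvPolynomial.aeval (pu w D fun x => χ (MvPolynomial.X x)) P : Polynomial K).coeff l = 0 := by
    intro P l h
    rw [Y2_spec]
    refine hnull _ fun u hu => ?_
    have h1 := h u hu
    have h2 := Y2_spec (MvPolynomial.aeval u : MvPolynomial (Ua w D) k →ₐ[k] k) P l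
    rw [hu_eq, h1, MvPolynomial.aeval_eq_eval] at h2
    exact h2.symm
  obtain ⟨f, hf⟩ : ∃ f : Fin (n + 1) → Polynomial K, f = pu w D fun x => χ (MvPolynomial.X x) := ⟨_, rfl⟩
  rw [← hf] at hcoef
  have hdeg : ∀ i, (f i).natDegree ≤ w i * D := by
    intro i
    rw [hf]
    exact Y2_pu_deg _ i
  have hlead : ∀ i, (f i).coeff (w i * D) = algebraMap k K (y i) := by
    intro i
    have h1 : (f i).coeff ((Fin.last (w i * D) : Fin (w i * D + 1)) : ℕ) = χ (MvPolynomial.X ⟨i, Fin.last _⟩) := by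
      rw [hf]
      exact Y2_pu_coeff _ i _
    rw [Fin.val_last] at h1
    rw [h1]
    have h2 : χ (MvPolynomial.X ⟨i, Fin.last _⟩ - MvPolynomial.C (y i)) = 0 := by
      refine hnull _ fun u hu => ?_
      have h3 := (hQ' u hu).lead i
      have h4 := Y2_pu_coeff u i (Fin.last (w i * D))
      rw [Fin.val_last, h3] at h4
      rw [map_sub, MvPolynomial.eval_X, MvPolynomial.eval_C, h4, sub_self]
    rw [map_sub, sub_eq_zero] at h2
    rw [h2, ← MvPolynomial.algebraMap_eq, AlgHom.commutes]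
  have hc0 : ∀ i, (f i).coeff 0 = χ (MvPolynomial.X ⟨i, 0⟩) := by
    intro i
    rw [hf]
    exact Y2_pu_coeff (w := w) (D := D) (fun x => χ (MvPolynomial.X x)) i 0
  -- the functions of the constant coefficients
  have hI : ∀ v ∈ B', ∀ Δ : MvPolynomial (Fin (n + 1)) k, MvPolynomial.aeval (fun i => (f i).coeff 0) Δ = 0 →
      MvPolynomial.eval v Δ = 0 := by
    intro v hv Δ hΔ
    obtain ⟨u, hu, hvu⟩ := hB' v hv
    have h1 : (fun i => (f i).coeff 0) = fun i => χ (MvPolynomial.X ⟨i, 0⟩) := funext hc0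
    rw [h1] at hΔ
    have h2 : MvPolynomial.aeval (fun i => χ (MvPolynomial.X (⟨i, 0⟩ : Ua w D))) Δ =
        χ (MvPolynomial.aeval (fun i => (MvPolynomial.X (⟨i, 0⟩ : Ua w D) : MvPolynomial (Ua w D) k)) Δ) := by
      rw [← AlgHom.comp_apply, MvPolynomial.comp_aeval]
    rw [h2, hχ] at hΔ
    have h3 := hu _ hΔ
    rw [← MvPolynomial.aeval_eq_eval, ← AlgHom.comp_apply, MvPolynomial.comp_aeval] at h3
    have h4 : (fun i => MvPolynomial.aeval u (MvPolynomial.X (⟨i, 0⟩ : Ua w D) : MvPolynomial (Ua w D) k)) = v := by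
      funext i
      rw [MvPolynomial.aeval_X, hvu]
      unfold val
      rw [← Polynomial.coeff_zero_eq_eval_zero]
      exact (Y2_pu_coeff u i 0).symm
    rw [h4, MvPolynomial.aeval_eq_eval] at h3
    exact h3
  refine ⟨f, hf, hdeg, hlead, ?_, ?_, ?_, ?_, fun v hv Δ hΔ h0 => hΔ (hI v hv Δ h0)⟩
  · intro P hP
    refine Polynomial.ext fun l => ?_
    rw [Polynomial.coeff_zero]
    refine hcoef P l fun u hu => ?_
    have h1 : (MvPolynomial.aeval (pu w D u) P : Polynomial k) = 0 := by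
      refine Polynomial.funext fun t => ?_
      rw [← Y2_eval_val, (hQ' u hu).base t P hP, Polynomial.eval_zero]
    rw [h1, Polynomial.coeff_zero]
  · rw [Polynomial.X_pow_dvd_iff]
    intro l hl
    refine hcoef G l fun u hu => ?_
    exact Polynomial.X_pow_dvd_iff.1 (hQ' u hu).con l hl
  · intro h0
    have h1 := Y2_lead hG hdeg
    rw [h0, Polynomial.coeff_zero, show (fun i => (f i).coeff (w i * D)) = fun i => algebraMap k K (y i) from
      funext hlead] at h1
    have h2 : MvPolynomial.aeval (fun i => algebraMap k K (y i)) G = algebraMap k K (MvPolynomial.eval y G) := by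
      rw [← MvPolynomial.aeval_eq_eval]
      exact (MvPolynomial.aeval_algebraMap_apply K y G)
    rw [h2] at h1
    exact hy ((map_eq_zero (algebraMap k K)).1 h1.symm)
  · refine Y2_indep (fun i => (f i).coeff 0) (hdim.trans ?_)
    have hle : RingHom.ker (MvPolynomial.aeval (fun i => (f i).coeff 0) :
        MvPolynomial (Fin (n + 1)) k →ₐ[k] K) ≤ MvPolynomial.vanishingIdeal k B' := by
      intro Δ hΔ
      rw [MvPolynomial.mem_vanishingIdeal_iff]
      intro v hv
      rw [MvPolynomial.aeval_eq_eval]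
      exact hI v hv Δ hΔ
    exact ringKrullDim_le_of_surjective (Ideal.Quotient.factor hle) (Ideal.Quotient.factor_surjective hle)

theorem gq_eq_zero {k σ : Type} [Field k] (Q : Ideal (MvPolynomial σ k)) [Q.IsPrime]
    (F : MvPolynomial σ k) : gq Q F = 0 ↔ F ∈ Q := by
  unfold gq
  rw [AlgHom.comp_apply, IsScalarTower.coe_toAlgHom', Ideal.Quotient.mkₐ_eq_mk,
    map_eq_zero_iff _ (IsFractionRing.injective (MvPolynomial σ k ⧸ Q)
      (FractionRing (MvPolynomial σ k ⧸ Q))), Ideal.Quotient.eq_zero_iff_mem]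

theorem exists_generic' {k : Type} [Field k] [IsAlgClosed k] {n D g m N : ℕ} {w : Fin (n + 1) → ℕ}
    {S : Set (MvPolynomial (Fin (n + 1)) k)} {G : MvPolynomial (Fin (n + 1)) k}
    (hG : G.IsWeightedHomogeneous w g) {y : Fin (n + 1) → k} (hy : MvPolynomial.eval y G ≠ 0)
    (Q : Ideal (MvPolynomial (Ua w D) k)) [hQ : Q.IsPrime]
    (hQ' : ∀ u : Ua w D → k, (∀ F ∈ Q, MvPolynomial.eval u F = 0) →
      NC w S G m D (val (pu w D u) 0) y (pu w D u))
    (B' : Set (Fin (n + 1) → k)) (hB' : ∀ v ∈ B', ∃ u : Ua w D → k,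
      (∀ F ∈ Q, MvPolynomial.eval u F = 0) ∧ v = val (pu w D u) 0)
    (hdim : (N : WithBot ℕ∞) ≤ dm B') :
    (∀ i, (gcrv w Q i).natDegree ≤ w i * D) ∧
      (∀ i, (gcrv w Q i).coeff (w i * D) = algebraMap k _ (y i)) ∧
      (∀ P ∈ S, MvPolynomial.aeval (gcrv w Q) P = 0) ∧
      Polynomial.X ^ m ∣ MvPolynomial.aeval (gcrv w Q) G ∧
      MvPolynomial.aeval (gcrv w Q) G ≠ 0 ∧
      (∃ i : Fin N → Fin (n + 1), AlgebraicIndependent k fun j => (gcrv w Q (i j)).coeff 0) ∧
      ∀ v ∈ B', ∀ Δ : MvPolynomial (Fin (n + 1)) k, MvPolynomial.eval v Δ ≠ 0 →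
        MvPolynomial.aeval (fun i => (gcrv w Q i).coeff 0) Δ ≠ 0 := by
  obtain ⟨f, hf, h⟩ := Y2_main (K := FractionRing (MvPolynomial (Ua w D) k ⧸ Q)) hG hy Q hQ hQ' B' hB' hdim
    (gq Q) (gq_eq_zero Q)
  rw [hf] at h
  exact h

end Pool.Agent.Lib.MP_1e3e9c_agR
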