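import Mathlib
import Pool.Agent.Lib.MP_1e3e9c_agR.YDefs

/-!
# MP_1e3e9c_ag, project R, leaf Y3: tangent tuples along the special curves

PROOF. (Model: X7.lean, whose private lemmas for `aeval`, `Tg` and `mi` under a homomorphism can be copied.) Let `R = MvPolynomial (Ua w D) k ⧸ Q`, `K` its field of
fractions. There is `h ≠ 0` in `R` such that all the coefficients of the `h s j i` are in `R` (`IsLocalization.exist_integer_multiples_of_finset`
or `IsLocalization.exist_integer_multiples` for the finitely many coefficients `(s j i).coeff l`, `l < w i * D`). So there are polynomials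
`c j i l ∈ MvPolynomial (Ua w D) k` with `gq Q (c j i l) = h * (s j i).coeff l`; let `T j i = ∑_l C (c j i l) X^l`, a polynomial over `MvPolynomial (Ua w D) k`, and
`F = pu w D X` (the generic curve over `MvPolynomial (Ua w D) k`), so that the images under `gq Q` are `gcrv w Q` and `h • s j`. Then `mi (h • s) I = h^(N+1) mi s I`: it is divisible by
`X^q`, and not zero for one `I₀`; let `Δ` be the coefficient number `l₀` of `mi T I₀`, with `gq Q Δ ≠ 0`, so `Δ ∉ Q` (the kernel of `gq Q` is `Q`). For a zero `u` of `Q`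
with `Δ(u) ≠ 0` let `s' j i` be the image of `T j i` under the evaluation at `u`. The coefficients of `∑ i, aeval F (pderiv i P) * T j i` and the coefficients of `X^l`, `l < q`, of `mi T I` are in the
kernel of `gq Q`, i.e. in `Q`, so they vanish at `u`. The image of `F` is `pu w D u`.
-/

set_option autoImplicit false

namespace Pool.Agent.Lib.MP_1e3e9c_agR

open Pool.Agent.Lib.MP_1e3e9c_agU Pool.Agent.Lib.MP_1e3e9c_agW

/-- The tuples with the coefficients `z`. -/
private noncomputable def Y3T {A : Type} [CommRing A] {n D N : ℕ} {w : Fin (n + 1) → ℕ}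
    (z : Fin (N + 1) × (Σ i : Fin (n + 1), Fin (w i * D)) → A) (j : Fin (N + 1)) (i : Fin (n + 1)) :
    Polynomial A :=
  ∑ l : Fin (w i * D), Polynomial.C (z (j, ⟨i, l⟩)) * Polynomial.X ^ (l : ℕ)

section

variable {k A B : Type} [Field k] [CommRing A] [Algebra k A] [CommRing B] [Algebra k B] {n D N : ℕ}
  {w : Fin (n + 1) → ℕ}

private theorem Y3F_map (χ : A →ₐ[k] B) (z : Ua w D → A) (i : Fin (n + 1)) :
    Polynomial.mapAlgHom χ (pu w D z i) = pu w D (fun a => χ (z a)) i := by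
  rw [Polynomial.coe_mapAlgHom, pu, pu, Polynomial.map_sum]
  refine Finset.sum_congr rfl fun l _ => ?_
  rw [Polynomial.map_mul, Polynomial.map_C, Polynomial.map_pow, Polynomial.map_X]
  rfl

private theorem Y3T_map (χ : A →ₐ[k] B) (z : Fin (N + 1) × (Σ i : Fin (n + 1), Fin (w i * D)) → A)
    (j : Fin (N + 1)) (i : Fin (n + 1)) :
    Polynomial.mapAlgHom χ (Y3T z j i) = Y3T (fun a => χ (z a)) j i := by
  rw [Polynomial.coe_mapAlgHom, Y3T, Y3T, Polynomial.map_sum]
  refine Finset.sum_congr rfl fun l _ => ?_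
  rw [Polynomial.map_mul, Polynomial.map_C, Polynomial.map_pow, Polynomial.map_X]
  rfl

private theorem Y3_tan (χ : A →ₐ[k] B) (x : Ua w D → A)
    (z : Fin (N + 1) × (Σ i : Fin (n + 1), Fin (w i * D)) → A) (P : MvPolynomial (Fin (n + 1)) k)
    (j : Fin (N + 1)) (l : ℕ) :
    χ ((∑ i, MvPolynomial.aeval (pu w D x) (MvPolynomial.pderiv i P) * Y3T z j i).coeff l) =
      (∑ i, MvPolynomial.aeval (pu w D fun a => χ (x a)) (MvPolynomial.pderiv i P) *
        Y3T (fun a => χ (z a)) j i).coeff l := by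
  have h1 : Polynomial.mapAlgHom χ (∑ i, MvPolynomial.aeval (pu w D x) (MvPolynomial.pderiv i P) * Y3T z j i) =
      ∑ i, MvPolynomial.aeval (pu w D fun a => χ (x a)) (MvPolynomial.pderiv i P) *
        Y3T (fun a => χ (z a)) j i := by
    rw [map_sum]
    refine Finset.sum_congr rfl fun i _ => ?_
    rw [map_mul, Y3T_map, MvPolynomial.comp_aeval_apply]
    exact congrArg (fun g => MvPolynomial.aeval g (MvPolynomial.pderiv i P) *
      Y3T (fun a => χ (z a)) j i) (funext fun i => Y3F_map χ x i)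
  rw [← h1, Polynomial.coe_mapAlgHom, Polynomial.coeff_map]
  rfl

private theorem Y3_mi (χ : A →ₐ[k] B) (z : Fin (N + 1) × (Σ i : Fin (n + 1), Fin (w i * D)) → A)
    (I : Fin (N + 1) → Fin (n + 1)) (l : ℕ) :
    χ ((mi (Y3T z) I).coeff l) = (mi (Y3T fun a => χ (z a)) I).coeff l := by
  have h1 : Polynomial.mapAlgHom χ (mi (Y3T z) I) = mi (Y3T fun a => χ (z a)) I := by
    unfold mi
    rw [AlgHom.map_det]
    refine congrArg Matrix.det (Matrix.ext fun a b => ?_)
    exact Y3T_map χ z b (I a)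
  rw [← h1, Polynomial.coe_mapAlgHom, Polynomial.coeff_map]
  rfl

private theorem Y3T_deg (z : Fin (N + 1) × (Σ i : Fin (n + 1), Fin (w i * D)) → A) (j : Fin (N + 1))
    (i : Fin (n + 1)) (h : 0 < w i * D) : (Y3T z j i).natDegree < w i * D := by
  have h1 : (Y3T z j i).natDegree ≤ w i * D - 1 := by
    unfold Y3T
    refine Polynomial.natDegree_sum_le_of_forall_le _ _ fun l _ => ?_
    refine (Polynomial.natDegree_C_mul_X_pow_le _ _).trans ?_
    have := l.2
    omega
  omega

end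

private theorem Y3_sum {A : Type} [CommRing A] (f : Polynomial A) (m : ℕ) (h : f.natDegree < m) :
    ∑ l : Fin m, Polynomial.C (f.coeff l) * Polynomial.X ^ (l : ℕ) = f := by
  rw [← Finset.sum_range fun l => Polynomial.C (f.coeff l) * Polynomial.X ^ l]
  exact (Polynomial.as_sum_range_C_mul_X_pow' f h).symm

private theorem Y3_smul {A : Type} [CommRing A] {n N : ℕ} (a : A)
    (s : Fin (N + 1) → Fin (n + 1) → Polynomial A) (I : Fin (N + 1) → Fin (n + 1)) :
    mi (fun j i => Polynomial.C a * s j i) I = Polynomial.C (a ^ (N + 1)) * mi s I := by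
  have h1 : (Matrix.of fun x y => Polynomial.C a * s y (I x)) =
      Polynomial.C a • (Matrix.of fun x y => s y (I x)) := by
    ext1 x y
    rfl
  unfold mi
  rw [h1, Matrix.det_smul, Fintype.card_fin, Polynomial.C_pow]

private theorem Y3_ker {k σ : Type} [Field k] (Q : Ideal (MvPolynomial σ k)) [Q.IsPrime]
    (P : MvPolynomial σ k) : gq Q P = 0 ↔ P ∈ Q := by
  have h1 : gq Q P = algebraMap (MvPolynomial σ k ⧸ Q) (FractionRing (MvPolynomial σ k ⧸ Q))
      (Ideal.Quotient.mk Q P) := rfl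
  rw [h1, ← Ideal.Quotient.eq_zero_iff_mem]
  exact map_eq_zero_iff _ (IsFractionRing.injective (MvPolynomial σ k ⧸ Q)
    (FractionRing (MvPolynomial σ k ⧸ Q)))

private theorem Y3_clear {k σ ι : Type} [Field k] [Finite ι] (Q : Ideal (MvPolynomial σ k)) [Q.IsPrime]
    (x : ι → FractionRing (MvPolynomial σ k ⧸ Q)) :
    ∃ (h : MvPolynomial σ k) (c : ι → MvPolynomial σ k), gq Q h ≠ 0 ∧ ∀ i, gq Q (c i) = gq Q h * x i := by
  obtain ⟨b, hb⟩ := IsLocalization.exist_integer_multiples_of_finite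
    (nonZeroDivisors (MvPolynomial σ k ⧸ Q)) x
  obtain ⟨h, hh⟩ := Ideal.Quotient.mk_surjective (b : MvPolynomial σ k ⧸ Q)
  have h1 : ∀ i, ∃ c : MvPolynomial σ k, gq Q c = gq Q h * x i := by
    intro i
    obtain ⟨r, hr⟩ := hb i
    obtain ⟨c, hc⟩ := Ideal.Quotient.mk_surjective r
    refine ⟨c, ?_⟩
    have h2 : gq Q c = algebraMap (MvPolynomial σ k ⧸ Q) (FractionRing (MvPolynomial σ k ⧸ Q))
      (Ideal.Quotient.mk Q c) := rfl
    have h3 : gq Q h = algebraMap (MvPolynomial σ k ⧸ Q) (FractionRing (MvPolynomial σ k ⧸ Q))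
      (Ideal.Quotient.mk Q h) := rfl
    rw [h2, h3, hc, hh, hr, Algebra.smul_def]
  choose c hc using h1
  refine ⟨h, c, ?_, hc⟩
  have h3 : gq Q h = algebraMap (MvPolynomial σ k ⧸ Q) (FractionRing (MvPolynomial σ k ⧸ Q))
    (Ideal.Quotient.mk Q h) := rfl
  rw [h3, hh]
  exact IsFractionRing.to_map_ne_zero_of_mem_nonZeroDivisors b.2

theorem transfer' {k : Type} [Field k] {n D N q : ℕ}
    {w : Fin (n + 1) → ℕ} {S : Set (MvPolynomial (Fin (n + 1)) k)}
    (Q : Ideal (MvPolynomial (Ua w D) k)) [hQ : Q.IsPrime]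
    (s : Fin (N + 1) → Fin (n + 1) → Polynomial (FractionRing (MvPolynomial (Ua w D) k ⧸ Q)))
    (hs : ∀ j i, (s j i).natDegree < w i * D)
    (ht : ∀ j, Tg S (gcrv w Q) (s j)) (hne : ∃ I, mi s I ≠ 0)
    (hq : ∀ I, Polynomial.X ^ q ∣ mi s I) :
    ∃ Δ ∉ Q, ∀ u : Ua w D → k, (∀ F ∈ Q, MvPolynomial.eval u F = 0) → MvPolynomial.eval u Δ ≠ 0 →
      ∃ s' : Fin (N + 1) → Fin (n + 1) → Polynomial k,
        (∀ j i, (s' j i).natDegree < w i * D) ∧ (∀ j, Tg S (pu w D u) (s' j)) ∧
        (∃ I, mi s' I ≠ 0) ∧ ∀ I, Polynomial.X ^ q ∣ mi s' I := by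
  classical
  obtain ⟨I₀, hI₀⟩ := hne
  obtain ⟨h, c, hh, hc⟩ := Y3_clear Q
    (fun b : Fin (N + 1) × (Σ i : Fin (n + 1), Fin (w i * D)) => (s b.1 b.2.1).coeff b.2.2)
  have hT : Y3T (fun b => gq Q (c b)) = fun j i => Polynomial.C (gq Q h) * s j i := by
    funext j i
    rw [Y3T, ← Y3_sum (s j i) _ (hs j i), Finset.mul_sum]
    refine Finset.sum_congr rfl fun l _ => ?_
    rw [hc, Polynomial.C_mul, mul_assoc]
  have hm : ∀ I, mi (Y3T fun b => gq Q (c b)) I = Polynomial.C (gq Q h ^ (N + 1)) * mi s I := by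
    intro I
    rw [hT]
    exact Y3_smul _ _ _
  obtain ⟨l₀, hl₀⟩ : ∃ l, (mi s I₀).coeff l ≠ 0 := by
    by_contra hcon
    push Not at hcon
    exact hI₀ (Polynomial.ext fun l => by rw [hcon l, Polynomial.coeff_zero])
  refine ⟨(mi (Y3T c) I₀).coeff l₀, ?_, ?_⟩
  · intro hmem
    rw [← Y3_ker, Y3_mi, hm, Polynomial.coeff_C_mul] at hmem
    exact mul_ne_zero (pow_ne_zero _ hh) hl₀ hmem
  · intro u hu hΔ
    have hψ : ∀ P : MvPolynomial (Ua w D) k, MvPolynomial.eval u P = MvPolynomial.aeval u P := fun P => by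
      rw [MvPolynomial.aeval_eq_eval]
    have hX : (fun a : Ua w D => MvPolynomial.aeval (R := k) u (MvPolynomial.X a)) = u := by
      funext a
      rw [MvPolynomial.aeval_X]
    have hw : ∀ i, 0 < w i * D := fun i => lt_of_le_of_lt (Nat.zero_le _) (hs 0 i)
    refine ⟨Y3T fun b => MvPolynomial.aeval u (c b), fun j i => Y3T_deg _ j i (hw i), fun j P hP => ?_,
      ⟨I₀, fun h0 => hΔ ?_⟩, fun I => ?_⟩
    · ext l
      have h1 := Y3_tan (MvPolynomial.aeval (R := k) u) (fun a : Ua w D => MvPolynomial.X a) c P j l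
      rw [hX] at h1
      rw [← h1, Polynomial.coeff_zero, ← hψ]
      apply hu
      rw [← Y3_ker, Y3_tan, hT]
      have h2 : ∑ i, MvPolynomial.aeval (pu w D fun a : Ua w D => gq Q (MvPolynomial.X a))
          (MvPolynomial.pderiv i P) * (Polynomial.C (gq Q h) * s j i) =
          Polynomial.C (gq Q h) * ∑ i, MvPolynomial.aeval (gcrv w Q) (MvPolynomial.pderiv i P) * s j i := by
        rw [Finset.mul_sum]
        refine Finset.sum_congr rfl fun i _ => ?_
        rw [mul_left_comm]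
        rfl
      rw [h2, ht j P hP, mul_zero, Polynomial.coeff_zero]
    · rw [hψ, Y3_mi, h0, Polynomial.coeff_zero]
    · rw [Polynomial.X_pow_dvd_iff]
      intro l hl
      rw [← Y3_mi, ← hψ]
      apply hu
      rw [← Y3_ker, Y3_mi, hm, Polynomial.coeff_C_mul, Polynomial.X_pow_dvd_iff.1 (hq I) l hl, mul_zero]

end Pool.Agent.Lib.MP_1e3e9c_agR
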