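import Mathlib
import Pool.Agent.Lib.MP_1e3e9c_agR.Y1b
import Pool.Agent.Lib.MP_1e3e9c_agR.Y2
import Pool.Agent.Lib.MP_1e3e9c_agR.Y3
import Pool.Agent.Lib.MP_1e3e9c_agR.X4
import Pool.Agent.Lib.MP_1e3e9c_agR.X5
import Pool.Agent.Lib.MP_1e3e9c_agR.X6
import Pool.Agent.Lib.MP_1e3e9c_agR.X8
import Pool.Agent.Lib.MP_1e3e9c_agR.X10

/-!
# MP_1e3e9c_ag, project R, Y9b: no exceptional points, the bound only for the curves of a given set `B`
-/

set_option autoImplicit false

namespace Pool.Agent.Lib.MP_1e3e9c_agR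

open Pool.Agent.Lib.MP_1e3e9c_agU Pool.Agent.Lib.MP_1e3e9c_agW

private theorem Y9b_order {K : Type} [Field K] (P : Polynomial K) (hP : P ≠ 0) :
    ∃ (μ : ℕ) (h : Polynomial K), P = Polynomial.X ^ μ * h ∧ h.coeff 0 ≠ 0 := by
  obtain ⟨h, h1, h2⟩ := Polynomial.exists_eq_pow_rootMultiplicity_mul_and_not_dvd P hP 0
  refine ⟨P.rootMultiplicity 0, h, ?_, ?_⟩
  · rw [Polynomial.C_0, sub_zero] at h1
    exact h1
  · intro h3
    apply h2
    rw [Polynomial.C_0, sub_zero]
    exact Polynomial.X_dvd_iff.2 h3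

private theorem Y9b_nonempty {k : Type} [Field k] {n N : ℕ} {B : Set (Fin (n + 1) → k)}
    (h : (N : WithBot ℕ∞) ≤ dm B) : B.Nonempty := by
  rw [Set.nonempty_iff_ne_empty]
  rintro rfl
  unfold dm at h
  have h1 : MvPolynomial.vanishingIdeal k (∅ : Set (Fin (n + 1) → k)) = ⊤ := by
    ext F
    simp [MvPolynomial.mem_vanishingIdeal_iff]
  rw [h1] at h
  have h2 : Subsingleton (MvPolynomial (Fin (n + 1)) k ⧸
      (⊤ : Ideal (MvPolynomial (Fin (n + 1)) k))) := inferInstance
  rw [ringKrullDim_eq_bot_of_subsingleton] at h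
  exact absurd (le_bot_iff.1 h) (WithBot.coe_ne_bot)

theorem no_exc_curves {k : Type} [Field k] [IsAlgClosed k] [CharZero k] {n D g N c : ℕ}
    {w : Fin (n + 1) → ℕ} (hw : ∀ i, 0 < w i) (hD : 0 < D) (hN : 0 < N) (hc : c + N = n)
    {S : Set (MvPolynomial (Fin (n + 1)) k)}
    {G : MvPolynomial (Fin (n + 1)) k} (hG : G.IsWeightedHomogeneous w g)
    {y : Fin (n + 1) → k} (hy : MvPolynomial.eval y G ≠ 0)
    (B : Set (Ua w D → k))
    (hB : ∀ u ∈ B, NC w S G (max (g * D - 1) 1) D (val (pu w D u) 0) y (pu w D u) ∧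
      Smo S G c (val (pu w D u) 0) ∧ KP w S D N (N + g * D - 1) (pu w D u)) :
    ¬ (N : WithBot ℕ∞) ≤ dm {v | ∃ u ∈ B, v = val (pu w D u) 0} := by
  classical
  intro hdim
  obtain ⟨m, hm⟩ : ∃ m, m = max (g * D - 1) 1 := ⟨_, rfl⟩
  rw [← hm] at hB
  obtain ⟨Q, hQ, hQ', hdimQQ⟩ := exists_comp_curves w S G y B hN hdim (m := m) (D := D) fun u hu => (hB u hu).1
  have hdimQ : (N : WithBot ℕ∞) ≤ dm {v | ∃ u ∈ B,
        (∀ F ∈ Q, MvPolynomial.eval u F = 0) ∧ v = val (pu w D u) 0} := by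
    refine (hdimQQ 1 (fun h => hQ.ne_top ((Ideal.eq_top_iff_one Q).2 h))).trans (dm_mono ?_)
    rintro v ⟨u, huB, hu, _, hvu⟩
    exact ⟨u, huB, hu, hvu⟩
  have hgen := exists_generic' hG hy Q hQ' _ (fun v hv => by
    obtain ⟨u, _, hu, hvu⟩ := hv
    exact ⟨u, hu, hvu⟩) hdimQ
  obtain ⟨f, hf⟩ : ∃ f, f = gcrv w Q := ⟨_, rfl⟩
  rw [← hf] at hgen
  obtain ⟨hfdeg, hflead, hfS, hfG, hfne, ⟨i₀, hind⟩, hΔ⟩ := hgen
  have : CharZero (FractionRing (MvPolynomial (Ua w D) k ⧸ Q)) :=
    charZero_of_injective_algebraMap (algebraMap k _).injective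
  -- a point
  obtain ⟨x, u₀, hu₀B, hxu, hx0⟩ := Y9b_nonempty hdimQ
  have hsx : Smo S G c x := by
    rw [hx0]
    exact (hB u₀ hu₀B).2.1
  obtain ⟨P, hPS, hPind⟩ := hsx
  -- the derivations
  obtain ⟨δ, hδ⟩ := exists_ders (fun j => (f (i₀ j)).coeff 0) hind
  choose d hd using fun j => exists_mapD (δ j)
  obtain ⟨s, hs0, hs1⟩ : ∃ s : Fin (N + 1) → Fin (n + 1) → Polynomial (FractionRing (MvPolynomial (Ua w D) k ⧸ Q)),
      (s 0 = fun i => Polynomial.derivative (f i)) ∧ ∀ j, s (Fin.succ j) = fun i => d j (f i) :=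
    ⟨Fin.cons (fun i => Polynomial.derivative (f i)) fun j i => d j (f i), rfl, fun j => rfl⟩
  have hwD : ∀ i, 0 < w i * D := fun i => Nat.mul_pos (hw i) hD
  have hder : ∀ F : MvPolynomial (Fin (n + 1)) k, Polynomial.derivative (MvPolynomial.aeval f F) =
      ∑ i, MvPolynomial.aeval f (MvPolynomial.pderiv i F) * Polynomial.derivative (f i) := by
    intro F
    have h1 := der_aeval ((Polynomial.derivative' : Derivation (FractionRing (MvPolynomial (Ua w D) k ⧸ Q)) (Polynomial (FractionRing (MvPolynomial (Ua w D) k ⧸ Q))) (Polynomial (FractionRing (MvPolynomial (Ua w D) k ⧸ Q)))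
      ).restrictScalars k) f F
    exact h1
  have hdj : ∀ (j : Fin N) (F : MvPolynomial (Fin (n + 1)) k), d j (MvPolynomial.aeval f F) =
      ∑ i, MvPolynomial.aeval f (MvPolynomial.pderiv i F) * d j (f i) :=
    fun j F => der_aeval (d j) f F
  have hTg : ∀ j, Tg S f (s j) := by
    intro j
    refine Fin.cases ?_ (fun j => ?_) j
    · intro F hF
      rw [hs0]
      show ∑ i, MvPolynomial.aeval f (MvPolynomial.pderiv i F) * Polynomial.derivative (f i) = 0
      rw [← hder, hfS F hF, Polynomial.derivative_zero]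
    · intro F hF
      rw [hs1]
      show ∑ i, MvPolynomial.aeval f (MvPolynomial.pderiv i F) * d j (f i) = 0
      rw [← hdj, hfS F hF, map_zero]
  have hsdeg : ∀ j i, (s j i).natDegree < w i * D := by
    intro j i
    refine Fin.cases ?_ (fun j => ?_) j
    · rw [hs0]
      exact lt_of_le_of_lt (Polynomial.natDegree_derivative_le _) (by
        have := hfdeg i
        have := hwD i
        omega)
    · rw [hs1]
      show (d j (f i)).natDegree < w i * D
      have hz : ∀ l, w i * D ≤ l → (d j (f i)).coeff l = 0 := by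
        intro l hl
        rw [hd]
        rcases Nat.lt_or_ge (w i * D) l with h | h
        · rw [Polynomial.coeff_eq_zero_of_natDegree_lt (lt_of_le_of_lt (hfdeg i) h), map_zero]
        · have h1 : l = w i * D := le_antisymm h hl
          rw [h1, hflead, Derivation.map_algebraMap]
      by_contra hcon
      have h1 := hz _ (not_lt.1 hcon)
      rw [Polynomial.coeff_natDegree, Polynomial.leadingCoeff_eq_zero] at h1
      rw [h1, Polynomial.natDegree_zero] at hcon
      exact hcon (hwD i)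
  -- the order of contact
  obtain ⟨γ, hγ⟩ : ∃ γ : Fin (n + 1) → Polynomial (FractionRing (MvPolynomial (Ua w D) k ⧸ Q)),
      γ = fun i => MvPolynomial.aeval f (MvPolynomial.pderiv i G) := ⟨_, rfl⟩
  obtain ⟨μ, h, hμ, hh⟩ := Y9b_order _ hfne
  have hmμ : m ≤ μ := by
    by_contra hcon
    obtain ⟨e, he⟩ : ∃ e, m = μ + (e + 1) := ⟨m - μ - 1, by omega⟩
    obtain ⟨r, hr⟩ := hfG
    rw [hμ, he, pow_add, mul_assoc] at hr
    have h1 := mul_left_cancel₀ (pow_ne_zero μ Polynomial.X_ne_zero) hr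
    apply hh
    rw [h1, pow_succ', mul_assoc, Polynomial.coeff_X_mul_zero]
  have hμ1 : 1 ≤ μ := le_trans (by rw [hm]; exact le_max_right _ _) hmμ
  obtain ⟨ν, hν⟩ : ∃ ν, μ = ν + 1 := ⟨μ - 1, by omega⟩
  have hγ0 : ∑ i, γ i * s 0 i = Polynomial.derivative (MvPolynomial.aeval f G) := by
    rw [hder, hγ, hs0]
  have hγj : ∀ j : Fin N, ∑ i, γ i * s j.succ i = d j (MvPolynomial.aeval f G) := by
    intro j
    rw [hdj, hγ, hs1]
  have hdvd0 : Polynomial.derivative (MvPolynomial.aeval f G) = Polynomial.X ^ ν *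
      (Polynomial.C ((ν : FractionRing (MvPolynomial (Ua w D) k ⧸ Q)) + 1) * h + Polynomial.X * Polynomial.derivative h) := by
    rw [hμ, hν, Polynomial.derivative_mul, Polynomial.derivative_X_pow, Nat.add_sub_cancel]
    push_cast
    ring
  have hdvdj : ∀ j : Fin N, Polynomial.X ^ μ ∣ ∑ i, γ i * s j.succ i := by
    intro j
    rw [hγj, Polynomial.X_pow_dvd_iff]
    intro l hl
    rw [hd, hμ, Polynomial.coeff_X_pow_mul', if_neg (by omega), map_zero]
  have hnd0 : ¬ Polynomial.X ^ μ ∣ ∑ i, γ i * s 0 i := by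
    rw [hγ0, hdvd0, hν, pow_succ]
    intro h1
    have h2 := (mul_dvd_mul_iff_left (pow_ne_zero ν (Polynomial.X_ne_zero (R := FractionRing (MvPolynomial (Ua w D) k ⧸ Q))))).1 h1
    rw [Polynomial.X_dvd_iff, Polynomial.coeff_add, Polynomial.coeff_C_mul,
      Polynomial.coeff_X_mul_zero, add_zero] at h2
    rcases mul_eq_zero.1 h2 with h3 | h3
    · exact (Nat.cast_add_one_ne_zero ν) h3
    · exact hh h3
  -- independence of the values at zero
  have hind0 : LinearIndependent (FractionRing (MvPolynomial (Ua w D) k ⧸ Q)) fun (j : Fin N) (i : Fin (n + 1)) => (s j.succ i).coeff 0 := by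
    rw [Fintype.linearIndependent_iff]
    intro b hb l
    have h1 := congrFun hb (i₀ l)
    rw [Finset.sum_apply] at h1
    rw [Finset.sum_eq_single l] at h1
    · rw [Pi.smul_apply, hs1, hd, hδ, if_pos rfl, smul_eq_mul, mul_one] at h1
      exact h1
    · intro j _ hj
      rw [Pi.smul_apply, hs1, hd, hδ, if_neg hj, smul_zero]
    · intro h2
      exact absurd (Finset.mem_univ _) h2
  have hne : ∃ I, mi s I ≠ 0 := wedge_ne s γ hnd0 hdvdj hind0
  -- the smooth point
  have hsmo : LinearIndependent (FractionRing (MvPolynomial (Ua w D) k ⧸ Q)) (Fin.cons (fun i => (γ i).coeff 0)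
      (fun l i => (MvPolynomial.aeval f (MvPolynomial.pderiv i (P l))).coeff 0) :
        Fin (c + 1) → Fin (n + 1) → FractionRing (MvPolynomial (Ua w D) k ⧸ Q)) := by
    have hcoe : ∀ F : MvPolynomial (Fin (n + 1)) k, (MvPolynomial.aeval f F).coeff 0 =
        MvPolynomial.aeval (fun i => (f i).coeff 0) F := by
      intro F
      have h1 : (Polynomial.aeval (R := FractionRing (MvPolynomial (Ua w D) k ⧸ Q)) (0 : FractionRing (MvPolynomial (Ua w D) k ⧸ Q))).toRingHom.comp
          (MvPolynomial.aeval f : MvPolynomial (Fin (n + 1)) k →ₐ[k] Polynomial (FractionRing (MvPolynomial (Ua w D) k ⧸ Q))).toRingHom =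
          (MvPolynomial.aeval (fun i => (f i).coeff 0) :
            MvPolynomial (Fin (n + 1)) k →ₐ[k] FractionRing (MvPolynomial (Ua w D) k ⧸ Q)).toRingHom := by
        apply MvPolynomial.ringHom_ext
        · intro r
          simp
        · intro i
          simp [Polynomial.coeff_zero_eq_eval_zero]
      have h2 := RingHom.congr_fun h1 F
      rw [Polynomial.coeff_zero_eq_eval_zero]
      simpa using h2
    obtain ⟨R, hR⟩ : ∃ R : Fin (c + 1) → Fin (n + 1) → MvPolynomial (Fin (n + 1)) k,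
        R = Fin.cons (fun i => MvPolynomial.pderiv i G) fun l i => MvPolynomial.pderiv i (P l) :=
      ⟨_, rfl⟩
    have h1 : LinearIndependent k fun a i => MvPolynomial.eval x (R a i) := by
      have h2 : (fun a i => MvPolynomial.eval x (R a i)) =
          (Fin.cons (gr G x) fun l => gr (P l) x : Fin (c + 1) → Fin (n + 1) → k) := by
        funext a
        refine Fin.cases ?_ (fun l => ?_) a
        · rw [hR]
          rfl
        · rw [hR]
          rfl
      rw [h2]
      exact hPind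
    have h3 := ind_generic R x (fun i => (f i).coeff 0)
      (hΔ x ⟨u₀, hu₀B, hxu, hx0⟩) h1
    have h4 : (fun a i => MvPolynomial.aeval (fun i => (f i).coeff 0) (R a i)) =
        (Fin.cons (fun i => (γ i).coeff 0)
          (fun l i => (MvPolynomial.aeval f (MvPolynomial.pderiv i (P l))).coeff 0) :
            Fin (c + 1) → Fin (n + 1) → FractionRing (MvPolynomial (Ua w D) k ⧸ Q)) := by
      funext a
      refine Fin.cases ?_ (fun l => ?_) a
      · funext i
        rw [hR, Fin.cons_zero, Fin.cons_zero, hγ]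
        exact (hcoe _).symm
      · funext i
        rw [hR, Fin.cons_succ, Fin.cons_succ]
        exact (hcoe _).symm
    rw [← h4]
    exact h3
  have hall : ∀ I, Polynomial.X ^ ν ∣ mi s I := by
    intro I
    refine minors_dvd hc s (fun l i => MvPolynomial.aeval f (MvPolynomial.pderiv i (P l))) γ
      (fun l j => hTg j (P l) (hPS l)) (fun j => ?_) hsmo I
    refine Fin.cases ?_ (fun j => ?_) j
    · rw [hγ0, hdvd0]
      exact dvd_mul_right _ _
    · exact (pow_dvd_pow _ (by omega)).trans (hdvdj j)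
  rw [hf] at hTg
  obtain ⟨Δ, hΔQ, hsp⟩ := transfer' Q s hsdeg hTg hne hall
  obtain ⟨x', u, huB, hu, huΔ, hxu'⟩ := Y9b_nonempty (hdimQQ Δ hΔQ)
  obtain ⟨s', h1, h2, h3, h4⟩ := hsp u hu huΔ
  have h7 := (hB u huB).2.2 s' h1 h2 h3 ν h4
  have h8 : g * D - 1 ≤ m := by
    rw [hm]
    exact le_max_left _ _
  omega

end Pool.Agent.Lib.MP_1e3e9c_agR
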