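import Mathlib
import Pool.Agent.Lib.MP_1e3e9c_agR.B9
import Pool.Agent.Lib.MP_1e3e9c_agR.X0
import Pool.Agent.Lib.MP_1e3e9c_agR.X10
import Pool.Agent.Lib.MP_1e3e9c_agR.Y4b
import Pool.Agent.Lib.MP_1e3e9c_agR.Y5
import Pool.Agent.Lib.MP_1e3e9c_agR.Y9b

/-!
# MP_1e3e9c_ag, project R, Y11b: the divisor contains a rational curve, the bound only for the curves of the families
-/

set_option autoImplicit false

namespace Pool.Agent.Lib.MP_1e3e9c_agR

open Pool.Agent.Lib.MP_1e3e9c_agU Pool.Agent.Lib.MP_1e3e9c_agW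

private theorem Y11b_lt {x : WithBot ℕ∞} {N : ℕ} (hN : 0 < N) (h : ¬ (N : WithBot ℕ∞) ≤ x) :
    x ≤ ((N - 1 : ℕ) : WithBot ℕ∞) := by
  rw [not_le] at h
  induction x using WithBot.recBotCoe with
  | bot => exact bot_le
  | coe x =>
    have h1 : x < (N : ℕ∞) := by exact_mod_cast h
    obtain ⟨m, rfl⟩ := ENat.ne_top_iff_exists.1 (ne_top_of_lt h1)
    have h2 : m < N := by exact_mod_cast h1
    have h3 : m ≤ N - 1 := by omega
    have h4 : (m : ℕ∞) ≤ ((N - 1 : ℕ) : ℕ∞) := Nat.cast_le.2 h3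
    exact WithBot.coe_le_coe.2 h4

private lemma Y11b_pu {k : Type} [CommRing k] {n D : ℕ} (w : Fin (n + 1) → ℕ) (p : Fin (n + 1) → Polynomial k)
    (hp : ∀ i, (p i).natDegree ≤ w i * D) : pu w D (fun q : Ua w D => (p q.1).coeff (q.2 : ℕ)) = p := by
  funext i
  unfold pu
  have h1 := Fin.sum_univ_eq_sum_range (fun l => Polynomial.C ((p i).coeff l) * Polynomial.X ^ l) (w i * D + 1)
  refine Eq.trans h1 ?_
  exact ((p i).as_sum_range_C_mul_X_pow' (Nat.lt_succ_of_le (hp i))).symm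

theorem rational_curve_KP {k : Type} [Field k] [IsAlgClosed k] [CharZero k] {n D g N c : ℕ}
    {w : Fin (n + 1) → ℕ} (hw : ∀ i, 0 < w i) (hD : 0 < D) (hg : 0 < g) (hN : 4 ≤ N)
    (hc : c + N = n)
    {S : Set (MvPolynomial (Fin (n + 1)) k)} (hS : ∀ P ∈ S, ∃ m, P.IsWeightedHomogeneous w m)
    {G : MvPolynomial (Fin (n + 1)) k} (hG : G.IsWeightedHomogeneous w g)
    (T : Set (Fin (n + 1) → k))
    (hT : ∀ v ∈ T, v ≠ 0 ∧ MvPolynomial.eval v G = 0 ∧ Smo S G c v)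
    (hTd : (N : WithBot ℕ∞) ≤ wdm w T)
    (hA : ∀ v ∈ T, ∃ A : Ideal (MvPolynomial (Un w D) k), IsFam w S D v (max (g * D) 2) A ∧
      (∀ c : Un w D → k, (∀ q ∈ A, MvPolynomial.eval c q = 0) → ¬ Triv w D v c →
        Polynomial.X ^ (g * D - 1) ∣ MvPolynomial.aeval (crv w D v c) G →
        ∀ x : Fin 2 → k, x ≠ 0 → ∃ i, hv w D (crv w D v c) x i ≠ 0) ∧
      (¬ HasRat w (insert G S) →
        ∀ c : Un w D → k, (∀ q ∈ A, MvPolynomial.eval c q = 0) → ¬ Triv w D v c →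
        Polynomial.X ^ (max (g * D - 1) 1) ∣ MvPolynomial.aeval (crv w D v c) G →
        MvPolynomial.aeval (crv w D v c) G ≠ 0 →
        KP w S D N (N + g * D - 1) (crv w D v c))) :
    HasRat w (insert G S) := by
  classical
  by_contra hX
  obtain ⟨Y, hY, hE⟩ := two_points hw hg hS hG hX D
  obtain ⟨m, hm⟩ : ∃ m, m = max (g * D - 1) 1 := ⟨_, rfl⟩
  rw [← hm] at hA
  have hm0 : 0 < m := by
    rw [hm]
    exact lt_of_lt_of_le Nat.one_pos (le_max_right _ _)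
  have hNC : ∀ y ∈ Y, wdm w {v ∈ T | ∃ p, NC w S G m D v y p ∧ KP w S D N (N + g * D - 1) p} ≤
      ((N - 1 : ℕ) : WithBot ℕ∞) := by
    intro y hy
    refine Y11b_lt (by omega) fun hcon => ?_
    refine no_exc_curves hw hD (by omega) hc hG (hY y hy).2
      {u | NC w S G m D (val (pu w D u) 0) y (pu w D u) ∧ Smo S G c (val (pu w D u) 0) ∧
        KP w S D N (N + g * D - 1) (pu w D u)} (by
        rintro u hu
        rw [← hm]
        exact hu) (hcon.trans ?_)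
    unfold wdm
    refine dm_mono ?_
    rintro x ⟨a, ha, v, ⟨hv, p, hp, hKp⟩, rfl⟩
    obtain ⟨q, hq, hKq⟩ := scale_curve_KP hD hS hG hp hKp ha
    have hpu := Y11b_pu (D := D) w q hq.deg
    obtain ⟨u, hu⟩ : ∃ u : Ua w D → k, u = fun x => (q x.1).coeff (x.2 : ℕ) := ⟨_, rfl⟩
    rw [← hu] at hpu
    refine ⟨u, ?_, ?_⟩
    · show NC w S G m D (val (pu w D u) 0) y (pu w D u) ∧ Smo S G c (val (pu w D u) 0) ∧
        KP w S D N (N + g * D - 1) (pu w D u)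
      rw [hpu, hq.zero]
      exact ⟨hq, smo_smul hS hG (hT v hv).2.2 ha, hKq⟩
    · rw [hpu, hq.zero]
  have hE' : wdm w {v | v ≠ 0 ∧ MvPolynomial.eval v G = 0 ∧ ∃ D' ≤ D, ∃ p, TwoC w S G g D' v p ∧
      ∀ y ∈ Y, ¬ OnC w p y} ≤ ((N - 1 : ℕ) : WithBot ℕ∞) := by
    refine hE.trans ?_
    exact_mod_cast (show 3 ≤ N - 1 by omega)
  have hun := dm_iUnion (fun o : Option Y => Option.elim o
    {x : Fin (n + 1) → k | ∃ a : k, a ≠ 0 ∧ ∃ v ∈ {v : Fin (n + 1) → k | v ≠ 0 ∧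
      MvPolynomial.eval v G = 0 ∧ ∃ D' ≤ D, ∃ p, TwoC w S G g D' v p ∧ ∀ y ∈ Y, ¬ OnC w p y},
        x = fun i => a ^ w i * v i}
    (fun y => {x : Fin (n + 1) → k | ∃ a : k, a ≠ 0 ∧ ∃ v ∈ {v ∈ T | ∃ p, NC w S G m D v y p ∧
        KP w S D N (N + g * D - 1) p},
        x = fun i => a ^ w i * v i})) (N - 1) (by
      intro o
      rcases o with _ | y
      · exact hE'
      · exact hNC y.1 y.2)
  have hcon : wdm w T ≤ ((N - 1 : ℕ) : WithBot ℕ∞) := by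
    refine le_trans ?_ hun
    unfold wdm
    refine dm_mono ?_
    rintro x ⟨a, ha, v, hv, rfl⟩
    obtain ⟨hv0, hGv, -⟩ := hT v hv
    obtain ⟨A, hF, hfree, hKA⟩ := hA v hv
    obtain ⟨cc, hmem, hnt, htwo, α, β, hαβ⟩ := contact_curve hw hD hg hG hX hv0 hGv hF
    have hdvd : Polynomial.X ^ (g * D - 1) ∣ MvPolynomial.aeval (crv w D v cc) G :=
      Dvd.intro _ hαβ.symm
    by_cases hno : ∀ y ∈ Y, ¬ OnC w (crv w D v cc) y
    · exact Set.mem_iUnion.2 ⟨none, a, ha, v, ⟨hv0, hGv, D, le_rfl, _, htwo, hno⟩, rfl⟩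
    · push Not at hno
      obtain ⟨y, hy, hon⟩ := hno
      obtain ⟨x, hx⟩ := on_curve hw hD (natDegree_crv v cc) (hfree cc hmem hnt hdvd) hon
      have hcon' : Polynomial.X ^ m ∣ MvPolynomial.aeval (crv w D v cc) G := by
        rcases Nat.lt_or_ge (g * D - 1) 1 with h1 | h1
        · rw [hm, max_eq_right h1.le, pow_one, Polynomial.X_dvd_iff,
            Polynomial.coeff_zero_eq_eval_zero, ← eval_val, htwo.zero]
          exact hGv
        · rw [hm, max_eq_left h1]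
          exact hdvd
      have hGne : MvPolynomial.aeval (crv w D v cc) G ≠ 0 := htwo.ne
      have hKc := hKA hX cc hmem hnt hcon' hGne
      obtain ⟨q, hq, hKq⟩ := norm_curve_KP hm0 hS hG (natDegree_crv v cc) htwo.zero htwo.base hcon' hKc
        (hY y hy).2 x hx
      exact Set.mem_iUnion.2 ⟨some ⟨y, hy⟩, a, ha, v, ⟨hv, q, hq, hKq⟩, rfl⟩
  have h1 := hTd.trans hcon
  have h2 : N ≤ N - 1 := by exact_mod_cast h1
  omega

end Pool.Agent.Lib.MP_1e3e9c_agR
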