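import Mathlib
import Pool.Agent.Lib.MP_1e3e9c_agR.ZDefs
import Pool.Agent.Lib.MP_1e3e9c_agK.KV
import Pool.Agent.Lib.MP_1e3e9c_agK.KJ

/-!
# MP_1e3e9c_ag, project R, Z1: LEMMA K (helper15, helper69)
-/

set_option autoImplicit false

namespace Pool.Agent.Lib.MP_1e3e9c_agR

open Pool.Agent.Lib.MP_1e3e9c_agU Pool.Agent.Lib.MP_1e3e9c_agW

private theorem Z1_inf {k : Type} [Field k] {n D : ℕ} (w : Fin (n + 1) → ℕ)
    (p : Fin (n + 1) → Polynomial k) : hv w D p ![0, 1] = fun i => (p i).coeff (w i * D) := by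
  funext i
  unfold hv
  rw [Finset.sum_eq_single (w i * D)]
  · simp
  · intro j hj hne
    have h1 : w i * D - j ≠ 0 := by
      rw [Finset.mem_range] at hj
      omega
    simp [h1]
  · intro h
    exact absurd (Finset.mem_range.2 (Nat.lt_succ_self _)) h

theorem KP_of_fam {k : Type} [Field k] [IsAlgClosed k] [CharZero k] {n D g N c M : ℕ}
    {w : Fin (n + 1) → ℕ} (hw : ∀ i, 0 < w i) (hD : 0 < D) (hg : 0 < g) (hN : 4 ≤ N)
    (hc : c + N = n)
    {S : Set (MvPolynomial (Fin (n + 1)) k)} (hS : ∀ P ∈ S, ∃ m, P.IsWeightedHomogeneous w m)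
    {G : MvPolynomial (Fin (n + 1)) k} (hG : G.IsWeightedHomogeneous w g)
    (hX : ¬ HasRat w (insert G S)) {v : Fin (n + 1) → k} (hv0 : v ≠ 0)
    (hGv : MvPolynomial.eval v G = 0) {A : Ideal (MvPolynomial (Un w D) k)}
    (hA : IsFam w S D v M A) {c₀ : Un w D → k}
    (hc₀ : ∀ q ∈ A, MvPolynomial.eval c₀ q = 0) (hnt : ¬ Triv w D v c₀) (hO : OpnAt w S D v A c₀)
    (hfree : ∀ x : Fin 2 → k, x ≠ 0 → ∃ i, hv w D (crv w D v c₀) x i ≠ 0)
    (hL : ∀ x : Fin 2 → k, x ≠ 0 → LCI S c (hv w D (crv w D v c₀) x)) :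
    KP w S D N (N + g * D - 1) (crv w D v c₀) := by
  have hinf : Infinite k := IsAlgClosed.instInfinite
  have hdeg := natDegree_crv (w := w) (D := D) v c₀
  have h1 : ∀ t : k, (![1, t] : Fin 2 → k) ≠ 0 := fun t h => by
    have h2 := congrFun h 0
    simp at h2
  have h01 : (![0, 1] : Fin 2 → k) ≠ 0 := fun h => by
    have h2 := congrFun h 1
    simp at h2
  have hLt : ∀ t, LCI S c (val (crv w D v c₀) t) := fun t => by
    rw [← hv_coe hdeg t]
    exact hL _ (h1 t)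
  have hLi : LCI S c (fun i => (crv w D v c₀ i).coeff (w i * D)) := by
    rw [← Z1_inf]
    exact hL _ h01
  have hbase : ∀ P ∈ S, MvPolynomial.aeval (crv w D v c₀) P = 0 := by
    intro P hP
    refine Polynomial.funext fun t => ?_
    rw [← eval_val, Polynomial.eval_zero]
    exact hA.base c₀ hc₀ t P hP
  intro s hs ht hne q hq
  obtain ⟨u, hu, hli⟩ := Pool.Agent.Lib.MP_1e3e9c_agK.many' hw hD s hs ht hne hq
  obtain ⟨h, hh0, hh⟩ := hO
  have hV : Pool.Agent.Lib.MP_1e3e9c_agK.Vals w S D (crv w D v c₀) := by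
    intro a κ hκ
    obtain ⟨P, hP, hli', -⟩ := hLt a
    exact Pool.Agent.Lib.MP_1e3e9c_agK.vals hc hw hD ⟨P, hP, hli'⟩ s hs ht hne κ hκ
  have hV' : Pool.Agent.Lib.MP_1e3e9c_agK.ValsInf w S D (crv w D v c₀) := by
    intro κ hκ
    obtain ⟨P, hP, hli', -⟩ := hLi
    exact Pool.Agent.Lib.MP_1e3e9c_agK.valsInf hc hw hD hS hdeg ⟨P, hP, hli'⟩ s hs ht hne κ hκ
  have hLv : Pool.Agent.Lib.MP_1e3e9c_agK.LCI S c v := by
    have h2 := hLt 0
    rw [val_crv_zero] at h2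
    exact h2
  have hle := Pool.Agent.Lib.MP_1e3e9c_agK.dir_le hw hD hS hG hv0 hGv hX hA (h := h) (by
    rintro c ⟨hc1, hc2⟩ q hq
    refine hh c (fun t P hP => ?_) hc2 q hq
    rw [eval_val, hc1 P hP, Polynomial.eval_zero]) hh0 hbase hLv hV hV' u hu hli
  omega

end Pool.Agent.Lib.MP_1e3e9c_agR
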