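import Mathlib
import Pool.Agent.Lib.MP_1e3e9c_agR.Y11b
import Pool.Agent.Lib.MP_1e3e9c_agR.Z1

/-!
# MP_1e3e9c_ag, project R, Z2: a divisor of `V`, `V` smooth along the curves of the families, contains a rational curve
-/

set_option autoImplicit false

namespace Pool.Agent.Lib.MP_1e3e9c_agR

open Pool.Agent.Lib.MP_1e3e9c_agU Pool.Agent.Lib.MP_1e3e9c_agW

theorem smooth_rational_curve {k : Type} [Field k] [IsAlgClosed k] [CharZero k] {n D g N c : ℕ}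
    {w : Fin (n + 1) → ℕ} (hw : ∀ i, 0 < w i) (hD : 0 < D) (hg : 0 < g) (hN : 4 ≤ N)
    (hc : c + N = n)
    {S : Set (MvPolynomial (Fin (n + 1)) k)} (hS : ∀ P ∈ S, ∃ m, P.IsWeightedHomogeneous w m)
    {G : MvPolynomial (Fin (n + 1)) k} (hG : G.IsWeightedHomogeneous w g)
    (T : Set (Fin (n + 1) → k))
    (hT : ∀ v ∈ T, v ≠ 0 ∧ MvPolynomial.eval v G = 0 ∧ Smo S G c v)
    (hTd : (N : WithBot ℕ∞) ≤ wdm w T)
    (hA : ∀ v ∈ T, ∃ A : Ideal (MvPolynomial (Un w D) k), IsFam w S D v (max (g * D) 2) A ∧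
      ∀ c₀ : Un w D → k, (∀ q ∈ A, MvPolynomial.eval c₀ q = 0) → ¬ Triv w D v c₀ →
        Polynomial.X ^ (g * D - 1) ∣ MvPolynomial.aeval (crv w D v c₀) G →
        OpnAt w S D v A c₀ ∧
        ∀ x : Fin 2 → k, x ≠ 0 → (∃ i, hv w D (crv w D v c₀) x i ≠ 0) ∧
          LCI S c (hv w D (crv w D v c₀) x)) :
    HasRat w (insert G S) := by
  refine rational_curve_KP hw hD hg hN hc hS hG T hT hTd fun v hv => ?_
  obtain ⟨hv0, hGv, -⟩ := hT v hv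
  obtain ⟨A, hF, hA⟩ := hA v hv
  refine ⟨A, hF, fun c₀ h1 h2 h3 x hx => ((hA c₀ h1 h2 h3).2 x hx).1, fun hX c₀ h1 h2 h3 _ => ?_⟩
  have h4 : Polynomial.X ^ (g * D - 1) ∣ MvPolynomial.aeval (crv w D v c₀) G :=
    (pow_dvd_pow _ (le_max_left _ _)).trans h3
  exact KP_of_fam hw hD hg hN hc hS hG hX hv0 hGv hF h1 h2 (hA c₀ h1 h2 h4).1
    (fun x hx => ((hA c₀ h1 h2 h4).2 x hx).1) fun x hx => ((hA c₀ h1 h2 h4).2 x hx).2

end Pool.Agent.Lib.MP_1e3e9c_agR
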