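import Mathlib
import Pool.Agent.Lib.MP_1e3e9c_agR.CDefs
import Pool.Agent.Lib.MP_1e3e9c_ag.C2.Ht

/-!
# MP_1e3e9c_ag, project R, leaf C1: the local dimension of a product with an affine space

`dimAt_ext`. PROOF. `B = MvPolynomial U k ⧸ A`, `m` = the image of the ideal of the origin: maximal (`hA`),
`m.height = dimAt A`. `C = MvPolynomial V B`, `P` = the inverse image of `m` under `constantCoeff : C →+* B`: by `height_mv`
(`Pool/Agent/Lib/MP_1e3e9c_ag/C2/Ht.lean`, it may be imported: only Mathlib; namespace `Pool.Agent.MP1e3e9c.C2`)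
`P.height = m.height + card V`. `π : MvPolynomial W k →+* C`, `X (e (inl u)) ↦ C (mk (X u))`, `X (e (inr v)) ↦ X v`
(model: `π` in `Pool/Agent/Lib/MP_1e3e9c_ag/C2/CZ.lean`) is surjective and kills `A.map (rename ..) =: A'`, so it
induces a surjection `π' : MvPolynomial W k ⧸ A' → C`; `π'⁻¹(P)` is the ideal of the origin of `MvPolynomial W k ⧸ A'`
(`constantCoeff` of `π q`). A strict chain of primes of `C` below `P` gives one below `π'⁻¹(P)` (`Ideal.comap` along a
surjection is strictly monotone): `P.height ≤ (π'⁻¹ P).height` (Mathlib may have it: `Ideal.height_comap..`,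
`Order.height_le_height_apply_of_strictMono`).

`dimAt_cone`: `U = Un w D`, `V = Fin (a * D)`, `e (inl q) = emb a q`, `e (inr l) = ⟨0, l⟩` (bijective: `Fin.cases`).
-/

set_option autoImplicit false

namespace Pool.Agent.Lib.MP_1e3e9c_agR

open Pool.Agent.Lib.MP_1e3e9c_agU Pool.Agent.Lib.MP_1e3e9c_agW

private theorem C1_hle {R S : Type} [CommRing R] [CommRing S] (π : R →+* S) (hπ : Function.Surjective π)
    (P : Ideal S) [P.IsPrime] : P.height ≤ (P.comap π).height := by
  have hmono : StrictMono (PrimeSpectrum.comap π) := by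
    refine Monotone.strictMono_of_injective ?_ (PrimeSpectrum.comap_injective_of_surjective π hπ)
    intro x y hxy
    exact Ideal.comap_mono hxy
  have h := Order.height_le_height_apply_of_strictMono (PrimeSpectrum.comap π) hmono ⟨P, inferInstance⟩
  rw [← PrimeSpectrum.height_eq_orderHeight, ← PrimeSpectrum.height_eq_orderHeight] at h
  exact h

private theorem C1_quot {R S : Type} [CommRing R] [CommRing S] (π : R →+* S) (hπ : Function.Surjective π)
    (P : Ideal S) [P.IsPrime] (I N : Ideal R) (hI : ∀ g ∈ I, π g = 0) (hN : ∀ g, π g ∈ P ↔ g ∈ N) :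
    P.height ≤ (Ideal.map (Ideal.Quotient.mk I) N).height := by
  have hIN : I ≤ N := by
    intro g hg
    rw [← hN g, hI g hg]
    exact Ideal.zero_mem _
  have hτs : Function.Surjective (Ideal.Quotient.lift I π hI) := by
    intro c
    obtain ⟨g, hg⟩ := hπ c
    exact ⟨Ideal.Quotient.mk I g, by rw [Ideal.Quotient.lift_mk, hg]⟩
  have h1 : Ideal.map (Ideal.Quotient.mk I) N = Ideal.comap (Ideal.Quotient.lift I π hI) P := by
    ext x
    obtain ⟨g, rfl⟩ := Ideal.Quotient.mk_surjective x
    rw [Ideal.mem_comap, Ideal.Quotient.lift_mk, hN, ← Ideal.mem_comap, Ideal.comap_map_quotientMk,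
      sup_of_le_right hIN]
  rw [h1]
  exact C1_hle _ hτs P

theorem dimAt_ext {k U V W : Type} [Field k] [Finite U] [Fintype V] (e : U ⊕ V ≃ W)
    (A : Ideal (MvPolynomial U k)) (hA : ∀ q ∈ A, MvPolynomial.constantCoeff q = 0) :
    dimAt A + (Fintype.card V : ℕ∞) ≤ dimAt (A.map
      (MvPolynomial.rename (fun u => e (Sum.inl u)) : MvPolynomial U k →ₐ[k] MvPolynomial W k)) := by
  classical
  have hA' : A ≤ RingHom.ker (MvPolynomial.constantCoeff : MvPolynomial U k →+* k) := fun q hq => hA q hq
  -- the base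
  have hm0 : (RingHom.ker (MvPolynomial.constantCoeff : MvPolynomial U k →+* k)).IsMaximal :=
    RingHom.ker_isMaximal_of_surjective _ fun a => ⟨MvPolynomial.C a, MvPolynomial.constantCoeff_C _ a⟩
  have hmk : Function.Surjective (Ideal.Quotient.mk A) := Ideal.Quotient.mk_surjective
  have hM : (Ideal.map (Ideal.Quotient.mk A)
      (RingHom.ker (MvPolynomial.constantCoeff : MvPolynomial U k →+* k))).IsMaximal :=
    Ideal.IsMaximal.map_of_surjective_of_ker_le hmk (by rw [Ideal.mk_ker]; exact hA')
  have hcomapM : ∀ q : MvPolynomial U k, Ideal.Quotient.mk A q ∈ Ideal.map (Ideal.Quotient.mk A)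
      (RingHom.ker (MvPolynomial.constantCoeff : MvPolynomial U k →+* k)) ↔
      MvPolynomial.constantCoeff q = 0 := by
    intro q
    rw [← Ideal.mem_comap, Ideal.comap_map_quotientMk, sup_of_le_right hA', RingHom.mem_ker]
  have hcc : Function.Surjective (MvPolynomial.constantCoeff :
      MvPolynomial V (MvPolynomial U k ⧸ A) →+* (MvPolynomial U k ⧸ A)) :=
    fun b => ⟨MvPolynomial.C b, MvPolynomial.constantCoeff_C _ b⟩
  have hP : (Ideal.comap (MvPolynomial.constantCoeff :
      MvPolynomial V (MvPolynomial U k ⧸ A) →+* (MvPolynomial U k ⧸ A))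
      (Ideal.map (Ideal.Quotient.mk A)
        (RingHom.ker (MvPolynomial.constantCoeff : MvPolynomial U k →+* k)))).IsMaximal :=
    Ideal.comap_isMaximal_of_surjective _ hcc
  have hht := Pool.Agent.MP1e3e9c.C2.height_mv (Ideal.map (Ideal.Quotient.mk A)
      (RingHom.ker (MvPolynomial.constantCoeff : MvPolynomial U k →+* k))) V
  -- the map
  obtain ⟨π, hπ⟩ : ∃ π : MvPolynomial W k →+* MvPolynomial V (MvPolynomial U k ⧸ A),
      π = MvPolynomial.eval₂Hom ((MvPolynomial.C : (MvPolynomial U k ⧸ A) →+* _).comp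
        ((Ideal.Quotient.mk A).comp MvPolynomial.C))
        (fun w => Sum.elim (fun u => MvPolynomial.C (Ideal.Quotient.mk A (MvPolynomial.X u)))
          MvPolynomial.X (e.symm w)) := ⟨_, rfl⟩
  have hπC : ∀ a, π (MvPolynomial.C a) = MvPolynomial.C (Ideal.Quotient.mk A (MvPolynomial.C a)) := by
    intro a
    rw [hπ, MvPolynomial.eval₂Hom_C]
    rfl
  have hπl : ∀ u, π (MvPolynomial.X (e (Sum.inl u))) =
      MvPolynomial.C (Ideal.Quotient.mk A (MvPolynomial.X u)) := by
    intro u
    rw [hπ, MvPolynomial.eval₂Hom_X', Equiv.symm_apply_apply]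
    rfl
  have hπr : ∀ v, π (MvPolynomial.X (e (Sum.inr v))) = MvPolynomial.X v := by
    intro v
    rw [hπ, MvPolynomial.eval₂Hom_X', Equiv.symm_apply_apply]
    rfl
  have hπ1 : ∀ q : MvPolynomial U k, π (MvPolynomial.rename (fun u => e (Sum.inl u)) q) =
      MvPolynomial.C (Ideal.Quotient.mk A q) := by
    intro q
    induction q using MvPolynomial.induction_on with
    | C a => rw [MvPolynomial.rename_C, hπC]
    | add p q hp hq => rw [map_add, map_add, hp, hq, map_add, map_add]
    | mul_X p i hp => rw [map_mul, map_mul, hp, MvPolynomial.rename_X, hπl, map_mul, map_mul]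
  have hsurj : Function.Surjective π := by
    intro c
    induction c using MvPolynomial.induction_on with
    | C b =>
      obtain ⟨q, rfl⟩ := hmk b
      exact ⟨MvPolynomial.rename (fun u => e (Sum.inl u)) q, hπ1 q⟩
    | add p q hp hq =>
      obtain ⟨p', rfl⟩ := hp
      obtain ⟨q', rfl⟩ := hq
      exact ⟨p' + q', map_add _ _ _⟩
    | mul_X p i hp =>
      obtain ⟨p', rfl⟩ := hp
      exact ⟨p' * MvPolynomial.X (e (Sum.inr i)), by rw [map_mul, hπr]⟩
  have hσ : ∀ g : MvPolynomial W k, ∃ s : MvPolynomial U k,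
      MvPolynomial.constantCoeff (π g) = Ideal.Quotient.mk A s ∧
      MvPolynomial.constantCoeff s = MvPolynomial.constantCoeff g := by
    intro g
    induction g using MvPolynomial.induction_on with
    | C a =>
      exact ⟨MvPolynomial.C a, by rw [hπC, MvPolynomial.constantCoeff_C], by
        rw [MvPolynomial.constantCoeff_C, MvPolynomial.constantCoeff_C]⟩
    | add p q hp hq =>
      obtain ⟨s, hs, hs'⟩ := hp
      obtain ⟨t, ht, ht'⟩ := hq
      exact ⟨s + t, by rw [map_add, map_add, hs, ht, map_add], by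
        rw [map_add, map_add, hs', ht']⟩
    | mul_X p i hp =>
      obtain ⟨s, hs, hs'⟩ := hp
      obtain ⟨x, rfl⟩ := e.surjective i
      rcases x with u | u
      · exact ⟨s * MvPolynomial.X u, by
          rw [map_mul, map_mul, hs, hπl, MvPolynomial.constantCoeff_C, map_mul], by
          rw [map_mul, map_mul, MvPolynomial.constantCoeff_X, MvPolynomial.constantCoeff_X, mul_zero,
            mul_zero]⟩
      · exact ⟨0, by rw [map_mul, map_mul, hπr, MvPolynomial.constantCoeff_X, mul_zero, map_zero], by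
          rw [map_mul, MvPolynomial.constantCoeff_X, mul_zero, map_zero]⟩
  have hcomapP : ∀ g : MvPolynomial W k, π g ∈ Ideal.comap (MvPolynomial.constantCoeff :
      MvPolynomial V (MvPolynomial U k ⧸ A) →+* (MvPolynomial U k ⧸ A))
      (Ideal.map (Ideal.Quotient.mk A)
        (RingHom.ker (MvPolynomial.constantCoeff : MvPolynomial U k →+* k))) ↔
      MvPolynomial.constantCoeff g = 0 := by
    intro g
    obtain ⟨s, hs, hs'⟩ := hσ g
    rw [Ideal.mem_comap, hs, hcomapM, hs']
  -- the quotient
  have hker : ∀ g ∈ A.map (MvPolynomial.rename (fun u => e (Sum.inl u)) :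
      MvPolynomial U k →ₐ[k] MvPolynomial W k), π g = 0 := by
    intro g hg
    have h1 : A.map (MvPolynomial.rename (fun u => e (Sum.inl u)) :
        MvPolynomial U k →ₐ[k] MvPolynomial W k) ≤ RingHom.ker π := by
      refine Ideal.map_le_iff_le_comap.2 fun q hq => ?_
      rw [Ideal.mem_comap, RingHom.mem_ker]
      refine (hπ1 q).trans ?_
      rw [Ideal.Quotient.eq_zero_iff_mem.2 hq, map_zero]
    exact h1 hg
  have hPp := hP.isPrime
  unfold dimAt
  rw [← hht]
  refine C1_quot π hsurj _ _ _ hker fun g => ?_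
  rw [hcomapP, RingHom.mem_ker]

theorem dimAt_cone {k : Type} [Field k] {n D : ℕ} (a : ℕ) {w : Fin (n + 1) → ℕ}
    (A : Ideal (MvPolynomial (Un w D) k)) (hA : ∀ q ∈ A, MvPolynomial.constantCoeff q = 0) :
    dimAt A + ((a * D : ℕ) : ℕ∞) ≤ dimAt (coneI a A) := by
  have hbij : Function.Bijective (Sum.elim (emb a) (fun l => ⟨0, l⟩) :
      Un w D ⊕ Fin (a * D) → Un (cw a w) D) := by
    constructor
    · rintro (⟨i, x⟩ | x) (⟨j, y⟩ | y) h
      · have h1 := Sigma.mk.inj_iff.1 h
        have h2 : i = j := Fin.succ_injective _ h1.1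
        subst h2
        have h3 : x = y := eq_of_heq h1.2
        rw [h3]
      · have h1 := Sigma.mk.inj_iff.1 h
        exact absurd h1.1 (Fin.succ_ne_zero i)
      · have h1 := Sigma.mk.inj_iff.1 h
        exact absurd h1.1.symm (Fin.succ_ne_zero j)
      · have h1 := Sigma.mk.inj_iff.1 h
        have h3 : x = y := eq_of_heq h1.2
        rw [h3]
    · rintro ⟨i, x⟩
      revert x
      refine Fin.cases (fun x => ⟨Sum.inr x, rfl⟩) (fun i x => ⟨Sum.inl ⟨i, x⟩, rfl⟩) i
  have h := dimAt_ext (Equiv.ofBijective _ hbij) A hA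
  rw [Fintype.card_fin] at h
  exact h

end Pool.Agent.Lib.MP_1e3e9c_agR
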