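import Mathlib
import Pool.Agent.Lib.MP_1e3e9c_agR.CDefs
import Pool.Agent.Lib.MP_1e3e9c_agR.B5
import Pool.Agent.Lib.MP_1e3e9c_agR.C1

/-!
# MP_1e3e9c_ag, project R, leaf C2: the family of curves in the cone

`crv_succ`: unfold (`cw a w i.succ = w i` by definition). `mem_coneI`: a zero of `coneI a A` is a zero of the
generators `rename (emb a) q`, `q ∈ A` (`MvPolynomial.eval_rename`), and conversely (`Ideal.map_le_iff_le_comap`, the kernel of
`eval c`). `onC_tail`: `rename Fin.succ F` is weighted homogeneous for `cw a w` of the same weight, its value at `val p t` is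
the value of `F` at the tail.

`isFam_cone`. PROOF. `zero`: `mem_coneI` for `c = 0` (or generators). `base`: `eval (val ..) (rename Fin.succ P) =
eval (val (crv w D (tail v) (tl a c)) t) P` by `crv_succ`. `dim`: `dimAt_cone`. `const`: let `c` be a member with
`τ(t) = a_t^a s`, `x_i(t) = a_t^(w_i) v_i` for all `t`, `τ = crv .. 0`, `s = v 0`, `x_i = crv .. i.succ`. By `const` for `A` there
is `b` with `x_i(t) = v_i (1+bt)^(w_i D)`. Let `v_(i₀) ≠ 0`, `m = w_(i₀) > 0`: `a_t^m = (1+bt)^(m D)`, so
`τ(t)^m = (s (1+bt)^(aD))^m` for all `t`, hence as polynomials: `τ^m = q^m`, `q = s (1+bt)^(aD)`. So `τ = ζ q` for some constant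
`ζ` with `ζ^m = 1`: if `q = 0` then `τ = 0`; if `q ≠ 0` the polynomial `∏_(ζ^m = 1) (τ - ζ q) = τ^m - q^m = 0`
(`Polynomial.X_pow_sub_one_eq_prod`, `IsAlgClosed`; or: `τ/q ∈ k(t)` satisfies `z^m = 1`, so it is algebraic over `k`,
so it is in `k`). At `t = 0`: `τ(0) = s = q(0)`, so `ζ s = s`; if `s ≠ 0`, `ζ = 1`, `τ = q`; if `s = 0`, `q = 0`, `τ = 0 = q`.
-/

set_option autoImplicit false

namespace Pool.Agent.Lib.MP_1e3e9c_agR

open Pool.Agent.Lib.MP_1e3e9c_agU Pool.Agent.Lib.MP_1e3e9c_agW

variable {k : Type} [Field k] {n D : ℕ} (a : ℕ) {w : Fin (n + 1) → ℕ}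

theorem crv_succ (v : Fin (n + 1 + 1) → k) (c : Un (cw a w) D → k) (i : Fin (n + 1)) :
    crv (cw a w) D v c i.succ = crv w D (fun j => v j.succ) (tl a c) i := by
  rfl

theorem mem_coneI (A : Ideal (MvPolynomial (Un w D) k)) (c : Un (cw a w) D → k) :
    (∀ q ∈ coneI a A, MvPolynomial.eval c q = 0) ↔ ∀ q ∈ A, MvPolynomial.eval (tl a c) q = 0 := by
  constructor
  · intro h q hq
    have h1 := h (MvPolynomial.rename (emb a) q) (Ideal.mem_map_of_mem _ hq)
    rw [MvPolynomial.eval_rename] at h1
    exact h1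
  · intro h
    have h1 : coneI a A ≤ RingHom.ker (MvPolynomial.eval c) := by
      refine Ideal.map_le_iff_le_comap.2 fun q hq => ?_
      rw [Ideal.mem_comap, RingHom.mem_ker]
      show MvPolynomial.eval c (MvPolynomial.rename (emb a) q) = 0
      rw [MvPolynomial.eval_rename]
      exact h q hq
    intro q hq
    exact h1 hq

theorem onC_tail {p : Fin (n + 1 + 1) → Polynomial k} {y : Fin (n + 1 + 1) → k}
    (h : OnC (cw a w) p y) : OnC w (fun i => p i.succ) (fun i => y i.succ) := by
  intro m F hF h0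
  have h1 := h m (MvPolynomial.rename Fin.succ F) ?_ ?_
  · rw [MvPolynomial.eval_rename] at h1
    exact h1
  · intro d hd
    obtain ⟨u, rfl, hu⟩ := MvPolynomial.coeff_rename_ne_zero _ _ _ hd
    have h2 := hF hu
    rw [← h2, Finsupp.weight_apply, Finsupp.weight_apply, Finsupp.sum_mapDomain_index]
    · rfl
    · intro i
      rw [zero_smul]
    · intro i b c
      rw [add_smul]
  · intro t
    rw [MvPolynomial.eval_rename]
    exact h0 t

theorem isFam_cone [IsAlgClosed k] [CharZero k] (hw : ∀ i, 0 < w i)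
    {S : Set (MvPolynomial (Fin (n + 1)) k)} {v : Fin (n + 1 + 1) → k} (hv : ∃ i : Fin (n + 1), v i.succ ≠ 0)
    {N : ℕ} {A : Ideal (MvPolynomial (Un w D) k)} (hA : IsFam w S D (fun i => v i.succ) N A) :
    IsFam (cw a w) (coneS S) D v (N + a * D) (coneI a A) := by
  classical
  refine ⟨?_, ?_, ?_, ?_⟩
  · have h1 : coneI a A ≤ RingHom.ker (MvPolynomial.constantCoeff : MvPolynomial (Un (cw a w) D) k →+* k) := by
      refine Ideal.map_le_iff_le_comap.2 fun q hq => ?_
      rw [Ideal.mem_comap, RingHom.mem_ker]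
      show MvPolynomial.constantCoeff (MvPolynomial.rename (emb a) q) = 0
      rw [MvPolynomial.constantCoeff_rename]
      exact hA.zero q hq
    intro q hq
    exact h1 hq
  · intro c hc t P hP
    obtain ⟨P, hP, rfl⟩ := hP
    rw [MvPolynomial.eval_rename]
    have h1 := hA.base (tl a c) ((mem_coneI a A c).1 hc) t P hP
    have h2 : val (crv (cw a w) D v c) t ∘ Fin.succ = val (crv w D (fun j => v j.succ) (tl a c)) t := by
      funext i
      show (crv (cw a w) D v c i.succ).eval t = _
      rw [crv_succ]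
      rfl
    rw [h2]
    exact h1
  · intro c hc h
    have hc' := (mem_coneI a A c).1 hc
    obtain ⟨b, hb⟩ := hA.const (tl a c) hc' (fun t => by
      obtain ⟨u, hu⟩ := h t
      refine ⟨u, fun i => ?_⟩
      rw [← crv_succ, hu]
      rfl)
    have hs : ∀ i : Fin (n + 1), crv (cw a w) D v c i.succ =
        Polynomial.C (v i.succ) * (1 + Polynomial.C b * Polynomial.X) ^ (w i * D) := by
      intro i
      rw [crv_succ, hb]
    refine ⟨b, fun i => ?_⟩
    refine Fin.cases ?_ (fun i => hs i) i
    show crv (cw a w) D v c 0 = Polynomial.C (v 0) * (1 + Polynomial.C b * Polynomial.X) ^ (a * D)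
    obtain ⟨i0, hi0⟩ := hv
    have hm := hw i0
    have h0 : (crv (cw a w) D v c 0).eval 0 = v 0 := congrFun (val_crv_zero v c) 0
    have hpow : (crv (cw a w) D v c 0) ^ w i0 =
        (Polynomial.C (v 0) * (1 + Polynomial.C b * Polynomial.X) ^ (a * D)) ^ w i0 := by
      refine Polynomial.funext fun t => ?_
      obtain ⟨u, hu⟩ := h t
      have h1 : (crv (cw a w) D v c 0).eval t = u ^ a * v 0 := hu 0
      have h2 : (crv (cw a w) D v c i0.succ).eval t = u ^ w i0 * v i0.succ := hu i0.succ
      rw [hs i0, Polynomial.eval_mul, Polynomial.eval_C, mul_comm] at h2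
      have h3 := mul_right_cancel₀ hi0 h2
      rw [Polynomial.eval_pow, h1, Polynomial.eval_pow, Polynomial.eval_mul, Polynomial.eval_C,
        Polynomial.eval_pow]
      rw [Polynomial.eval_pow] at h3
      rw [mul_pow, mul_pow, mul_comm (v 0 ^ w i0)]
      congr 1
      calc (u ^ a) ^ w i0 = (u ^ w i0) ^ a := by rw [← pow_mul, ← pow_mul, mul_comm]
        _ = (((1 + Polynomial.C b * Polynomial.X : Polynomial k).eval t) ^ (w i0 * D)) ^ a := by rw [h3]
        _ = _ := by
          rw [← pow_mul, ← pow_mul]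
          congr 1
          ring
    have hq0 : (Polynomial.C (v 0) * (1 + Polynomial.C b * Polynomial.X) ^ (a * D) : Polynomial k).eval 0 = v 0 := by
      simp
    by_cases hv0 : v 0 = 0
    · rw [hv0, Polynomial.C_0, zero_mul] at hpow ⊢
      rw [zero_pow (by omega)] at hpow
      exact pow_eq_zero_iff (by omega) |>.1 hpow
    · have h4 := geom_sum₂_mul (crv (cw a w) D v c 0)
        (Polynomial.C (v 0) * (1 + Polynomial.C b * Polynomial.X) ^ (a * D)) (w i0)
      rw [hpow, sub_self] at h4
      rcases mul_eq_zero.1 h4 with h5 | h5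
      · exfalso
        have h6 := congrArg (Polynomial.eval 0) h5
        rw [Polynomial.eval_finsetSum, Polynomial.eval_zero] at h6
        have h7 : ∀ x ∈ Finset.range (w i0), Polynomial.eval 0 (crv (cw a w) D v c 0 ^ x *
            (Polynomial.C (v 0) * (1 + Polynomial.C b * Polynomial.X) ^ (a * D)) ^ (w i0 - 1 - x)) =
            v 0 ^ (w i0 - 1) := by
          intro x hx
          rw [Finset.mem_range] at hx
          rw [Polynomial.eval_mul, Polynomial.eval_pow, Polynomial.eval_pow, h0, hq0, ← pow_add]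
          congr 1
          omega
        rw [Finset.sum_congr rfl h7, Finset.sum_const, Finset.card_range, nsmul_eq_mul] at h6
        rcases mul_eq_zero.1 h6 with h8 | h8
        · exact hm.ne' (Nat.cast_eq_zero.1 h8)
        · exact pow_ne_zero _ hv0 h8
      · exact sub_eq_zero.1 h5
  · have h1 := dimAt_cone a A hA.zero
    refine le_trans ?_ h1
    push_cast
    exact add_le_add_left hA.dim _

end Pool.Agent.Lib.MP_1e3e9c_agR
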