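import Mathlib
import Pool.Agent.Lib.MP_1e3e9c_agR.CDefs
import Pool.Agent.Lib.MP_1e3e9c_agR.B5

/-!
# MP_1e3e9c_ag, project R, leaf C3: a contact curve does not stay over the point

PROOF. Let `s = v 0`, `τ = crv (cw a w) D v c 0`, `U = (1 + b t)^D`, so that `crv .. i.succ = C (v_i) U^(w_i)` (`hb`,
`v_i = v i.succ`). For `u : ℕ` let `e_u = (finSuccEquiv k (n+1) E).coeff u` (`MvPolynomial.finSuccEquiv`): `E = ∑_u t^u e_u(x)`,
`e_u` weighted homogeneous for `w` of weight `r a - u a` (`0` if `u > r`), so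
`F := aeval (crv ..) E = ∑_(u ≤ r) C (e_u(v)) τ^u U^(a (r - u))`. (Other route: `F` and the next formula are obtained by
expanding `E` in monomials.) `∑_u e_u(v) s^u = E(v) = 0`, so
`F = ∑_u C (e_u(v)) U^(a(r-u)) (τ^u - (s U^a)^u) = L * R`, `L = τ - s U^a`,
`R = ∑_u C (e_u(v)) U^(a(r-u)) ∑_(i < u) τ^i (s U^a)^(u-1-i)` (`sub_dvd_pow_sub_pow`, `Commute.geom_sum₂_mul`). At `t = 0`: `U = 1`,
`τ = s`, so `R(0) = ∑_u u e_u(v) s^(u-1) = (∂E/∂t)(v) ≠ 0`. `L ≠ 0`: otherwise `c` is `Triv` (`Fin.cases`). `L` has degree `≤ a D`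
(`natDegree_crv`, leaf B5). If `F = C α X^(raD-1) + C β X^(raD)`, then `X^(raD - 1)` divides `F = L R`, and `X ∤ R`, `X` is prime, so
`X^(raD-1) ∣ L` (`Prime.pow_dvd_of_dvd_mul_right`), so `r a D - 1 ≤ natDegree L ≤ a D`; but `2 ≤ (r-1) a D`: contradiction.
-/

set_option autoImplicit false

namespace Pool.Agent.Lib.MP_1e3e9c_agR

open Pool.Agent.Lib.MP_1e3e9c_agU Pool.Agent.Lib.MP_1e3e9c_agW

private theorem C3_hom {k S B σ : Type} [Field k] [CommRing S] [Algebra k S] [CommRing B]
    [Algebra k B] (φ : S →+* B) (hφ : ∀ x : k, φ (algebraMap k S x) = algebraMap k B x)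
    (g : σ → S) (E : MvPolynomial σ k) :
    φ (MvPolynomial.aeval g E) = MvPolynomial.aeval (fun i => φ (g i)) E := by
  induction E using MvPolynomial.induction_on with
  | C a => rw [MvPolynomial.aeval_C, MvPolynomial.aeval_C, hφ]
  | add p q hp hq => rw [map_add, map_add, map_add, hp, hq]
  | mul_X p i hp => rw [map_mul, map_mul, map_mul, hp, MvPolynomial.aeval_X, MvPolynomial.aeval_X]

private theorem C3_homog {k S σ : Type} [Field k] [CommRing S] [Algebra k S] [Fintype σ]
    {w : σ → ℕ} {m : ℕ} {E : MvPolynomial σ k} (hE : E.IsWeightedHomogeneous w m) (U : S)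
    (g : σ → S) :
    MvPolynomial.aeval (fun i => g i * U ^ w i) E = MvPolynomial.aeval g E * U ^ m := by
  rw [MvPolynomial.aeval_def, MvPolynomial.aeval_def, MvPolynomial.eval₂_eq',
    MvPolynomial.eval₂_eq', Finset.sum_mul]
  refine Finset.sum_congr rfl fun d hd => ?_
  have hw : Finsupp.weight w d = m := hE (MvPolynomial.mem_support_iff.1 hd)
  have h1 : ∑ i, w i * d i = m := by
    rw [← hw, Finsupp.weight_apply, Finsupp.sum_fintype _ _ (fun i => by rw [zero_smul])]
    exact Finset.sum_congr rfl fun i _ => by rw [smul_eq_mul, mul_comm]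
  have h2 : ∏ i, (g i * U ^ w i) ^ d i = (∏ i, g i ^ d i) * U ^ m := by
    rw [← h1, ← Finset.prod_pow_eq_pow_sum, ← Finset.prod_mul_distrib]
    exact Finset.prod_congr rfl fun i _ => by rw [mul_pow, ← pow_mul]
  rw [h2, mul_assoc]

private theorem C3_der {k : Type} [Field k] {n : ℕ} (u : Fin (n + 1) → k)
    (E : MvPolynomial (Fin (n + 1 + 1)) k) :
    Polynomial.derivative (MvPolynomial.aeval
      (Fin.cons Polynomial.X (fun i => Polynomial.C (u i)) : Fin (n + 1 + 1) → Polynomial k) E) =
      MvPolynomial.aeval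
        (Fin.cons Polynomial.X (fun i => Polynomial.C (u i)) : Fin (n + 1 + 1) → Polynomial k)
        (MvPolynomial.pderiv 0 E) := by
  induction E using MvPolynomial.induction_on with
  | C a =>
    rw [MvPolynomial.aeval_C, MvPolynomial.pderiv_C, map_zero]
    exact Polynomial.derivative_C
  | add p q hp hq => rw [map_add, map_add, map_add, map_add, hp, hq]
  | mul_X p i hp =>
    rw [map_mul, Polynomial.derivative_mul, hp, MvPolynomial.aeval_X, Derivation.leibniz,
      smul_eq_mul, smul_eq_mul, map_add, map_mul, map_mul, MvPolynomial.aeval_X,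
      MvPolynomial.pderiv_X]
    refine Fin.cases ?_ (fun j => ?_) i
    · rw [Fin.cons_zero, Polynomial.derivative_X, Pi.single_eq_same, map_one]
      ring
    · rw [Fin.cons_succ, Polynomial.derivative_C, Pi.single_eq_of_ne (Fin.succ_ne_zero j), map_zero]
      ring

theorem not_over {k : Type} [Field k] [IsAlgClosed k] [CharZero k] {n D r a : ℕ}
    {w : Fin (n + 1) → ℕ} (ha : 0 < a) (hr : 2 ≤ (r - 1) * (a * D))
    {E : MvPolynomial (Fin (n + 1 + 1)) k} (hE : E.IsWeightedHomogeneous (cw a w) (r * a))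
    {v : Fin (n + 1 + 1) → k} (hv : MvPolynomial.eval v E = 0)
    (hv' : MvPolynomial.eval v (MvPolynomial.pderiv 0 E) ≠ 0) (c : Un (cw a w) D → k)
    (hb : Triv w D (fun i => v i.succ) (tl a c)) (hc : ¬ Triv (cw a w) D v c) (α β : k) :
    MvPolynomial.aeval (crv (cw a w) D v c) E ≠
      Polynomial.C α * Polynomial.X ^ (r * a * D - 1) +
        Polynomial.C β * Polynomial.X ^ (r * a * D) := by
  intro hF
  obtain ⟨b, hb⟩ := hb
  obtain ⟨p, hp⟩ : ∃ p, p = crv (cw a w) D v c := ⟨_, rfl⟩
  rw [← hp] at hF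
  have hp0 : ∀ i, (p i).eval 0 = v i := fun i => by
    rw [hp]
    exact congrFun (val_crv_zero (w := cw a w) v c) i
  obtain ⟨U, hU⟩ : ∃ U : Polynomial k, U = (1 + Polynomial.C b * Polynomial.X) ^ D := ⟨_, rfl⟩
  have hU0 : U.eval 0 = 1 := by
    rw [hU]
    simp
  have hps : ∀ i : Fin (n + 1), p i.succ = Polynomial.C (v i.succ) * U ^ w i := fun i => by
    have h1 : p i.succ = crv w D (fun i => v i.succ) (tl a c) i := by
      rw [hp]
      rfl
    rw [h1, hb i, hU, ← pow_mul, mul_comm D]
  obtain ⟨ξ, hξ⟩ : ∃ ξ : Polynomial k, ξ = Polynomial.C (v 0) * U ^ a := ⟨_, rfl⟩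
  have hξ0 : ξ.eval 0 = v 0 := by
    rw [hξ, Polynomial.eval_mul, Polynomial.eval_pow, hU0, one_pow, mul_one, Polynomial.eval_C]
  let G : Fin (n + 1 + 1) → Polynomial (Polynomial k) :=
    Fin.cons Polynomial.X (fun i => Polynomial.C (p i.succ))
  obtain ⟨Φ, hΦ⟩ : ∃ Φ : Polynomial (Polynomial k), Φ = MvPolynomial.aeval G E := ⟨_, rfl⟩
  have hev : ∀ Y : Polynomial k, Φ.eval Y =
      MvPolynomial.aeval (Fin.cons Y (fun i => p i.succ) : Fin (n + 1 + 1) → Polynomial k) E := by
    intro Y
    have h1 := C3_hom (Polynomial.evalRingHom Y) (fun x => by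
      show Polynomial.eval Y (Polynomial.C (algebraMap k (Polynomial k) x)) = _
      rw [Polynomial.eval_C]) G E
    rw [← hΦ] at h1
    have h2 : (fun i => Polynomial.evalRingHom Y (G i)) =
        (Fin.cons Y (fun i => p i.succ) : Fin (n + 1 + 1) → Polynomial k) := by
      funext i
      refine Fin.cases ?_ (fun j => ?_) i
      · show Polynomial.eval Y (G 0) = _
        rw [Fin.cons_zero]
        exact Polynomial.eval_X
      · show Polynomial.eval Y (G j.succ) = _
        rw [Fin.cons_succ]
        exact Polynomial.eval_C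
    rw [h2] at h1
    exact h1
  have hFe : Φ.eval (p 0) = MvPolynomial.aeval p E := by
    rw [hev]
    congr 1
    congr 1
    funext i
    exact Fin.cases rfl (fun j => rfl) i
  have hroot : Φ.eval ξ = 0 := by
    rw [hev]
    have h1 : (Fin.cons ξ (fun i => p i.succ) : Fin (n + 1 + 1) → Polynomial k) =
        fun i => Polynomial.C (v i) * U ^ cw a w i := by
      funext i
      refine Fin.cases ?_ (fun j => ?_) i
      · rw [Fin.cons_zero, hξ]
        rfl
      · rw [Fin.cons_succ, hps]
        rfl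
    rw [h1, C3_homog hE U (fun i => Polynomial.C (v i))]
    have h2 := C3_hom (Polynomial.C : k →+* Polynomial k) (fun x => rfl) v E
    rw [← h2]
    have h3 : MvPolynomial.aeval v E = MvPolynomial.eval v E := by
      rw [MvPolynomial.aeval_def, MvPolynomial.eval, MvPolynomial.coe_eval₂Hom]
      rfl
    rw [h3, hv, Polynomial.C_0, zero_mul]
  obtain ⟨Ψ, hΨ⟩ := Polynomial.dvd_iff_isRoot.2 (show Φ.IsRoot ξ from hroot)
  have hLR : MvPolynomial.aeval p E = (p 0 - ξ) * Ψ.eval (p 0) := by
    rw [← hFe, hΨ, Polynomial.eval_mul, Polynomial.eval_sub, Polynomial.eval_X, Polynomial.eval_C]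
  have hR : (Ψ.eval (p 0)).eval 0 ≠ 0 := by
    have h1 : (Ψ.eval (p 0)).eval 0 = (Ψ.map (Polynomial.evalRingHom (0 : k))).eval (v 0) := by
      rw [← hp0 0, Polynomial.eval_map]
      exact (Polynomial.eval₂_at_apply (Polynomial.evalRingHom (0 : k)) (p 0)).symm
    have h2 : Φ.map (Polynomial.evalRingHom (0 : k)) =
        (Polynomial.X - Polynomial.C (v 0)) * Ψ.map (Polynomial.evalRingHom (0 : k)) := by
      rw [hΨ, Polynomial.map_mul, Polynomial.map_sub, Polynomial.map_X, Polynomial.map_C]
      congr 3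
    have h3 : Φ.map (Polynomial.evalRingHom (0 : k)) = MvPolynomial.aeval
        (Fin.cons Polynomial.X (fun i => Polynomial.C (v i.succ)) : Fin (n + 1 + 1) → Polynomial k) E := by
      have h4 := C3_hom (Polynomial.mapRingHom (Polynomial.evalRingHom (0 : k))) (fun x => by
        show (Polynomial.C (algebraMap k (Polynomial k) x)).map (Polynomial.evalRingHom (0 : k)) = _
        rw [Polynomial.map_C]
        show Polynomial.C (Polynomial.eval 0 (Polynomial.C x)) = _
        rw [Polynomial.eval_C]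
        rfl) G E
      rw [← hΦ] at h4
      have h5 : (fun i => Polynomial.mapRingHom (Polynomial.evalRingHom (0 : k)) (G i)) =
          (Fin.cons Polynomial.X (fun i => Polynomial.C (v i.succ)) :
            Fin (n + 1 + 1) → Polynomial k) := by
        funext i
        refine Fin.cases ?_ (fun j => ?_) i
        · show (G 0).map (Polynomial.evalRingHom (0 : k)) = _
          rw [Fin.cons_zero]
          exact Polynomial.map_X _
        · show (G j.succ).map (Polynomial.evalRingHom (0 : k)) = _
          rw [Fin.cons_succ]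
          refine (Polynomial.map_C _).trans ?_
          show Polynomial.C (Polynomial.eval 0 (p j.succ)) = _
          rw [hp0]
      rw [h5] at h4
      exact h4
    have h6 : (Polynomial.derivative (Φ.map (Polynomial.evalRingHom (0 : k)))).eval (v 0) =
        (Ψ.map (Polynomial.evalRingHom (0 : k))).eval (v 0) := by
      rw [h2, Polynomial.derivative_mul, Polynomial.derivative_sub, Polynomial.derivative_X,
        Polynomial.derivative_C, sub_zero, one_mul, Polynomial.eval_add, Polynomial.eval_mul,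
        Polynomial.eval_sub, Polynomial.eval_X, Polynomial.eval_C, sub_self, zero_mul, add_zero]
    have h7 : (Polynomial.derivative (Φ.map (Polynomial.evalRingHom (0 : k)))).eval (v 0) =
        MvPolynomial.eval v (MvPolynomial.pderiv 0 E) := by
      rw [h3, C3_der]
      have h8 := C3_hom (Polynomial.evalRingHom (v 0)) (fun x => by
        show Polynomial.eval (v 0) (Polynomial.C x) = _
        rw [Polynomial.eval_C]
        rfl) (Fin.cons Polynomial.X (fun i => Polynomial.C (v i.succ)) :
          Fin (n + 1 + 1) → Polynomial k) (MvPolynomial.pderiv 0 E)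
      have h9 : (fun i => Polynomial.evalRingHom (v 0)
          ((Fin.cons Polynomial.X (fun i => Polynomial.C (v i.succ)) :
            Fin (n + 1 + 1) → Polynomial k) i)) = v := by
        funext i
        refine Fin.cases ?_ (fun j => ?_) i
        · rw [Fin.cons_zero]
          exact Polynomial.eval_X
        · rw [Fin.cons_succ]
          exact Polynomial.eval_C
      rw [h9] at h8
      refine Eq.trans h8 ?_
      rw [MvPolynomial.aeval_def, MvPolynomial.eval, MvPolynomial.coe_eval₂Hom]
      rfl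
    rw [h1, ← h6, h7]
    exact hv'
  have hL : p 0 - ξ ≠ 0 := by
    intro h0
    apply hc
    refine ⟨b, fun i => ?_⟩
    rw [← hp]
    refine Fin.cases ?_ (fun j => ?_) i
    · rw [sub_eq_zero.1 h0, hξ, hU, ← pow_mul, mul_comm D]
      rfl
    · rw [hps, hU, ← pow_mul, mul_comm D]
      rfl
  have hr1 : 1 ≤ r - 1 := by
    by_contra h0
    have h1 : r - 1 = 0 := by omega
    rw [h1, zero_mul] at hr
    omega
  have hraD : r * a * D = (r - 1) * (a * D) + a * D := by
    obtain ⟨r', hr'⟩ : ∃ r', r = r' + 1 := ⟨r - 1, by omega⟩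
    rw [hr', Nat.add_sub_cancel]
    ring
  have hdvd : (Polynomial.X : Polynomial k) ^ (r * a * D - 1) ∣ (p 0 - ξ) * Ψ.eval (p 0) := by
    rw [← hLR, hF]
    refine dvd_add (Dvd.intro_left _ rfl) ?_
    refine Dvd.dvd.mul_left (pow_dvd_pow _ (Nat.sub_le _ _)) _
  have hX : ¬ (Polynomial.X : Polynomial k) ∣ Ψ.eval (p 0) := by
    rw [Polynomial.X_dvd_iff, Polynomial.coeff_zero_eq_eval_zero]
    exact hR
  have hdL : (Polynomial.X : Polynomial k) ^ (r * a * D - 1) ∣ p 0 - ξ :=
    Polynomial.prime_X.pow_dvd_of_dvd_mul_right _ hX hdvd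
  have h1 := Polynomial.natDegree_le_of_dvd hdL hL
  rw [Polynomial.natDegree_X_pow] at h1
  have h2 : (p 0 - ξ).natDegree ≤ a * D := by
    refine (Polynomial.natDegree_sub_le _ _).trans (max_le ?_ ?_)
    · rw [hp]
      exact natDegree_crv (w := cw a w) v c 0
    · rw [hξ, hU, ← pow_mul, mul_comm D]
      refine (Polynomial.natDegree_C_mul_le _ _).trans (Polynomial.natDegree_pow_le.trans ?_)
      have h3 : (1 + Polynomial.C b * Polynomial.X : Polynomial k).natDegree ≤ 1 := by
        refine (Polynomial.natDegree_add_le _ _).trans (max_le ?_ ?_)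
        · rw [Polynomial.natDegree_one]
          omega
        · exact (Polynomial.natDegree_C_mul_le _ _).trans Polynomial.natDegree_X_le
      calc a * D * (1 + Polynomial.C b * Polynomial.X : Polynomial k).natDegree ≤ a * D * 1 :=
            Nat.mul_le_mul_left _ h3
        _ = a * D := mul_one _
  omega

end Pool.Agent.Lib.MP_1e3e9c_agR
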