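import Mathlib
import Pool.Agent.Lib.MP_1e3e9c_agR.B5
import Pool.Agent.Lib.MP_1e3e9c_agR.C4

/-!
# MP_1e3e9c_ag, project R, leaf C5: the vertex is not on the curve

PROOF. Let `p i = q i.succ`, `τ = q 0`, `W = a ∏ w_i > 0`, `N = W D`. Binary forms of degree `N`: `P_i` = the form with
`P_i(x) = (hv .. x i.succ)^(W / w_i)`, `θ` = the form with `θ(x) = (hv .. x 0)^(W / a)`, where `hv .. x = hv (cw a w) D q x`
(`hv_eval`, leaf B5, for `F = X i.succ ^ (W / w_i)`, weighted homogeneous of weight `W`: `P_i` = the coefficients of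
`aeval q F`). `hq`: the `P_i` have no common zero. `form_integral` (leaf C4): `m`, `q_j`. Put
`F = X 0 ^ (m W / a) + ∑_j (q_j evaluated at the X i.succ ^ (W / w_i)) * X 0 ^ (j W / a)`: weighted homogeneous of weight `m W`
(`q_j` is a form of degree `m - j`). `F` vanishes at all `val q t = hv .. ![1, t]` (`hv_coe`), so `OnC` gives `F(y) = 0`. But `y i.succ = 0` for
all `i`, `q_j` has degree `m - j > 0` and `W / w_i > 0`, so `F(y) = (y 0)^(m W / a)`, `m W / a > 0`.
-/

set_option autoImplicit false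

namespace Pool.Agent.Lib.MP_1e3e9c_agR

open Pool.Agent.Lib.MP_1e3e9c_agU Pool.Agent.Lib.MP_1e3e9c_agW

private theorem C5_aeval {k σ τ : Type} [Field k] (w : τ → ℕ) (W s : ℕ) (F : σ → MvPolynomial τ k)
    (hF : ∀ i, (F i).IsWeightedHomogeneous w W) (q : MvPolynomial σ k) (hq : q.IsHomogeneous s) :
    (MvPolynomial.aeval F q).IsWeightedHomogeneous w (s * W) := by
  classical
  rw [MvPolynomial.aeval_def, MvPolynomial.eval₂_eq]
  apply MvPolynomial.IsWeightedHomogeneous.sum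
  intro α hα
  have h1 : (∏ i ∈ α.support, F i ^ α i).IsWeightedHomogeneous w (∑ i ∈ α.support, α i • W) :=
    MvPolynomial.IsWeightedHomogeneous.prod _ _ _ fun i _ => (hF i).pow (α i)
  have h2 : ∑ i ∈ α.support, α i • W = s * W := by
    have h3 : α.degree = s := by
      by_contra h4
      exact (MvPolynomial.mem_support_iff.1 hα) (hq.coeff_eq_zero h4)
    rw [← h3, Finsupp.degree_apply, Finset.sum_mul]
    rfl
  rw [h2] at h1
  exact h1.C_mul _

private theorem C5_eval {k σ τ : Type} [Field k] (F : σ → MvPolynomial τ k) (q : MvPolynomial σ k)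
    (v : τ → k) : MvPolynomial.eval v (MvPolynomial.aeval F q)
      = MvPolynomial.eval (fun i => MvPolynomial.eval v (F i)) q := by
  rw [MvPolynomial.map_aeval]
  have h : (MvPolynomial.eval v).comp (algebraMap k (MvPolynomial τ k)) = RingHom.id k := by
    ext c
    simp
  rw [h]
  rfl

private theorem C5_eval_zero {k σ : Type} [Field k] {s : ℕ} (hs : 0 < s) (q : MvPolynomial σ k)
    (hq : q.IsHomogeneous s) : MvPolynomial.eval (fun _ => (0 : k)) q = 0 := by
  rw [MvPolynomial.eval_zero', MvPolynomial.constantCoeff_eq]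
  apply hq.coeff_eq_zero
  rw [map_zero]
  omega

theorem no_vertex {k : Type} [Field k] [IsAlgClosed k] {n D a : ℕ} {w : Fin (n + 1) → ℕ}
    (hw : ∀ i, 0 < w i) (ha : 0 < a) (hD : 0 < D) {q : Fin (n + 1 + 1) → Polynomial k}
    (hd : ∀ i, (q i).natDegree ≤ cw a w i * D)
    (hq : ∀ x : Fin 2 → k, x ≠ 0 → ∃ i, hv w D (fun j => q j.succ) x i ≠ 0)
    {y : Fin (n + 1 + 1) → k} (hy : OnC (cw a w) q y) (h0 : ∀ i : Fin (n + 1), y i.succ = 0) :
    y 0 = 0 := by
  have hW : 0 < a * ∏ i, w i := Nat.mul_pos ha (Finset.prod_pos fun i _ => hw i)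
  obtain ⟨W, hWdef⟩ : ∃ W, W = a * ∏ i, w i := ⟨_, rfl⟩
  rw [← hWdef] at hW
  have hdw : ∀ i, w i ∣ W := by
    intro i
    rw [hWdef]
    exact (Finset.dvd_prod_of_mem w (Finset.mem_univ i)).mul_left a
  have hda : a ∣ W := by
    rw [hWdef]
    exact dvd_mul_right _ _
  have hpos : ∀ i, 0 < W / w i := fun i => Nat.div_pos (Nat.le_of_dvd hW (hdw i)) (hw i)
  have hposa : 0 < W / a := Nat.div_pos (Nat.le_of_dvd hW hda) ha
  have hFi : ∀ i : Fin (n + 1), ((MvPolynomial.X i.succ : MvPolynomial (Fin (n + 1 + 1)) k) ^ (W / w i)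
      ).IsWeightedHomogeneous (cw a w) W := by
    intro i
    have h1 := (MvPolynomial.isWeightedHomogeneous_X k (cw a w) i.succ).pow (W / w i)
    have h2 : (W / w i) • cw a w i.succ = W := Nat.div_mul_cancel (hdw i)
    rwa [h2] at h1
  have hF0 : ((MvPolynomial.X 0 : MvPolynomial (Fin (n + 1 + 1)) k) ^ (W / a)
      ).IsWeightedHomogeneous (cw a w) W := by
    have h1 := (MvPolynomial.isWeightedHomogeneous_X k (cw a w) 0).pow (W / a)
    have h2 : (W / a) • cw a w 0 = W := Nat.div_mul_cancel hda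
    rwa [h2] at h1
  have hinf : Infinite k := IsAlgClosed.instInfinite
  obtain ⟨P, hPdef⟩ : ∃ P : Fin (n + 1) → Fin (W * D + 1) → k, P = fun (i : Fin (n + 1)) (j : Fin (W * D + 1)) =>
      (MvPolynomial.aeval q ((MvPolynomial.X i.succ : MvPolynomial (Fin (n + 1 + 1)) k) ^ (W / w i))).coeff
        (j : ℕ) := ⟨_, rfl⟩
  obtain ⟨θ, hθdef⟩ : ∃ θ : Fin (W * D + 1) → k, θ = fun (j : Fin (W * D + 1)) =>
      (MvPolynomial.aeval q ((MvPolynomial.X 0 : MvPolynomial (Fin (n + 1 + 1)) k) ^ (W / a))).coeff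
        (j : ℕ) := ⟨_, rfl⟩
  have hPev : ∀ i x, ev (P i) x = hv (cw a w) D q x i.succ ^ (W / w i) := by
    intro i x
    have h1 := hv_eval hd (hFi i) x
    rw [map_pow, MvPolynomial.eval_X] at h1
    rw [hPdef, h1]
  have hθev : ∀ x, ev θ x = hv (cw a w) D q x 0 ^ (W / a) := by
    intro x
    have h1 := hv_eval hd hF0 x
    rw [map_pow, MvPolynomial.eval_X] at h1
    rw [hθdef, h1]
  have hP : ∀ x : Fin 2 → k, x ≠ 0 → ∃ i, ev (P i) x ≠ 0 := by
    intro x hx
    obtain ⟨i, hi⟩ := hq x hx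
    refine ⟨i, ?_⟩
    rw [hPev]
    exact pow_ne_zero _ hi
  obtain ⟨m, qq, hm, hqq, heq⟩ := form_integral (Nat.mul_pos hW hD) P hP θ
  have hF : ((MvPolynomial.X 0 ^ (W / a)) ^ m + ∑ j : Fin m,
      MvPolynomial.aeval (fun i : Fin (n + 1) =>
        ((MvPolynomial.X i.succ : MvPolynomial (Fin (n + 1 + 1)) k) ^ (W / w i))) (qq j) *
        (MvPolynomial.X 0 ^ (W / a)) ^ (j : ℕ) : MvPolynomial (Fin (n + 1 + 1)) k).IsWeightedHomogeneous
          (cw a w) (m * W) := by
    apply MvPolynomial.IsWeightedHomogeneous.add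
    · exact hF0.pow m
    · apply MvPolynomial.IsWeightedHomogeneous.sum
      intro j _
      have h1 := (C5_aeval (cw a w) W (m - (j : ℕ)) _ hFi (qq j) (hqq j)).mul (hF0.pow (j : ℕ))
      have h2 : (m - (j : ℕ)) * W + (j : ℕ) • W = m * W := by
        rw [smul_eq_mul, ← Nat.add_mul, Nat.sub_add_cancel j.2.le]
      rwa [h2] at h1
  have hval : ∀ v : Fin (n + 1 + 1) → k, MvPolynomial.eval v ((MvPolynomial.X 0 ^ (W / a)) ^ m + ∑ j : Fin m,
      MvPolynomial.aeval (fun i : Fin (n + 1) =>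
        ((MvPolynomial.X i.succ : MvPolynomial (Fin (n + 1 + 1)) k) ^ (W / w i))) (qq j) *
        (MvPolynomial.X 0 ^ (W / a)) ^ (j : ℕ) : MvPolynomial (Fin (n + 1 + 1)) k)
      = (v 0 ^ (W / a)) ^ m + ∑ j : Fin m, MvPolynomial.eval (fun i => v i.succ ^ (W / w i)) (qq j) *
        (v 0 ^ (W / a)) ^ (j : ℕ) := by
    intro v
    rw [map_add, map_sum, map_pow, map_pow, MvPolynomial.eval_X]
    congr 1
    refine Finset.sum_congr rfl fun j _ => ?_
    rw [map_mul, map_pow, map_pow, MvPolynomial.eval_X, C5_eval]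
    simp only [map_pow, MvPolynomial.eval_X]
  have hzero := hy _ _ hF (by
    intro t
    rw [← hv_coe hd t, hval]
    have h1 := heq ![1, t]
    simp only [hPev, hθev] at h1
    exact h1)
  rw [hval] at hzero
  have hsum : ∑ j : Fin m, MvPolynomial.eval (fun i : Fin (n + 1) => y i.succ ^ (W / w i)) (qq j) *
        (y 0 ^ (W / a)) ^ (j : ℕ) = 0 := by
    refine Finset.sum_eq_zero fun j _ => ?_
    have h1 : (fun i : Fin (n + 1) => y i.succ ^ (W / w i)) = fun _ => (0 : k) := by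
      funext i
      rw [h0, zero_pow (hpos i).ne']
    rw [h1, C5_eval_zero (by have := j.2; omega) (qq j) (hqq j), zero_mul]
  rw [hsum, add_zero, ← pow_mul] at hzero
  exact (pow_eq_zero_iff (Nat.mul_pos hposa hm).ne').1 hzero

end Pool.Agent.Lib.MP_1e3e9c_agR
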