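import Mathlib
import Pool.Agent.Lib.MP_1e3e9c_agR.B9
import Pool.Agent.Lib.MP_1e3e9c_agR.C2
import Pool.Agent.Lib.MP_1e3e9c_agR.C3
import Pool.Agent.Lib.MP_1e3e9c_agR.C5

/-!
# MP_1e3e9c_ag, project R, C7: rational curves on covers
-/

set_option autoImplicit false

namespace Pool.Agent.Lib.MP_1e3e9c_agR

open Pool.Agent.Lib.MP_1e3e9c_agU Pool.Agent.Lib.MP_1e3e9c_agW

theorem coneS_hom {k : Type} [Field k] {n a : ℕ} {w : Fin (n + 1) → ℕ}
    {S : Set (MvPolynomial (Fin (n + 1)) k)} (hS : ∀ P ∈ S, ∃ m, P.IsWeightedHomogeneous w m) :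
    ∀ P ∈ coneS S, ∃ m, P.IsWeightedHomogeneous (cw a w) m := by
  rintro _ ⟨P, hP, rfl⟩
  obtain ⟨m, hm⟩ := hS P hP
  refine ⟨m, ?_⟩
  intro d hd
  obtain ⟨u, rfl, hu⟩ := MvPolynomial.coeff_rename_ne_zero _ _ _ hd
  rw [← hm hu, Finsupp.weight_apply, Finsupp.weight_apply, Finsupp.sum_mapDomain_index]
  · rfl
  · intro i
    rw [zero_smul]
  · intro i b c
    rw [add_smul]

theorem cover' {k : Type} [Field k] [IsAlgClosed k] [CharZero k] {n r a : ℕ}
    {w : Fin (n + 1) → ℕ} (hw : ∀ i, 0 < w i) (ha : 0 < a) (hr : 0 < r)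
    {S : Set (MvPolynomial (Fin (n + 1)) k)} (hS : ∀ P ∈ S, ∃ m, P.IsWeightedHomogeneous w m)
    {E : MvPolynomial (Fin (n + 1 + 1)) k} (hE : E.IsWeightedHomogeneous (cw a w) (r * a))
    (hX : ¬ HasRat (cw a w) (insert E (coneS S))) (D : ℕ) :
    ∃ Y : Finset (Fin (n + 1) → k), (∀ y ∈ Y, y ≠ 0 ∧ ∀ P ∈ S, MvPolynomial.eval y P = 0) ∧
      wdm (cw a w) {v | MvPolynomial.eval v E = 0 ∧
        MvPolynomial.eval v (MvPolynomial.pderiv 0 E) ≠ 0 ∧ (fun i : Fin (n + 1) => v i.succ) ≠ 0 ∧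
        ∃ D' ≤ D, 2 ≤ (r - 1) * (a * D') ∧ ∃ A : Ideal (MvPolynomial (Un w D') k),
          IsFam w S D' (fun i => v i.succ) ((r - 1) * (a * D')) A ∧
          (∀ c : Un w D' → k, (∀ q ∈ A, MvPolynomial.eval c q = 0) →
            ¬ Triv w D' (fun i => v i.succ) c →
            ∀ x : Fin 2 → k, x ≠ 0 → ∃ i, hv w D' (crv w D' (fun i => v i.succ) c) x i ≠ 0) ∧
          ∀ c : Un w D' → k, (∀ q ∈ A, MvPolynomial.eval c q = 0) →
            ¬ Triv w D' (fun i => v i.succ) c →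
            ∀ y ∈ Y, ¬ OnC w (crv w D' (fun i => v i.succ) c) y} ≤ (3 : ℕ) := by
  classical
  have hcw : ∀ i, 0 < cw a w i := by
    intro i
    refine Fin.cases ?_ (fun j => ?_) i
    · exact ha
    · exact hw j
  have hra : 0 < r * a := Nat.mul_pos hr ha
  obtain ⟨Y', hY', hdm⟩ := two_points (k := k) (g := r * a) hcw hra (coneS_hom hS) hE hX D
  refine ⟨(Y'.image fun y i => y i.succ).filter fun y => y ≠ 0, fun y hy => ?_, ?_⟩
  · obtain ⟨h1, h2⟩ := Finset.mem_filter.1 hy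
    obtain ⟨y', h3, rfl⟩ := Finset.mem_image.1 h1
    refine ⟨h2, fun P hP => ?_⟩
    have h4 := (hY' y' h3).1 (MvPolynomial.rename Fin.succ P) ⟨P, hP, rfl⟩
    rw [MvPolynomial.eval_rename] at h4
    exact h4
  refine le_trans ?_ hdm
  unfold wdm
  refine dm_mono ?_
  rintro x ⟨b, hb, v, ⟨hE0, hE1, hv0, D', hD', hr2, A, hF, hfree, hbad⟩, rfl⟩
  have hDpos : 0 < D' := by
    rcases Nat.eq_zero_or_pos D' with rfl | h
    · simp at hr2
    · exact h
  have hr1 : 1 < r := by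
    by_contra h
    have h1 : r - 1 = 0 := by omega
    rw [h1, zero_mul] at hr2
    omega
  have hdim : (r - 1) * (a * D') + a * D' = r * a * D' := by
    obtain ⟨s, rfl⟩ : ∃ s, r = s + 1 := ⟨r - 1, by omega⟩
    rw [Nat.add_sub_cancel]
    ring
  have hmax : max (r * a * D') 2 = r * a * D' := max_eq_left (by omega)
  have hvi : ∃ i : Fin (n + 1), v i.succ ≠ 0 := Function.ne_iff.1 hv0
  have hvne : v ≠ 0 := by
    rintro rfl
    exact hv0 rfl
  have hF' : IsFam (cw a w) (coneS S) D' v (max (r * a * D') 2) (coneI a A) := by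
    have h1 := isFam_cone a hw hvi hF
    rw [hdim] at h1
    rw [hmax]
    exact h1
  obtain ⟨c, hc, hnt, htwo, α, β, hαβ⟩ := contact_curve hcw hDpos hra hE hX hvne hE0 hF'
  refine ⟨b, hb, v, ⟨hvne, hE0, D', hD', _, htwo, ?_⟩, rfl⟩
  intro y hy hon
  have hmem := (mem_coneI a _ c).1 hc
  have hnt' : ¬ Triv w D' (fun i => v i.succ) (tl a c) := by
    intro ht
    refine not_over ha hr2 hE hE0 hE1 c ht hnt α β ?_
    obtain ⟨N, hN⟩ : ∃ N, r * a * D' = N + 1 := ⟨r * a * D' - 1, by omega⟩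
    rw [hαβ, hN, Nat.add_sub_cancel]
    ring
  have htail : (fun i : Fin (n + 1) => crv (cw a w) D' v c i.succ) =
      crv w D' (fun i => v i.succ) (tl a c) := funext fun i => crv_succ a v c i
  have hon' := onC_tail a hon
  rw [htail] at hon'
  refine hbad (tl a c) hmem hnt' (fun i => y i.succ) ?_ hon'
  refine Finset.mem_filter.2 ⟨Finset.mem_image.2 ⟨y, hy, rfl⟩, fun h0 => ?_⟩
  have hy0 : y 0 = 0 := by
    refine no_vertex hw ha hDpos (q := crv (cw a w) D' v c) (natDegree_crv v c) ?_ hon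
      (fun i => congrFun h0 i)
    intro x hx
    have h1 := hfree (tl a c) hmem hnt' x hx
    rw [← htail] at h1
    exact h1
  apply (hY' y hy).2
  have h1 : y = 0 := by
    funext i
    refine Fin.cases hy0 (fun j => ?_) i
    exact congrFun h0 j
  have h2 := eval_smul_w hE 0 y
  rw [zero_pow hra.ne', zero_mul] at h2
  rw [← h2]
  refine congrArg (fun z => MvPolynomial.eval z E) ?_
  funext i
  rw [h1, Pi.zero_apply, mul_zero]

end Pool.Agent.Lib.MP_1e3e9c_agR
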