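import Mathlib
import Pool.Agent.Lib.MP_1e3e9c_agR.Z2
import Pool.Agent.Lib.MP_1e3e9c_agR.C7

/-!
# MP_1e3e9c_ag, project R, C8: covers contain rational curves
-/

set_option autoImplicit false

namespace Pool.Agent.Lib.MP_1e3e9c_agR

open Pool.Agent.Lib.MP_1e3e9c_agU Pool.Agent.Lib.MP_1e3e9c_agW

private theorem Z3_form {k : Type} [Field k] {N : ℕ} {P : Polynomial k} (hd : P.natDegree ≤ N)
    (h : Polynomial.X ^ (N - 1) ∣ P) (hN : 0 < N) : ∃ α β : k,
    P = Polynomial.C α * Polynomial.X ^ (N - 1) + Polynomial.C β * Polynomial.X ^ N := by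
  obtain ⟨M, rfl⟩ : ∃ M, N = M + 1 := ⟨N - 1, by omega⟩
  rw [Nat.add_sub_cancel] at h ⊢
  refine ⟨P.coeff M, P.coeff (M + 1), ?_⟩
  ext l
  rw [Polynomial.coeff_add, Polynomial.coeff_C_mul, Polynomial.coeff_C_mul, Polynomial.coeff_X_pow,
    Polynomial.coeff_X_pow]
  rcases Nat.lt_trichotomy l M with hl | hl | hl
  · rw [(Polynomial.X_pow_dvd_iff.1 h) l hl, if_neg (by omega), if_neg (by omega)]
    ring
  · subst hl
    rw [if_pos rfl, if_neg (by omega)]
    ring
  · rcases Nat.eq_or_lt_of_le (Nat.succ_le_of_lt hl) with h1 | h1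
    · have h2 : l = M + 1 := h1.symm
      subst h2
      rw [if_neg (by omega), if_pos rfl]
      ring
    · have h2 : M + 1 < l := h1
      rw [Polynomial.coeff_eq_zero_of_natDegree_lt (lt_of_le_of_lt hd h2), if_neg (by omega),
        if_neg (by omega)]
      ring

private theorem Z3_gr {k : Type} [Field k] {n : ℕ} (P : MvPolynomial (Fin (n + 1)) k)
    (u : Fin (n + 1 + 1) → k) : gr (MvPolynomial.rename Fin.succ P) u =
      (Fin.cons 0 (gr P fun i => u i.succ) : Fin (n + 1 + 1) → k) := by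
  funext i
  refine Fin.cases ?_ (fun j => ?_) i
  · unfold gr
    rw [Fin.cons_zero]
    have h1 : MvPolynomial.pderiv 0 (MvPolynomial.rename Fin.succ P) =
        (0 : MvPolynomial (Fin (n + 1 + 1)) k) := by
      apply MvPolynomial.pderiv_eq_zero_of_notMem_vars
      intro h
      have h2 := MvPolynomial.vars_rename Fin.succ P h
      obtain ⟨a, _, ha⟩ := Finset.mem_image.1 h2
      exact Fin.succ_ne_zero a ha
    rw [h1, map_zero]
  · unfold gr
    rw [Fin.cons_succ]
    rw [MvPolynomial.pderiv_rename (Fin.succ_injective _), MvPolynomial.eval_rename]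
    rfl

private theorem Z3_opn {k : Type} [Field k] {n D : ℕ} (a : ℕ) {w : Fin (n + 1) → ℕ}
    {S : Set (MvPolynomial (Fin (n + 1)) k)} {u : Fin (n + 1 + 1) → k}
    {A : Ideal (MvPolynomial (Un w D) k)} {cc : Un (cw a w) D → k}
    (h : OpnAt w S D (fun i => u i.succ) A (tl a cc)) :
    OpnAt (cw a w) (coneS S) D u (coneI a A) cc := by
  obtain ⟨h, h1, h2⟩ := h
  refine ⟨MvPolynomial.rename (emb a) h, ?_, fun c' hc' hne => ?_⟩
  · rw [MvPolynomial.eval_rename]
    exact h1
  · rw [mem_coneI]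
    refine h2 (tl a c') (fun t P hP => ?_) ?_
    · have h3 := hc' t (MvPolynomial.rename Fin.succ P) ⟨P, hP, rfl⟩
      rw [MvPolynomial.eval_rename] at h3
      have h4 : val (crv (cw a w) D u c') t ∘ Fin.succ =
          val (crv w D (fun i => u i.succ) (tl a c')) t := by
        funext i
        show (crv (cw a w) D u c' i.succ).eval t = (crv w D (fun i => u i.succ) (tl a c') i).eval t
        rw [crv_succ]
      rw [h4] at h3
      exact h3
    · rw [MvPolynomial.eval_rename] at hne
      exact hne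

private theorem Z3_lci {k : Type} [Field k] {n c : ℕ} {S : Set (MvPolynomial (Fin (n + 1)) k)}
    {u : Fin (n + 1 + 1) → k} (h : LCI S c fun i => u i.succ) : LCI (coneS S) c u := by
  obtain ⟨P, hP, hind, hQ⟩ := h
  refine ⟨fun l => MvPolynomial.rename Fin.succ (P l), fun l => ⟨P l, hP l, rfl⟩, ?_, ?_⟩
  · rw [Fintype.linearIndependent_iff] at hind ⊢
    intro b hb
    refine hind b ?_
    funext i
    have h1 := congrFun hb i.succ
    rw [Finset.sum_apply, Pi.zero_apply] at h1
    rw [Finset.sum_apply, Pi.zero_apply]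
    refine Eq.trans ?_ h1
    refine Finset.sum_congr rfl fun l _ => ?_
    rw [Z3_gr]
    rfl
  · rintro _ ⟨Q, hQS, rfl⟩
    obtain ⟨h, h1, h2⟩ := hQ Q hQS
    refine ⟨MvPolynomial.rename Fin.succ h, ?_, ?_⟩
    · rw [MvPolynomial.eval_rename]
      exact h1
    · have h3 := Ideal.mem_map_of_mem
        (MvPolynomial.rename Fin.succ : MvPolynomial (Fin (n + 1)) k →ₐ[k] _) h2
      rw [map_mul, Ideal.map_span] at h3
      refine Ideal.span_mono ?_ h3
      rintro _ ⟨_, ⟨l, rfl⟩, rfl⟩
      exact ⟨l, rfl⟩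

theorem smooth_cover_rational {k : Type} [Field k] [IsAlgClosed k] [CharZero k] {n D r a N c : ℕ}
    {w : Fin (n + 1) → ℕ} (hw : ∀ i, 0 < w i) (ha : 0 < a) (hr : 2 ≤ (r - 1) * (a * D))
    (hN : 4 ≤ N) (hc : c + N = n + 1)
    {S : Set (MvPolynomial (Fin (n + 1)) k)} (hS : ∀ P ∈ S, ∃ m, P.IsWeightedHomogeneous w m)
    {E : MvPolynomial (Fin (n + 1 + 1)) k} (hE : E.IsWeightedHomogeneous (cw a w) (r * a))
    (T : Set (Fin (n + 1 + 1) → k))
    (hT : ∀ u ∈ T, MvPolynomial.eval u E = 0 ∧ MvPolynomial.eval u (MvPolynomial.pderiv 0 E) ≠ 0 ∧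
      (fun i : Fin (n + 1) => u i.succ) ≠ 0 ∧
      ∃ P : Fin c → MvPolynomial (Fin (n + 1)) k, (∀ l, P l ∈ S) ∧
        LinearIndependent k fun l => gr (P l) fun i : Fin (n + 1) => u i.succ)
    (hTd : (N : WithBot ℕ∞) ≤ wdm (cw a w) T)
    (hA : ∀ u ∈ T, ∃ A : Ideal (MvPolynomial (Un w D) k),
      IsFam w S D (fun i => u i.succ) ((r - 1) * (a * D)) A ∧
      ∀ c₀ : Un w D → k, (∀ q ∈ A, MvPolynomial.eval c₀ q = 0) →
        ¬ Triv w D (fun i => u i.succ) c₀ → OpnAt w S D (fun i => u i.succ) A c₀ ∧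
        ∀ x : Fin 2 → k, x ≠ 0 → (∃ i, hv w D (crv w D (fun i => u i.succ) c₀) x i ≠ 0) ∧
          LCI S c (hv w D (crv w D (fun i => u i.succ) c₀) x)) :
    HasRat (cw a w) (insert E (coneS S)) := by
  classical
  have hD : 0 < D := by
    rcases Nat.eq_zero_or_pos D with rfl | h
    · simp at hr
    · exact h
  have hr1 : 1 < r := by
    by_contra h
    have h1 : r - 1 = 0 := by omega
    rw [h1, zero_mul] at hr
    omega
  have hcw : ∀ i, 0 < cw a w i := by
    intro i
    refine Fin.cases ?_ (fun j => ?_) i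
    · exact ha
    · exact hw j
  have hra : 0 < r * a := Nat.mul_pos (by omega) ha
  have hdim : (r - 1) * (a * D) + a * D = r * a * D := by
    obtain ⟨s, rfl⟩ : ∃ s, r = s + 1 := ⟨r - 1, by omega⟩
    rw [Nat.add_sub_cancel]
    ring
  have hmax : max (r * a * D) 2 = r * a * D := max_eq_left (by omega)
  have hraD : 0 < r * a * D := Nat.mul_pos hra hD
  refine smooth_rational_curve (N := N) (c := c) hcw hD hra hN hc (coneS_hom hS) hE T ?_ hTd ?_
  · intro u hu
    obtain ⟨h1, h2, h3, P, hP, hind⟩ := hT u hu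
    refine ⟨?_, h1, fun l => MvPolynomial.rename Fin.succ (P l), fun l => ⟨P l, hP l, rfl⟩, ?_⟩
    · rintro rfl
      exact h3 rfl
    · rw [Fintype.linearIndependent_iff]
      intro b hb
      rw [Fin.sum_univ_succ] at hb
      simp only [Fin.cons_zero, Fin.cons_succ] at hb
      have h4 := congrFun hb 0
      rw [Pi.add_apply, Finset.sum_apply, Finset.sum_eq_zero, add_zero, Pi.smul_apply, smul_eq_mul,
        Pi.zero_apply] at h4
      · have h5 : b 0 = 0 := (mul_eq_zero.1 h4).resolve_right h2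
        rw [h5, zero_smul, zero_add] at hb
        have h6 := Fintype.linearIndependent_iff.1 hind (fun l => b l.succ) (by
          funext i
          have h7 := congrFun hb i.succ
          rw [Finset.sum_apply, Pi.zero_apply] at h7
          rw [Finset.sum_apply, Pi.zero_apply]
          refine Eq.trans ?_ h7
          refine Finset.sum_congr rfl fun l _ => ?_
          rw [Z3_gr]
          rfl)
        intro l
        exact Fin.cases h5 h6 l
      · intro l _
        rw [Z3_gr]
        simp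
  · intro u hu
    obtain ⟨h1, h2, h3, -⟩ := hT u hu
    obtain ⟨A, hF, hfree⟩ := hA u hu
    refine ⟨coneI a A, ?_, ?_⟩
    · have h4 := isFam_cone a hw (Function.ne_iff.1 h3) hF
      rw [hdim] at h4
      rw [hmax]
      exact h4
    · intro cc hcc hnt hdvd
      have hmem := (mem_coneI a _ cc).1 hcc
      obtain ⟨α, β, hαβ⟩ := Z3_form (natDegree_le (natDegree_crv u cc) hE) hdvd hraD
      have hnt' : ¬ Triv w D (fun i => u i.succ) (tl a cc) := fun ht =>
        not_over ha hr hE h1 h2 cc ht hnt α β hαβ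
      obtain ⟨hop, hall⟩ := hfree (tl a cc) hmem hnt'
      refine ⟨Z3_opn a hop, fun x hx => ?_⟩
      obtain ⟨⟨i, hi⟩, hL⟩ := hall x hx
      have htail : (fun i : Fin (n + 1) => hv (cw a w) D (crv (cw a w) D u cc) x i.succ) =
          hv w D (crv w D (fun i => u i.succ) (tl a cc)) x := by
        funext i
        unfold hv
        rw [crv_succ]
        rfl
      refine ⟨⟨i.succ, ?_⟩, ?_⟩
      · rw [← htail] at hi
        exact hi
      · rw [← htail] at hL
        exact Z3_lci hL

end Pool.Agent.Lib.MP_1e3e9c_agR
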