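import Mathlib
import Pool.Agent.Lib.MP_1e3e9c_ag.C2.Glue
import Pool.Agent.Lib.MP_1e3e9c_agR.RDefs

/-!
# MP_1e3e9c_ag, project R, leaf HR: a rational curve gives an entire curve

PROOF. `p` the polynomial curve of `HasRat w S`, `val p s`, `val p t` nonzero and not `Same`. `glue`
(`MP_1e3e9c_ag/C2/Glue.lean`) for `σ = Unit`, `bl i = ()`, the weights `w`, `Φ i z = (p i).eval (s + z)` (entire; `Adm` at `0`:
`val p s ≠ 0`), `G` = the family of all elements of `S` (`κ = S`; `MHom bl w P (fun _ => m)`: `Pi.single () (w i)` is the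
constant function `w i`; weighted homogeneity with weights in `Unit → ℕ`) gives `F' : ℂ → PP bl w` with `Hol F'`. Let `F z` be
a representative of `F' z` (`Quotient.out`, or `Classical.choose` from `Zer`): `F z ≠ 0` (`Adm`), the equations hold for one
representative, hence for all (`MvPolynomial.IsWeightedHomogeneous`, scaling; or choose the representative from `Zer` at once);
`HolW`: from `Hol` (`PP.mk v = PP.mk v'` if and only if `TRel`, `Quotient.exact`, and `TRel` for `Unit` is `Same`). `F' 0 = mk (val p s)`,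
`F' (t - s) = mk (val p t)`, so `F 0` and `F (t - s)` are not `Same` (`Same` is symmetric and transitive).
-/

set_option autoImplicit false

namespace Pool.Agent.Lib.MP_1e3e9c_agR

/-- `F z`, `z ∈ ℂ`, are the homogeneous coordinates of a holomorphic map from `ℂ` to the weighted projective space: locally, after a
substitution `z = z₀ + u^m`, they can be chosen holomorphic. -/
def HolW {n : ℕ} (w : Fin (n + 1) → ℕ) (F : ℂ → Fin (n + 1) → ℂ) : Prop :=
  ∀ z₀ : ℂ, ∃ m : ℕ, 0 < m ∧ ∃ φ : ℂ → Fin (n + 1) → ℂ, AnalyticAt ℂ φ 0 ∧ φ 0 ≠ 0 ∧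
    ∀ᶠ u in nhds (0 : ℂ), Same w (φ u) (F (z₀ + u ^ m))

private theorem HR_mhom {n : ℕ} (w : Fin (n + 1) → ℕ) {P : MvPolynomial (Fin (n + 1)) ℂ} {m : ℕ}
    (h : P.IsWeightedHomogeneous w m) :
    Pool.Agent.MP1e3e9c.C2.MHom (fun _ : Fin (n + 1) => ()) w P (fun _ => m) := by
  intro d hd
  have h1 : Finsupp.weight w d = m := h hd
  funext x
  rw [Finsupp.weight_apply, Finsupp.sum, Finset.sum_apply, ← h1, Finsupp.weight_apply, Finsupp.sum]
  refine Finset.sum_congr rfl fun i _ => ?_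
  rw [Pi.smul_apply]
  have h2 : x = () := rfl
  rw [h2, Pi.single_eq_same]

private theorem HR_adm {n : ℕ} {v : Fin (n + 1) → ℂ} :
    Pool.Agent.MP1e3e9c.C2.Adm (fun _ : Fin (n + 1) => ()) v ↔ v ≠ 0 := by
  constructor
  · intro h h0
    obtain ⟨i, _, hi⟩ := h ()
    exact hi (by rw [h0]; rfl)
  · intro h x
    by_contra hcon
    apply h
    funext i
    by_contra hi
    exact hcon ⟨i, rfl, hi⟩

private theorem HR_same {n : ℕ} {w : Fin (n + 1) → ℕ} {x y : Fin (n + 1) → ℂ} :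
    Pool.Agent.MP1e3e9c.C2.TRel (fun _ : Fin (n + 1) => ()) w x y ↔ Same w x y := by
  constructor
  · rintro ⟨l, hl, h⟩
    exact ⟨l (), hl (), h⟩
  · rintro ⟨a, ha, h⟩
    exact ⟨fun _ => a, fun _ => ha, h⟩

theorem hol_of_rat {n : ℕ} {w : Fin (n + 1) → ℕ} (hw : ∀ i, 0 < w i)
    {S : Set (MvPolynomial (Fin (n + 1)) ℂ)} (hS : ∀ P ∈ S, ∃ m, P.IsWeightedHomogeneous w m)
    (h : HasRat w S) :
    ∃ F : ℂ → Fin (n + 1) → ℂ, (∀ z, F z ≠ 0) ∧ HolW w F ∧
      (∀ z, ∀ P ∈ S, MvPolynomial.eval (F z) P = 0) ∧ ∃ z, ¬ Same w (F 0) (F z) := by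
  obtain ⟨p, hp, s, t, hs, ht, hst⟩ := h
  choose m hm using hS
  obtain ⟨F', hF'1, hF'2, hF'3⟩ := Pool.Agent.MP1e3e9c.C2.glue (σ := Unit) (κ := S)
    (fun _ : Fin (n + 1) => ()) w hw (fun r => r.1) (fun r _ => m r.1 r.2)
    (fun r => HR_mhom w (hm r.1 r.2)) (fun i z => (p i).eval (s + z))
    (fun i => (p i).differentiable.comp ((differentiable_const s).add differentiable_id))
    (HR_adm.2 (by
      have h1 : (fun i => (p i).eval (s + 0)) = val p s := by
        funext i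
        rw [add_zero]
        rfl
      rw [h1]
      exact hs))
    (fun r z => hp (s + z) r.1 r.2)
  choose v hv hvF hvz using hF'2
  have hrel : ∀ z (x : Fin (n + 1) → ℂ) (hx : Pool.Agent.MP1e3e9c.C2.Adm (fun _ : Fin (n + 1) => ()) x),
      F' z = Pool.Agent.MP1e3e9c.C2.PP.mk (fun _ : Fin (n + 1) => ()) w x hx → Same w x (v z) := by
    intro z x hx h1
    rw [hvF z] at h1
    exact HR_same.1 (Quotient.exact h1.symm)
  refine ⟨v, fun z => HR_adm.1 (hv z), ?_, fun z P hP => hvz z ⟨P, hP⟩, t - s, ?_⟩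
  · intro z₀
    obtain ⟨k, hk, φ, hφ, hφ0, hev⟩ := hF'1 z₀
    refine ⟨k, hk, φ, hφ, HR_adm.1 hφ0, ?_⟩
    filter_upwards [hev] with u hu
    obtain ⟨hu1, hu2⟩ := hu
    exact hrel _ _ hu1 hu2
  · intro hsame
    have e1 : (fun i => (p i).eval (s + 0)) = val p s := by
      funext i
      rw [add_zero]
      rfl
    have e2 : (fun i => (p i).eval (s + (t - s))) = val p t := by
      funext i
      rw [add_sub_cancel]
      rfl
    have a1 : Pool.Agent.MP1e3e9c.C2.Adm (fun _ : Fin (n + 1) => ()) (fun i => (p i).eval (s + 0)) :=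
      HR_adm.2 (by rw [e1]; exact hs)
    have a2 : Pool.Agent.MP1e3e9c.C2.Adm (fun _ : Fin (n + 1) => ())
        (fun i => (p i).eval (s + (t - s))) := HR_adm.2 (by rw [e2]; exact ht)
    have h1 := hrel 0 _ a1 (hF'3 0 a1)
    have h2 := hrel (t - s) _ a2 (hF'3 (t - s) a2)
    rw [e1] at h1
    rw [e2] at h2
    apply hst
    exact HR_same.1 (((HR_same.2 h1).trans (HR_same.2 hsame)).trans (HR_same.2 h2).symm)

end Pool.Agent.Lib.MP_1e3e9c_agR
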